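import Pool.Agent.Lib.H25Y.Pair

/-!
# D0: definitions for the assembly of version 4 (all Albert types)

Notation as in `H76P.T0`: `dg f` is the diagonal operator of `f : κ → K`, `dq f` the diagonal operator of a rational
function.  `phi` is the isomorphism between matrices and operators, `adjE J` the adjoint with respect to the form `J`.
-/

set_option autoImplicit false
set_option linter.unusedSectionVars false
namespace Pool.Agent.H34Z
open Module Matrix Pool.Agent.H53Toric Pool.Agent.H76P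

section
variable {κ : Type*} [Fintype κ] [DecidableEq κ] {K : Type*} [Field K]

/-- The matrix `J` is monomial with the involution `π`. -/
structure Mon (J : Matrix κ κ K) (π : κ → κ) : Prop where
  inv : ∀ i, π (π i) = i
  ne : ∀ i, J i (π i) ≠ 0
  zero : ∀ i j, j ≠ π i → J i j = 0

/-- `E`, `F` are root elements on which `ε` has the values `2`, `-2`; `h` is the coroot. -/
structure Trip (E F : Module.End K (κ → K)) (ε h : κ → K) : Prop where
  e : dg ε * E - E * dg ε = (2 : K) • E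
  f : dg ε * F - F * dg ε = (-2 : K) • F
  co : E * F - F * E = dg h
  he : dg h * E - E * dg h = (2 : K) • E
  hf : dg h * F - F * dg h = (-2 : K) • F

/-- `h` is the coroot of a root of `L` on which `ε` has the value `2`. -/
def Cor (L : Submodule K (Module.End K (κ → K))) (ε h : κ → K) : Prop :=
  ∃ E ∈ L, ∃ F ∈ L, Trip E F ε h

/-- `W` is the graph of a linear functional on the diagonal operators of `L` which has the properties of a
weight on which `ε` is `1`. -/
structure Fun (L : Submodule K (Module.End K (κ → K))) (ε : κ → K)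
    (W : Submodule K ((κ → K) × K)) : Prop where
  zero : ∀ c, ((0 : κ → K), c) ∈ W → c = 0
  tot : ∀ g, dg g ∈ L → ∃ c, (g, c) ∈ W
  dom : ∀ g c, (g, c) ∈ W → dg g ∈ L
  cor : ∀ h c, Cor L ε h → (h, c) ∈ W → c = 0 ∨ c = 1
  eps : (ε, 1) ∈ W

/-- The full classical Lie algebras: symplectic, orthogonal (of rank `≥ 6`, not `8`), all operators of trace
zero.  The first two are possible only if `t` is true, the third only if `t` is false. -/
inductive FB (t : Prop) (L : Submodule K (Module.End K (κ → K))) (J : Matrix κ κ K) : Prop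
  | s (ht : t) (π : κ → κ) (hJ : Jᵀ = -J) (hdet : IsUnit J.det) (hm : Mon J π)
      (hL : ∀ X, X ∈ L ↔ adjE J X = -X) : FB t L J
  | o (ht : t) (π : κ → κ) (hJ : Jᵀ = J) (hdet : IsUnit J.det) (hm : Mon J π)
      (hL : ∀ X, X ∈ L ↔ adjE J X = -X) (h6 : 6 ≤ Fintype.card κ) (h8 : Fintype.card κ ≠ 8) : FB t L J
  | n (ht : ¬ t) (hL : ∀ X, X ∈ L ↔ LinearMap.trace K (κ → K) X = 0) (h2 : 2 ≤ Fintype.card κ) : FB t L J

end

section
variable {κ κ' : Type*} [Fintype κ] [DecidableEq κ] [Fintype κ'] [DecidableEq κ'] {K : Type*} [Field K]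

/-- A Lie algebra `𝓛` of pairs of operators which is the graph of an isomorphism between `L` and `L'`, and which
is stable under the conjugation with the pair of diagonal operators `d`, `d'`; `(ε, ε')` is a diagonal pair of
involutions in `𝓛`. -/
structure Gr (𝓛 : Submodule K (Module.End K (κ → K) × Module.End K (κ' → K)))
    (L : Submodule K (Module.End K (κ → K))) (L' : Submodule K (Module.End K (κ' → K)))
    (d : κ → K) (d' : κ' → K) (ε : κ → K) (ε' : κ' → K) : Prop where
  lie : ∀ p ∈ 𝓛, ∀ q ∈ 𝓛, (p.1 * q.1 - q.1 * p.1, p.2 * q.2 - q.2 * p.2) ∈ 𝓛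
  fst : ∀ X, X ∈ L ↔ ∃ X', (X, X') ∈ 𝓛
  snd : ∀ X', X' ∈ L' ↔ ∃ X, (X, X') ∈ 𝓛
  left : ∀ X, (X, (0 : Module.End K (κ' → K))) ∈ 𝓛 → X = 0
  right : ∀ X', ((0 : Module.End K (κ → K)), X') ∈ 𝓛 → X' = 0
  inj : Function.Injective d
  inj' : Function.Injective d'
  ne : ∀ k, d k ≠ 0
  ne' : ∀ k, d' k ≠ 0
  cnj : ∀ X X', (X, X') ∈ 𝓛 → (dg d * X * dg (fun k => (d k)⁻¹), dg d' * X' * dg (fun k => (d' k)⁻¹)) ∈ 𝓛
  eps : (dg ε, dg ε') ∈ 𝓛
  val : ∀ k, ε k = 1 ∨ ε k = -1
  val' : ∀ k, ε' k = 1 ∨ ε' k = -1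

/-- The functional `g ↦ s * g' k` for the diagonal pairs `(g, g')` in `𝓛`. -/
def Wt (𝓛 : Submodule K (Module.End K (κ → K) × Module.End K (κ' → K))) (k : κ') (s : K) :
    Submodule K ((κ → K) × K) where
  carrier := {p | ∃ g' : κ' → K, (dg p.1, dg g') ∈ 𝓛 ∧ p.2 = s * g' k}
  add_mem' := by
    rintro ⟨g, c⟩ ⟨h, c'⟩ ⟨g', h1, h2⟩ ⟨h', h3, h4⟩
    refine ⟨g' + h', ?_, ?_⟩
    · have h5 := 𝓛.add_mem h1 h3
      rw [Prod.mk_add_mk, ← dg_add, ← dg_add] at h5
      exact h5
    · change c = _ at h2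
      change c' = _ at h4
      change c + c' = _
      rw [h2, h4, Pi.add_apply, mul_add]
  zero_mem' := by
    refine ⟨0, ?_, ?_⟩
    · have h1 : (dg (0 : κ → K)) = 0 := by
        refine LinearMap.ext fun v => funext fun a => ?_
        simp [dg_apply]
      have h2 : (dg (0 : κ' → K)) = 0 := by
        refine LinearMap.ext fun v => funext fun a => ?_
        simp [dg_apply]
      change (dg (0 : κ → K), _) ∈ 𝓛
      rw [h1, h2]
      exact 𝓛.zero_mem
    · change (0 : K) = _
      simp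
  smul_mem' := by
    rintro a ⟨g, c⟩ ⟨g', h1, h2⟩
    refine ⟨a • g', ?_, ?_⟩
    · have h5 := 𝓛.smul_mem a h1
      rw [Prod.smul_mk, ← dg_smul, ← dg_smul] at h5
      exact h5
    · change c = _ at h2
      change a * c = _
      rw [h2, Pi.smul_apply, smul_eq_mul]
      ring

theorem mem_Wt {𝓛 : Submodule K (Module.End K (κ → K) × Module.End K (κ' → K))} {k : κ'} {s : K}
    {g : κ → K} {c : K} : (g, c) ∈ Wt 𝓛 k s ↔ ∃ g' : κ' → K, (dg g, dg g') ∈ 𝓛 ∧ c = s * g' k := Iff.rfl

/-- The pairs `(X, X')` such that `(-Xᵀ, X')` is in `𝓛`. -/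
noncomputable def Lt (𝓛 : Submodule K (Module.End K (κ → K) × Module.End K (κ' → K))) :
    Submodule K (Module.End K (κ → K) × Module.End K (κ' → K)) :=
  𝓛.comap (LinearMap.prodMap (-(adjE (1 : Matrix κ κ K))) LinearMap.id)

theorem mem_Lt {𝓛 : Submodule K (Module.End K (κ → K) × Module.End K (κ' → K))}
    {X : Module.End K (κ → K)} {X' : Module.End K (κ' → K)} :
    (X, X') ∈ Lt 𝓛 ↔ (-(adjE (1 : Matrix κ κ K) X), X') ∈ 𝓛 := Iff.rfl

end

end Pool.Agent.H34Z
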