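import Pool.Agent.Lib.H34Z.M01

/-!
# M02: the span of the brackets
-/

set_option autoImplicit false
set_option linter.unusedSectionVars false
namespace Pool.Agent.H34Z
open Module Matrix Pool.Agent.H53Toric Pool.Agent.H76P
open Pool.Agent.H76U (cmp preL Lb Split4)
open Pool.Agent.H76Y (LcN)
open Pool.Agent.H76RM (zar_commute zlie_commute)

variable {ι : Type*} [Fintype ι] [DecidableEq ι] {K : Type*} [Field K] [CharZero K] [IsAlgClosed K]
  {J u : Matrix ι ι K} {DD : Submodule K (Matrix ι ι K)} {S 𝓗 : Set (Matrix ι ι K)} {x : Matrix ι ι K}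
  {B : Type*} [Fintype B] [DecidableEq B] {bar : B → B} {e : B → Matrix ι ι K} {n : B → ℕ}
  {U : ∀ b, Matrix ι (Fin (n b)) K} {V : ∀ b, Matrix (Fin (n b)) ι K} {d : ∀ b, Fin (n b) → K}

/-- PROOF. `H76U.preL_bracket`, `Submodule.span_le`. -/
theorem brk_zlie : brk J S ≤ zlie S := by
  refine Submodule.span_le.2 ?_
  rintro C ⟨A, hA, A', hA', rfl⟩
  exact (Pool.Agent.H76U.preL_bracket hA hA').1

/-- PROOF. `Submodule.span_induction`, `H76U.preL_bracket`. -/
theorem brk_skew {A : Matrix ι ι K} (hA : A ∈ brk J S) : Aᵀ * J + J * A = 0 := by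
  refine Submodule.span_induction (p := fun A _ => Aᵀ * J + J * A = 0) ?_ ?_ ?_ ?_ hA
  · rintro C ⟨A, hA, A', hA', rfl⟩
    exact (Pool.Agent.H76U.preL_bracket hA hA').2
  · rw [Matrix.transpose_zero, Matrix.zero_mul, Matrix.mul_zero, add_zero]
  · intro A C _ _ h1 h2
    rw [Matrix.transpose_add, Matrix.add_mul, Matrix.mul_add]
    calc Aᵀ * J + Cᵀ * J + (J * A + J * C) = (Aᵀ * J + J * A) + (Cᵀ * J + J * C) := by abel
      _ = 0 := by rw [h1, h2, add_zero]
  · intro a A _ h1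
    rw [Matrix.transpose_smul, Matrix.smul_mul, Matrix.mul_smul, ← smul_add, h1, smul_zero]

/-- PROOF. `brk_zlie`, `brk_skew`. -/
theorem brk_pre : brk J S ≤ preL J S := by
  intro A hA
  exact ⟨⟨0, A, brk_zlie hA, by rw [zero_smul, add_zero]⟩, 0, by rw [brk_skew hA, zero_smul]⟩

/-- PROOF. `A' ∈ brk ≤ preL`, so `A * A' - A' * A` is one of the generators. -/
theorem brk_ad {A A' : Matrix ι ι K} (hA : A ∈ preL J S) (hA' : A' ∈ preL J S) : A * A' - A' * A ∈ brk J S := by
  exact Submodule.subset_span ⟨A, hA, A', hA', rfl⟩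

/-- The block is multiplicative on the commutant of `U * V`.  PROOF. `V * (A * C) * U = (V * A * U) * (V * C * U)` since `C * U = C * (U * V) * U = U * V * C * U`
(`V * U = 1`). -/
theorem pb_mul {k : ℕ} {P : Matrix ι (Fin k) K} {Q : Matrix (Fin k) ι K} (hQP : Q * P = 1) {A C : Matrix ι ι K}
    (hC : C * (P * Q) = P * Q * C) : pb P Q (A * C) = pb P Q A * pb P Q C := by
  have h1 := Pool.Agent.H76U.cmp_mul (p := P * Q) rfl hQP (A := A) hC
  calc pb P Q (A * C) = phi (cmp P Q (A * C)) := rfl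
    _ = phi (cmp P Q A * cmp P Q C) := by rw [h1]
    _ = phi (cmp P Q A) * phi (cmp P Q C) := map_mul _ _ _
    _ = pb P Q A * pb P Q C := rfl

theorem pb_one {k : ℕ} {P : Matrix ι (Fin k) K} {Q : Matrix (Fin k) ι K} (hQP : Q * P = 1) : pb P Q 1 = 1 := by
  rw [pb_apply, Matrix.mul_one, hQP, map_one]

namespace Sit
variable (g : Sit J u DD S 𝓗 x bar e n U V d)
include g

/-- PROOF. `pb_mul`, `g.UV`, `pD` with `g.spl.mem b`. -/
theorem pb_bracket (b : B) {A A' : Matrix ι ι K} (hA : A ∈ preL J S) (hA' : A' ∈ preL J S) :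
    pb (U b) (V b) (A * A' - A' * A) = pb (U b) (V b) A * pb (U b) (V b) A' - pb (U b) (V b) A' * pb (U b) (V b) A := by
  have h1 : A * (U b * V b) = U b * V b * A := by
    have h := g.pD hA (g.spl.mem b)
    rwa [g.UV b] at h
  have h2 : A' * (U b * V b) = U b * V b * A' := by
    have h := g.pD hA' (g.spl.mem b)
    rwa [g.UV b] at h
  rw [map_sub, pb_mul (g.VU b) h2, pb_mul (g.VU b) h1]

/-- PROOF. `H76U.mem_Lb`; the trace of a commutator is zero (`pb_bracket`, `LinearMap.trace_mul_comm`). -/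
theorem pb_mem (b : B) {A : Matrix ι ι K} (hA : A ∈ brk J S) : pb (U b) (V b) A ∈ LcN J S (U b) (V b) := by
  refine ⟨Pool.Agent.H76U.mem_Lb.2 ⟨A, brk_pre hA, rfl⟩, ?_⟩
  refine Submodule.span_induction
    (p := fun A _ => LinearMap.trace K (Fin (n b) → K) (pb (U b) (V b) A) = 0) ?_ ?_ ?_ ?_ hA
  · rintro C ⟨A, hA, A', hA', rfl⟩
    rw [g.pb_bracket b hA hA', map_sub, LinearMap.trace_mul_comm, sub_self]
  · rw [map_zero, map_zero]
  · intro A C _ _ h1 h2
    rw [map_add, map_add, h1, h2, add_zero]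
  · intro a A _ h1
    rw [map_smul, map_smul, h1, smul_zero]

/-- PROOF. `pb_mem`: `H76U.mem_Lb` for `2h - 1 ∈ preL` (`ypre`); the trace of the block of `2h - 1` is `2 rank (h * e b) - n b = 0`: see `H76Y.g4_bal` (H76Y/G4.lean), the
block `V h U` is an idempotent with the rank `(h * e b).rank` (`H76U.rank_cmp`) and the trace of an idempotent is its rank.  Square: `(2h-1)² = 1`, `pb_mul`. -/
theorem y_mem (b : B) {h : Matrix ι ι K} (hh : h ∈ 𝓗) : pb (U b) (V b) ((2 : K) • h - 1) ∈ LcN J S (U b) (V b) ∧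
    pb (U b) (V b) ((2 : K) • h - 1) * pb (U b) (V b) ((2 : K) • h - 1) = 1 := by
  have hc : h * e b = e b * h := g.zD (g.hz h hh) (g.spl.mem b)
  have hUV := g.UV b
  have hVU := g.VU b
  have hy : ((2 : K) • h - 1) * (U b * V b) = U b * V b * ((2 : K) • h - 1) := by
    have h1 := g.pD (g.ypre hh) (g.spl.mem b)
    rwa [hUV] at h1
  refine ⟨⟨Pool.Agent.H76U.mem_Lb.2 ⟨_, g.ypre hh, rfl⟩, ?_⟩, ?_⟩
  · have h1 : cmp (U b) (V b) h * cmp (U b) (V b) h = cmp (U b) (V b) h := by
      rw [← Pool.Agent.H76U.cmp_mul hUV hVU hc, g.hi h hh]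
    have h2 : (cmp (U b) (V b) h).trace = ((cmp (U b) (V b) h).rank : K) := by
      have h3 : phi (cmp (U b) (V b) h) * phi (cmp (U b) (V b) h) = phi (cmp (U b) (V b) h) := by
        rw [← map_mul, h1]
      have h4 := trace_idem h3
      rw [Pool.Agent.H76Y.g4_trace] at h4
      exact h4
    have h5 : (cmp (U b) (V b) h).rank = (h * e b).rank := Pool.Agent.H76U.rank_cmp hUV hVU hc
    have h6 : ((2 * (h * e b).rank : ℕ) : K) = (n b : K) := by rw [g.bal h hh b]
    have h7 : (cmp (U b) (V b) ((2 : K) • h - 1)).trace = 0 := by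
      rw [map_sub, map_smul, Pool.Agent.H76U.cmp_one hUV hVU, Matrix.trace_sub, Matrix.trace_smul, h2, h5,
        Matrix.trace_one, Fintype.card_fin, smul_eq_mul, ← h6]
      push_cast
      ring
    rw [← Pool.Agent.H76Y.g4_trace] at h7
    exact h7
  · rw [← pb_mul hVU hy]
    have h1 : ((2 : K) • h - 1) * ((2 : K) • h - 1) = 1 := by
      have h2 : ((2 : K) • h - 1) * ((2 : K) • h - 1) = (4 : K) • (h * h) - (4 : K) • h + 1 := by
        simp only [sub_mul, mul_sub, smul_mul_assoc, mul_smul_comm, one_mul, mul_one]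
        module
      rw [h2, g.hi h hh, sub_self, zero_add]
    rw [h1, pb_one hVU]

/-- PROOF. The block `M = V b * (2h-1) * U b` commutes with `V b * x * U b = Matrix.diagonal (d b)` (`g.ec`: `x * U b = U b * diagonal (d b)`; `H76P.cmp_phi`), `d b`
is injective, so `M` is diagonal (entries `M i j (d j - d i) = 0`), `M = diagonal ε`, `phi M = dg ε`; `M * M = 1` (`y_mem`) gives `ε k ^ 2 = 1`. -/
theorem y_diag (b : B) {h : Matrix ι ι K} (hh : h ∈ 𝓗) (hx : h * x = x * h) :
    ∃ ε : Fin (n b) → K, pb (U b) (V b) ((2 : K) • h - 1) = dg ε ∧ ∀ k, ε k = 1 ∨ ε k = -1 := by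
  have hUV := g.UV b
  have hVU := g.VU b
  have hye : ((2 : K) • h - 1) * e b = e b * ((2 : K) • h - 1) := g.pD (g.ypre hh) (g.spl.mem b)
  have hxe : x * e b = e b * x := (g.cl g.hx).2.1 _ (g.spl.mem b)
  have hyx : ((2 : K) • h - 1) * x = x * ((2 : K) • h - 1) := by
    rw [sub_mul, mul_sub, smul_mul_assoc, mul_smul_comm, hx, one_mul, mul_one]
  have h1 := Pool.Agent.H76U.cmp_mul hUV hVU (A := (2 : K) • h - 1) (C := x) hxe
  have h2 := Pool.Agent.H76U.cmp_mul hUV hVU (A := x) (C := (2 : K) • h - 1) hye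
  rw [hyx, h2, Pool.Agent.H76P.cmp_phi hVU (g.ec b)] at h1
  let M : Matrix (Fin (n b)) (Fin (n b)) K := cmp (U b) (V b) ((2 : K) • h - 1)
  have hM : M = Matrix.diagonal (fun k => M k k) := by
    ext i j
    by_cases hij : i = j
    · subst hij
      rw [Matrix.diagonal_apply_eq]
    · rw [Matrix.diagonal_apply_ne _ hij]
      have h3 := congrFun (congrFun h1 i) j
      rw [Matrix.diagonal_mul, Matrix.mul_diagonal] at h3
      have h4 : (d b i - d b j) * M i j = 0 := by
        have h5 : d b i * M i j = M i j * d b j := h3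
        rw [sub_mul, h5]
        ring
      exact (mul_eq_zero.1 h4).resolve_left (sub_ne_zero.2 fun h5 => hij ((g.ec b).inj h5))
  have hp : pb (U b) (V b) ((2 : K) • h - 1) = dg (fun k => M k k) := by
    have h3 : pb (U b) (V b) ((2 : K) • h - 1) = phi M := rfl
    rw [h3, hM, Pool.Agent.H76P.phi_diag]
    congr 1
    ext k
    exact (Matrix.diagonal_apply_eq _ _).symm
  refine ⟨fun k => M k k, hp, fun k => ?_⟩
  have h3 := (g.y_mem b hh).2
  rw [hp, dg_mul, ← dg_one] at h3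
  have h4 := congrFun (dg_inj h3) k
  exact mul_self_eq_one_iff.1 h4

end Sit

end Pool.Agent.H34Z
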