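import Pool.Agent.Lib.H34Z.GD
import Pool.Agent.Lib.H76U.SL
import Pool.Agent.Lib.H53Toric.Assemble

/-!
# G01: generation of the special linear and the symplectic group
-/

set_option autoImplicit false
set_option linter.unusedSectionVars false
namespace Pool.Agent.H34Z
open Matrix Module Pool.Agent.H53Toric

variable {κ : Type*} [Fintype κ] [DecidableEq κ] {K : Type*} [Field K] [CharZero K] {J : Matrix κ κ K} {Z : Set (Matrix κ κ K)}

/-- PROOF. `H76U.sl_gen`; `transvection i j c = 1 + single i j c`, and `single i j c` (`i ≠ j`) has square zero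
(`Matrix.single_mul_single_of_ne`) and trace zero. -/
theorem gen_sl (h1 : (1 : Matrix κ κ K) ∈ Z) (hmul : ∀ a ∈ Z, ∀ b ∈ Z, a * b ∈ Z)
    (hexp : ∀ N : Matrix κ κ K, N * N = 0 → N.trace = 0 → 1 + N ∈ Z) {M : Matrix κ κ K} (hM : M.det = 1) : M ∈ Z := by
  refine Pool.Agent.H76U.sl_gen h1 hmul (fun i j hij c => ?_) hM
  rw [transvection]
  refine hexp _ ?_ ?_
  · exact single_mul_single_of_ne _ _ _ _ (Ne.symm hij) _
  · exact Matrix.trace_single_eq_of_ne i j c hij

/-- PROOF. `H53Toric.sp_mem` for `ω = om J` and the set `{x | ∃ N ∈ Z, x = phi N}`: `om_alt hJ`, `om_nd hdet`; `1 + a • trv (om J) d = phi (1 + a •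
vecMulVec d (J *ᵥ d))` (`phi_trv`), and `N = a • vecMulVec d (J *ᵥ d)` has square zero (`trv_sq`) and is skew (`trv_skew`).  `x = phi M` preserves
`om J` by `om_mul`.  See `H76U/Grp4.lean`, `comp_self`, for the same application. -/
theorem gen_sp (hJ : Jᵀ = -J) (hdet : IsUnit J.det) (hZ : Zs J Z) {M : Matrix κ κ K} (hM : Mᵀ * J * M = J) : M ∈ Z := by
  have h1 := sp_mem (ω := om J) (Z := {X | (phi (ι := κ) (K := K)).symm X ∈ Z})
    (om_alt hJ) (om_nd hdet) (by
      change (phi (ι := κ) (K := K)).symm 1 ∈ Z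
      rw [map_one]; exact hZ.one) (by
      intro a ha b hb
      change (phi (ι := κ) (K := K)).symm (a * b) ∈ Z
      rw [map_mul]; exact hZ.mul _ ha _ hb) (by
      intro a d
      change (phi (ι := κ) (K := K)).symm (1 + a • trv (om J) d) ∈ Z
      rw [← phi_trv, ← map_smul, ← map_one (phi (ι := κ) (K := K)), ← map_add,
        AlgEquiv.symm_apply_apply]
      have h2 : Matrix.vecMulVec d (J *ᵥ d) * Matrix.vecMulVec d (J *ᵥ d) = 0 := by
        apply (phi (ι := κ) (K := K)).injective
        rw [map_mul, phi_trv, map_zero, trv_sq (om_alt hJ)]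
      refine hZ.exp _ ?_ ?_
      · rw [smul_mul_assoc, mul_smul_comm, h2, smul_zero, smul_zero]
      · rw [Matrix.transpose_smul, smul_mul_assoc, mul_smul_comm, ← smul_add, trv_skew hJ d, smul_zero])
    (finrank K (κ → K)) (phi M) (by
      intro v w
      rw [phi_apply, phi_apply, om_mul, hM]) (Nat.le_add_left _ _)
  change (phi (ι := κ) (K := K)).symm (phi M) ∈ Z at h1
  rwa [AlgEquiv.symm_apply_apply] at h1

end Pool.Agent.H34Z
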