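import Pool.Agent.Lib.H34Z.G03

/-!
# G04: the big cell
-/

set_option autoImplicit false
set_option linter.unusedSectionVars false
namespace Pool.Agent.H34Z
open Matrix

variable {m : Type*} [Fintype m] [DecidableEq m] {K : Type*} [Field K] [CharZero K] {Z : Set (Matrix (m ⊕ m) (m ⊕ m) K)}

/-- PROOF. `γ = c * a⁻¹`, `β = a⁻¹ * b`.  `hM` with `Matrix.fromBlocks_multiply`, `Matrix.fromBlocks_inj` says `aᵀ c + cᵀ a = 0`, `aᵀ d + cᵀ b = 1`,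
`bᵀ d + dᵀ b = 0`.  `γᵀ = -γ`: multiply `aᵀ c + cᵀ a = 0` with `(a⁻¹)ᵀ` from the left and `a⁻¹` from the right.  `d = (a⁻¹)ᵀ - (a⁻¹)ᵀ cᵀ b = (a⁻¹)ᵀ + γ b`
(`(a⁻¹)ᵀ cᵀ = γᵀ`).  So `M = lo γ * lv a * up β` (`= fromBlocks a (a β) (γ a) (γ a β + (a⁻¹)ᵀ)`).  `βᵀ = -β`: from `bᵀ d + dᵀ b = 0` with
`d = (a⁻¹)ᵀ + γ b`: `bᵀ (a⁻¹)ᵀ + bᵀ γ b + a⁻¹ b + bᵀ γᵀ b = βᵀ + β`. -/
theorem cell_fac {a b c d : Matrix m m K} (ha : a.det ≠ 0)
    (hM : (Matrix.fromBlocks a b c d)ᵀ * J0 m K * Matrix.fromBlocks a b c d = J0 m K) :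
    ∃ γ β : Matrix m m K, γᵀ = -γ ∧ βᵀ = -β ∧ Matrix.fromBlocks a b c d = lo γ * lv a * up β := by
  have hu : IsUnit a.det := isUnit_iff_ne_zero.2 ha
  have hA1 : a * a⁻¹ = 1 := Matrix.mul_nonsing_inv a hu
  have hA2 : a⁻¹ * a = 1 := Matrix.nonsing_inv_mul a hu
  have hT1 : (a⁻¹)ᵀ * aᵀ = 1 := by
    rw [← Matrix.transpose_mul, hA1, Matrix.transpose_one]
  unfold J0 at hM
  rw [Matrix.fromBlocks_transpose, Matrix.fromBlocks_multiply, Matrix.fromBlocks_multiply] at hM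
  simp only [Matrix.mul_zero, Matrix.mul_one, add_zero, zero_add] at hM
  rw [Matrix.fromBlocks_inj] at hM
  obtain ⟨h1, h2, h3, h4⟩ := hM
  have hγ : (c * a⁻¹)ᵀ = -(c * a⁻¹) := by
    rw [Matrix.transpose_mul]
    refine eq_neg_of_add_eq_zero_left ?_
    calc (a⁻¹)ᵀ * cᵀ + c * a⁻¹ = (a⁻¹)ᵀ * cᵀ * (a * a⁻¹) + (a⁻¹)ᵀ * aᵀ * c * a⁻¹ := by
          rw [hA1, hT1, Matrix.mul_one, Matrix.one_mul]
      _ = (a⁻¹)ᵀ * (cᵀ * a + aᵀ * c) * a⁻¹ := by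
          simp only [Matrix.mul_add, Matrix.add_mul, Matrix.mul_assoc]
      _ = 0 := by
          rw [h1, Matrix.mul_zero, Matrix.zero_mul]
  have hd : d = (a⁻¹)ᵀ + c * a⁻¹ * b := by
    have h5 : (a⁻¹)ᵀ * (cᵀ * b + aᵀ * d) = (a⁻¹)ᵀ := by
      rw [h2, Matrix.mul_one]
    rw [Matrix.mul_add, ← Matrix.mul_assoc, ← Matrix.mul_assoc, hT1, Matrix.one_mul, ← Matrix.transpose_mul, hγ,
      Matrix.neg_mul] at h5
    rw [← h5]
    abel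
  have hβ : (a⁻¹ * b)ᵀ = -(a⁻¹ * b) := by
    refine eq_neg_of_add_eq_zero_left ?_
    have h6 : dᵀ = a⁻¹ - bᵀ * (c * a⁻¹) := by
      rw [hd, Matrix.transpose_add, Matrix.transpose_transpose, Matrix.transpose_mul, hγ, Matrix.mul_neg, sub_eq_add_neg]
    rw [h6] at h4
    rw [Matrix.transpose_mul]
    calc bᵀ * (a⁻¹)ᵀ + a⁻¹ * b = (a⁻¹ - bᵀ * (c * a⁻¹)) * b + bᵀ * ((a⁻¹)ᵀ + c * a⁻¹ * b) := by
          rw [Matrix.sub_mul, Matrix.mul_add]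
          simp only [Matrix.mul_assoc]
          abel
      _ = 0 := by
          rw [← hd]
          exact h4
  refine ⟨c * a⁻¹, a⁻¹ * b, hγ, hβ, ?_⟩
  unfold lo lv up
  rw [Matrix.fromBlocks_multiply, Matrix.fromBlocks_multiply]
  simp only [Matrix.mul_zero, Matrix.zero_mul, Matrix.mul_one, Matrix.one_mul, add_zero, zero_add]
  rw [Matrix.fromBlocks_inj]
  refine ⟨rfl, ?_, ?_, ?_⟩
  · rw [← Matrix.mul_assoc, hA1, Matrix.one_mul]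
  · rw [Matrix.mul_assoc, hA2, Matrix.mul_one]
  · have h7 : c * a⁻¹ * a * (a⁻¹ * b) = c * a⁻¹ * b := by
      rw [Matrix.mul_assoc c, hA2, Matrix.mul_one, ← Matrix.mul_assoc]
    rw [h7, hd]
    abel

/-- PROOF. `cell_fac`, `lo_mem`, `lv_gl`, `up_mem`; the determinant: `Matrix.det_fromBlocks_zero₂₁`, `Matrix.det_fromBlocks_zero₁₂`:
`det (lo γ) = det (up β) = 1`, `det (lv a) = a.det * (a⁻¹).det = 1`. -/
theorem cell_mem [IsAlgClosed K] (hZ : Zs (J0 m K) Z) (h2 : 2 ≤ Fintype.card m) {a b c d : Matrix m m K} (ha : a.det ≠ 0)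
    (hM : (Matrix.fromBlocks a b c d)ᵀ * J0 m K * Matrix.fromBlocks a b c d = J0 m K) :
    Matrix.fromBlocks a b c d ∈ Z ∧ (Matrix.fromBlocks a b c d).det = 1 := by
  obtain ⟨γ, β, hγ, hβ, h⟩ := cell_fac ha hM
  have hu : IsUnit a.det := isUnit_iff_ne_zero.2 ha
  rw [h]
  refine ⟨hZ.mul _ (hZ.mul _ (lo_mem hZ hγ) _ (lv_gl hZ h2 ha)) _ (up_mem hZ hβ), ?_⟩
  rw [Matrix.det_mul, Matrix.det_mul]
  have h5 : (lo γ : Matrix (m ⊕ m) (m ⊕ m) K).det = 1 := by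
    unfold lo
    rw [Matrix.det_fromBlocks_zero₁₂, Matrix.det_one, one_mul]
  have h6 : (up β : Matrix (m ⊕ m) (m ⊕ m) K).det = 1 := by
    unfold up
    rw [Matrix.det_fromBlocks_zero₂₁, Matrix.det_one, one_mul]
  have h7 : (lv a : Matrix (m ⊕ m) (m ⊕ m) K).det = 1 := by
    unfold lv
    rw [Matrix.det_fromBlocks_zero₂₁, Matrix.det_transpose, ← Matrix.det_mul, Matrix.mul_nonsing_inv a hu, Matrix.det_one]
  rw [h5, h6, h7, one_mul, one_mul]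

end Pool.Agent.H34Z
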