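import Pool.Agent.Lib.H34Z.G05
import Pool.Agent.Lib.H34Z.G04

/-!
# G06: the special orthogonal group is generated by the elements 1 + N
-/

set_option autoImplicit false
set_option linter.unusedSectionVars false
namespace Pool.Agent.H34Z
open Matrix

variable {m : Type*} [Fintype m] [DecidableEq m] {K : Type*} [Field K] [CharZero K] {Z : Set (Matrix (m ⊕ m) (m ⊕ m) K)}

/-- PROOF. `fromBlocks a b c d` is invertible, so `a *ᵥ v = 0` and `c *ᵥ v = 0` imply `v = 0` (apply the matrix to `Sum.elim v 0`).  Let `A` be a set of rows of `a`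
which is a basis of the span of the rows (`exists_linearIndependent'` for `fun i => a i`; `A` the image), `T = Aᶜ`.  The upper left block of
`sw K T * fromBlocks a b c d` has the rows `a i`, `i ∈ A`, and `c i`, `i ∉ A`.  Let `v` be in its kernel (`Matrix.exists_mulVec_eq_zero_iff`; to show `v = 0`):
`a i ⬝ᵥ v = 0` for `i ∈ A`, so for all `i` (span): `a *ᵥ v = 0`; `c i ⬝ᵥ v = 0` for `i ∉ A`.  By `aᵀ c + cᵀ a = 0` (the first block of `hM`):
`(a *ᵥ w) ⬝ᵥ (c *ᵥ v) = -(c *ᵥ w) ⬝ᵥ (a *ᵥ v) = 0` for all `w`.  For `i₀ ∈ A` there is `w` with `a i ⬝ᵥ w = δ i i₀` for `i ∈ A` (the rows in `A` are independent: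
`LinearIndependent.rank_matrix`, so `w ↦ (a i ⬝ᵥ w)_{i ∈ A}` is surjective).  Then `0 = (a *ᵥ w) ⬝ᵥ (c *ᵥ v) = ∑_{i ∈ A} (a i ⬝ᵥ w) (c i ⬝ᵥ v) = c i₀ ⬝ᵥ v`.
So `c *ᵥ v = 0` and `v = 0`. -/
theorem exists_sw {a b c d : Matrix m m K}
    (hM : (Matrix.fromBlocks a b c d)ᵀ * J0 m K * Matrix.fromBlocks a b c d = J0 m K) :
    ∃ T : Finset m, ((sw K T * Matrix.fromBlocks a b c d).toBlocks₁₁).det ≠ 0 := by
  classical
  unfold J0 at hM
  rw [Matrix.fromBlocks_transpose, Matrix.fromBlocks_multiply, Matrix.fromBlocks_multiply, Matrix.fromBlocks_inj] at hM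
  obtain ⟨h1, -, h2, -⟩ := hM
  simp only [mul_zero, mul_one, zero_add, add_zero] at h1 h2
  obtain ⟨κ, f, hf, hsp, hli⟩ := exists_linearIndependent' K (fun i => a i)
  have : Finite κ := Finite.of_injective f hf
  have : Fintype κ := Fintype.ofFinite κ
  refine ⟨Finset.univ.filter fun i => i ∉ Set.range f, fun hdet => ?_⟩
  obtain ⟨v, hv, hv2⟩ := Matrix.exists_mulVec_eq_zero_iff.2 hdet
  have hB : ∀ i, (if i ∈ Set.range f then (a *ᵥ v) i else (c *ᵥ v) i) = 0 := by
    intro i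
    have h3 := congrFun hv2 i
    unfold sw at h3
    rw [Matrix.fromBlocks_multiply, Matrix.toBlocks_fromBlocks₁₁, Matrix.add_mulVec, Pi.add_apply, ← Matrix.mulVec_mulVec,
      ← Matrix.mulVec_mulVec, Matrix.mulVec_diagonal, Matrix.mulVec_diagonal, Pi.zero_apply] at h3
    by_cases h4 : i ∈ Set.range f
    · have h5 : i ∉ Finset.univ.filter fun i => i ∉ Set.range f := by
        rw [Finset.mem_filter]
        exact fun h => h.2 h4
      rw [if_neg h5, if_neg h5, one_mul, zero_mul, add_zero] at h3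
      rw [if_pos h4]
      exact h3
    · have h5 : i ∈ Finset.univ.filter fun i => i ∉ Set.range f := Finset.mem_filter.2 ⟨Finset.mem_univ i, h4⟩
      rw [if_pos h5, if_pos h5, one_mul, zero_mul, zero_add] at h3
      rw [if_neg h4]
      exact h3
  have ha : a *ᵥ v = 0 := by
    let φ : (m → K) →ₗ[K] K :=
      { toFun := fun r => r ⬝ᵥ v
        map_add' := fun x y => add_dotProduct x y v
        map_smul' := fun t x => smul_dotProduct t x v }
    have h3 : Submodule.span K (Set.range ((fun i => a i) ∘ f)) ≤ LinearMap.ker φ := by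
      rw [Submodule.span_le]
      rintro x ⟨k, rfl⟩
      have h4 := hB (f k)
      rw [if_pos ⟨k, rfl⟩] at h4
      exact h4
    rw [hsp] at h3
    funext i
    exact h3 (Submodule.subset_span ⟨i, rfl⟩)
  have hc : c *ᵥ v = 0 := by
    have h3 : (c *ᵥ v) ᵥ* a = 0 := by
      rw [← Matrix.mulVec_transpose, Matrix.mulVec_mulVec]
      have h4 : aᵀ * c = -(cᵀ * a) := by
        rw [eq_neg_iff_add_eq_zero, add_comm]
        exact h1
      rw [h4, Matrix.neg_mulVec, ← Matrix.mulVec_mulVec, ha, Matrix.mulVec_zero, neg_zero]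
    have h5 : ∀ i, i ∉ Set.range f → (c *ᵥ v) i = 0 := by
      intro i hi
      have h6 := hB i
      rwa [if_neg hi] at h6
    have h7 : ∑ k, (c *ᵥ v) (f k) • ((fun i => a i) ∘ f) k = 0 := by
      rw [Fintype.sum_of_injective f hf (fun k => (c *ᵥ v) (f k) • ((fun i => a i) ∘ f) k) (fun i => (c *ᵥ v) i • a i)
        (fun i hi => by rw [h5 i hi, zero_smul]) (fun k => rfl)]
      rw [← Matrix.vecMul_eq_sum]
      exact h3
    have h8 := Fintype.linearIndependent_iff.1 hli (fun k => (c *ᵥ v) (f k)) h7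
    funext i
    by_cases hi : i ∈ Set.range f
    · obtain ⟨k, rfl⟩ := hi
      exact h8 k
    · exact h5 i hi
  apply hv
  have h9 : (dᵀ * a + bᵀ * c) *ᵥ v = v := by
    rw [h2, Matrix.one_mulVec]
  rw [← h9, Matrix.add_mulVec, ← Matrix.mulVec_mulVec, ← Matrix.mulVec_mulVec, ha, hc, Matrix.mulVec_zero, Matrix.mulVec_zero,
    add_zero]

/-- PROOF. `M = fromBlocks ..` (`Matrix.fromBlocks_toBlocks`), `T` from `exists_sw`, `M' = sw K T * M`, which preserves `J0` (`sw_form`).  `cell_mem`: `M' ∈ Z`,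
`M'.det = 1`; so `(-1) ^ T.card = 1` (`sw_det`, `hdet`) and `T.card` is even (char zero, `neg_one_pow_eq_one_iff_even`).  `M = sw K T * M'` (`sw_sq`),
`sw_even`. -/
theorem gen_so0 [IsAlgClosed K] (hZ : Zs (J0 m K) Z) (h2 : 2 ≤ Fintype.card m) {M : Matrix (m ⊕ m) (m ⊕ m) K}
    (hM : Mᵀ * J0 m K * M = J0 m K) (hdet : M.det = 1) : M ∈ Z := by
  obtain ⟨T, hT⟩ : ∃ T : Finset m, ((sw K T * M).toBlocks₁₁).det ≠ 0 := by
    have h1 : (Matrix.fromBlocks M.toBlocks₁₁ M.toBlocks₁₂ M.toBlocks₂₁ M.toBlocks₂₂)ᵀ * J0 m K *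
        Matrix.fromBlocks M.toBlocks₁₁ M.toBlocks₁₂ M.toBlocks₂₁ M.toBlocks₂₂ = J0 m K := by
      rw [Matrix.fromBlocks_toBlocks]
      exact hM
    have h2 := exists_sw h1
    rwa [Matrix.fromBlocks_toBlocks] at h2
  have hM' : (sw K T * M)ᵀ * J0 m K * (sw K T * M) = J0 m K := by
    calc (sw K T * M)ᵀ * J0 m K * (sw K T * M) = Mᵀ * ((sw K T)ᵀ * J0 m K * sw K T) * M := by
          rw [Matrix.transpose_mul]
          simp only [Matrix.mul_assoc]
      _ = J0 m K := by rw [sw_form, hM]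
  have h3 : (Matrix.fromBlocks (sw K T * M).toBlocks₁₁ (sw K T * M).toBlocks₁₂ (sw K T * M).toBlocks₂₁ (sw K T * M).toBlocks₂₂)ᵀ *
      J0 m K * Matrix.fromBlocks (sw K T * M).toBlocks₁₁ (sw K T * M).toBlocks₁₂ (sw K T * M).toBlocks₂₁
        (sw K T * M).toBlocks₂₂ = J0 m K := by
    rw [Matrix.fromBlocks_toBlocks]
    exact hM'
  obtain ⟨h4, h5⟩ := cell_mem hZ h2 hT h3
  rw [Matrix.fromBlocks_toBlocks] at h4 h5
  rw [Matrix.det_mul, sw_det, hdet, mul_one] at h5
  have h6 : Even T.card := (neg_one_pow_eq_one_iff_even (by norm_num)).1 h5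
  have h7 : M = sw K T * (sw K T * M) := by
    rw [← Matrix.mul_assoc, sw_sq, Matrix.one_mul]
  rw [h7]
  exact hZ.mul _ (sw_even hZ h2 h6) _ h4

end Pool.Agent.H34Z
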