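import Pool.Agent.Lib.H34Z.A01
import Pool.Agent.Lib.H34Z.G01
import Pool.Agent.Lib.H34Z.G06

/-!
# G07: generation of the groups of the full Lie algebras
-/

set_option autoImplicit false
set_option linter.unusedSectionVars false
namespace Pool.Agent.H34Z
open Matrix Module Pool.Agent.H53Toric Pool.Agent.H76P

variable {κ : Type*} [Fintype κ] [DecidableEq κ] {K : Type*} [Field K] [CharZero K] {J : Matrix κ κ K} {Z : Set (Matrix κ κ K)}

/-- PROOF. Let `m = {i // ε i = 1}` (classical), `r` its cardinality, and identify `Fin r` with `m` (`Fintype.equivFin`, call it `s : Fin r → κ`, injective with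
range `{ε = 1}`); below `i`, `j` stand for elements of `m`.  `P` has the columns `Pi.single i 1` (`inl i`) and `(J i (π i))⁻¹ • Pi.single (π i) 1` (`inr i`), `Q` the rows `Pi.single i 1` (`inl i`) and
`J i (π i) • Pi.single (π i) 1` (`inr i`).  `Q * P = 1` (`π i ≠ j` for `ε i = ε j = 1`), `P * Q = 1` (each `k : κ` is `i` or `π i` for exactly one `i` with `ε i = 1`;
or `Matrix.mul_eq_one_comm_of_card_eq`).  `(Pᵀ J P)`: `(inl i, inl j)`: `J i j = 0` (`ε (π i) = -1 ≠ ε j`), `(inl i, inr j)`: `J i (π j) * (J j (π j))⁻¹ = δ i j`,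
`(inr i, inl j)`: by symmetry, `(inr i, inr j)`: `J (π i) (π j) = 0` since `π (π i) = i ≠ π j`. -/
theorem exists_std {π : κ → κ} (hJ : Jᵀ = J) (hm : Mon J π) {ε : κ → K} (hε : ∀ k, ε k = 1 ∨ ε k = -1) (hπ : ∀ k, ε (π k) = -ε k) :
    ∃ (r : ℕ) (P : Matrix κ (Fin r ⊕ Fin r) K) (Q : Matrix (Fin r ⊕ Fin r) κ K),
      P * Q = 1 ∧ Q * P = 1 ∧ Pᵀ * J * P = J0 (Fin r) K ∧ Fintype.card κ = 2 * r := by
  classical
  have h11 : (1 : K) ≠ -1 := by
    intro h
    have h2 : (2 : K) = 0 := by linear_combination h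
    exact two_ne_zero h2
  obtain ⟨r, hr⟩ : ∃ r, r = Fintype.card {i : κ // ε i = 1} := ⟨_, rfl⟩
  have eF : Fin r ≃ {i : κ // ε i = 1} := Fintype.equivOfCardEq (by rw [Fintype.card_fin, hr])
  obtain ⟨s, hs⟩ : ∃ s : Fin r → κ, s = fun x => (eF x : κ) := ⟨_, rfl⟩
  have hs1 : ∀ x, ε (s x) = 1 := fun x => by
    rw [hs]
    exact (eF x).2
  have hsi : Function.Injective s := by
    intro x y hxy
    rw [hs] at hxy
    exact eF.injective (Subtype.ext hxy)
  have hss : ∀ k, ε k = 1 → ∃ x, s x = k := by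
    intro k hk
    refine ⟨eF.symm ⟨k, hk⟩, ?_⟩
    rw [hs]
    change ((eF (eF.symm ⟨k, hk⟩) : {i : κ // ε i = 1}) : κ) = k
    rw [Equiv.apply_symm_apply]
  have hπi : Function.Injective π := fun x y h => by
    rw [← hm.inv x, h, hm.inv]
  have hs2 : ∀ x, ε (π (s x)) = -1 := fun x => by rw [hπ, hs1]
  have hbij : Function.Bijective (Sum.elim s fun x => π (s x)) := by
    constructor
    · rintro (x | x) (y | y) hxy
      · exact congrArg Sum.inl (hsi hxy)
      · exact absurd (((hs1 x).symm.trans (congrArg ε hxy)).trans (hs2 y)) h11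
      · exact absurd (((hs1 y).symm.trans (congrArg ε hxy.symm)).trans (hs2 x)) h11
      · exact congrArg Sum.inr (hsi (hπi hxy))
    · intro k
      rcases hε k with h | h
      · obtain ⟨x, hx⟩ := hss k h
        exact ⟨Sum.inl x, hx⟩
      · obtain ⟨x, hx⟩ := hss (π k) (by rw [hπ, h, neg_neg])
        refine ⟨Sum.inr x, ?_⟩
        change π (s x) = k
        rw [hx, hm.inv]
  obtain ⟨e, he⟩ : ∃ e : Fin r ⊕ Fin r ≃ κ, (e : Fin r ⊕ Fin r → κ) = Sum.elim s fun x => π (s x) :=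
    ⟨Equiv.ofBijective _ hbij, rfl⟩
  have hel : ∀ x, e (Sum.inl x) = s x := fun x => congrFun he (Sum.inl x)
  have her : ∀ x, e (Sum.inr x) = π (s x) := fun x => congrFun he (Sum.inr x)
  obtain ⟨u, hu⟩ : ∃ u : Fin r ⊕ Fin r → K, u = Sum.elim (fun _ => 1) fun x => (J (s x) (π (s x)))⁻¹ := ⟨_, rfl⟩
  have hu0 : ∀ x, u x ≠ 0 := by
    rw [hu]
    rintro (x | x)
    · exact one_ne_zero
    · exact inv_ne_zero (hm.ne (s x))
  have key : ∀ x y, u x * J (e x) (e y) * u y = J0 (Fin r) K x y := by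
    unfold J0
    rw [hu]
    rintro (x | x) (y | y)
    · rw [hel, hel, Matrix.fromBlocks_apply₁₁, Matrix.zero_apply, hm.zero, mul_zero, zero_mul]
      intro h
      exact h11 (((hs1 y).symm.trans (congrArg ε h)).trans (hs2 x))
    · rw [hel, her, Matrix.fromBlocks_apply₁₂]
      change 1 * J (s x) (π (s y)) * (J (s y) (π (s y)))⁻¹ = _
      by_cases hxy : x = y
      · rw [hxy, Matrix.one_apply_eq, one_mul, mul_inv_cancel₀ (hm.ne (s y))]
      · rw [Matrix.one_apply_ne hxy, hm.zero, mul_zero, zero_mul]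
        intro h
        exact hxy (hsi (hπi h)).symm
    · rw [hel, her, Matrix.fromBlocks_apply₂₁]
      change (J (s x) (π (s x)))⁻¹ * J (π (s x)) (s y) * 1 = _
      have h3 : J (π (s x)) (s y) = J (s y) (π (s x)) := congrFun (congrFun hJ (s y)) (π (s x))
      rw [h3]
      by_cases hxy : x = y
      · rw [hxy, Matrix.one_apply_eq, mul_one, inv_mul_cancel₀ (hm.ne (s y))]
      · rw [Matrix.one_apply_ne hxy, hm.zero (s y), mul_zero, zero_mul]
        intro h
        exact hxy (hsi (hπi h))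
    · rw [her, her, Matrix.fromBlocks_apply₂₂, Matrix.zero_apply, hm.zero (π (s x)), mul_zero, zero_mul]
      rw [hm.inv]
      intro h
      exact h11 (((hs1 x).symm.trans (congrArg ε h.symm)).trans (hs2 y))
  refine ⟨r, Matrix.of fun k x => if k = e x then u x else 0, Matrix.of fun x k => if k = e x then (u x)⁻¹ else 0, ?_, ?_, ?_, ?_⟩
  · ext k l
    rw [Matrix.mul_apply]
    simp only [Matrix.of_apply]
    rw [Finset.sum_eq_single (e.symm k)]
    · rw [Equiv.apply_symm_apply, if_pos rfl]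
      by_cases hkl : k = l
      · rw [hkl, if_pos rfl, Matrix.one_apply_eq, mul_inv_cancel₀ (hu0 _)]
      · rw [if_neg (fun h => hkl h.symm), mul_zero, Matrix.one_apply_ne hkl]
    · intro x _ hx
      rw [if_neg, zero_mul]
      rintro rfl
      exact hx (Equiv.symm_apply_apply e x).symm
    · intro h
      exact absurd (Finset.mem_univ _) h
  · ext x y
    rw [Matrix.mul_apply]
    simp only [Matrix.of_apply]
    rw [Finset.sum_eq_single (e x)]
    · rw [if_pos rfl]
      by_cases hxy : x = y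
      · rw [hxy, if_pos rfl, Matrix.one_apply_eq, inv_mul_cancel₀ (hu0 _)]
      · rw [if_neg (fun h => hxy (e.injective h)), mul_zero, Matrix.one_apply_ne hxy]
    · intro k _ hk
      rw [if_neg hk, zero_mul]
    · intro h
      exact absurd (Finset.mem_univ _) h
  · ext x y
    rw [← key, Matrix.mul_apply, Finset.sum_eq_single (e y)]
    · rw [Matrix.mul_apply, Finset.sum_eq_single (e x)]
      · rw [Matrix.transpose_apply, Matrix.of_apply, Matrix.of_apply, if_pos rfl, if_pos rfl]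
      · intro k _ hk
        rw [Matrix.transpose_apply, Matrix.of_apply, if_neg hk, zero_mul]
      · intro h
        exact absurd (Finset.mem_univ _) h
    · intro k _ hk
      rw [Matrix.of_apply, if_neg hk, mul_zero]
    · intro h
      exact absurd (Finset.mem_univ _) h
  · rw [← Fintype.card_congr e, Fintype.card_sum, Fintype.card_fin]
    ring

/-- PROOF. `gen_so0` for the set `{X | P * X * Q ∈ Z}` (`exists_std`): if `N * N = 0`, `Nᵀ * J0 + J0 * N = 0` then `P * N * Q` has square zero and is skew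
for `J` (`(P N Q)ᵀ J + J (P N Q) = Qᵀ (Nᵀ Pᵀ J P + Pᵀ J P N) Q`), `1 + P N Q = P (1 + N) Q`.  The element `Q * M * P` preserves `J0` and has
determinant `1` (`Matrix.det_mul_comm`-like: `det (Q * M * P) = det (M * (P * Q))`; the index types have the same cardinality, use
`Matrix.det_comm'`), and `P * (Q * M * P) * Q = M`. -/
theorem gen_orth [IsAlgClosed K] {π : κ → κ} (hJ : Jᵀ = J) (hm : Mon J π) {ε : κ → K} (hε : ∀ k, ε k = 1 ∨ ε k = -1)
    (hπ : ∀ k, ε (π k) = -ε k) (h3 : 3 ≤ Fintype.card κ) (hZ : Zs J Z) {M : Matrix κ κ K} (hM : Mᵀ * J * M = J)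
    (hdet : M.det = 1) : M ∈ Z := by
  obtain ⟨r, P, Q, hPQ, hQP, hPJ, hr⟩ := exists_std hJ hm hε hπ
  have hZ' : Zs (J0 (Fin r) K) {X | P * X * Q ∈ Z} := by
    refine ⟨?_, ?_, ?_⟩
    · change P * (1 : Matrix (Fin r ⊕ Fin r) (Fin r ⊕ Fin r) K) * Q ∈ Z
      rw [Matrix.mul_one, hPQ]
      exact hZ.one
    · intro a ha b hb
      have h1 : P * (a * b) * Q = P * a * Q * (P * b * Q) := by
        calc P * (a * b) * Q = P * a * (1 : Matrix (Fin r ⊕ Fin r) (Fin r ⊕ Fin r) K) * (b * Q) := by simp only [Matrix.mul_assoc, Matrix.one_mul]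
          _ = P * a * (Q * P) * (b * Q) := by rw [hQP]
          _ = P * a * Q * (P * b * Q) := by simp only [Matrix.mul_assoc]
      change P * (a * b) * Q ∈ Z
      rw [h1]
      exact hZ.mul _ ha _ hb
    · intro N hN hs
      change P * ((1 : Matrix (Fin r ⊕ Fin r) (Fin r ⊕ Fin r) K) + N) * Q ∈ Z
      have h1 : P * ((1 : Matrix (Fin r ⊕ Fin r) (Fin r ⊕ Fin r) K) + N) * Q = 1 + P * N * Q := by
        rw [Matrix.mul_add, Matrix.add_mul, Matrix.mul_one, hPQ]
      rw [h1]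
      refine hZ.exp _ ?_ ?_
      · calc P * N * Q * (P * N * Q) = P * N * (Q * P) * (N * Q) := by simp only [Matrix.mul_assoc]
          _ = P * (N * N) * Q := by
            rw [hQP]
            simp only [Matrix.mul_assoc, Matrix.one_mul]
          _ = 0 := by rw [hN, Matrix.mul_zero, Matrix.zero_mul]
      · have h2 : (P * N * Q)ᵀ * J = Qᵀ * (Nᵀ * (Pᵀ * J * P)) * Q := by
          calc (P * N * Q)ᵀ * J = Qᵀ * (Nᵀ * (Pᵀ * J)) * (1 : Matrix κ κ K) := by
                rw [Matrix.transpose_mul, Matrix.transpose_mul, Matrix.mul_one]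
                simp only [Matrix.mul_assoc]
            _ = Qᵀ * (Nᵀ * (Pᵀ * J)) * (P * Q) := by rw [hPQ]
            _ = Qᵀ * (Nᵀ * (Pᵀ * J * P)) * Q := by simp only [Matrix.mul_assoc]
        have h3 : J * (P * N * Q) = Qᵀ * (Pᵀ * J * P * N) * Q := by
          have h4 : Qᵀ * Pᵀ = (1 : Matrix κ κ K) := by rw [← Matrix.transpose_mul, hPQ, Matrix.transpose_one]
          calc J * (P * N * Q) = (1 : Matrix κ κ K) * (J * (P * N * Q)) := by rw [Matrix.one_mul]
            _ = Qᵀ * Pᵀ * (J * (P * N * Q)) := by rw [h4]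
            _ = Qᵀ * (Pᵀ * J * P * N) * Q := by simp only [Matrix.mul_assoc]
        rw [h2, h3, hPJ, ← Matrix.add_mul, ← Matrix.mul_add, hs, Matrix.mul_zero, Matrix.zero_mul]
  have hQJ : Qᵀ * J0 (Fin r) K * Q = J := by
    rw [← hPJ]
    calc Qᵀ * (Pᵀ * J * P) * Q = (Qᵀ * Pᵀ) * J * (P * Q) := by simp only [Matrix.mul_assoc]
      _ = J := by rw [← Matrix.transpose_mul, hPQ, Matrix.transpose_one, Matrix.one_mul, Matrix.mul_one]
  have h5 : (Q * M * P)ᵀ * J0 (Fin r) K * (Q * M * P) = J0 (Fin r) K := by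
    calc (Q * M * P)ᵀ * J0 (Fin r) K * (Q * M * P) = Pᵀ * (Mᵀ * (Qᵀ * J0 (Fin r) K * Q) * M) * P := by
          rw [Matrix.transpose_mul, Matrix.transpose_mul]
          simp only [Matrix.mul_assoc]
      _ = J0 (Fin r) K := by rw [hQJ, hM, hPJ]
  have h6 : (Q * M * P).det = 1 := by
    rw [Matrix.det_conj_of_mul_eq_one hQP hPQ, hdet]
  have h7 : 2 ≤ Fintype.card (Fin r) := by
    rw [Fintype.card_fin]
    omega
  have h8 : P * (Q * M * P) * Q ∈ Z := gen_so0 hZ' h7 h5 h6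
  have h9 : P * (Q * M * P) * Q = M := by
    calc P * (Q * M * P) * Q = (P * Q) * M * (P * Q) := by simp only [Matrix.mul_assoc]
      _ = M := by rw [hPQ, Matrix.one_mul, Matrix.mul_one]
  rwa [h9] at h8

/-- PROOF. Cases of `hL`: `s`: `gen_sp` (`Zs`: `skew_iff`), `o`: `gen_orth` (`hπ` from `dg_skew`, `hεL`), `n`: `gen_sl` (the trace of `phi N` is `N.trace`). -/
theorem FB.gen [IsAlgClosed K] {t : Prop} {L : Submodule K (Module.End K (κ → K))} (hL : FB t L J) {ε : κ → K}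
    (hεL : dg ε ∈ L) (hε : ∀ k, ε k = 1 ∨ ε k = -1)
    (h1 : (1 : Matrix κ κ K) ∈ Z) (hmul : ∀ a ∈ Z, ∀ b ∈ Z, a * b ∈ Z)
    (hexp : ∀ N : Matrix κ κ K, N * N = 0 → phi N ∈ L → 1 + N ∈ Z)
    {M : Matrix κ κ K} (hM : t → Mᵀ * J * M = J) (hdet : M.det = 1) : M ∈ Z := by
  rcases hL with ⟨ht, π, hJ, hJd, hm, hL⟩ | ⟨ht, π, hJ, hJd, hm, hL, h6, h8⟩ | ⟨ht, hL, h2⟩
  · exact gen_sp hJ hJd ⟨h1, hmul, fun N hN hs => hexp N hN ((hL _).2 ((skew_iff hJd N).2 hs))⟩ (hM ht)
  · exact gen_orth hJ hm hε ((dg_skew hm hJd ε).1 ((hL _).1 hεL)) (by omega)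
      ⟨h1, hmul, fun N hN hs => hexp N hN ((hL _).2 ((skew_iff hJd N).2 hs))⟩ (hM ht) hdet
  · refine gen_sl h1 hmul (fun N hN hs => hexp N hN ((hL _).2 ?_)) hdet
    have h3 : LinearMap.trace K (κ → K) (phi N) = N.trace := Matrix.trace_toLin'_eq N
    rw [h3, hs]

end Pool.Agent.H34Z
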