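import Pool.Agent.Lib.H34Z.A01

/-!
# A03: coroots of the orthogonal Lie algebra
-/

set_option autoImplicit false
set_option linter.unusedSectionVars false
namespace Pool.Agent.H34Z
open Module Matrix Pool.Agent.H53Toric Pool.Agent.H76P

variable {κ : Type*} [Fintype κ] [DecidableEq κ] {K : Type*} [Field K] [CharZero K] {J : Matrix κ κ K} {π : κ → κ}
  {L : Submodule K (Module.End K (κ → K))} {ε : κ → K}

theorem a03_dg (g : κ → K) : dg g = phi (Matrix.diagonal g) := by
  refine LinearMap.ext fun v => funext fun a => ?_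
  rw [phi_apply, dg_apply, Matrix.mulVec_diagonal]

theorem a03_left (hm : Mon J π) (p i : κ) (c : K) :
    Matrix.single p i c * J = Matrix.single p (π i) (c * J i (π i)) := by
  ext x y
  by_cases hx : x = p
  · subst hx
    rw [Matrix.single_mul_apply_same]
    by_cases hy : y = π i
    · subst hy
      rw [Matrix.single_apply_same]
    · rw [hm.zero i y hy, mul_zero, Matrix.single_apply_of_ne]
      rintro ⟨-, h⟩
      exact hy h.symm
  · rw [Matrix.single_mul_apply_of_ne _ _ _ _ _ hx, Matrix.single_apply_of_ne]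
    rintro ⟨h, -⟩
    exact hx h.symm

theorem a03_right (hm : Mon J π) (hJ : Jᵀ = J) (p q : κ) (c : K) :
    J * Matrix.single p q c = Matrix.single (π p) q (J p (π p) * c) := by
  have h1 : (J * Matrix.single p q c)ᵀ = (Matrix.single (π p) q (J p (π p) * c))ᵀ := by
    rw [Matrix.transpose_mul, hJ, Matrix.transpose_single, Matrix.transpose_single, a03_left hm,
      mul_comm c]
  exact Matrix.transpose_injective h1

/-- The skew matrix of a pair of indices. -/
def a03_M (J : Matrix κ κ K) (π : κ → κ) (p q : κ) : Matrix κ κ K :=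
  Matrix.single p (π q) (J q (π q)) - Matrix.single q (π p) (J p (π p))

theorem a03_skew (hm : Mon J π) (hJ : Jᵀ = J) (p q : κ) :
    (a03_M J π p q)ᵀ * J + J * a03_M J π p q = 0 := by
  unfold a03_M
  rw [Matrix.transpose_sub, Matrix.transpose_single, Matrix.transpose_single, sub_mul, mul_sub,
    a03_left hm, a03_left hm, a03_right hm hJ, a03_right hm hJ, mul_comm (J p (π p)) (J q (π q))]
  abel

theorem a03_br (f : κ → K) (p q : κ) (c : K) :
    Matrix.diagonal f * Matrix.single p q c - Matrix.single p q c * Matrix.diagonal f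
      = (f p - f q) • Matrix.single p q c := by
  ext x y
  rw [Matrix.sub_apply, Matrix.diagonal_mul, Matrix.mul_diagonal, Matrix.smul_apply, smul_eq_mul]
  by_cases h : p = x ∧ q = y
  · obtain ⟨rfl, rfl⟩ := h
    ring
  · rw [Matrix.single_apply_of_ne _ _ _ _ _ h]
    ring

theorem a03_brM (f : κ → K) (p q : κ) (s : K) (h1 : f p - f (π q) = s) (h2 : f q - f (π p) = s) :
    Matrix.diagonal f * a03_M J π p q - a03_M J π p q * Matrix.diagonal f = s • a03_M J π p q := by
  unfold a03_M
  have h3 := a03_br f p (π q) (J q (π q))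
  have h4 := a03_br f q (π p) (J p (π p))
  rw [h1] at h3
  rw [h2] at h4
  rw [smul_sub, ← h3, ← h4, mul_sub, sub_mul]
  abel

/-- PROOF. Write `i' = π i`, `j' = π j`, `a = J i i' = J i' i`, `b = J j j' = J j' j` (symmetric, not zero).  `i, j, i', j'` are different
(`ε` is `1` on `i, j` and `-1` on `i', j'`, `i ≠ j`, `π` is injective).
`E = phi (b • single i j' 1 - a • single j i' 1)`, `F₀ = phi (b • single i' j 1 - a • single j' i 1)`, `F = -(a * b)⁻¹ • F₀`.
Skew (`skew_iff hdet`): `(single i j' 1)ᵀ * J = single j' i 1 * J` is row `i` of `J` moved to row `j'`, i.e. `a` at `(j', i')`; `J * single i j' 1` is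
column `i` of `J` moved to column `j'`, i.e. `a` at `(i', j')`; `(single j i' 1)ᵀ * J` is `b` at `(i', j')`; `J * single j i' 1` is `b` at `(j', i')`.
So `Eᵀ J + J E` has the entries `b a - a b = 0` at `(j', i')` and `- a b + b a = 0` at `(i', j')`.  `F₀` is the same expression for `i', j'`.
Products: `E F₀ = -a b (single i i 1 + single j j 1)`, `F₀ E = -a b (single i' i' 1 + single j' j' 1)` (all other products of two `single`
vanish), so `[E, F] = single i i 1 + single j j 1 - single i' i' 1 - single j' j' 1`.  `[dg f, single p q 1] = (f p - f q) • single p q 1`. -/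
theorem cor_o (hJ : Jᵀ = J) (hdet : IsUnit J.det) (hm : Mon J π) (hL : ∀ X, adjE J X = -X → X ∈ L) {i j : κ}
    (hij : i ≠ j) (h1 : ε i = 1) (h2 : ε j = 1) (h3 : ε (π i) = -1) (h4 : ε (π j) = -1) :
    Cor L ε (Pi.single i 1 + Pi.single j 1 - Pi.single (π i) 1 - Pi.single (π j) 1) := by
  have h11 : (1 : K) ≠ -1 := by
    intro h
    have h5 : (2 : K) = 0 := by linear_combination h
    exact two_ne_zero h5
  have hii' : i ≠ π i := fun h => h11 (h1.symm.trans ((congrArg ε h).trans h3))
  have hij' : i ≠ π j := fun h => h11 (h1.symm.trans ((congrArg ε h).trans h4))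
  have hji' : j ≠ π i := fun h => h11 (h2.symm.trans ((congrArg ε h).trans h3))
  have hjj' : j ≠ π j := fun h => h11 (h2.symm.trans ((congrArg ε h).trans h4))
  have hi'j' : π i ≠ π j := fun h => hij (by rw [← hm.inv i, h, hm.inv])
  set h : κ → K := Pi.single i 1 + Pi.single j 1 - Pi.single (π i) 1 - Pi.single (π j) 1 with hh
  have hhi : h i = 1 := by
    rw [hh]
    simp [Pi.single_eq_of_ne hij, Pi.single_eq_of_ne hii', Pi.single_eq_of_ne hij']
  have hhj : h j = 1 := by
    rw [hh]
    simp [Pi.single_eq_of_ne hij.symm, Pi.single_eq_of_ne hji', Pi.single_eq_of_ne hjj']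
  have hhi' : h (π i) = -1 := by
    rw [hh]
    simp [Pi.single_eq_of_ne hii'.symm, Pi.single_eq_of_ne hji'.symm, Pi.single_eq_of_ne hi'j']
  have hhj' : h (π j) = -1 := by
    rw [hh]
    simp [Pi.single_eq_of_ne hij'.symm, Pi.single_eq_of_ne hjj'.symm, Pi.single_eq_of_ne hi'j'.symm]
  have ha0 := hm.ne i
  have hb0 := hm.ne j
  have hs1 : J (π i) i = J i (π i) := by
    have := congrFun (congrFun hJ i) (π i)
    rwa [Matrix.transpose_apply] at this
  have hs2 : J (π j) j = J j (π j) := by
    have := congrFun (congrFun hJ j) (π j)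
    rwa [Matrix.transpose_apply] at this
  set a := J i (π i) with ha
  set b := J j (π j) with hb
  have hM1 : a03_M J π i j = Matrix.single i (π j) b - Matrix.single j (π i) a := rfl
  have hM2 : a03_M J π (π i) (π j) = Matrix.single (π i) j b - Matrix.single (π j) i a := by
    unfold a03_M
    rw [hm.inv, hm.inv, hs1, hs2]
  have hab : a * b ≠ 0 := mul_ne_zero ha0 hb0
  have hEF : a03_M J π i j * a03_M J π (π i) (π j)
      = (a * b) • (-(Matrix.single i i 1 + Matrix.single j j 1)) := by
    rw [hM1, hM2, sub_mul, mul_sub, mul_sub, Matrix.single_mul_single_of_ne _ _ _ _ hi'j'.symm,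
      Matrix.single_mul_single_same, Matrix.single_mul_single_same,
      Matrix.single_mul_single_of_ne _ _ _ _ hi'j', smul_neg, smul_add, Matrix.smul_single,
      Matrix.smul_single, smul_eq_mul, mul_one, mul_comm b a]
    abel
  have hFE : a03_M J π (π i) (π j) * a03_M J π i j
      = (a * b) • (-(Matrix.single (π i) (π i) 1 + Matrix.single (π j) (π j) 1)) := by
    rw [hM1, hM2, sub_mul, mul_sub, mul_sub, Matrix.single_mul_single_of_ne _ _ _ _ hij.symm,
      Matrix.single_mul_single_same, Matrix.single_mul_single_same,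
      Matrix.single_mul_single_of_ne _ _ _ _ hij, smul_neg, smul_add, Matrix.smul_single,
      Matrix.smul_single, smul_eq_mul, mul_one, mul_comm b a]
    abel
  have hdiag : Matrix.diagonal h = Matrix.single i i 1 + Matrix.single j j 1
      - Matrix.single (π i) (π i) 1 - Matrix.single (π j) (π j) 1 := by
    rw [hh, ← Matrix.diagonal_single, ← Matrix.diagonal_single, ← Matrix.diagonal_single,
      ← Matrix.diagonal_single, Matrix.diagonal_add, Matrix.diagonal_sub, Matrix.diagonal_sub]
    rfl
  refine ⟨phi (a03_M J π i j), hL _ ((skew_iff hdet _).mpr (a03_skew hm hJ i j)),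
    phi ((-(a * b)⁻¹) • a03_M J π (π i) (π j)), ?_, ?_, ?_, ?_, ?_, ?_⟩
  · apply hL
    rw [skew_iff hdet, Matrix.transpose_smul, smul_mul_assoc, mul_smul_comm, ← smul_add,
      a03_skew hm hJ, smul_zero]
  · rw [a03_dg, ← map_mul, ← map_mul, ← map_sub, a03_brM ε i j 2 (by rw [h1, h4]; norm_num)
      (by rw [h2, h3]; norm_num), map_smul]
  · rw [a03_dg, ← map_mul, ← map_mul, ← map_sub, mul_smul_comm, smul_mul_assoc, ← smul_sub,
      a03_brM ε (π i) (π j) (-2) (by rw [hm.inv, h2, h3]; norm_num)
      (by rw [hm.inv, h1, h4]; norm_num), smul_comm, map_smul]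
  · rw [a03_dg, ← map_mul, ← map_mul, ← map_sub, mul_smul_comm, smul_mul_assoc, ← smul_sub, hEF,
      hFE, ← smul_sub, smul_smul, neg_mul, inv_mul_cancel₀ hab, hdiag]
    congr 1
    rw [_root_.neg_smul, one_smul]
    abel
  · rw [a03_dg, ← map_mul, ← map_mul, ← map_sub, a03_brM h i j 2 (by rw [hhi, hhj']; norm_num)
      (by rw [hhj, hhi']; norm_num), map_smul]
  · rw [a03_dg, ← map_mul, ← map_mul, ← map_sub, mul_smul_comm, smul_mul_assoc, ← smul_sub,
      a03_brM h (π i) (π j) (-2) (by rw [hm.inv, hhj, hhi']; norm_num)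
      (by rw [hm.inv, hhi, hhj']; norm_num), smul_comm, map_smul]

end Pool.Agent.H34Z
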