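import Pool.Agent.Lib.H34Z.A01

/-!
# S01: the Lie algebra of all operators of trace zero is simple
-/

set_option autoImplicit false
set_option linter.unusedSectionVars false
namespace Pool.Agent.H34Z
open Module Matrix Pool.Agent.H53Toric Pool.Agent.H76P
open Pool.Agent.H76T (IsIdeal)

variable {κ : Type*} [Fintype κ] [DecidableEq κ] {K : Type*} [Field K] [CharZero K]
  {L I : Submodule K (Module.End K (κ → K))}

theorem s01_tr (y : Matrix κ κ K) : LinearMap.trace K (κ → K) (phi y) = y.trace :=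
  Matrix.trace_toLin'_eq y

theorem s01_sq {V : Type*} [Ring V] {R X : V} (h : R * R = 0) :
    R * (R * X - X * R) - (R * X - X * R) * R = -(R * X * R + R * X * R) := by
  have e1 : R * (R * X - X * R) - (R * X - X * R) * R = R * R * X + X * (R * R) - (R * X * R + R * X * R) := by
    noncomm_ring
  rw [e1, h, zero_mul, mul_zero, add_zero, zero_sub]

theorem s01_two (hI : IsIdeal L I) {R : Module.End K (κ → K)} (hR : R ∈ L) (h2 : R * R = 0)
    {X : Module.End K (κ → K)} (hX : X ∈ I) : R * X * R ∈ I := by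
  have h1 := hI.2 R hR _ (hI.2 R hR X hX)
  rw [s01_sq h2] at h1
  have h3 : R * X * R = (-(1 / 2 : K)) • (-(R * X * R + R * X * R)) := by
    module
  rw [h3]
  exact I.smul_mem _ h1

theorem s01_mem (hL : ∀ X, X ∈ L ↔ LinearMap.trace K (κ → K) X = 0) {i j : κ} (hij : i ≠ j) (c : K) :
    phi (Matrix.single i j c) ∈ L := by
  rw [hL, s01_tr, Matrix.trace_single_eq_of_ne i j _ hij]

theorem s01_sym (hL : ∀ X, X ∈ L ↔ LinearMap.trace K (κ → K) X = 0) (hI : IsIdeal L I) {x : Matrix κ κ K}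
    (hx : phi x ∈ I) {i j : κ} (hij : i ≠ j) (h : x j i ≠ 0) : phi (Matrix.single i j (1 : K)) ∈ I := by
  have h1 := s01_two hI (s01_mem hL hij 1) (by
    rw [← map_mul, Matrix.single_mul_single_of_ne _ _ _ _ (Ne.symm hij), map_zero]) hx
  rw [← map_mul, ← map_mul, Matrix.single_mul_mul_single, one_mul, mul_one] at h1
  have h2 : phi (Matrix.single i j (1 : K)) = (x j i)⁻¹ • phi (Matrix.single i j (x j i)) := by
    rw [← map_smul, Matrix.smul_single, smul_eq_mul, inv_mul_cancel₀ h]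
  rw [h2]
  exact I.smul_mem _ h1

theorem s01_ex (hL : ∀ X, X ∈ L ↔ LinearMap.trace K (κ → K) X = 0) (hI : IsIdeal L I) (h0 : I ≠ ⊥) :
    ∃ i j : κ, i ≠ j ∧ phi (Matrix.single i j (1 : K)) ∈ I := by
  obtain ⟨X, hX, hX0⟩ := I.ne_bot_iff.1 h0
  obtain ⟨x, rfl⟩ := (phi (ι := κ) (K := K)).surjective X
  by_cases hd : ∃ i j, i ≠ j ∧ x j i ≠ 0
  · obtain ⟨i, j, hij, hne⟩ := hd
    exact ⟨i, j, hij, s01_sym hL hI hX hij hne⟩
  push Not at hd
  by_cases hc : ∃ i j, x i i ≠ x j j
  · obtain ⟨i, j, hne⟩ := hc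
    have hij : i ≠ j := fun h => hne (by rw [h])
    refine ⟨i, j, hij, ?_⟩
    have h1 := hI.2 _ (s01_mem hL hij 1) _ hX
    have h2 : Matrix.single i j (1 : K) * x - x * Matrix.single i j (1 : K) = (x j j - x i i) • Matrix.single i j (1 : K) := by
      ext a b
      rw [Matrix.sub_apply, Matrix.smul_apply, Matrix.single_apply, smul_eq_mul]
      by_cases ha : a = i
      · subst ha
        rw [Matrix.single_mul_apply_same, one_mul]
        by_cases hb : b = j
        · subst hb
          rw [Matrix.mul_single_apply_same, mul_one, if_pos ⟨rfl, rfl⟩, mul_one]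
        · rw [Matrix.mul_single_apply_of_ne _ _ _ _ _ hb, if_neg (fun h => hb h.2.symm), mul_zero, sub_zero]
          exact hd b j hb
      · rw [Matrix.single_mul_apply_of_ne _ _ _ _ _ ha, zero_sub, if_neg (fun h => ha h.1.symm), mul_zero]
        by_cases hb : b = j
        · subst hb
          rw [Matrix.mul_single_apply_same, mul_one, hd i a (Ne.symm ha), neg_zero]
        · rw [Matrix.mul_single_apply_of_ne _ _ _ _ _ hb, neg_zero]
    rw [← map_mul, ← map_mul, ← map_sub, h2, map_smul] at h1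
    have h3 := I.smul_mem (x j j - x i i)⁻¹ h1
    rwa [smul_smul, inv_mul_cancel₀ (sub_ne_zero.2 (Ne.symm hne)), one_smul] at h3
  · push Not at hc
    exfalso
    apply hX0
    have h1 : x.trace = 0 := by
      rw [← s01_tr]; exact (hL _).1 (hI.1 hX)
    have h2 : x = 0 := by
      ext a b
      rw [Matrix.zero_apply]
      by_cases hab : a = b
      · subst hab
        rw [Matrix.trace] at h1
        have h3 : ∑ i, x.diag i = ∑ _i : κ, x a a := Finset.sum_congr rfl fun i _ => by
          rw [Matrix.diag_apply, hc i a]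
        rw [h3, Finset.sum_const, nsmul_eq_mul] at h1
        refine (mul_eq_zero.1 h1).resolve_left ?_
        exact Nat.cast_ne_zero.2 (Finset.card_ne_zero.2 ⟨a, Finset.mem_univ a⟩)
      · exact hd b a (Ne.symm hab)
    rw [h2, map_zero]

theorem s01_r1 (hL : ∀ X, X ∈ L ↔ LinearMap.trace K (κ → K) X = 0) (hI : IsIdeal L I) {a i j : κ}
    (h : phi (Matrix.single i j (1 : K)) ∈ I) (h1 : a ≠ j) (h2 : a ≠ i) : phi (Matrix.single a j (1 : K)) ∈ I := by
  have h3 := hI.2 _ (s01_mem hL h2 1) _ h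
  rw [← map_mul, ← map_mul, ← map_sub, Matrix.single_mul_single_same,
    Matrix.single_mul_single_of_ne _ _ _ _ (Ne.symm h1), sub_zero, mul_one] at h3
  exact h3

theorem s01_r2 (hL : ∀ X, X ∈ L ↔ LinearMap.trace K (κ → K) X = 0) (hI : IsIdeal L I) {b i j : κ}
    (h : phi (Matrix.single i j (1 : K)) ∈ I) (h1 : b ≠ i) (h2 : b ≠ j) : phi (Matrix.single i b (1 : K)) ∈ I := by
  have h3 := hI.2 _ (s01_mem hL (Ne.symm h2) 1) _ h
  rw [← map_mul, ← map_mul, ← map_sub, Matrix.single_mul_single_same,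
    Matrix.single_mul_single_of_ne _ _ _ _ h1, zero_sub, mul_one, map_neg] at h3
  exact (Submodule.neg_mem_iff I).1 h3

theorem s01_all (hL : ∀ X, X ∈ L ↔ LinearMap.trace K (κ → K) X = 0) (hI : IsIdeal L I) (h0 : I ≠ ⊥)
    {a b : κ} (hab : a ≠ b) : phi (Matrix.single a b (1 : K)) ∈ I := by
  obtain ⟨i, j, hij, h⟩ := s01_ex hL hI h0
  have hstep : ∀ {i j : κ}, i ≠ j → phi (Matrix.single i j (1 : K)) ∈ I → b ≠ i → phi (Matrix.single a b (1 : K)) ∈ I := by
    intro i j _ h hb
    have h1 : phi (Matrix.single i b (1 : K)) ∈ I := by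
      by_cases h2 : b = j
      · rw [h2]; exact h
      · exact s01_r2 hL hI h hb h2
    by_cases h2 : a = i
    · rw [h2]; exact h1
    · exact s01_r1 hL hI h1 hab h2
  by_cases hb : b = i
  · refine hstep (Ne.symm hij) (s01_sym hL hI h (Ne.symm hij) ?_) (by rw [hb]; exact hij)
    rw [Matrix.single_apply_same]; exact one_ne_zero
  · exact hstep hij h hb

theorem s01_diag (hL : ∀ X, X ∈ L ↔ LinearMap.trace K (κ → K) X = 0) (hI : IsIdeal L I) (h0 : I ≠ ⊥)
    (a b : κ) : phi (Matrix.single a a (1 : K)) - phi (Matrix.single b b (1 : K)) ∈ I := by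
  by_cases hab : a = b
  · rw [hab, sub_self]; exact I.zero_mem
  have h3 := hI.2 _ (s01_mem hL hab 1) _ (s01_all hL hI h0 (Ne.symm hab))
  rw [← map_mul, ← map_mul, Matrix.single_mul_single_same, Matrix.single_mul_single_same, mul_one] at h3
  exact h3

/-- Notation: `E i j = phi (Matrix.single i j 1)`; `L` is the set of all operators of trace zero.
PROOF. (1) `I` contains some `E i j`, `i ≠ j`.  Let `X ∈ I`, `X ≠ 0`, with the matrix `x`.  If `x j i ≠ 0` for some `i ≠ j`: for `R = E i j`,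
`[R, [R, X]] = R² X - 2 R X R + X R² = -2 x j i • R` (`single i j 1 * x * single i j 1 = x j i • single i j 1`), which is in `I`, so `E i j ∈ I`.
Otherwise `x` is diagonal, not a scalar (a scalar of trace zero is zero, char zero), so `x i i ≠ x j j` for some `i ≠ j`, and
`[X, E i j] = (x i i - x j j) • E i j ∈ I`.
(2) All `E a b`, `a ≠ b`, are in `I`.  Let `E i j ∈ I`.  `[E a i, E i j] = E a j` for `a ≠ j`, `a ≠ i`; `[E i j, E j b] = E i b` for `b ≠ i`, `b ≠ j`;
and `[E j i, [E j i, E i j]] = -2 E j i` (from (1): `-2 (single i j 1) i j • E j i`).  So from `(i, j)` one reaches `(a, j)` for all `a ≠ j`, `(i, b)` for all `b ≠ i`,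
and `(j, i)`.  Let `a ≠ b`: if `b ≠ i`: `(i, j) → (i, b) → (a, b)`.  If `b = i`: `(i, j) → (j, i) → (a, i)`.
(3) `[E a b, E b a] = E a a - E b b ∈ I`.  Each `X` of trace zero is `∑_{a ≠ b} x a b • E a b + ∑_a x a a • (E a a - E c c)` for a fixed `c`
(`∑ x a a = 0`).  So `I = L`. -/
theorem simple_n (hL : ∀ X, X ∈ L ↔ LinearMap.trace K (κ → K) X = 0) (hI : IsIdeal L I) (h0 : I ≠ ⊥) : I = L := by
  refine le_antisymm hI.1 fun X hX => ?_
  obtain ⟨x, rfl⟩ := (phi (ι := κ) (K := K)).surjective X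
  obtain ⟨c, -, -, -⟩ := s01_ex hL hI h0
  have ht : x.trace = 0 := by
    rw [← s01_tr]; exact (hL _).1 hX
  have h2 : phi x = ∑ a, ∑ b, x a b • phi (Matrix.single a b (1 : K)) := by
    conv_lhs => rw [Matrix.matrix_eq_sum_single x]
    rw [map_sum]
    refine Finset.sum_congr rfl fun a _ => ?_
    rw [map_sum]
    refine Finset.sum_congr rfl fun b _ => ?_
    rw [← map_smul, Matrix.smul_single, smul_eq_mul, mul_one]
  have h3 : ∑ a, x a a • phi (Matrix.single c c (1 : K)) = 0 := by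
    rw [← Finset.sum_smul]
    have : ∑ a, x a a = 0 := ht
    rw [this, zero_smul]
  have h4 : phi x = ∑ a, ((∑ b, x a b • phi (Matrix.single a b (1 : K))) - x a a • phi (Matrix.single c c (1 : K))) := by
    rw [Finset.sum_sub_distrib, h3, sub_zero, h2]
  rw [h4]
  refine I.sum_mem fun a _ => ?_
  rw [← Finset.add_sum_erase Finset.univ _ (Finset.mem_univ a), add_sub_right_comm]
  refine I.add_mem ?_ (I.sum_mem fun b hb => I.smul_mem _ (s01_all hL hI h0 ?_))
  · have h5 := I.smul_mem (x a a) (s01_diag hL hI h0 a c)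
    rwa [smul_sub] at h5
  exact Ne.symm (Finset.ne_of_mem_erase hb)

end Pool.Agent.H34Z
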