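import Pool.Agent.Lib.H34Z.A01

/-!
# S02: the symplectic Lie algebra is simple
-/

set_option autoImplicit false
set_option linter.unusedSectionVars false
namespace Pool.Agent.H34Z
open Module Matrix Pool.Agent.H53Toric Pool.Agent.H76P
open Pool.Agent.H76T (IsIdeal)

variable {κ : Type*} [Fintype κ] [DecidableEq κ] {K : Type*} [Field K] [CharZero K] {J : Matrix κ κ K}
  {L I : Submodule K (Module.End K (κ → K))}

/-- The double commutator with an operator of square zero. -/
theorem s02_dbl (hI : IsIdeal L I) {T X : Module.End K (κ → K)} (hT : T ∈ L) (hX : X ∈ I) (h2 : T * T = 0) :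
    T * X * T ∈ I := by
  have h3 := hI.2 T hT _ (hI.2 T hT X hX)
  have h4 : T * (T * X - X * T) - (T * X - X * T) * T = (-2 : K) • (T * X * T) := by
    have h5 : T * (T * X - X * T) - (T * X - X * T) * T = (T * T) * X - (T * X * T) - (T * X * T) + X * (T * T) := by
      rw [mul_sub, sub_mul, ← mul_assoc, ← mul_assoc, mul_assoc X T T]
      abel
    rw [h5, h2, zero_mul, mul_zero]
    module
  rw [h4] at h3
  have h6 := I.smul_mem ((-2 : K)⁻¹) h3
  rw [smul_smul, inv_mul_cancel₀ (by norm_num), one_smul] at h6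
  exact h6

theorem s02_skew (hdet : IsUnit J.det) {X : Module.End K (κ → K)} (hX : adjE J X = -X) (v v' : κ → K) :
    om J (X v) v' = -om J v (X v') := by
  obtain ⟨x, rfl⟩ := (phi (ι := κ) (K := K)).surjective X
  have h1 := (skew_iff hdet x).1 hX
  have h2 : xᵀ * J = -(J * x) := eq_neg_of_add_eq_zero_left h1
  rw [phi_apply, phi_apply, om_apply, om_apply, dotProduct_comm, Matrix.dotProduct_mulVec,
    ← Matrix.mulVec_transpose, Matrix.mulVec_mulVec, dotProduct_comm, h2, Matrix.neg_mulVec, dotProduct_neg,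
    ← Matrix.mulVec_mulVec]

theorem s02_tL (hJ : Jᵀ = -J) (hdet : IsUnit J.det) (hL : ∀ X, X ∈ L ↔ adjE J X = -X) (u : κ → K) :
    trv (om J) u ∈ L := by
  rw [hL, ← phi_trv]
  exact (skew_iff hdet _).2 (trv_skew hJ u)

theorem s02_txt (u : κ → K) (X : Module.End K (κ → K)) :
    trv (om J) u * X * trv (om J) u = om J (X u) u • trv (om J) u := by
  refine LinearMap.ext fun y => ?_
  simp only [Module.End.mul_apply, LinearMap.smul_apply, trv_apply, map_smul, smul_smul, smul_eq_mul]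
  rw [mul_comm]

theorem s02_one (hJ : Jᵀ = -J) (hdet : IsUnit J.det) (hL : ∀ X, X ∈ L ↔ adjE J X = -X) (hI : IsIdeal L I)
    {u : κ → K} {X : Module.End K (κ → K)} (hX : X ∈ I) (hne : om J (X u) u ≠ 0) : trv (om J) u ∈ I := by
  have h1 := s02_dbl hI (s02_tL hJ hdet hL u) hX (trv_sq (om_alt hJ) u)
  rw [s02_txt] at h1
  have h2 := I.smul_mem ((om J (X u) u)⁻¹) h1
  rw [smul_smul, inv_mul_cancel₀ hne, one_smul] at h2
  exact h2

theorem s02_step (hJ : Jᵀ = -J) (hdet : IsUnit J.det) (hL : ∀ X, X ∈ L ↔ adjE J X = -X) (hI : IsIdeal L I)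
    {u v : κ → K} (hu : trv (om J) u ∈ I) (hne : om J u v ≠ 0) : trv (om J) v ∈ I := by
  refine s02_one hJ hdet hL hI hu ?_
  rw [trv_apply, map_smul, LinearMap.smul_apply, smul_eq_mul, omega_antisymm (om_alt hJ) v u]
  exact mul_ne_zero (neg_ne_zero.2 hne) hne

theorem s02_nd2 (hJ : Jᵀ = -J) (hdet : IsUnit J.det) {u : κ → K} (hu : ∀ w, om J u w = 0) : u = 0 := by
  apply om_nd hdet
  intro w
  rw [omega_antisymm (om_alt hJ), hu, neg_zero]

theorem s02_all (hJ : Jᵀ = -J) (hdet : IsUnit J.det) (hL : ∀ X, X ∈ L ↔ adjE J X = -X) (hI : IsIdeal L I)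
    {u : κ → K} (hu : trv (om J) u ∈ I) (hu0 : u ≠ 0) (v : κ → K) : trv (om J) v ∈ I := by
  by_cases hv : v = 0
  · have h1 : trv (om J) v = 0 := by
      refine LinearMap.ext fun y => ?_
      rw [trv_apply, hv, smul_zero, LinearMap.zero_apply]
    rw [h1]
    exact I.zero_mem
  by_cases huv : om J u v = 0
  · obtain ⟨z₁, hz₁⟩ : ∃ z, om J u z ≠ 0 := by
      by_contra hcon
      push Not at hcon
      exact hu0 (s02_nd2 hJ hdet hcon)
    obtain ⟨z₂, hz₂⟩ : ∃ z, om J z v ≠ 0 := by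
      by_contra hcon
      push Not at hcon
      exact hv (om_nd hdet v hcon)
    obtain ⟨z, h1, h2⟩ : ∃ z, om J u z ≠ 0 ∧ om J z v ≠ 0 := by
      by_cases h3 : om J z₁ v = 0
      · by_cases h4 : om J u z₂ = 0
        · refine ⟨z₁ + z₂, ?_, ?_⟩
          · rw [map_add, h4, add_zero]
            exact hz₁
          · rw [map_add, LinearMap.add_apply, h3, zero_add]
            exact hz₂
        · exact ⟨z₂, h4, hz₂⟩
      · exact ⟨z₁, hz₁, h3⟩
    exact s02_step hJ hdet hL hI (s02_step hJ hdet hL hI hu h1) h2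
  · exact s02_step hJ hdet hL hI hu huv

theorem s02_coord (hdet : IsUnit J.det) (x : κ → K) (a : κ) :
    om J x (J⁻¹ *ᵥ Pi.single a 1) = x a := by
  rw [om_apply, Matrix.mulVec_mulVec, Matrix.mul_nonsing_inv _ hdet, Matrix.one_mulVec,
    dotProduct_single_one]

theorem s02_sum (X : Module.End K (κ → K)) (x : κ → K) :
    ∑ a, x a • X (Pi.single a 1) = X x := by
  conv_rhs => rw [pi_eq_sum_univ' x]
  rw [map_sum]
  refine Finset.sum_congr rfl fun a _ => ?_
  rw [map_smul]

/-- Notation: `w(u, v) = u ⬝ᵥ J *ᵥ v = om J u v`; `t u = phi (Matrix.vecMulVec u (J *ᵥ u))`-type operators `v ↦ w(v, u) • u = trv (om J) u v`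
(`H53Toric`: `trv`, `phi_trv`, `trv_skew`, used in `H76Y/AS2.as2_sp`).  `adjE J X = -X` iff `w(X v, v') = -w(v, X v')`.
PROOF. (1) `I` contains some `t u ≠ 0`.  Let `X ∈ I`, `X ≠ 0`.  The form `b(u, v) = w(u, X v)` is symmetric (`w(u, X v) = -w(X u, v) = w(v, X u)`)
and not zero, so there is `u` with `b(u, u) ≠ 0` (otherwise `b(u + v, u + v) = 2 b(u, v) = 0` for all `u, v`).  `t u * X * t u = w(X u, u) • t u`
(`t u (X (t u v)) = w(v, u) w(X u, u) u`), `t u * t u = 0`, so `[t u, [t u, X]] = -2 w(X u, u) • t u` is in `I`; so `t u ∈ I`, `u ≠ 0`.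
(2) All `t v` are in `I`.  If `w(u, v) ≠ 0`: `t v * t u * t v = w(v, u) w(u, v) • t v` so `[t v, [t v, t u]] = 2 w(u, v)² • t v ∈ I`, `t v ∈ I`.  If
`w(u, v) = 0`, `v ≠ 0`: there is `z` with `w(u, z) ≠ 0`, `w(z, v) ≠ 0` (take `z₁` with `w(u, z₁) ≠ 0`, `z₂` with `w(z₂, v) ≠ 0`; one of `z₁`, `z₂`, `z₁ + z₂` is
good); `t z ∈ I`, then `t v ∈ I`.
(3) `L` is spanned by the `t v`.  `t (u + v) - t u - t v` is the operator `s u v : x ↦ w(x, u) v + w(x, v) u`, so all `s u v ∈ I`.  Let `X ∈ L`, `(e a)` the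
standard basis, `(f a)` the dual basis: `w(f a, e b) = δ`, i.e. `x = ∑ w(x, e' a) e a` where `e' a = J⁻¹ *ᵥ Pi.single a 1` (`w(x, e' a) = x a`).
`X x = ∑_a w(x, e' a) X (e a)`, and `w(x, X v) = -w(X x, v)`; so
`∑_a s (e' a) (X (e a)) x = ∑_a w(x, e' a) X (e a) + ∑_a w(x, X (e a)) e' a = X x + ∑_a w(x, X (e a)) e' a`, and the last sum is `X x`:
for all `y`: `w(∑_a w(x, X (e a)) e' a, y) = ∑_a -w(X x, e a) w(e' a, y) = ∑_a w(X x, e a) w(y, e' a) = w(X x, y)` (`y = ∑ w(y, e' a) e a`).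
So `2 X = ∑_a s (e' a) (X (e a)) ∈ I`.
(If `H53Toric` has the statement that all skew operators are in a subspace that contains all `trv`, use it: look at `H53Toric/Core10.lean`,
`Assemble.lean`.) -/
theorem simple_s (hJ : Jᵀ = -J) (hdet : IsUnit J.det) (hL : ∀ X, X ∈ L ↔ adjE J X = -X) (hI : IsIdeal L I)
    (h0 : I ≠ ⊥) : I = L := by
  refine le_antisymm hI.1 fun X hX => ?_
  obtain ⟨Y, hY, hY0⟩ := I.ne_bot_iff.1 h0
  have hYs := s02_skew hdet ((hL Y).1 (hI.1 hY))
  obtain ⟨u, hu⟩ : ∃ u, om J (Y u) u ≠ 0 := by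
    by_contra hcon
    push Not at hcon
    apply hY0
    refine LinearMap.ext fun u => ?_
    rw [LinearMap.zero_apply]
    refine s02_nd2 hJ hdet fun v => ?_
    have h1 := hcon (u + v)
    rw [map_add, map_add, map_add, LinearMap.add_apply, LinearMap.add_apply, hcon u, hcon v, zero_add,
      add_zero, hYs v u, omega_antisymm (om_alt hJ) v (Y u), neg_neg] at h1
    have h2 : (2 : K) * om J (Y u) v = 0 := by linear_combination h1
    exact (mul_eq_zero.1 h2).resolve_left (by norm_num)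
  have hu0 : u ≠ 0 := by
    intro h
    rw [h] at hu
    exact hu (by rw [map_zero])
  have hall := s02_all hJ hdet hL hI (s02_one hJ hdet hL hI hY hu) hu0
  have hXs := s02_skew hdet ((hL X).1 hX)
  have hs : ∀ u v : κ → K, trv (om J) (u + v) - trv (om J) u - trv (om J) v ∈ I :=
    fun u v => I.sub_mem (I.sub_mem (hall _) (hall _)) (hall _)
  have hsa : ∀ u v x : κ → K, (trv (om J) (u + v) - trv (om J) u - trv (om J) v) x =
      om J x u • v + om J x v • u := by
    intro u v x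
    rw [LinearMap.sub_apply, LinearMap.sub_apply, trv_apply, trv_apply, trv_apply, map_add]
    module
  have hsum : (2 : K) • X = ∑ a, (trv (om J) ((J⁻¹ *ᵥ Pi.single a 1) + X (Pi.single a 1)) -
      trv (om J) (J⁻¹ *ᵥ Pi.single a 1) - trv (om J) (X (Pi.single a 1))) := by
    refine LinearMap.ext fun x => ?_
    rw [LinearMap.sum_apply]
    simp only [hsa]
    rw [Finset.sum_add_distrib]
    simp only [s02_coord hdet]
    rw [s02_sum, LinearMap.smul_apply, two_smul]
    congr 1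
    have h1 : X x - ∑ a, om J x (X (Pi.single a 1)) • (J⁻¹ *ᵥ Pi.single a 1) = 0 := by
      apply om_nd hdet
      intro y
      rw [map_sub, map_sum]
      simp only [map_smul, s02_coord hdet, smul_eq_mul]
      have h2 : om J x (X y) = ∑ a, om J x (X (Pi.single a 1)) * y a := by
        conv_lhs => rw [← s02_sum X y, map_sum]
        refine Finset.sum_congr rfl fun a _ => ?_
        rw [map_smul, smul_eq_mul, mul_comm]
      rw [← h2, omega_antisymm (om_alt hJ) y (X x), hXs]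
      ring
    exact sub_eq_zero.1 h1
  have h2X : (2 : K) • X ∈ I := by
    rw [hsum]
    exact I.sum_mem fun a _ => hs _ _
  have h3 := I.smul_mem ((2 : K)⁻¹) h2X
  rw [smul_smul, inv_mul_cancel₀ (by norm_num), one_smul] at h3
  exact h3

end Pool.Agent.H34Z
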