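import Pool.Agent.Lib.H34Z.A01

/-!
# S03: the orthogonal Lie algebra is simple
-/

set_option autoImplicit false
set_option linter.unusedSectionVars false
namespace Pool.Agent.H34Z
open Module Matrix Pool.Agent.H53Toric Pool.Agent.H76P
open Pool.Agent.H76T (IsIdeal)

variable {κ : Type*} [Fintype κ] [DecidableEq κ] {K : Type*} [Field K] [CharZero K] {J : Matrix κ κ K} {π : κ → κ}
  {L I : Submodule K (Module.End K (κ → K))}

/-- The operator `x ↦ B(x, u) v - B(x, v) u`. -/
private noncomputable def s03D (J : Matrix κ κ K) (u v : κ → K) : Module.End K (κ → K) :=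
  ((om J).flip u).smulRight v - ((om J).flip v).smulRight u

private theorem s03D_apply (J : Matrix κ κ K) (u v x : κ → K) :
    s03D J u v x = om J x u • v - om J x v • u := rfl

private theorem s03_symm (hJ : Jᵀ = J) (x y : κ → K) : om J x y = om J y x := by
  rw [om_apply, om_apply, Matrix.dotProduct_mulVec, ← Matrix.mulVec_transpose, hJ, dotProduct_comm]

private theorem s03_single (J : Matrix κ κ K) (a b : κ) :
    om J (Pi.single a 1) (Pi.single b 1) = J a b := by
  rw [om_apply, Matrix.mulVec_single_one, single_one_dotProduct]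
  rfl

private theorem s03_skew (hdet : IsUnit J.det) (X : Module.End K (κ → K)) :
    adjE J X = -X ↔ ∀ x y, om J (X x) y = -om J x (X y) := by
  obtain ⟨M, rfl⟩ := (phi (ι := κ) (K := K)).surjective X
  rw [skew_iff hdet]
  have h1 : ∀ x y : κ → K, om J (phi M x) y + om J x (phi M y) = x ⬝ᵥ ((Mᵀ * J + J * M) *ᵥ y) := by
    intro x y
    rw [om_apply, om_apply, phi_apply, phi_apply, Matrix.add_mulVec, dotProduct_add,
      ← Matrix.mulVec_mulVec, ← Matrix.mulVec_mulVec]
    congr 1
    rw [Matrix.dotProduct_mulVec x, Matrix.vecMul_transpose]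
  constructor
  · intro h x y
    have h2 := h1 x y
    rw [h, Matrix.zero_mulVec, dotProduct_zero] at h2
    exact eq_neg_of_add_eq_zero_left h2
  · intro h
    ext a b
    have h2 := h1 (Pi.single a 1) (Pi.single b 1)
    rw [h, neg_add_cancel, Matrix.mulVec_single_one, single_one_dotProduct] at h2
    exact h2.symm

private theorem s03D_skew (hJ : Jᵀ = J) (u v x y : κ → K) :
    om J (s03D J u v x) y = -om J x (s03D J u v y) := by
  rw [s03D_apply, s03D_apply]
  simp only [map_sub, map_smul, LinearMap.sub_apply, LinearMap.smul_apply, smul_eq_mul]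
  rw [s03_symm hJ v y, s03_symm hJ u y]
  ring

private theorem s03_comm (hJ : Jᵀ = J) {X : Module.End K (κ → K)}
    (hX : ∀ x y, om J (X x) y = -om J x (X y)) (u v : κ → K) :
    X * s03D J u v - s03D J u v * X = s03D J (X u) v + s03D J u (X v) := by
  refine LinearMap.ext fun x => ?_
  rw [LinearMap.sub_apply, LinearMap.add_apply, Module.End.mul_apply, Module.End.mul_apply,
    s03D_apply, s03D_apply, s03D_apply, s03D_apply, map_sub, map_smul, map_smul, hX, hX]
  module

private theorem s03D_neg (J : Matrix κ κ K) (u v : κ → K) : s03D J v u = -s03D J u v := by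
  refine LinearMap.ext fun x => ?_
  rw [LinearMap.neg_apply, s03D_apply, s03D_apply]
  module

private theorem s03D_smul_left (J : Matrix κ κ K) (c : K) (u v : κ → K) :
    s03D J (c • u) v = c • s03D J u v := by
  refine LinearMap.ext fun x => ?_
  rw [LinearMap.smul_apply, s03D_apply, s03D_apply, map_smul, smul_eq_mul]
  module

private theorem s03D_smul_right (J : Matrix κ κ K) (c : K) (u v : κ → K) :
    s03D J u (c • v) = c • s03D J u v := by
  refine LinearMap.ext fun x => ?_
  rw [LinearMap.smul_apply, s03D_apply, s03D_apply, map_smul, smul_eq_mul]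
  module

private theorem s03D_zero_right (J : Matrix κ κ K) (u : κ → K) : s03D J u 0 = 0 := by
  have := s03D_smul_right J (0 : K) u 0
  rwa [zero_smul, zero_smul] at this

private theorem s03D_self (J : Matrix κ κ K) (u : κ → K) : s03D J u u = 0 := by
  refine LinearMap.ext fun x => ?_
  rw [s03D_apply, sub_self]
  rfl

/-- The square of an isotropic `D`. -/
private theorem s03_sq (hJ : Jᵀ = J) {u v : κ → K} (huu : om J u u = 0) (huv : om J u v = 0)
    (hvv : om J v v = 0) : s03D J u v * s03D J u v = 0 := by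
  refine LinearMap.ext fun x => ?_
  rw [Module.End.mul_apply, s03D_apply J u v x, map_sub, map_smul, map_smul, s03D_apply, s03D_apply,
    huu, huv, hvv, s03_symm hJ v u, huv]
  simp

private theorem s03_dxd (hJ : Jᵀ = J) {X : Module.End K (κ → K)}
    (hX : ∀ x y, om J (X x) y = -om J x (X y)) (u v : κ → K) :
    s03D J u v * X * s03D J u v = -(om J (X u) v) • s03D J u v := by
  have h0 : ∀ w, om J (X w) w = 0 := by
    intro w
    have h1 := hX w w
    rw [s03_symm hJ w (X w)] at h1
    have h2 : (2 : K) * om J (X w) w = 0 := by linear_combination h1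
    exact (mul_eq_zero.1 h2).resolve_left two_ne_zero
  refine LinearMap.ext fun x => ?_
  rw [Module.End.mul_apply, Module.End.mul_apply, s03D_apply J u v x, map_sub, map_smul, map_smul,
    map_sub, map_smul, map_smul, s03D_apply, s03D_apply, h0, h0, hX v u, s03_symm hJ v (X u),
    LinearMap.smul_apply, s03D_apply]
  module

/-- Notation: `i' = π i`, `c i = J i i' = J i' i ≠ 0`; `D i j = phi (c i • single j i' 1 - c j • single i j' 1)` (`= 0` if `i = j`; `D j i = -D i j`); `D i j` is the
operator `x ↦ B(x, e i) e j - B(x, e j) e i` for `B(x, y) = x ⬝ᵥ J *ᵥ y`, `e i = Pi.single i 1`, `B(e i, e j) = c i` if `j = i'`, else `0`.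
General formula: for `X` with `adjE J X = -X`: `[X, D i j] = D' (X e i) (e j) + D' (e i) (X e j)`, `D' u v : x ↦ B(x, u) v - B(x, v) u`.
PROOF. (0) `D' u v` is skew for all `u, v`, and for `X ∈ L` with matrix `x`: `X = (1/2) ∑_{a, b} (x a b / c b) • D (π b) a`
(`∑ x a b / c b • (c b • single a b 1 - c a • single b' a' 1) = x - ∑ (x a b * c a / c b) • single b' a' 1`, and skewness of `X` says
`x b' a' = -x a b * c a / c b`).
(1) `I` contains some `D i j` with `j ≠ i`, `j ≠ i'`.  For such `i, j` the operator `D = D i j` satisfies `D * D = 0` and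
`D * X * D = -B(X (e i), e j) • D` for `X ∈ L`, so `[D, [D, X]] = 2 B(X (e i), e j) • D`.  Let `X ∈ I`, `X ≠ 0`, with matrix `x`.  If `x k i ≠ 0` for some
`k ≠ i`: `k ≠ i'` since `x i' i = 0` by skewness; `j = k'` satisfies `j ≠ i`, `j ≠ i'`, `B(X (e i), e j) = x k i * c k ≠ 0`; so `D i j ∈ I`.  If `x` is diagonal with
the entries `f i`, `f i' = -f i`, let `f i ≠ 0` and `j ≠ i, i'` (`card ≥ 5`): `[X, D i j] = (f i + f j) • D i j`, `[X, D i j'] = (f i - f j) • D i j'`, and one
of `f i + f j`, `f i - f j` is not zero.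
(2) If `D i j ∈ I` (`j ≠ i, i'`) and `k ∉ {i, i', j, j'}` then `D k j ∈ I`: `[D i' k, D i j] = c i • D k j` (`X = D i' k`: `X (e i) = B(e i, e i') e k = c i • e k`,
`X (e j) = 0`).  As `card ≥ 5` there is such a `k`, and from `(k, j)` one comes to `(i', j)` (`i' ∉ {k, k', j, j'}`) as well.  So `D a j ∈ I` for all
`a ∉ {j, j'}` (`a = i` itself included).  By symmetry `D i b ∈ I` for all `b ∉ {i, i'}`.  So for all `a`, `b ∉ {a, a'}`: if `b ∉ {i, i'}`: `(i, j) → (i, b) → (a, b)`; if
`b ∈ {i, i'}`: choose `k ∉ {i, i', j, j'}`: `(i, j) → (k, j) → (k, b) → (a, b)`.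
(3) `D i i' ∈ I`: `[D i j, D i' j']` for `j ≠ i, i'`: with `X = D i j`: `X (e i') = B(e i', e i) e j = c i • e j`, `X (e j') = -B(e j', e j) e i = -c j • e i`, so the bracket is
`c i • D j j' - c j • D i' i = c i • D j j' + c j • D i i'`.  With `j'` in place of `j`: `[D i j', D i' j] = c i • D j' j + c j • D i i' = -c i • D j j' + c j • D i i'`.  The
sum is `2 c j • D i i'`.
(4) So all `D a b ∈ I` and `I = L` by (0). -/
theorem simple_o (hJ : Jᵀ = J) (hdet : IsUnit J.det) (hm : Mon J π) (hne : ∀ i, π i ≠ i)
    (hL : ∀ X, X ∈ L ↔ adjE J X = -X) (h5 : 5 ≤ Fintype.card κ) (hI : IsIdeal L I) (h0 : I ≠ ⊥) : I = L := by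
  have hL' : ∀ X, X ∈ L ↔ ∀ x y, om J (X x) y = -om J x (X y) := fun X => (hL X).trans (s03_skew hdet X)
  obtain ⟨D, hD⟩ : ∃ D : κ → κ → Module.End K (κ → K),
      ∀ a b, D a b = s03D J (Pi.single a 1) (Pi.single b 1) := ⟨_, fun _ _ => rfl⟩
  have hDL : ∀ a b, D a b ∈ L := fun a b => by
    rw [hL', hD]
    exact s03D_skew hJ _ _
  have hDn : ∀ a b, D b a = -D a b := fun a b => by rw [hD, hD, s03D_neg]
  have hB : ∀ a b, b ≠ π a → om J (Pi.single a 1) (Pi.single b 1) = 0 := fun a b h => by
    rw [s03_single]; exact hm.zero a b h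
  have hc : ∀ a, J (π a) a = J a (π a) := fun a => by
    have h1 := congrFun (congrFun hJ (π a)) a
    rw [Matrix.transpose_apply] at h1
    exact h1.symm
  have hinj : ∀ a b, π a = π b → a = b := fun a b h => by rw [← hm.inv a, h, hm.inv]
  have hπ : ∀ a b, a = π b ↔ π a = b := fun a b =>
    ⟨fun h => by rw [h, hm.inv], fun h => by rw [← h, hm.inv]⟩
  -- the values of D a b on the basis
  have hval : ∀ a b c, D a b (Pi.single c 1) = J c a • Pi.single b (1 : K) - J c b • Pi.single a (1 : K) :=
    fun a b c => by rw [hD, s03D_apply, s03_single, s03_single]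
  have hbr : ∀ X ∈ L, ∀ a b, X * D a b - D a b * X =
      s03D J (X (Pi.single a 1)) (Pi.single b 1) + s03D J (Pi.single a 1) (X (Pi.single b 1)) :=
    fun X hX a b => by rw [hD]; exact s03_comm hJ ((hL' X).1 hX) _ _
  have hkey : ∀ a b, b ≠ π a → b ≠ a → ∀ k, k ≠ a → k ≠ π a → k ≠ b → k ≠ π b → D a b ∈ I →
      D k b ∈ I := by
    intro i j hj hj' k hki hki' hkj hkj' hm'
    have h1 := hI.2 (D (π i) k) (hDL _ _) _ hm'
    have e1 : D (π i) k (Pi.single i 1) = J i (π i) • Pi.single k (1 : K) := by
      rw [hval, hm.zero i k hki', zero_smul, sub_zero]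
    have e2 : D (π i) k (Pi.single j 1) = 0 := by
      rw [hval, hm.zero j k hkj', hm.zero j (π i) (fun h => hj' (hinj _ _ h).symm), zero_smul,
        zero_smul, sub_zero]
    rw [hbr _ (hDL _ _), e1, e2, s03D_zero_right, add_zero, s03D_smul_left, ← hD] at h1
    exact (I.smul_mem_iff (hm.ne i)).1 h1
  have hex : ∀ i j : κ, ∃ k, k ≠ i ∧ k ≠ π i ∧ k ≠ j ∧ k ≠ π j := by
    intro i j
    by_contra hcon
    push Not at hcon
    have h1 : (Finset.univ : Finset κ) ⊆ {i, π i, j, π j} := by
      intro k _
      simp only [Finset.mem_insert, Finset.mem_singleton]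
      by_cases e1 : k = i
      · exact Or.inl e1
      by_cases e2 : k = π i
      · exact Or.inr (Or.inl e2)
      by_cases e3 : k = j
      · exact Or.inr (Or.inr (Or.inl e3))
      exact Or.inr (Or.inr (Or.inr (hcon k e1 e2 e3)))
    have h2 := (Finset.card_le_card h1).trans Finset.card_le_four
    rw [Finset.card_univ] at h2
    omega
  -- first index
  have hfst : ∀ i j, j ≠ i → j ≠ π i → D i j ∈ I → ∀ a, a ≠ j → a ≠ π j → D a j ∈ I := by
    intro i j hj hj' hm' a ha ha'
    by_cases e1 : a = i
    · rw [e1]; exact hm'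
    by_cases e2 : a = π i
    · obtain ⟨k, k1, k2, k3, k4⟩ := hex i j
      have h1 := hkey i j hj' hj k k1 k2 k3 k4 hm'
      refine hkey k j (fun h => k4 ((hπ _ _).2 h.symm)) k3.symm a ?_ ?_ ha ha' h1
      · rw [e2]; exact k2.symm
      · rw [e2]; exact fun h => k1 (hinj _ _ h).symm
    · exact hkey i j hj' hj a e1 e2 ha ha' hm'
  have hsnd : ∀ i j, j ≠ i → j ≠ π i → D i j ∈ I → ∀ b, b ≠ i → b ≠ π i → D i b ∈ I := by
    intro i j hj hj' hm' b hb hb'
    have h1 : D j i ∈ I := by rw [hDn i j]; exact I.neg_mem hm'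
    have h2 := hfst j i hj.symm (fun h => hj' ((hπ _ _).1 h).symm) h1 b hb hb'
    rw [hDn b i]
    exact I.neg_mem h2
  -- some D i j
  obtain ⟨X, hXI, hX0⟩ := (Submodule.ne_bot_iff I).1 h0
  have hXL := hI.1 hXI
  have hXs := (hL' X).1 hXL
  have hsome : ∃ i j, j ≠ i ∧ j ≠ π i ∧ D i j ∈ I := by
    by_cases hA : ∃ i j, j ≠ π i ∧ om J (X (Pi.single i 1)) (Pi.single j 1) ≠ 0
    · obtain ⟨i, j, hj, hne'⟩ := hA
      have hji : j ≠ i := by
        rintro rfl
        apply hne'
        have h1 := hXs (Pi.single j 1) (Pi.single j 1)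
        rw [s03_symm hJ (Pi.single j 1) (X _)] at h1
        have h2 : (2 : K) * om J (X (Pi.single j 1)) (Pi.single j 1) = 0 := by linear_combination h1
        exact (mul_eq_zero.1 h2).resolve_left two_ne_zero
      refine ⟨i, j, hji, hj, ?_⟩
      have h1 := hI.2 (D i j) (hDL i j) _ (hI.2 (D i j) (hDL i j) X hXI)
      have h2 : D i j * D i j = 0 := by
        rw [hD]
        exact s03_sq hJ (hB _ _ (hne i).symm) (hB _ _ hj) (hB _ _ (hne j).symm)
      have h3 : D i j * X * D i j = -(om J (X (Pi.single i 1)) (Pi.single j 1)) • D i j := by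
        rw [hD]
        exact s03_dxd hJ hXs _ _
      have h4 : D i j * (D i j * X - X * D i j) - (D i j * X - X * D i j) * D i j =
          (2 * om J (X (Pi.single i 1)) (Pi.single j 1)) • D i j := by
        have h5 : D i j * (D i j * X - X * D i j) - (D i j * X - X * D i j) * D i j =
            (D i j * D i j) * X + X * (D i j * D i j) - (D i j * X * D i j + D i j * X * D i j) := by
          simp only [mul_sub, sub_mul, mul_assoc]
          abel
        rw [h5, h2, h3]
        simp only [zero_mul, mul_zero, zero_add, add_zero]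
        module
      rw [h4] at h1
      exact (I.smul_mem_iff (mul_ne_zero two_ne_zero hne')).1 h1
    · push Not at hA
      -- X is diagonal
      have hco : ∀ (x : κ → K) (j : κ), om J x (Pi.single j 1) = x (π j) * J (π j) j := by
        intro x j
        rw [om_apply, Matrix.mulVec_single_one]
        show ∑ b, x b * J b j = _
        rw [Finset.sum_eq_single (π j)]
        · intro b _ hb
          rw [hm.zero b j (fun h => hb ((hπ _ _).1 h).symm), mul_zero]
        · intro h
          exact absurd (Finset.mem_univ _) h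
      have hJne : ∀ j, J (π j) j ≠ 0 := fun j => by rw [hc]; exact hm.ne j
      have hdiag : ∀ i, X (Pi.single i 1) = X (Pi.single i 1) i • Pi.single i (1 : K) := by
        intro i
        funext b
        by_cases hb : b = i
        · subst hb; simp
        · have h1 := hA i (π b) (fun h => hb (hinj _ _ h))
          rw [hco, hm.inv] at h1
          have h2 := hJne (π b)
          rw [hm.inv] at h2
          rw [(mul_eq_zero.1 h1).resolve_right h2]
          simp [Pi.single_eq_of_ne hb]
      obtain ⟨i, hi⟩ : ∃ i, X (Pi.single i 1) i ≠ 0 := by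
        by_contra hcon
        push Not at hcon
        apply hX0
        refine LinearMap.pi_ext' fun i => LinearMap.ext_ring ?_
        rw [LinearMap.comp_apply, LinearMap.comp_apply, LinearMap.single_apply]
        show X (Pi.single i 1) = 0
        rw [hdiag i, hcon i, zero_smul]
      obtain ⟨j, j1, j2, -, -⟩ := hex i i
      have j3 : π j ≠ i := fun h => j2 ((hπ _ _).2 h)
      have j4 : π j ≠ π i := fun h => j1 (hinj _ _ h)
      have hbr' : ∀ a b, (X (Pi.single a 1) a + X (Pi.single b 1) b) • D a b ∈ I := by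
        intro a b
        have h1 := hI.2 (D a b) (hDL a b) X hXI
        have h2 := hbr X hXL a b
        rw [hdiag a, hdiag b, s03D_smul_left, s03D_smul_right, ← hD] at h2
        have h3 : (X (Pi.single a 1) a + X (Pi.single b 1) b) • D a b = -(D a b * X - X * D a b) := by
          rw [neg_sub, h2]
          have e1 : (X (Pi.single a 1) a • Pi.single a (1 : K) : κ → K) a = X (Pi.single a 1) a := by simp
          have e2 : (X (Pi.single b 1) b • Pi.single b (1 : K) : κ → K) b = X (Pi.single b 1) b := by simp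
          module
        rw [h3]
        exact I.neg_mem h1
      have hfπ : X (Pi.single (π j) 1) (π j) = -X (Pi.single j 1) j := by
        have h1 := hXs (Pi.single j 1) (Pi.single (π j) 1)
        rw [s03_symm hJ (Pi.single j 1) (X _), hco, hco, hm.inv, hc] at h1
        have h2 := hm.ne j
        have h3 : (X (Pi.single j 1) j + X (Pi.single (π j) 1) (π j)) * J j (π j) = 0 := by
          linear_combination h1
        exact eq_neg_of_add_eq_zero_right ((mul_eq_zero.1 h3).resolve_right h2)
      by_cases h6 : X (Pi.single i 1) i + X (Pi.single j 1) j = 0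
      · refine ⟨i, π j, j3, j4, ?_⟩
        have h7 := hbr' i (π j)
        rw [hfπ] at h7
        refine (I.smul_mem_iff ?_).1 h7
        intro h8
        apply hi
        have h9 : (2 : K) * X (Pi.single i 1) i = 0 := by linear_combination h6 + h8
        exact (mul_eq_zero.1 h9).resolve_left two_ne_zero
      · exact ⟨i, j, j1, j2, (I.smul_mem_iff h6).1 (hbr' i j)⟩
  obtain ⟨i, j, hj, hj', hij⟩ := hsome
  -- all D a b with b not in {a, a'}
  have hall : ∀ a b, b ≠ a → b ≠ π a → D a b ∈ I := by
    intro a b hb hb'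
    have hab' : a ≠ π b := fun h => hb' ((hπ _ _).1 h).symm
    by_cases h1 : b = i ∨ b = π i
    · obtain ⟨k, k1, k2, k3, k4⟩ := hex i j
      have h2 := hkey i j hj' hj k k1 k2 k3 k4 hij
      have hbk : b ≠ k := by
        rcases h1 with h1 | h1 <;> rw [h1]
        · exact k1.symm
        · exact k2.symm
      have hbk' : b ≠ π k := by
        rcases h1 with h1 | h1 <;> rw [h1]
        · exact fun h => k2 ((hπ _ _).1 h).symm
        · exact fun h => k1 (hinj _ _ h).symm
      have h3 := hsnd k j k3.symm (fun h => k4 ((hπ _ _).2 h.symm)) h2 b hbk hbk'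
      exact hfst k b hbk hbk' h3 a hb.symm hab'
    · push Not at h1
      have h2 := hsnd i j hj hj' hij b h1.1 h1.2
      exact hfst i b h1.1 h1.2 h2 a hb.symm hab'
  -- D i i'
  have hself : ∀ i, D i (π i) ∈ I := by
    intro i
    obtain ⟨j, j1, j2, -, -⟩ := hex i i
    have j3 : π j ≠ i := fun h => j2 ((hπ _ _).2 h)
    have j4 : π j ≠ π i := fun h => j1 (hinj _ _ h)
    have h1 := hI.2 (D i j) (hDL _ _) _ (hall (π i) (π j) j4 (by rw [hm.inv]; exact j3))
    have h2 := hI.2 (D i (π j)) (hDL _ _) _ (hall (π i) j j2 (by rw [hm.inv]; exact j1))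
    have e1 : D i j (Pi.single (π i) 1) = J i (π i) • Pi.single j (1 : K) := by
      rw [hval, hc, hm.zero (π i) j (by rw [hm.inv]; exact j1), zero_smul, sub_zero]
    have e2 : D i j (Pi.single (π j) 1) = -(J j (π j)) • Pi.single i (1 : K) := by
      rw [hval, hc, hm.zero (π j) i (by rw [hm.inv]; exact j1.symm), zero_smul, zero_sub, neg_smul]
    have e3 : D i (π j) (Pi.single (π i) 1) = J i (π i) • Pi.single (π j) (1 : K) := by
      rw [hval, hc, hm.zero (π i) (π j) (by rw [hm.inv]; exact j3), zero_smul, sub_zero]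
    have e4 : D i (π j) (Pi.single j 1) = -(J j (π j)) • Pi.single i (1 : K) := by
      rw [hval, hm.zero j i (fun h => j3 h.symm), zero_smul, zero_sub, neg_smul]
    rw [hbr _ (hDL _ _), e1, e2, s03D_smul_left, s03D_smul_right, ← hD, ← hD] at h1
    rw [hbr _ (hDL _ _), e3, e4, s03D_smul_left, s03D_smul_right, ← hD, ← hD] at h2
    have h3 := I.add_mem h1 h2
    rw [hDn j (π j), hDn i (π i)] at h3
    have h4 : J i (π i) • D j (π j) + -J j (π j) • -D i (π i) + (J i (π i) • -D j (π j) + -J j (π j) • -D i (π i)) =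
        (2 * J j (π j)) • D i (π i) := by module
    rw [h4] at h3
    exact (I.smul_mem_iff (mul_ne_zero two_ne_zero (hm.ne j))).1 h3
  have htot : ∀ a b, D a b ∈ I := by
    intro a b
    by_cases h1 : b = a
    · rw [h1, hD, s03D_self]
      exact I.zero_mem
    by_cases h2 : b = π a
    · rw [h2]
      exact hself a
    · exact hall a b h1 h2
  refine le_antisymm hI.1 fun Y hY => ?_
  have hYs := (hL' Y).1 hY
  have hco : ∀ (x : κ → K) (a : κ), om J x (Pi.single (π a) 1) = x a * J a (π a) := by
    intro x a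
    rw [om_apply, Matrix.mulVec_single_one]
    show ∑ b, x b * J b (π a) = _
    rw [Finset.sum_eq_single a]
    · intro b _ hb
      rw [hm.zero b (π a) (fun h => hb (hinj _ _ h).symm), mul_zero]
    · intro h
      exact absurd (Finset.mem_univ _) h
  have hco' : ∀ (x : κ → K) (a : κ), om J x (Pi.single a 1) = x (π a) * J a (π a) := by
    intro x a
    have h1 := hco x (π a)
    rw [hm.inv, hc] at h1
    exact h1
  have hsum : (2 : K) • Y = ∑ a, (J a (π a))⁻¹ • s03D J (Pi.single (π a) 1) (Y (Pi.single a 1)) := by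
    refine LinearMap.ext fun x => ?_
    rw [LinearMap.smul_apply, LinearMap.sum_apply]
    have h1 : ∀ a, ((J a (π a))⁻¹ • s03D J (Pi.single (π a) 1) (Y (Pi.single a 1))) x =
        x a • Y (Pi.single a 1) + Y x (π a) • Pi.single (π a) (1 : K) := by
      intro a
      rw [LinearMap.smul_apply, s03D_apply, hco]
      have h2 : om J x (Y (Pi.single a 1)) = -(Y x (π a) * J a (π a)) := by
        rw [← hco', hYs x, neg_neg]
      rw [h2, smul_sub, smul_smul, smul_smul]
      have h3 := hm.ne a
      have e1 : (J a (π a))⁻¹ * (x a * J a (π a)) = x a := by field_simp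
      have e2 : (J a (π a))⁻¹ * -(Y x (π a) * J a (π a)) = -Y x (π a) := by field_simp
      rw [e1, e2, neg_smul, sub_neg_eq_add]
    rw [Finset.sum_congr rfl fun a _ => h1 a, Finset.sum_add_distrib, two_smul]
    congr 1
    · have h2 : x = ∑ a, x a • Pi.single a (1 : K) := by
        funext b
        rw [Finset.sum_apply, Finset.sum_eq_single b]
        · simp
        · intro c _ hcb
          simp [Pi.single_eq_of_ne hcb.symm]
        · intro h
          exact absurd (Finset.mem_univ _) h
      conv_lhs => rw [h2, map_sum]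
      exact Finset.sum_congr rfl fun a _ => by rw [map_smul]
    · funext b
      rw [Finset.sum_apply, Finset.sum_eq_single (π b)]
      · rw [hm.inv]; simp
      · intro c _ hcb
        have h3 : b ≠ π c := fun h => hcb ((hπ _ _).1 h).symm
        simp [Pi.single_eq_of_ne h3]
      · intro h
        exact absurd (Finset.mem_univ _) h
  have hmem : (2 : K) • Y ∈ I := by
    rw [hsum]
    refine I.sum_mem fun a _ => I.smul_mem _ ?_
    have h2 : Y (Pi.single a 1) = ∑ b, Y (Pi.single a 1) b • Pi.single b (1 : K) := by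
      funext b
      rw [Finset.sum_apply, Finset.sum_eq_single b]
      · simp
      · intro c _ hcb
        simp [Pi.single_eq_of_ne hcb.symm]
      · intro h
        exact absurd (Finset.mem_univ _) h
    have h3 : s03D J (Pi.single (π a) 1) (Y (Pi.single a 1)) =
        ∑ b, Y (Pi.single a 1) b • D (π a) b := by
      rw [h2]
      refine LinearMap.ext fun x => ?_
      rw [s03D_apply, LinearMap.sum_apply, map_sum, Finset.smul_sum, Finset.sum_smul, ← Finset.sum_sub_distrib]
      refine Finset.sum_congr rfl fun b _ => ?_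
      rw [LinearMap.smul_apply, hD, s03D_apply, map_smul, smul_eq_mul, ← h2]
      module
    rw [h3]
    exact I.sum_mem fun b _ => I.smul_mem _ (htot _ _)
  exact (I.smul_mem_iff two_ne_zero).1 hmem

end Pool.Agent.H34Z
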