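import Pool.Agent.Lib.H34Z.A02
import Pool.Agent.Lib.H34Z.A03
import Pool.Agent.Lib.H34Z.S01
import Pool.Agent.Lib.H34Z.S02
import Pool.Agent.Lib.H34Z.S03

/-!
# S04: the full algebras are simple and perfect
-/

set_option autoImplicit false
set_option linter.unusedSectionVars false
namespace Pool.Agent.H34Z
open Module Matrix Pool.Agent.H53Toric Pool.Agent.H76P
open Pool.Agent.H76T (IsIdeal)

variable {κ : Type*} [Fintype κ] [DecidableEq κ] {K : Type*} [Field K] [CharZero K] {t : Prop} {J : Matrix κ κ K}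
  {L I : Submodule K (Module.End K (κ → K))} {ε : κ → K}

private theorem s04_trace (g : κ → K) : LinearMap.trace K (κ → K) (dg g) = ∑ a, g a := by
  have h : (dg g : Module.End K (κ → K)) = Matrix.toLin' (Matrix.diagonal g) := by
    refine LinearMap.ext fun v => funext fun a => ?_
    rw [dg_apply, Matrix.toLin'_apply, Matrix.mulVec_diagonal]
  rw [h, Matrix.trace_toLin'_eq, Matrix.trace_diagonal]

private theorem s04_neg {x : K} (h : x = 1 ∨ x = -1) : x ≠ -x := by
  intro e
  have h2 : (2 : K) * x = 0 := by linear_combination e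
  rcases mul_eq_zero.1 h2 with h3 | h3
  · exact two_ne_zero h3
  · rcases h with h | h
    · rw [h] at h3
      exact one_ne_zero h3
    · rw [h] at h3
      exact one_ne_zero (neg_eq_zero.1 h3)

/-- PROOF. Cases: `simple_s`, `simple_o` (`π i ≠ i`: `ε (π i) = -ε i` by `dg_skew`, `hεL`, and `ε i = ±1`), `simple_n`. -/
theorem FB.simple (hL : FB t L J) (hεL : dg ε ∈ L) (hε : ∀ k, ε k = 1 ∨ ε k = -1) (hI : IsIdeal L I) (h0 : I ≠ ⊥) :
    I = L := by
  rcases hL with ⟨ht, π, hJ, hdet, hm, hL⟩ | ⟨ht, π, hJ, hdet, hm, hL, h6, h8⟩ | ⟨ht, hL, h2⟩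
  · exact simple_s hJ hdet hL hI h0
  · refine simple_o hJ hdet hm (fun i hi => ?_) hL (by omega) hI h0
    have h1 := (dg_skew hm hdet ε).1 ((hL _).1 hεL) i
    rw [hi] at h1
    exact s04_neg (hε i) h1
  · exact simple_n hL hI h0

private theorem s04_main {L : Submodule K (Module.End K (κ → K))}
    (hlie : ∀ X ∈ L, ∀ Y ∈ L, X * Y - Y * X ∈ L)
    (hs : ∀ I : Submodule K (Module.End K (κ → K)), IsIdeal L I → I ≠ ⊥ → I = L) {h : κ → K} (hc : Cor L ε h) {i : κ}
    (hi : h i = 1) :
    L = Submodule.span K {Z | ∃ X ∈ L, ∃ Y ∈ L, Z = X * Y - Y * X} := by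
  symm
  apply hs
  · have h1 : Submodule.span K {Z | ∃ X ∈ L, ∃ Y ∈ L, Z = X * Y - Y * X} ≤ L := by
      rw [Submodule.span_le]
      rintro Z ⟨X, hX, Y, hY, rfl⟩
      exact hlie X hX Y hY
    exact ⟨h1, fun X hX Y hY => Submodule.subset_span ⟨X, hX, Y, h1 hY, rfl⟩⟩
  · intro hb
    obtain ⟨E, hE, F, hF, hT⟩ := hc
    have h1 : E * F - F * E ∈ Submodule.span K {Z | ∃ X ∈ L, ∃ Y ∈ L, Z = X * Y - Y * X} :=
      Submodule.subset_span ⟨E, hE, F, hF, rfl⟩
    rw [hb, Submodule.mem_bot, hT.co] at h1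
    have h2 : dg h (fun _ => (1 : K)) i = 0 := by rw [h1]; rfl
    rw [dg_apply, hi, mul_one] at h2
    exact one_ne_zero h2

/-- PROOF. There are `i`, `j` such that `L` contains two elements which do not commute: the span of the brackets is an ideal of `L`
(`L` is a Lie algebra: in the cases `s`, `o` `adjE J` is an antiautomorphism (`adjE_mul`), in the case `n` `LinearMap.trace_mul_comm`), it is not zero:
case `s`: `cor_s` (for `i` with `ε i = 1`, which exists since `ε` changes the sign under `π`, and `κ` is not empty) gives `E, F ∈ L` with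
`[E, F] = dg (1_i - 1_(π i)) ≠ 0`; case `o`: `cor_o` (two elements `i ≠ j` with `ε = 1`: half of the at least `6` elements); case `n`: `cor_n`
(`ε` has sum zero by the trace, so it has both values).  Then `FB.simple`. -/
theorem FB.perfect [Nonempty κ] (hL : FB t L J) (hεL : dg ε ∈ L) (hε : ∀ k, ε k = 1 ∨ ε k = -1) :
    L = Submodule.span K {Z | ∃ X ∈ L, ∃ Y ∈ L, Z = X * Y - Y * X} := by
  have hs : ∀ I : Submodule K (Module.End K (κ → K)), IsIdeal L I → I ≠ ⊥ → I = L :=
    fun I hI h0 => hL.simple hεL hε hI h0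
  have hlieJ : ∀ {J : Matrix κ κ K}, IsUnit J.det → (∀ X, X ∈ L ↔ adjE J X = -X) →
      ∀ X ∈ L, ∀ Y ∈ L, X * Y - Y * X ∈ L := by
    intro J hdet hL X hX Y hY
    rw [hL] at hX hY ⊢
    have e1 : ∀ a b : Module.End K (κ → K), (-a) * (-b) = a * b := fun a b => by
      refine LinearMap.ext fun v => ?_
      simp only [Module.End.mul_apply, LinearMap.neg_apply, map_neg, neg_neg]
    rw [map_sub, adjE_mul hdet, adjE_mul hdet, hX, hY, e1, e1, neg_sub]
  rcases hL with ⟨ht, π, hJ, hdet, hm, hL⟩ | ⟨ht, π, hJ, hdet, hm, hL, h6, h8⟩ | ⟨ht, hL, h2⟩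
  · have hsk := (dg_skew hm hdet ε).1 ((hL _).1 hεL)
    have hex : ∃ i, ε i = 1 := by
      obtain ⟨a⟩ := ‹Nonempty κ›
      rcases hε a with h | h
      · exact ⟨a, h⟩
      · exact ⟨π a, by rw [hsk a, h, neg_neg]⟩
    obtain ⟨i, hi⟩ := hex
    have hc := cor_s hJ hdet hm (L := L) (fun X hX => (hL X).2 hX) hi (by rw [hsk i, hi])
    refine s04_main (hlieJ hdet hL) hs hc (i := i) ?_
    rw [Pi.sub_apply, Pi.single_eq_same, Pi.single_eq_of_ne (hm.ne_self hJ i).symm, sub_zero]
  · have hsk := (dg_skew hm hdet ε).1 ((hL _).1 hεL)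
    have hex : ∀ a, ∃ i, (i = a ∨ i = π a) ∧ ε i = 1 := by
      intro a
      rcases hε a with h | h
      · exact ⟨a, Or.inl rfl, h⟩
      · exact ⟨π a, Or.inr rfl, by rw [hsk a, h, neg_neg]⟩
    obtain ⟨a⟩ := ‹Nonempty κ›
    obtain ⟨i, hia, hi⟩ := hex a
    have hb : ∃ b, b ∉ ({a, π a} : Finset κ) := by
      by_contra hcon
      push Not at hcon
      have h1 : (Finset.univ : Finset κ) ⊆ {a, π a} := fun b _ => hcon b
      have h2 := Finset.card_le_card h1
      have h3 := Finset.card_le_two (a := a) (b := π a)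
      rw [Finset.card_univ] at h2
      omega
    obtain ⟨b, hb⟩ := hb
    rw [Finset.mem_insert, Finset.mem_singleton, not_or] at hb
    obtain ⟨j, hjb, hj⟩ := hex b
    have hij : i ≠ j := by
      rintro rfl
      rcases hia with rfl | rfl
      · rcases hjb with h | h
        · exact hb.1 h.symm
        · apply hb.2
          rw [h, hm.inv]
      · rcases hjb with h | h
        · exact hb.2 h.symm
        · apply hb.1
          rw [← hm.inv b, ← h, hm.inv]
    have hc := cor_o hJ hdet hm (L := L) (fun X hX => (hL X).2 hX) hij hi hj (by rw [hsk i, hi]) (by rw [hsk j, hj])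
    refine s04_main (hlieJ hdet hL) hs hc (i := i) ?_
    have h1 : i ≠ π i := by
      intro h
      have h1 := hsk i
      rw [← h] at h1
      exact s04_neg (hε i) h1
    have h2 : i ≠ π j := by
      intro h
      have h1 := hsk j
      rw [← h, hi, hj] at h1
      exact s04_neg (Or.inl rfl) h1
    rw [Pi.sub_apply, Pi.sub_apply, Pi.add_apply, Pi.single_eq_same, Pi.single_eq_of_ne hij, Pi.single_eq_of_ne h1,
      Pi.single_eq_of_ne h2]
    ring
  · have hsum : ∑ a, ε a = 0 := by rw [← s04_trace]; exact (hL _).1 hεL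
    have hcard : (Fintype.card κ : K) ≠ 0 := by
      have : Fintype.card κ ≠ 0 := by omega
      exact_mod_cast this
    have h1 : ∃ i, ε i = 1 := by
      by_contra hcon
      push Not at hcon
      have h3 : ∀ i, ε i = -1 := fun i => (hε i).resolve_left (hcon i)
      have h4 : ∑ a, ε a = -(Fintype.card κ : K) := by
        rw [Finset.sum_congr rfl fun a _ => h3 a]
        simp
      rw [h4, neg_eq_zero] at hsum
      exact hcard hsum
    have h2 : ∃ i, ε i = -1 := by
      by_contra hcon
      push Not at hcon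
      have h3 : ∀ i, ε i = 1 := fun i => (hε i).resolve_right (hcon i)
      have h4 : ∑ a, ε a = (Fintype.card κ : K) := by
        rw [Finset.sum_congr rfl fun a _ => h3 a]
        simp
      rw [h4] at hsum
      exact hcard hsum
    obtain ⟨i, hi⟩ := h1
    obtain ⟨j, hj⟩ := h2
    have hij : i ≠ j := by
      rintro rfl
      rw [hi] at hj
      exact s04_neg (Or.inl rfl) hj
    have hc := cor_n (L := L) (fun X hX => (hL X).2 hX) hi hj
    refine s04_main ?_ hs hc (i := i) ?_
    · intro X hX Y hY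
      rw [hL, map_sub, LinearMap.trace_mul_comm, sub_self]
    · rw [Pi.sub_apply, Pi.single_eq_same, Pi.single_eq_of_ne hij, sub_zero]

end Pool.Agent.H34Z
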