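import Pool.Agent.Lib.H34Z.D0

/-!
# R01: two projections of a Lie algebra (Goursat), induction (Ribet)
-/

set_option autoImplicit false
set_option linter.unusedSectionVars false
namespace Pool.Agent.H34Z
open Module Matrix Pool.Agent.H53Toric Pool.Agent.H76P
open Pool.Agent.H76T (IsIdeal)

variable {R : Type*} [Ring R] {K : Type*} [Field K] [Algebra K R] {𝔤 : Submodule K R}
  {V W : Type*} [AddCommGroup V] [Module K V] [AddCommGroup W] [Module K W]

/-- PROOF. `I = {X | ∃ A ∈ 𝔤, p A = X ∧ q A = 0}` (a submodule) is an ideal of `L`: for `X = p A`, `Y = p A' ∈ L`: `[Y, X] = p (A' A - A A')`,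
`q (A' A - A A') = [q A', 0] = 0`.  So `I = ⊥` or `I = L` (`hs`).  In the same way `I' = {Y | ∃ A ∈ 𝔤, q A = Y ∧ p A = 0}` is `⊥` or `L'`.
If `I = L`: the first alternative.  Suppose `I = ⊥`.  If `I' = L'`: let `X ∈ L`, `X = p A`; there is `A' ∈ 𝔤` with `q A' = q A`, `p A' = 0`, so
`X = p (A - A')`, `q (A - A') = 0`, `X ∈ I`; so `L = I`: first alternative.  If `I' = ⊥`: `q A = 0` implies `p A ∈ I = ⊥`, and `p A = 0` implies
`q A ∈ I' = ⊥`: the second alternative. -/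
theorem dich (hg : ∀ A ∈ 𝔤, ∀ A' ∈ 𝔤, A * A' - A' * A ∈ 𝔤) {p : R →ₗ[K] Module.End K V} {q : R →ₗ[K] Module.End K W}
    (hp : ∀ A ∈ 𝔤, ∀ A' ∈ 𝔤, p (A * A' - A' * A) = p A * p A' - p A' * p A)
    (hq : ∀ A ∈ 𝔤, ∀ A' ∈ 𝔤, q (A * A' - A' * A) = q A * q A' - q A' * q A)
    {L : Submodule K (Module.End K V)} {L' : Submodule K (Module.End K W)} (hL : 𝔤.map p = L) (hL' : 𝔤.map q = L')
    (hs : ∀ I, IsIdeal L I → I ≠ ⊥ → I = L) (hs' : ∀ I, IsIdeal L' I → I ≠ ⊥ → I = L') :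
    (∀ X ∈ L, ∃ A ∈ 𝔤, p A = X ∧ q A = 0) ∨ ∀ A ∈ 𝔤, p A = 0 ↔ q A = 0 := by
  have hI : IsIdeal L ((𝔤 ⊓ LinearMap.ker q).map p) := by
    refine ⟨?_, ?_⟩
    · rw [← hL]
      exact Submodule.map_mono inf_le_left
    · intro X hX Y hY
      obtain ⟨A, hA, rfl⟩ := Submodule.mem_map.1 hY
      rw [← hL] at hX
      obtain ⟨A', hA', rfl⟩ := Submodule.mem_map.1 hX
      rw [Submodule.mem_inf, LinearMap.mem_ker] at hA
      refine Submodule.mem_map.2 ⟨A' * A - A * A', ?_, hp _ hA' _ hA.1⟩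
      rw [Submodule.mem_inf, LinearMap.mem_ker]
      refine ⟨hg _ hA' _ hA.1, ?_⟩
      rw [hq _ hA' _ hA.1, hA.2, mul_zero, zero_mul, sub_zero]
  have hI' : IsIdeal L' ((𝔤 ⊓ LinearMap.ker p).map q) := by
    refine ⟨?_, ?_⟩
    · rw [← hL']
      exact Submodule.map_mono inf_le_left
    · intro X hX Y hY
      obtain ⟨A, hA, rfl⟩ := Submodule.mem_map.1 hY
      rw [← hL'] at hX
      obtain ⟨A', hA', rfl⟩ := Submodule.mem_map.1 hX
      rw [Submodule.mem_inf, LinearMap.mem_ker] at hA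
      refine Submodule.mem_map.2 ⟨A' * A - A * A', ?_, hq _ hA' _ hA.1⟩
      rw [Submodule.mem_inf, LinearMap.mem_ker]
      refine ⟨hg _ hA' _ hA.1, ?_⟩
      rw [hp _ hA' _ hA.1, hA.2, mul_zero, zero_mul, sub_zero]
  by_cases h0 : (𝔤 ⊓ LinearMap.ker q).map p = ⊥
  · by_cases h0' : (𝔤 ⊓ LinearMap.ker p).map q = ⊥
    · right
      intro A hA
      constructor
      · intro h
        have h1 : q A ∈ (𝔤 ⊓ LinearMap.ker p).map q :=
          Submodule.mem_map_of_mem (Submodule.mem_inf.2 ⟨hA, LinearMap.mem_ker.2 h⟩)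
        rw [h0'] at h1
        exact (Submodule.mem_bot K).1 h1
      · intro h
        have h1 : p A ∈ (𝔤 ⊓ LinearMap.ker q).map p :=
          Submodule.mem_map_of_mem (Submodule.mem_inf.2 ⟨hA, LinearMap.mem_ker.2 h⟩)
        rw [h0] at h1
        exact (Submodule.mem_bot K).1 h1
    · left
      intro X hX
      have h2 := hs' _ hI' h0'
      rw [← hL] at hX
      obtain ⟨A, hA, rfl⟩ := Submodule.mem_map.1 hX
      have h3 : q A ∈ L' := by
        rw [← hL']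
        exact Submodule.mem_map_of_mem hA
      rw [← h2] at h3
      obtain ⟨A', hA', h4⟩ := Submodule.mem_map.1 h3
      rw [Submodule.mem_inf, LinearMap.mem_ker] at hA'
      refine ⟨A - A', 𝔤.sub_mem hA hA'.1, ?_, ?_⟩
      · rw [map_sub, hA'.2, sub_zero]
      · rw [map_sub, h4, sub_self]
  · left
    intro X hX
    rw [← hs _ hI h0] at hX
    obtain ⟨A, hA, rfl⟩ := Submodule.mem_map.1 hX
    rw [Submodule.mem_inf, LinearMap.mem_ker] at hA
    exact ⟨A, hA.1, rfl, hA.2⟩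

/-- PROOF. Induction on `T`.  `T = ∅`: `hL`.  `insert c T`: the set of `X` for which the claim holds for `insert c T` is a submodule, so by `hperf` it
suffices to treat `X = Y * Z - Z * Y` with `Y, Z ∈ L` (`Submodule.span_induction`).  Take `A ∈ 𝔤` with `p A = Y`, `q c' A = 0` for `c' ∈ T`, and `A' ∈ 𝔤` with
`p A' = Z`, `q c A' = 0`.  `A * A' - A' * A` has `p`-image `X`, and its `q c'`-image `[q c' A, q c' A']` is zero for `c' ∈ T` and for `c' = c`. -/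
theorem ribet (hg : ∀ A ∈ 𝔤, ∀ A' ∈ 𝔤, A * A' - A' * A ∈ 𝔤) {p : R →ₗ[K] Module.End K V}
    (hp : ∀ A ∈ 𝔤, ∀ A' ∈ 𝔤, p (A * A' - A' * A) = p A * p A' - p A' * p A)
    {C : Type*} [DecidableEq C] {N : C → Type*} [∀ c, AddCommGroup (N c)] [∀ c, Module K (N c)]
    {q : ∀ c, R →ₗ[K] Module.End K (N c)}
    (hq : ∀ c, ∀ A ∈ 𝔤, ∀ A' ∈ 𝔤, q c (A * A' - A' * A) = q c A * q c A' - q c A' * q c A)
    {L : Submodule K (Module.End K V)} (hL : 𝔤.map p = L)
    (hperf : L = Submodule.span K {Z | ∃ X ∈ L, ∃ Y ∈ L, Z = X * Y - Y * X})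
    (T : Finset C) (hT : ∀ c ∈ T, ∀ X ∈ L, ∃ A ∈ 𝔤, p A = X ∧ q c A = 0) :
    ∀ X ∈ L, ∃ A ∈ 𝔤, p A = X ∧ ∀ c ∈ T, q c A = 0 := by
  induction T using Finset.induction_on with
  | empty =>
    intro X hX
    rw [← hL] at hX
    obtain ⟨A, hA, rfl⟩ := Submodule.mem_map.1 hX
    exact ⟨A, hA, rfl, fun c hc => absurd hc (Finset.notMem_empty c)⟩
  | insert c T hc ih =>
    have ih' := ih fun c' hc' => hT c' (Finset.mem_insert_of_mem hc')
    intro X hX
    rw [hperf] at hX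
    refine Submodule.span_induction (p := fun X _ => ∃ A ∈ 𝔤, p A = X ∧ ∀ c' ∈ insert c T, q c' A = 0)
      ?_ ?_ ?_ ?_ hX
    · rintro _ ⟨Y, hY, Z, hZ, rfl⟩
      obtain ⟨A, hA, hAp, hAq⟩ := ih' Y hY
      obtain ⟨A', hA', hAp', hAq'⟩ := hT c (Finset.mem_insert_self c T) Z hZ
      refine ⟨A * A' - A' * A, hg _ hA _ hA', ?_, ?_⟩
      · rw [hp _ hA _ hA', hAp, hAp']
      · intro c' hc'
        rw [hq c' _ hA _ hA']
        rcases Finset.mem_insert.1 hc' with h | h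
        · rw [h, hAq', mul_zero, zero_mul, sub_zero]
        · rw [hAq c' h, mul_zero, zero_mul, sub_zero]
    · exact ⟨0, 𝔤.zero_mem, map_zero p, fun c' _ => map_zero (q c')⟩
    · rintro Y Z _ _ ⟨A, hA, hAp, hAq⟩ ⟨A', hA', hAp', hAq'⟩
      refine ⟨A + A', 𝔤.add_mem hA hA', ?_, ?_⟩
      · rw [map_add, hAp, hAp']
      · intro c' hc'
        rw [map_add, hAq c' hc', hAq' c' hc', add_zero]
    · rintro a Y _ ⟨A, hA, hAp, hAq⟩
      refine ⟨a • A, 𝔤.smul_mem a hA, ?_, ?_⟩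
      · rw [map_smul, hAp]
      · intro c' hc'
        rw [map_smul, hAq c' hc', smul_zero]

end Pool.Agent.H34Z
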