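import Pool.Agent.Lib.H34Z.M03
import Pool.Agent.Lib.H34Z.R01

/-!
# M04: two blocks
-/

set_option autoImplicit false
set_option linter.unusedSectionVars false
namespace Pool.Agent.H34Z
open Module Matrix Pool.Agent.H53Toric Pool.Agent.H76P
open Pool.Agent.H76U (cmp preL Lb Split4)
open Pool.Agent.H76Y (LcN)
open Pool.Agent.H76RM (zar_commute zlie_commute)

variable {ι : Type*} [Fintype ι] [DecidableEq ι] {K : Type*} [Field K] [CharZero K] [IsAlgClosed K]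
  {J u : Matrix ι ι K} {DD : Submodule K (Matrix ι ι K)} {S 𝓗 : Set (Matrix ι ι K)} {x : Matrix ι ι K}
  {B : Type*} [Fintype B] [DecidableEq B] {bar : B → B} {e : B → Matrix ι ι K} {n : B → ℕ}
  {U : ∀ b, Matrix ι (Fin (n b)) K} {V : ∀ b, Matrix (Fin (n b)) ι K} {d : ∀ b, Fin (n b) → K}

/-- The Lie algebra of the pairs of blocks. -/
noncomputable def pr2 (J : Matrix ι ι K) (S : Set (Matrix ι ι K)) {k l : ℕ} (P : Matrix ι (Fin k) K) (Q : Matrix (Fin k) ι K)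
    (P' : Matrix ι (Fin l) K) (Q' : Matrix (Fin l) ι K) :
    Submodule K (Module.End K (Fin k → K) × Module.End K (Fin l → K)) :=
  (brk J S).map ((pb P Q).prod (pb P' Q'))

namespace Sit
variable (g : Sit J u DD S 𝓗 x bar e n U V d)
include g

/-- PROOF. `dich` (R01) for `𝔤 = brk J S`, `p = pb (U b) (V b)`, `q = pb (U c) (V c)`: `brk_ad`, `brk_pre`, `pb_bracket`, `pb_brk`; simplicity: `FB.simple` with `g.full`, `ε` from
`g.hh`, `y_diag`, `y_mem`. -/
theorem two (b c : B) : (∀ X ∈ LcN J S (U b) (V b), ∃ A ∈ brk J S, pb (U b) (V b) A = X ∧ pb (U c) (V c) A = 0) ∨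
    ∀ A ∈ brk J S, pb (U b) (V b) A = 0 ↔ pb (U c) (V c) A = 0 := by
  obtain ⟨h, hh, hx⟩ := g.hh
  obtain ⟨ε, hε1, hε2⟩ := g.y_diag b hh hx
  obtain ⟨ε', hε1', hε2'⟩ := g.y_diag c hh hx
  refine dich (𝔤 := brk J S) (fun A hA A' hA' => brk_ad (brk_pre hA) (brk_pre hA'))
    (p := pb (U b) (V b)) (q := pb (U c) (V c))
    (fun A hA A' hA' => g.pb_bracket b (brk_pre hA) (brk_pre hA'))
    (fun A hA A' hA' => g.pb_bracket c (brk_pre hA) (brk_pre hA'))
    (g.pb_brk b) (g.pb_brk c) (fun I hI h0 => ?_) (fun I hI h0 => ?_)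
  · refine (g.full b).simple (ε := ε) ?_ hε2 hI h0
    rw [← hε1]
    exact (g.y_mem b hh).1
  · refine (g.full c).simple (ε := ε') ?_ hε2' hI h0
    rw [← hε1']
    exact (g.y_mem c hh).1

/-- PROOF. Let `y = 2h - 1`.  `pb b y ∈ LcN b` (`y_mem`), so there is `A ∈ brk` with `pb b A = pb b y` (`pb_brk`).  For all `X ∈ brk`: `[y - A, X] ∈ brk` (`brk_ad`, `ypre`, `brk_pre`) and
its block `b` is `[0, pb b X] = 0`, so by `hgr` its block `c` is zero: `T = pb c (y - A)` commutes with `pb c X` for all `X ∈ brk`, i.e. with all elements of `LcN c`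
(`pb_brk`).  `LcN c` is irreducible (`g.irr c`), `K` is algebraically closed: `T` has an eigenvalue, the eigenspace is stable, so `T = t • 1`.  The trace of `T` is zero
(`pb c y` and `pb c A` are in `LcN c`), so `t * n c = 0`, `t = 0`.  So `pb c y = pb c A`. -/
theorem y_pair {b c : B} (hgr : ∀ A ∈ brk J S, pb (U b) (V b) A = 0 ↔ pb (U c) (V c) A = 0) {h : Matrix ι ι K}
    (hh : h ∈ 𝓗) : (pb (U b) (V b) ((2 : K) • h - 1), pb (U c) (V c) ((2 : K) • h - 1)) ∈ pr2 J S (U b) (V b) (U c) (V c) := by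
  have : Nonempty (Fin (n c)) := ⟨⟨0, g.pos c⟩⟩
  have hy := g.ypre hh
  have h1 : pb (U b) (V b) ((2 : K) • h - 1) ∈ (brk J S).map (pb (U b) (V b)) := by
    rw [g.pb_brk b]
    exact (g.y_mem b hh).1
  obtain ⟨A, hA, hAb⟩ := Submodule.mem_map.1 h1
  have hAp : A ∈ preL J S := brk_pre hA
  have hyA : (2 : K) • h - 1 - A ∈ preL J S := (preL J S).sub_mem hy hAp
  have hcomm : ∀ X' ∈ LcN J S (U c) (V c), pb (U c) (V c) ((2 : K) • h - 1 - A) * X' =
      X' * pb (U c) (V c) ((2 : K) • h - 1 - A) := by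
    intro X' hX'
    rw [← g.pb_brk c] at hX'
    obtain ⟨X, hX, rfl⟩ := Submodule.mem_map.1 hX'
    have hXp := brk_pre hX
    have h2 := brk_ad hyA hXp
    have h3 : pb (U b) (V b) (((2 : K) • h - 1 - A) * X - X * ((2 : K) • h - 1 - A)) = 0 := by
      rw [g.pb_bracket b hyA hXp]
      have h4 : pb (U b) (V b) ((2 : K) • h - 1 - A) = 0 := by
        rw [map_sub, hAb, sub_self]
      rw [h4, zero_mul, mul_zero, sub_zero]
    have h5 := (hgr _ h2).1 h3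
    rw [g.pb_bracket c hyA hXp] at h5
    exact sub_eq_zero.1 h5
  obtain ⟨t, ht⟩ := Pool.Agent.H25Y.scalar_of_comm (g.irr c) hcomm
  have htr : LinearMap.trace K (Fin (n c) → K) (pb (U c) (V c) ((2 : K) • h - 1 - A)) = 0 := by
    rw [map_sub, map_sub, ((g.y_mem c hh).1).2, (g.pb_mem c hA).2, sub_zero]
  have ht0 : t = 0 := by
    rw [ht, map_smul, LinearMap.trace_one, Module.finrank_fintype_fun_eq_card, Fintype.card_fin,
      smul_eq_mul] at htr
    rcases mul_eq_zero.1 htr with h6 | h6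
    · exact h6
    · exact absurd h6 (Nat.cast_ne_zero.2 (g.pos c).ne')
  rw [ht0, zero_smul, map_sub] at ht
  have h7 : pb (U c) (V c) ((2 : K) • h - 1) = pb (U c) (V c) A := sub_eq_zero.1 ht
  refine Submodule.mem_map.2 ⟨A, hA, ?_⟩
  exact Prod.ext hAb h7.symm

/-- PROOF. `h` from `g.hh`, `ε`, `ε'` from `y_diag` for `b`, `c`; `eps`: `y_pair`.  `lie`: `pb_bracket`, `brk_ad`.  `fst`, `snd`: `pb_brk`.  `left`, `right`: `hgr`.  `inj`, `ne`: `g.ec`.
`cnj`: `pb_conj`, `conj_brk` with `g.hx` and the inverse `x'` from `Sit.cl g.hx`. -/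
theorem gr {b c : B} (hgr : ∀ A ∈ brk J S, pb (U b) (V b) A = 0 ↔ pb (U c) (V c) A = 0) :
    ∃ ε ε', Gr (pr2 J S (U b) (V b) (U c) (V c)) (LcN J S (U b) (V b)) (LcN J S (U c) (V c)) (d b) (d c) ε ε' := by
  obtain ⟨h, hh, hx⟩ := g.hh
  obtain ⟨ε, hε1, hε2⟩ := g.y_diag b hh hx
  obtain ⟨ε', hε1', hε2'⟩ := g.y_diag c hh hx
  have hmem : ∀ {X : Module.End K (Fin (n b) → K)} {X' : Module.End K (Fin (n c) → K)},
      (X, X') ∈ pr2 J S (U b) (V b) (U c) (V c) ↔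
        ∃ A ∈ brk J S, pb (U b) (V b) A = X ∧ pb (U c) (V c) A = X' := by
    intro X X'
    constructor
    · intro hm
      obtain ⟨A, hA, hAe⟩ := Submodule.mem_map.1 hm
      exact ⟨A, hA, congrArg Prod.fst hAe, congrArg Prod.snd hAe⟩
    · rintro ⟨A, hA, rfl, rfl⟩
      exact Submodule.mem_map.2 ⟨A, hA, rfl⟩
  refine ⟨ε, ε', ?_⟩
  refine
    { lie := ?_, fst := ?_, snd := ?_, left := ?_, right := ?_, inj := (g.ec b).inj, inj' := (g.ec c).inj,
      ne := (g.ec b).ne, ne' := (g.ec c).ne, cnj := ?_, eps := ?_, val := hε2, val' := hε2' }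
  · rintro ⟨X, X'⟩ hp ⟨Y, Y'⟩ hq
    obtain ⟨A, hA, rfl, rfl⟩ := hmem.1 hp
    obtain ⟨A', hA', rfl, rfl⟩ := hmem.1 hq
    refine hmem.2 ⟨A * A' - A' * A, brk_ad (brk_pre hA) (brk_pre hA'), ?_, ?_⟩
    · exact g.pb_bracket b (brk_pre hA) (brk_pre hA')
    · exact g.pb_bracket c (brk_pre hA) (brk_pre hA')
  · intro X
    constructor
    · intro hX
      rw [← g.pb_brk b] at hX
      obtain ⟨A, hA, rfl⟩ := Submodule.mem_map.1 hX
      exact ⟨_, hmem.2 ⟨A, hA, rfl, rfl⟩⟩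
    · rintro ⟨X', hX⟩
      obtain ⟨A, hA, rfl, -⟩ := hmem.1 hX
      exact g.pb_mem b hA
  · intro X'
    constructor
    · intro hX
      rw [← g.pb_brk c] at hX
      obtain ⟨A, hA, rfl⟩ := Submodule.mem_map.1 hX
      exact ⟨_, hmem.2 ⟨A, hA, rfl, rfl⟩⟩
    · rintro ⟨X, hX⟩
      obtain ⟨A, hA, -, rfl⟩ := hmem.1 hX
      exact g.pb_mem c hA
  · intro X hX
    obtain ⟨A, hA, rfl, h2⟩ := hmem.1 hX
    exact (hgr A hA).2 h2
  · intro X' hX
    obtain ⟨A, hA, h2, rfl⟩ := hmem.1 hX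
    exact (hgr A hA).1 h2
  · intro X X' hX
    obtain ⟨A, hA, rfl, rfl⟩ := hmem.1 hX
    obtain ⟨⟨x', hx', hxx, -⟩, -, -⟩ := g.cl g.hx
    refine hmem.2 ⟨x * A * x', g.conj_brk g.hx hxx hA, g.pb_conj b hxx, g.pb_conj c hxx⟩
  · rw [← hε1, ← hε1']
    exact g.y_pair hgr hh

end Sit

end Pool.Agent.H34Z
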