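import Pool.Agent.Lib.H34Z.D0

/-!
# A01: monomial forms
-/

set_option autoImplicit false
set_option linter.unusedSectionVars false
namespace Pool.Agent.H34Z
open Module Matrix Pool.Agent.H53Toric Pool.Agent.H76P

variable {κ : Type*} [Fintype κ] [DecidableEq κ] {K : Type*} [Field K] [CharZero K] {J : Matrix κ κ K} {π : κ → κ}

/-- PROOF. Fix `i`.  As `J` is invertible its row `i` is not zero, so there is `j` with `J i j ≠ 0`.  If also
`J i j' ≠ 0`, then `d i * d j = c = d i * d j'` (cancel `J i j`, `J i j'` in `hc`), so `d j = d j'` and `j = j'`.  Let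
`π i = j` (choose).  `J (π i) i ≠ 0` by `hs`, so `π (π i) = i` by the uniqueness. -/
theorem mon_of (hs : ∀ i j, J i j ≠ 0 → J j i ≠ 0) (hdet : IsUnit J.det) {d : κ → K}
    (hd : Function.Injective d) (h0 : ∀ k, d k ≠ 0) {c : K}
    (hc : ∀ i j, d i * J i j * d j = c * J i j) : ∃ π, Mon J π := by
  have h1 : ∀ i, ∃ j, J i j ≠ 0 := by
    intro i
    by_contra h
    push Not at h
    exact hdet.ne_zero (Matrix.det_eq_zero_of_row_eq_zero i h)
  have h2 : ∀ i j, J i j ≠ 0 → d i * d j = c := by
    intro i j hij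
    have h3 := hc i j
    have h4 : (d i * d j - c) * J i j = 0 := by linear_combination h3
    rcases mul_eq_zero.1 h4 with h5 | h5
    · exact sub_eq_zero.1 h5
    · exact absurd h5 hij
  have h3 : ∀ i j j', J i j ≠ 0 → J i j' ≠ 0 → j = j' := by
    intro i j j' h4 h5
    exact hd (mul_left_cancel₀ (h0 i) ((h2 i j h4).trans (h2 i j' h5).symm))
  choose π hπ using h1
  refine ⟨π, ⟨fun i => h3 (π i) _ _ (hπ (π i)) (hs _ _ (hπ i)), hπ, fun i j hj => ?_⟩⟩
  by_contra h
  exact hj (h3 i j (π i) h (hπ i))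

/-- PROOF. If `i ≠ π j` then `j ≠ π i` (apply `π`). -/
theorem Mon.col (hm : Mon J π) {i j : κ} (h : i ≠ π j) : J i j = 0 := by
  refine hm.zero i j fun h1 => h ?_
  rw [h1, hm.inv]

/-- PROOF. `dg g = phi (Matrix.diagonal g)` (compare the values); `skew_iff hdet` gives
`adjE J (dg g) = -dg g ↔ (diagonal g)ᵀ * J + J * diagonal g = 0`, i.e. `(g i + g j) * J i j = 0` for all `i`, `j`
(`Matrix.diagonal_mul`, `Matrix.mul_diagonal`).  For `j = π i` this is `g i + g (π i) = 0`, for `j ≠ π i` it is trivial. -/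
theorem dg_skew (hm : Mon J π) (hdet : IsUnit J.det) (g : κ → K) :
    adjE J (dg g) = -dg g ↔ ∀ i, g (π i) = -g i := by
  have h1 : dg g = phi (Matrix.diagonal g) := by
    refine LinearMap.ext fun v => funext fun a => ?_
    rw [dg_apply, phi_apply, Matrix.mulVec_diagonal]
  rw [h1, skew_iff hdet, Matrix.diagonal_transpose]
  have h2 : ∀ i j, (Matrix.diagonal g * J + J * Matrix.diagonal g) i j = (g i + g j) * J i j := by
    intro i j
    rw [Matrix.add_apply, Matrix.diagonal_mul, Matrix.mul_diagonal]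
    ring
  constructor
  · intro h i
    have h3 := h2 i (π i)
    rw [h, Matrix.zero_apply] at h3
    rcases mul_eq_zero.1 h3.symm with h4 | h4
    · linear_combination h4
    · exact absurd h4 (hm.ne i)
  · intro h
    ext i j
    rw [h2, Matrix.zero_apply]
    by_cases hj : j = π i
    · rw [hj, h i, add_neg_cancel, zero_mul]
    · rw [hm.zero i j hj, mul_zero]

/-- PROOF. `J i i = - J i i`, so `J i i = 0 ≠ J i (π i)`. -/
theorem Mon.ne_self (hm : Mon J π) (hJ : Jᵀ = -J) (i : κ) : π i ≠ i := by
  intro h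
  have h1 := congrFun (congrFun hJ i) i
  rw [Matrix.transpose_apply, Matrix.neg_apply] at h1
  have h2 : J i i = 0 := by
    have h3 : (2 : K) * J i i = 0 := by linear_combination h1
    rcases mul_eq_zero.1 h3 with h4 | h4
    · exact absurd h4 two_ne_zero
    · exact h4
  have h3 := hm.ne i
  rw [h] at h3
  exact h3 h2

/-- The block of a similitude.  PROOF. `Matrix.diagonal_mul`, `Matrix.mul_diagonal`: compare entries. -/
theorem diag_sim {d : κ → K} {c : K} (h : Matrix.diagonal d * J * Matrix.diagonal d = c • J) (i j : κ) :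
    d i * J i j * d j = c * J i j := by
  have h1 := congrFun (congrFun h i) j
  rw [Matrix.mul_diagonal, Matrix.diagonal_mul, Matrix.smul_apply, smul_eq_mul] at h1
  exact h1

end Pool.Agent.H34Z
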