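import Mathlib

/-!
# A05: three combinatorial lemmas
-/

set_option autoImplicit false
set_option linter.unusedSectionVars false
namespace Pool.Agent.H34Z
open Finset

variable {κ : Type*} [DecidableEq κ] {K : Type*} [Field K] [CharZero K]

/-- PROOF. The sum is the number of `i ∈ T` with `lam i = 1` (`Finset.sum_boole` after rewriting `lam i = if lam i = 1 then 1 else 0`), so
this number is `1` (`Nat.cast_eq_one`, `Finset.card_eq_one`). -/
theorem comb_s {T : Finset κ} {lam : κ → K} (h : ∀ i ∈ T, lam i = 0 ∨ lam i = 1) (hs : ∑ i ∈ T, lam i = 1) :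
    ∃ i₀ ∈ T, lam i₀ = 1 ∧ ∀ i ∈ T, i ≠ i₀ → lam i = 0 := by
  classical
  have h1 : ∑ i ∈ T, lam i = ((T.filter fun i => lam i = 1).card : K) := by
    rw [← Finset.sum_boole]
    refine sum_congr rfl fun i hi => ?_
    rcases h i hi with h0 | h0
    · rw [h0, if_neg zero_ne_one]
    · rw [h0, if_pos rfl]
  rw [h1] at hs
  have h2 : (T.filter fun i => lam i = 1).card = 1 := by exact_mod_cast hs
  obtain ⟨i₀, hi₀⟩ := card_eq_one.1 h2
  have h3 : i₀ ∈ T.filter fun i => lam i = 1 := by rw [hi₀]; exact mem_singleton_self _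
  rw [mem_filter] at h3
  refine ⟨i₀, h3.1, h3.2, fun i hi hne => ?_⟩
  rcases h i hi with h0 | h0
  · exact h0
  · exfalso
    have h4 : i ∈ T.filter fun i => lam i = 1 := mem_filter.2 ⟨hi, h0⟩
    rw [hi₀, mem_singleton] at h4
    exact hne h4

/-- PROOF. For different `i, j, k ∈ T`: `2 lam i = (lam i + lam j) + (lam i + lam k) - (lam j + lam k)` is in `{-1, 0, 1, 2}` (cases).
(a) Suppose `lam i = 0` or `lam i = 1` for some `i ∈ T`.  Then for `j ≠ i` in `T`: `lam j = (lam i + lam j) - lam i` is in `{-1, 0, 1}`, and with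
`2 lam j ∈ {-1, 0, 1, 2}` (third index: `T` has at least three elements) `lam j ∈ {0, 1}` (`2 * (-1) = -2` is not in the set, char zero).
So all `lam j ∈ {0, 1}` and `comb_s` applies.
(b) Otherwise `2 lam i ∈ {-1, 1}` for all `i ∈ T`.  There is at most one `i` with `2 lam i = -1` (for two such `lam i + lam j = -1` is
not in `{0, 1}`).  So with `n = T.card`: `2 = ∑ 2 lam i = n` or `= n - 2`, i.e. `n = 2` or `n = 4` (in `K`, char zero, so in `ℕ`), excluded. -/
theorem comb_o {T : Finset κ} {lam : κ → K} (h : ∀ i ∈ T, ∀ j ∈ T, i ≠ j → lam i + lam j = 0 ∨ lam i + lam j = 1)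
    (hs : ∑ i ∈ T, lam i = 1) (h3 : 3 ≤ T.card) (h4 : T.card ≠ 4) :
    ∃ i₀ ∈ T, lam i₀ = 1 ∧ ∀ i ∈ T, i ≠ i₀ → lam i = 0 := by
  classical
  have hA : ∀ i ∈ T, 2 * lam i = -1 ∨ 2 * lam i = 0 ∨ 2 * lam i = 1 ∨ 2 * lam i = 2 := by
    intro i hi
    have h5 : 0 < (T.erase i).card := by
      rw [card_erase_of_mem hi]
      omega
    obtain ⟨j, hj⟩ := card_pos.1 h5
    have h6 : 0 < ((T.erase i).erase j).card := by
      rw [card_erase_of_mem hj, card_erase_of_mem hi]
      omega
    obtain ⟨k, hk⟩ := card_pos.1 h6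
    rw [mem_erase] at hj
    rw [mem_erase, mem_erase] at hk
    have e1 := h i hi j hj.2 (Ne.symm hj.1)
    have e2 := h i hi k hk.2.2 (Ne.symm hk.2.1)
    have e3 := h j hj.2 k hk.2.2 (Ne.symm hk.1)
    have e : 2 * lam i = (lam i + lam j) + (lam i + lam k) - (lam j + lam k) := by ring
    rcases e1 with e1 | e1 <;> rcases e2 with e2 | e2 <;> rcases e3 with e3 | e3 <;>
      rw [e1, e2, e3] at e
    · right; left; rw [e]; ring
    · left; rw [e]; ring
    · right; right; left; rw [e]; ring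
    · right; left; rw [e]; ring
    · right; right; left; rw [e]; ring
    · right; left; rw [e]; ring
    · right; right; right; rw [e]; ring
    · right; right; left; rw [e]; ring
  by_cases ha : ∃ i ∈ T, lam i = 0 ∨ lam i = 1
  · obtain ⟨i, hi, hi01⟩ := ha
    refine comb_s (fun j hj => ?_) hs
    by_cases hij : j = i
    · rw [hij]
      exact hi01
    · have e1 := h i hi j hj (Ne.symm hij)
      have e2 := hA j hj
      have hneg : lam j ≠ -1 := by
        intro h0
        rw [h0] at e2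
        rcases e2 with e2 | e2 | e2 | e2 <;> norm_num at e2
      rcases hi01 with h0 | h0 <;> rcases e1 with e1 | e1 <;> rw [h0] at e1
      · left; rwa [zero_add] at e1
      · right; rwa [zero_add] at e1
      · exfalso
        exact hneg (by linear_combination e1)
      · left; linear_combination e1
  · exfalso
    push Not at ha
    have hB : ∀ i ∈ T, 2 * lam i = -1 ∨ 2 * lam i = 1 := by
      intro i hi
      have h01 := ha i hi
      rcases hA i hi with e | e | e | e
      · exact Or.inl e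
      · exfalso
        apply h01.1
        linear_combination (1 / 2) * e
      · exact Or.inr e
      · exfalso
        apply h01.2
        linear_combination (1 / 2) * e
    have hsum : ∑ i ∈ T, 2 * lam i = 2 := by rw [← mul_sum, hs, mul_one]
    by_cases hc : ∃ i ∈ T, 2 * lam i = -1
    · obtain ⟨i, hi, hi1⟩ := hc
      have hother : ∀ j ∈ T.erase i, 2 * lam j = 1 := by
        intro j hj
        rw [mem_erase] at hj
        rcases hB j hj.2 with e | e
        · exfalso
          rcases h i hi j hj.2 (Ne.symm hj.1) with e1 | e1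
          · have : (2 : K) = 0 := by linear_combination hi1 + e - 2 * e1
            norm_num at this
          · have : (4 : K) = 0 := by linear_combination hi1 + e - 2 * e1
            norm_num at this
        · exact e
      rw [← add_sum_erase T (fun i => 2 * lam i) hi, sum_congr rfl hother, hi1] at hsum
      rw [sum_const, nsmul_eq_mul, mul_one, card_erase_of_mem hi] at hsum
      have h5 : ((T.card - 1 : ℕ) : K) = ((3 : ℕ) : K) := by
        push_cast
        linear_combination hsum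
      have h6 : T.card - 1 = 3 := by exact_mod_cast h5
      omega
    · push Not at hc
      have hall : ∀ j ∈ T, 2 * lam j = 1 := fun j hj => (hB j hj).resolve_left (hc j hj)
      rw [sum_congr rfl hall, sum_const, nsmul_eq_mul, mul_one] at hsum
      have h6 : T.card = 2 := by exact_mod_cast hsum
      omega

/-- Here `T'` is the second index set, `p` a bijection from `T` to `T'`.
PROOF. `comb_s` for `lam i = a i (p i)` gives `i₀ ∈ T` with `a i₀ (p i₀) = 1` and `a i (p i) = 0` for `i ≠ i₀`.  Let `j₀ = p i₀`.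
For `i ≠ i₀` in `T`, by `hadd`: `a i₀ (p i₀) + a i (p i) = a i₀ (p i) + a i (p i₀)`, so `a i₀ (p i) + a i j₀ = 1`, i.e. one of them is `1`, the
other `0`.
If `T = {i₀}` then `T' = {j₀}` and the first alternative holds.
Case A: `a i₀ (p i) = 1` for all `i ∈ T`, `i ≠ i₀`.  Then `a i₀ j = 1` for all `j ∈ T'`, `a i j₀ = 0` for all `i ≠ i₀`, and for `i ≠ i₀`, `j ∈ T'`:
`a i j = a i j₀ + a i₀ j - a i₀ j₀ = 0 + 1 - 1 = 0`: the first alternative.
Case B: there is `k ≠ i₀` with `a i₀ (p k) = 0`, so `a k j₀ = 1`.  Then for all `i`: `a i (p k) = a i j₀ + a i₀ (p k) - a i₀ j₀ = a i j₀ - 1`, which must be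
in `{0, 1}`, so `a i j₀ = 1` for all `i ∈ T`; so `a i₀ (p i) = 0` for `i ≠ i₀`, i.e. `a i₀ j = 0` for `j ≠ j₀`, and for all `i` and `j ≠ j₀`:
`a i j = a i j₀ + a i₀ j - a i₀ j₀ = 1 + 0 - 1 = 0`: the second alternative. -/
theorem comb_n {T T' : Finset κ} {a : κ → κ → K} (h : ∀ i ∈ T, ∀ j ∈ T', a i j = 0 ∨ a i j = 1)
    (hadd : ∀ i ∈ T, ∀ k ∈ T, ∀ j ∈ T', ∀ l ∈ T', a i j + a k l = a i l + a k j)
    {p : κ → κ} (hp : ∀ i ∈ T, p i ∈ T') (hinj : ∀ i ∈ T, ∀ j ∈ T, p i = p j → i = j)
    (hsurj : ∀ j ∈ T', ∃ i ∈ T, p i = j) (hs : ∑ i ∈ T, a i (p i) = 1) :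
    (∃ i₀ ∈ T, ∀ i ∈ T, ∀ j ∈ T', a i j = if i = i₀ then 1 else 0) ∨
    (∃ j₀ ∈ T', ∀ i ∈ T, ∀ j ∈ T', a i j = if j = j₀ then 1 else 0) := by
  classical
  obtain ⟨i₀, hi₀, h1, h0⟩ := comb_s (lam := fun i => a i (p i)) (fun i hi => h i hi _ (hp i hi)) hs
  have hsum : ∀ i ∈ T, i ≠ i₀ → a i₀ (p i) + a i (p i₀) = 1 := by
    intro i hi hne
    have e := hadd i₀ hi₀ i hi (p i₀) (hp i₀ hi₀) (p i) (hp i hi)
    have e1 : a i (p i) = 0 := h0 i hi hne
    have e2 : a i₀ (p i₀) = 1 := h1
    linear_combination e2 + e1 - e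
  have hgen : ∀ i ∈ T, ∀ j ∈ T', a i j = a i (p i₀) + a i₀ j - 1 := by
    intro i hi j hj
    have e := hadd i hi i₀ hi₀ j hj (p i₀) (hp i₀ hi₀)
    have e2 : a i₀ (p i₀) = 1 := h1
    linear_combination e - e2
  by_cases hA : ∀ i ∈ T, i ≠ i₀ → a i₀ (p i) = 1
  · left
    refine ⟨i₀, hi₀, fun i hi j hj => ?_⟩
    have hrow : a i₀ j = 1 := by
      obtain ⟨k, hk, rfl⟩ := hsurj j hj
      by_cases hki : k = i₀
      · rw [hki]; exact h1
      · exact hA k hk hki
    by_cases hii : i = i₀
    · rw [if_pos hii, hii]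
      exact hrow
    · rw [if_neg hii, hgen i hi j hj, hrow]
      have e1 := hsum i hi hii
      have e2 := hA i hi hii
      linear_combination e1 - e2
  · right
    push Not at hA
    obtain ⟨k, hk, hki, hk1⟩ := hA
    have hk0 : a i₀ (p k) = 0 := (h i₀ hi₀ _ (hp k hk)).resolve_right hk1
    have hcol : ∀ i ∈ T, a i (p i₀) = 1 := by
      intro i hi
      have e1 := hgen i hi (p k) (hp k hk)
      rw [hk0] at e1
      rcases h i hi (p i₀) (hp i₀ hi₀) with e2 | e2
      · exfalso
        rw [e2] at e1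
        rcases h i hi (p k) (hp k hk) with e3 | e3
        · rw [e3] at e1
          norm_num at e1
        · rw [e3] at e1
          norm_num at e1
      · exact e2
    refine ⟨p i₀, hp i₀ hi₀, fun i hi j hj => ?_⟩
    by_cases hjj : j = p i₀
    · rw [if_pos hjj, hjj]
      exact hcol i hi
    · rw [if_neg hjj, hgen i hi j hj, hcol i hi]
      obtain ⟨m, hm, rfl⟩ := hsurj j hj
      have hmi : m ≠ i₀ := fun h => hjj (by rw [h])
      have e1 := hsum m hm hmi
      have e2 := hcol m hm
      linear_combination e1 - e2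

end Pool.Agent.H34Z
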