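import Pool.Agent.Lib.H34Z.A02
import Pool.Agent.Lib.H34Z.A05

/-!
# A06: weights of the symplectic Lie algebra on which an involution has the value 1
-/

set_option autoImplicit false
set_option linter.unusedSectionVars false
namespace Pool.Agent.H34Z
open Module Matrix Pool.Agent.H53Toric Pool.Agent.H76P

variable {κ : Type*} [Fintype κ] [DecidableEq κ] {K : Type*} [Field K] [CharZero K] {J : Matrix κ κ K} {π : κ → κ}
  {L : Submodule K (Module.End K (κ → K))} {ε : κ → K} {W : Submodule K ((κ → K) × K)}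

/-- A functional is determined by its values.  PROOF. `(g, c) - (g, c') = (0, c - c')`. -/
theorem Fun.eq (hW : Fun L ε W) {g : κ → K} {c c' : K} (h : (g, c) ∈ W) (h' : (g, c') ∈ W) : c = c' := by
  have h1 := W.sub_mem h h'
  rw [Prod.mk_sub_mk, sub_self] at h1
  exact sub_eq_zero.1 (hW.zero _ h1)

/-- A form-compatible function is a combination of the functions `1_i - 1_(π i)`, `i ∈ T`, for a set `T` of representatives.
PROOF. Evaluate at `k`: if `k ∈ T` then only `i = k` contributes (`π i = k` with `i ∈ T` would give `π k = i ∈ T`); if `k ∉ T` then `π k ∈ T` and only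
`i = π k` contributes `-g (π k) = g k`. -/
theorem dec_pi (hinv : ∀ i, π (π i) = i) {T : Finset κ} (hT : ∀ i, i ∈ T ↔ π i ∉ T) {g : κ → K} (hg : ∀ i, g (π i) = -g i) :
    g = ∑ i ∈ T, g i • (Pi.single i 1 - Pi.single (π i) 1) := by
  funext k
  rw [Finset.sum_apply]
  by_cases hk : k ∈ T
  · rw [Finset.sum_eq_single k]
    · have h1 : k ≠ π k := by
        intro h2
        have h3 := (hT k).1 hk
        rw [← h2] at h3
        exact h3 hk
      rw [Pi.smul_apply, Pi.sub_apply, Pi.single_eq_same, Pi.single_eq_of_ne h1, sub_zero, smul_eq_mul, mul_one]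
    · intro i hi hik
      have h1 : k ≠ π i := by
        intro h2
        have h3 := (hT i).1 hi
        rw [← h2] at h3
        exact h3 hk
      rw [Pi.smul_apply, Pi.sub_apply, Pi.single_eq_of_ne (Ne.symm hik), Pi.single_eq_of_ne h1, sub_zero, smul_zero]
    · intro h
      exact absurd hk h
  · have hk' : π k ∈ T := by
      by_contra h1
      exact hk ((hT k).2 h1)
    rw [Finset.sum_eq_single (π k)]
    · have h1 : k ≠ π k := by
        intro h2
        rw [← h2] at hk'
        exact hk hk'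
      rw [Pi.smul_apply, Pi.sub_apply, hinv, Pi.single_eq_same, Pi.single_eq_of_ne h1, zero_sub, hg, smul_eq_mul,
        neg_mul_neg, mul_one]
    · intro i hi hik
      have h1 : k ≠ i := by
        intro h2
        rw [h2] at hk
        exact hk hi
      have h2 : k ≠ π i := by
        intro h3
        apply hik
        rw [h3, hinv]
      rw [Pi.smul_apply, Pi.sub_apply, Pi.single_eq_of_ne h1, Pi.single_eq_of_ne h2, sub_zero, smul_zero]
    · intro h
      exact absurd hk' h

/-- PROOF. `T = {i | ε i = 1}`; `hT` of `dec_pi` holds since `ε (π i) = -ε i` (`dg_skew`, as `dg ε ∈ L` by `hW.dom`).  For each `i ∈ T` let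
`h i = 1_i - 1_(π i)`; `dg (h i) ∈ L` (`dg_skew`), so there is `lam i` with `(h i, lam i) ∈ W` (`hW.tot`, choose for all `i`), and `lam i ∈ {0, 1}` by
`cor_s` and `hW.cor`.  `ε = ∑ i ∈ T, h i` (`dec_pi`), so `(ε, ∑ lam i) ∈ W` (`Submodule.sum_mem`) and `∑ lam i = 1` (`hW.eps`, `Fun.eq`).
`comb_s` gives `i₀`.  For `(g, c) ∈ W`: `dg g ∈ L`, so `g = ∑ i ∈ T, g i • h i` (`dec_pi`, `dg_skew`), `(g, ∑ g i * lam i) ∈ W`, and
`c = ∑ i ∈ T, g i * lam i = g i₀`. -/
theorem wt_s (hJ : Jᵀ = -J) (hdet : IsUnit J.det) (hm : Mon J π) (hL : ∀ X, X ∈ L ↔ adjE J X = -X)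
    (hε : ∀ k, ε k = 1 ∨ ε k = -1) (hW : Fun L ε W) : ∃ i, ∀ g c, (g, c) ∈ W → c = g i := by
  have hinv := hm.inv
  have hg : ∀ g : κ → K, dg g ∈ L ↔ ∀ i, g (π i) = -g i := fun g => (hL _).trans (dg_skew hm hdet g)
  have hεπ : ∀ i, ε (π i) = -ε i := (hg ε).1 (hW.dom _ _ hW.eps)
  obtain ⟨T, hTd⟩ : ∃ T : Finset κ, ∀ i, i ∈ T ↔ ε i = 1 := by
    classical
    exact ⟨Finset.univ.filter fun i => ε i = 1, fun i => by simp⟩
  have h11 : (1 : K) ≠ -1 := fun h => two_ne_zero (α := K) (by linear_combination h)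
  have hT : ∀ i, i ∈ T ↔ π i ∉ T := by
    intro i
    rw [hTd, hTd, hεπ]
    rcases hε i with h1 | h1
    · rw [h1]
      exact ⟨fun _ h => h11 h.symm, fun _ => rfl⟩
    · rw [h1, neg_neg]
      exact ⟨fun h => absurd h.symm h11, fun h => absurd rfl h⟩
  have hh : ∀ i : κ, dg (Pi.single i 1 - Pi.single (π i) 1 : κ → K) ∈ L := by
    intro i
    rw [hg]
    intro k
    rw [Pi.sub_apply, Pi.sub_apply]
    have e1 : (Pi.single i 1 : κ → K) (π k) = (Pi.single (π i) 1 : κ → K) k := by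
      by_cases h1 : π k = i
      · have h2 : k = π i := by rw [← h1, hinv]
        rw [h1, h2, Pi.single_eq_same, Pi.single_eq_same]
      · have h2 : k ≠ π i := fun h3 => h1 (by rw [h3, hinv])
        rw [Pi.single_eq_of_ne h1, Pi.single_eq_of_ne h2]
    have e2 : (Pi.single (π i) 1 : κ → K) (π k) = (Pi.single i 1 : κ → K) k := by
      by_cases h1 : k = i
      · rw [h1, Pi.single_eq_same, Pi.single_eq_same]
      · have h2 : π k ≠ π i := fun h3 => h1 (by rw [← hinv k, h3, hinv])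
        rw [Pi.single_eq_of_ne h1, Pi.single_eq_of_ne h2]
    rw [e1, e2, neg_sub]
  choose lam hlam using fun i => hW.tot _ (hh i)
  have hsum : ∀ g : κ → K, (∀ i, g (π i) = -g i) → (g, ∑ i ∈ T, g i * lam i) ∈ W := by
    intro g hgi
    have h1 : ∑ i ∈ T, g i • ((Pi.single i 1 - Pi.single (π i) 1 : κ → K), lam i) ∈ W :=
      Submodule.sum_mem _ fun i _ => W.smul_mem _ (hlam i)
    have h2 : ∑ i ∈ T, g i • ((Pi.single i 1 - Pi.single (π i) 1 : κ → K), lam i) =
        (g, ∑ i ∈ T, g i * lam i) := by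
      refine Prod.ext ?_ ?_
      · rw [Prod.fst_sum]
        exact (dec_pi hinv hT hgi).symm
      · rw [Prod.snd_sum]
        rfl
    rwa [h2] at h1
  have hlam1 : ∑ i ∈ T, lam i = 1 := by
    have h1 := hsum ε hεπ
    have h2 : ∑ i ∈ T, ε i * lam i = ∑ i ∈ T, lam i :=
      Finset.sum_congr rfl fun i hi => by rw [(hTd i).1 hi, one_mul]
    rw [h2] at h1
    exact hW.eq h1 hW.eps
  have hlam01 : ∀ i ∈ T, lam i = 0 ∨ lam i = 1 := by
    intro i hi
    have h1 := (hTd i).1 hi
    refine hW.cor _ _ (cor_s hJ hdet hm (fun X hX => (hL X).2 hX) h1 ?_) (hlam i)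
    rw [hεπ, h1]
  obtain ⟨i₀, hi₀, h1, h2⟩ := comb_s hlam01 hlam1
  refine ⟨i₀, fun g c hgc => ?_⟩
  have h3 := hsum g ((hg g).1 (hW.dom _ _ hgc))
  rw [hW.eq hgc h3, Finset.sum_eq_single i₀]
  · rw [h1, mul_one]
  · intro i hi hne
    rw [h2 i hi hne, mul_zero]
  · intro h
    exact absurd hi₀ h

end Pool.Agent.H34Z
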