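import Pool.Agent.Lib.H34Z.A13

/-!
# A14: graphs and isomorphisms, all cases
-/

set_option autoImplicit false
set_option linter.unusedSectionVars false
namespace Pool.Agent.H34Z
open Module Matrix Pool.Agent.H53Toric Pool.Agent.H76P

variable {κ κ' : Type*} [Fintype κ] [DecidableEq κ] [Fintype κ'] [DecidableEq κ'] {K : Type*} [Field K] [CharZero K]
  {𝓛 : Submodule K (Module.End K (κ → K) × Module.End K (κ' → K))}
  {L : Submodule K (Module.End K (κ → K))} {L' : Submodule K (Module.End K (κ' → K))}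
  {d ε : κ → K} {d' ε' : κ' → K}

theorem a14_neg (g : κ → K) : -(dg g : Module.End K (κ → K)) = dg (-g) := by
  refine LinearMap.ext fun v => funext fun a => ?_
  rw [LinearMap.neg_apply, Pi.neg_apply, dg_apply, dg_apply, Pi.neg_apply, neg_mul]

theorem a14_lt {X : Module.End K (κ → K)} {X' : Module.End K (κ' → K)} (h : (X, X') ∈ 𝓛) :
    (-(adjE (1 : Matrix κ κ K) X), X') ∈ Lt 𝓛 := by
  rw [mem_Lt, map_neg, neg_neg, adjE_one_one]
  exact h

theorem a14_dg {g : κ → K} {X' : Module.End K (κ' → K)} : (dg g, X') ∈ Lt 𝓛 ↔ (dg (-g), X') ∈ 𝓛 := by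
  rw [mem_Lt, adjE_one_dg, a14_neg]

/-- PROOF. Cases of `hL`.
`s`, `o`: `Gr.wt_so`, `Gr.iso_so`: the first alternative.
`n`: `Gr.wt_n` gives `idx`, `s`; let `k₀ : κ'` be any element.
If `s k₀ = 1`: `iso_n` for `𝓛` (`hdiag`: `dg g ∈ L` by `trace_dg`, `h.fst`, `h.diag`; `hsepL`: `fb_sep` for `L'` with `h.snd`, `h.diag'`, `h.eps`;
`hirr`: for `p = (X, X')`, `X ∈ L` iff `∃ X', (X, X') ∈ 𝓛`).
If `s k₀ = -1`: `iso_n` for `Lt 𝓛` with `idx`, `-s`: `lt_lie`; `(dg g, dg g') ∈ Lt 𝓛` iff `(dg (-g), dg g') ∈ 𝓛` (`adjE_one_dg`), so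
`g' k = s k * (-g (idx k)) = (-s k) * g (idx k)`; the first projection of `Lt 𝓛` is `{X | -adjE 1 X ∈ L} = L` (`trace_adjE_one`); it gives `T` with
`T (p.1 v) = p.2 (T v)` for all `p ∈ Lt 𝓛`; for `(X, X') ∈ 𝓛` the pair `(-adjE 1 X, X')` is in `Lt 𝓛` (`adjE_one_one`): the second alternative. -/
theorem Gr.iso (h : Gr 𝓛 L L' d d' ε ε') [Nonempty κ'] {t t' : Prop} {J : Matrix κ κ K} {J' : Matrix κ' κ' K}
    (hL : FB t L J) (hL' : FB t' L' J') (hirr : Irr L) (hirr' : Irr L') :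
    (∃ T : (κ → K) →ₗ[K] (κ' → K), Function.Bijective T ∧ ∀ p ∈ 𝓛, ∀ v, T (p.1 v) = p.2 (T v)) ∨
    ∃ T : (κ → K) →ₗ[K] (κ' → K), Function.Bijective T ∧
      ∀ p ∈ 𝓛, ∀ v, T (adjE (1 : Matrix κ κ K) p.1 v) = -p.2 (T v) := by
  cases hL with
  | s ht π hJ hdet hm hL =>
    obtain ⟨idx, hg⟩ := h.wt_so (Or.inl hJ) hdet hm hL
    exact Or.inl (h.iso_so hdet hm hL hirr hirr' hL' hg)
  | o ht π hJ hdet hm hL h6 h8 =>
    obtain ⟨idx, hg⟩ := h.wt_so (Or.inr ⟨hJ, h6, h8⟩) hdet hm hL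
    exact Or.inl (h.iso_so hdet hm hL hirr hirr' hL' hg)
  | n ht hL h2 =>
    obtain ⟨idx, s, hs, hg⟩ := h.wt_n hL h2
    obtain ⟨k₀⟩ := (inferInstance : Nonempty κ')
    have hεL' : dg ε' ∈ L' := (h.snd _).2 ⟨_, h.eps⟩
    have hdiag : ∀ g : κ → K, ∑ i, g i = 0 → ∃ g' : κ' → K, (dg g, dg g') ∈ 𝓛 := by
      intro g hg0
      have h1 : dg g ∈ L := by
        rw [hL, trace_dg]
        exact hg0
      obtain ⟨X', hX'⟩ := (h.fst _).1 h1
      obtain ⟨g', rfl⟩ := h.diag hX'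
      exact ⟨g', hX'⟩
    have hsepL : ∀ k l : κ', (∀ g g', (dg g, dg g') ∈ 𝓛 → g' k = g' l) → k = l := by
      intro k l H
      by_contra hne'
      obtain ⟨g', hg', hsep⟩ := fb_sep hL' hεL' h.val' hne'
      obtain ⟨X, hX⟩ := (h.snd _).1 hg'
      obtain ⟨g, rfl⟩ := h.diag' hX
      exact hsep (H g g' hX)
    have hirr2 : ∀ W : Submodule K (κ' → K), (∀ p ∈ 𝓛, ∀ w ∈ W, p.2 w ∈ W) → W = ⊥ ∨ W = ⊤ := by
      intro W hW
      refine hirr' W fun X' hX w hw => ?_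
      obtain ⟨X, hX'⟩ := (h.snd _).1 hX
      exact hW _ hX' w hw
    rcases hs k₀ with hk₀ | hk₀
    · left
      refine iso_n h.lie ?_ hirr2 (fun p hp => (hL p.1).1 ((h.fst _).2 ⟨p.2, hp⟩)) hdiag h2 hsepL hs hg hk₀
      intro W hW
      refine hirr W fun X hX w hw => ?_
      obtain ⟨X', hX'⟩ := (h.fst _).1 hX
      exact hW _ hX' w hw
    · right
      obtain ⟨T, hT, hT2⟩ := iso_n (𝓛 := Lt 𝓛) (lt_lie h.lie) (fun W hW => hirr W fun X hX w hw => by
          have h1 : -(adjE (1 : Matrix κ κ K) X) ∈ L := by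
            rw [hL, map_neg, trace_adjE_one, (hL X).1 hX, neg_zero]
          obtain ⟨X', hX'⟩ := (h.fst _).1 h1
          exact hW (X, X') hX' w hw)
        (fun W hW => hirr2 W fun p hp w hw => hW _ (a14_lt hp) w hw)
        (fun p hp => by
          have h1 : (-(adjE (1 : Matrix κ κ K) p.1), p.2) ∈ 𝓛 := hp
          have h2 := (hL _).1 ((h.fst _).2 ⟨_, h1⟩)
          rw [map_neg, trace_adjE_one, neg_eq_zero] at h2
          exact h2)
        (fun g hg0 => by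
          obtain ⟨g', hg'⟩ := hdiag (-g) (by simp [hg0])
          exact ⟨g', a14_dg.2 hg'⟩) h2
        (fun k l H => hsepL k l fun g g' hgg => H (-g) g' (a14_dg.2 (by rw [neg_neg]; exact hgg)))
        (idx := idx) (s := fun k => -s k) (fun k => by
          rcases hs k with h3 | h3
          · right; rw [h3]
          · left; rw [h3, neg_neg])
        (fun g g' hgg k => by
          rw [hg (-g) g' (a14_dg.1 hgg) k, Pi.neg_apply]
          push_cast
          ring) (k₀ := k₀) (by rw [hk₀, neg_neg])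
      refine ⟨T, hT, fun p hp v => ?_⟩
      have h3 := hT2 _ (a14_lt hp) v
      simp only [LinearMap.neg_apply, map_neg] at h3
      rw [← h3, neg_neg]

end Pool.Agent.H34Z
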