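import Pool.Agent.Lib.H34Z.D0

/-!
# A15: no irreducible Lie algebra respects a symmetric form in dimension two
-/

set_option autoImplicit false
set_option linter.unusedSectionVars false
namespace Pool.Agent.H34Z
open Module Matrix Pool.Agent.H53Toric Pool.Agent.H76P

variable {κ : Type*} [Fintype κ] [DecidableEq κ] {K : Type*} [Field K] [CharZero K] [IsAlgClosed K] {J : Matrix κ κ K}
  {L : Submodule K (Module.End K (κ → K))}

/-- PROOF. Let `κ = {a, b}` (`Fintype.card_eq_two`).  For `X ∈ L` with the matrix `x`: `J * x` is skew (`skew_iff hdet`: `xᵀ J + J x = 0`, `Jᵀ = J`), so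
`J * x = c • R` with `R = single a b 1 - single b a 1`, i.e. `x = c • (J⁻¹ * R)`.  `J⁻¹ * R` has an eigenvector `v ≠ 0` (`Module.End.exists_eigenvalue`), and
`W = K ∙ v` is stable under all `X ∈ L`; `W ≠ ⊥`, and `W ≠ ⊤` since its dimension is `1` (`finrank_span_singleton`) and `finrank (κ → K) = 2`.  This
contradicts `hirr`. -/
theorem so_two (h2 : Fintype.card κ = 2) (hJ : Jᵀ = J) (hdet : IsUnit J.det) (hL : ∀ X ∈ L, adjE J X = -X)
    (hirr : Irr L) : False := by
  classical
  obtain ⟨a, b, hab, huniv⟩ := Finset.card_eq_two.1 (show (Finset.univ : Finset κ).card = 2 from h2)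
  have hcase : ∀ i : κ, i = a ∨ i = b := by
    intro i
    have h1 : i ∈ (Finset.univ : Finset κ) := Finset.mem_univ i
    rw [huniv] at h1
    simpa using h1
  set R : Matrix κ κ K := Matrix.single a b 1 - Matrix.single b a 1 with hR
  have hform : ∀ X ∈ L, ∃ c : K, X = c • phi (J⁻¹ * R) := by
    intro X hX
    obtain ⟨x, rfl⟩ := (phi (ι := κ) (K := K)).surjective X
    have h3 := (skew_iff hdet x).1 (hL _ hX)
    have h4 : (J * x)ᵀ = -(J * x) := by
      rw [Matrix.transpose_mul, hJ]
      exact eq_neg_of_add_eq_zero_left h3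
    have h5 : ∀ i j, (J * x) j i = -(J * x) i j := fun i j => by
      have := congrFun (congrFun h4 i) j
      rwa [Matrix.transpose_apply, Matrix.neg_apply] at this
    have h6 : ∀ i, (J * x) i i = 0 := fun i => by
      have h7 := h5 i i
      have h8 : (2 : K) * (J * x) i i = 0 := by linear_combination h7
      exact (mul_eq_zero.1 h8).resolve_left two_ne_zero
    have h9 : J * x = (J * x) a b • R := by
      ext i j
      rw [Matrix.smul_apply, hR, Matrix.sub_apply, smul_eq_mul]
      have e1 : ∀ i j i' j' : κ, Matrix.single i j (1 : K) i' j' = if i = i' ∧ j = j' then 1 else 0 :=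
        fun i j i' j' => by rw [Matrix.single_apply]
      rw [e1, e1]
      rcases hcase i with hi | hi <;> rcases hcase j with hj | hj
      · rw [hi, hj, h6, if_neg fun h => hab h.2.symm, if_neg fun h => hab h.1.symm, sub_zero, mul_zero]
      · rw [hi, hj, if_pos ⟨rfl, rfl⟩, if_neg fun h => hab h.1.symm, sub_zero, mul_one]
      · rw [hi, hj, if_neg fun h => hab h.1, if_pos ⟨rfl, rfl⟩, zero_sub, h5 a b, mul_neg, mul_one]
      · rw [hi, hj, h6, if_neg fun h => hab h.1, if_neg fun h => hab h.2, sub_zero, mul_zero]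
    refine ⟨(J * x) a b, ?_⟩
    rw [← map_smul]
    congr 1
    calc x = J⁻¹ * (J * x) := by rw [← mul_assoc, Matrix.nonsing_inv_mul _ hdet, one_mul]
      _ = J⁻¹ * ((J * x) a b • R) := by rw [← h9]
      _ = (J * x) a b • (J⁻¹ * R) := by rw [mul_smul_comm]
  have hne : Nonempty κ := ⟨a⟩
  obtain ⟨μ, hμ⟩ := Module.End.exists_eigenvalue (phi (J⁻¹ * R))
  obtain ⟨v, hv⟩ := hμ.exists_hasEigenvector
  have hv0 : v ≠ 0 := hv.2
  have hTv : phi (J⁻¹ * R) v = μ • v := hv.apply_eq_smul
  rcases hirr (Submodule.span K {v}) (by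
    intro X hX w hw
    obtain ⟨c, rfl⟩ := hform X hX
    obtain ⟨t, rfl⟩ := Submodule.mem_span_singleton.1 hw
    rw [LinearMap.smul_apply, map_smul, hTv]
    exact Submodule.smul_mem _ _ (Submodule.smul_mem _ _ (Submodule.smul_mem _ _ (Submodule.mem_span_singleton_self v)))) with h | h
  · exact hv0 (Submodule.span_singleton_eq_bot.1 h)
  · have h3 := finrank_span_singleton (K := K) hv0
    rw [h, finrank_top, Module.finrank_fintype_fun_eq_card, h2] at h3
    omega

end Pool.Agent.H34Z
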