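import Pool.Agent.Lib.H34Z.MD
import Pool.Agent.Lib.H34Z.A01
import Pool.Agent.Lib.H34Z.A15
import Pool.Agent.Lib.H76Z.W2
import Pool.Agent.Lib.H76Z.A7

/-!
# H02: the situation at one prime, from the components
-/

set_option autoImplicit false
set_option linter.unusedSectionVars false
namespace Pool.Agent.H34Z
open Module Matrix Polynomial Pool.Agent.H53Toric
open Pool.Agent.H76P Pool.Agent.H76Q
open Pool.Agent.H76Z (Cl Splits)
open Pool.Agent.H76Y (LcN TM CmpN SyL NsL)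
open Pool.Agent.H76U (cmp preL Lb Split4 IsSplitting)
open Pool.Agent.H76RM (spanK)
open Pool.Agent.H76Q (tgen YS FrobT)

variable {ι : Type*} [Fintype ι] [DecidableEq ι]

theorem zar_one {K : Type*} [Field K] {x : Matrix ι ι K} (hx : x ∈ zar ({1} : Set (Matrix ι ι K))) : x = 1 := by
  ext i j
  have h1 := hx (MvPolynomial.X (i, j) - MvPolynomial.C ((1 : Matrix ι ι K) i j)) (by
    rintro s rfl
    rw [map_sub, ev_X, ev_C, sub_self])
  rw [map_sub, ev_X, ev_C, sub_eq_zero] at h1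
  exact h1

/-- Some projector commutes with the Frobenius element. -/
theorem exists_comm {L : Type*} [Field L] {K : Type*} [Field K] [Algebra L K] {G : Type*} [Group G]
    {ρ : G →* Matrix.GeneralLinearGroup ι L} {x J : Matrix ι ι K} (hJ0 : J ≠ 0) {q : K} (hq : ∀ n : ℕ, n ≠ 0 → q ^ n ≠ 1)
    (hmult : xᵀ * J * x = q • J)
    (tor : ∃ N : ℕ, N ≠ 0 ∧ x ^ N ∈ zar (Submonoid.closure
      {y | ∃ h ∈ properProj K ρ, h * x = x * h ∧ ∃ t : K, t ≠ 0 ∧ y = 1 + (t - 1) • h} : Set (Matrix ι ι K))) :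
    ∃ h ∈ properProj K ρ, h * x = x * h := by
  by_contra hcon
  push Not at hcon
  obtain ⟨N, hN0, hN⟩ := tor
  have h1 : {y | ∃ h ∈ properProj K ρ, h * x = x * h ∧ ∃ t : K, t ≠ 0 ∧ y = 1 + (t - 1) • h} = (∅ : Set (Matrix ι ι K)) := by
    rw [Set.eq_empty_iff_forall_notMem]
    rintro y ⟨h, hh, hc, -⟩
    exact hcon h hh hc
  rw [h1, Submonoid.closure_empty, Submonoid.coe_bot] at hN
  have h2 := zar_one hN
  have h3 : ∀ n : ℕ, (x ^ n)ᵀ * J * x ^ n = q ^ n • J := by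
    intro n
    induction n with
    | zero => rw [pow_zero, pow_zero, Matrix.transpose_one, Matrix.one_mul, Matrix.mul_one, one_smul]
    | succ n ih =>
      rw [pow_succ x, Matrix.transpose_mul]
      calc xᵀ * (x ^ n)ᵀ * J * (x ^ n * x) = xᵀ * ((x ^ n)ᵀ * J * x ^ n) * x := by simp only [Matrix.mul_assoc]
        _ = q ^ (n + 1) • J := by
          rw [ih, Matrix.mul_smul, Matrix.smul_mul, hmult, smul_smul, ← pow_succ]
  have h4 := h3 N
  rw [h2, Matrix.transpose_one, Matrix.one_mul, Matrix.mul_one] at h4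
  apply hq N hN0
  have h5 : (q ^ N - 1) • J = 0 := by rw [sub_smul, one_smul, ← h4, sub_self]
  exact sub_eq_zero.1 ((smul_eq_zero.1 h5).resolve_right hJ0)

variable {L : Type*} [Field L] [CharZero L] {K : Type} [Field K] [CharZero K] [IsAlgClosed K] [Algebra L K]
  {G : Type*} [Group G]

/-- **The situation at one prime.** -/
theorem mk_sit [Nonempty ι] {ψ : Matrix ι ι ℚ}
    (hψ : ψᵀ = -ψ) (hψ0 : ψ.det ≠ 0) (D : Subalgebra ℚ (Matrix ι ι ℚ))
    (ρ : G →* Matrix.GeneralLinearGroup ι L)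
    (lin : ∀ σ : G, ∀ d ∈ D, (ρ σ).1 * d.map (algebraMap ℚ L) =
      d.map (algebraMap ℚ L) * (ρ σ).1)
    (sim : ∀ σ : G, ∃ c : L, (ρ σ).1ᵀ * ψ.map (algebraMap ℚ L) * (ρ σ).1 =
      c • ψ.map (algebraMap ℚ L))
    (semis : ∀ H : Subgroup G, H.FiniteIndex → ∀ W : Submodule K (ι → K),
      (∀ s ∈ img K ρ H, ∀ w ∈ W, s *ᵥ w ∈ W) →
      ∃ W' : Submodule K (ι → K), (∀ s ∈ img K ρ H, ∀ w ∈ W', s *ᵥ w ∈ W') ∧ IsCompl W W')
    (commt : ∀ H : Subgroup G, H.FiniteIndex → ∀ y : Matrix ι ι K,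
      (∀ s ∈ img K ρ H, y * s = s * y) → y ∈ spanK K D)
    (gen : ∀ g : G, (ρ g).1.map (algebraMap L K) ∈ tgen K ρ)
    {M : Type*} [Field M] [CharZero M] {m : ℕ} {cl : Fin m → Cl} {bar : Fin m → Fin m}
    {e : Fin m → Matrix ι ι M} {u₀ : Matrix ι ι M} {F : Fin m → M[X]}
    (hspl : Splits D ψ cl bar e u₀) {x : Matrix ι ι K} (hF : FrobT K ρ e F x)
    (hx : x ∈ tgen K ρ) {q : ℚ} (hq : ∀ n : ℕ, n ≠ 0 → q ^ n ≠ 1)
    (hmult : xᵀ * ψ.map (algebraMap ℚ K) * x = algebraMap ℚ K q • ψ.map (algebraMap ℚ K))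
    {H₀ : Subgroup G} (hfin : H₀.FiniteIndex) (hprime : (H76RM.van (img K ρ H₀)).IsPrime)
    {Ω : Type*} [Field Ω] [IsAlgClosed Ω] (j : M →+* Ω) (i : Ω →+* K)
    (bal : ∀ h ∈ properProj K ρ, ∀ b, 2 * (h * (e b).map (i.comp j)).rank = (e b).rank)
    {a : ∀ b, Fin (e b).rank → Ω} (ha : ∀ b, Function.Injective (a b))
    (hroot : ∀ b, ∀ y : Ω, (F b).eval₂ j y = 0 ↔ ∃ k, y = a b k)
    (ht : ∀ b, ∀ k l : Fin (e b).rank, ∀ N : ℕ, N ≠ 0 → a b k ^ N = a b l ^ N → k = l)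
    (four : ∀ b, cl b = .o → (e b).rank ≠ 4 ∧ (e b).rank ≠ 8)
    (hfull : ∀ b, ∀ L : Submodule K (Module.End K (Fin (e b).rank → K)), TM L → Yo L = YS (a b) →
        (cl b = .s → ∀ J : Matrix (Fin (e b).rank) (Fin (e b).rank) K, Jᵀ = -J → IsUnit J.det →
          (∀ X ∈ L, adjE J X = -X) → ∀ X, adjE J X = -X → X ∈ L) ∧
        (cl b = .o → ∀ J : Matrix (Fin (e b).rank) (Fin (e b).rank) K, Jᵀ = J → IsUnit J.det →
          (∀ X ∈ L, adjE J X = -X) → ∀ X, adjE J X = -X → X ∈ L) ∧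
        (cl b = .n → NsL L → ∀ X : Module.End K (Fin (e b).rank → K),
          LinearMap.trace K (Fin (e b).rank → K) X = 0 → X ∈ L)) :
    ∃ (U : ∀ b, Matrix ι (Fin (e b).rank) K) (V : ∀ b, Matrix (Fin (e b).rank) ι K),
      Sit (ψ.map (algebraMap ℚ K)) (u₀.map (i.comp j)) (spanK K D) (img K ρ H₀) (properProj K ρ) x bar
        (fun b => (e b).map (i.comp j)) (fun b => (e b).rank) U V (fun b k => i (a b k)) := by
  classical
  obtain ⟨hJ, hdet0⟩ := gram_basic hψ hψ0 K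
  have hsplK : Splits D ψ cl bar (fun c => (e c).map (i.comp j)) (u₀.map (i.comp j)) :=
    hspl.map (i.comp j)
  have hspl4 := hsplK.split4
  obtain ⟨φ', g₀⟩ := mk_phT (K := K) hψ hψ0 D ρ lin sim semis commt gen hF hfin hprime
  have g := H76Z.ph_unit g₀ hsplK.umem
  have hJ0 : ψ.map (algebraMap ℚ K) ≠ 0 := by
    intro h0
    rw [h0, Matrix.det_zero] at hdet0
    exact not_isUnit_zero hdet0
  have hqK : ∀ n : ℕ, n ≠ 0 → (algebraMap ℚ K q) ^ n ≠ 1 := by
    intro n hn h1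
    apply hq n hn
    apply (algebraMap ℚ K).injective
    rw [map_pow, h1, map_one]
  obtain ⟨h₀, hh₀, hh₀x⟩ := exists_comm hJ0 hqK hmult hF.torgen
  have hloc := fun b => H76Z.mk_loc hψ hψ0 D ρ lin sim semis commt gen hspl hF hx hmult hfin hprime j i b
    (fun h hh => bal h hh b) (ha b) (hroot b) (ht b)
  choose U V hL using hloc
  have hus : ∀ s ∈ img K ρ H₀, s * u₀.map (i.comp j) = u₀.map (i.comp j) * s := fun s hs =>
    g₀.sh.SD s hs _ hsplK.umem
  have hdet : IsUnit (ψ.map (algebraMap ℚ K) * u₀.map (i.comp j)).det := by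
    rw [Matrix.det_mul]
    exact hdet0.mul hsplK.unit
  have hLc : ∀ b, LcN (ψ.map (algebraMap ℚ K) * u₀.map (i.comp j)) (img K ρ H₀) (U b) (V b) =
      LcN (ψ.map (algebraMap ℚ K)) (img K ρ H₀) (U b) (V b) := fun b =>
    H76Z.lcN_unit g₀.sh.one hus hsplK.unit (U b) (V b)
  have heP : ∀ b, (e b).map (i.comp j) * U b = U b := by
    intro b
    rw [(hL b).UV, Matrix.mul_assoc, (hL b).VU, Matrix.mul_one]
  have htr : ∀ b, ∀ A : Matrix ι ι K, (U b)ᵀ * A * U b =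
      (U b)ᵀ * (((e b).map (i.comp j))ᵀ * A * (e b).map (i.comp j)) * U b := by
    intro b A
    have h1 : (U b)ᵀ * ((e b).map (i.comp j))ᵀ = (U b)ᵀ := by rw [← Matrix.transpose_mul, heP]
    calc (U b)ᵀ * A * U b = ((U b)ᵀ * ((e b).map (i.comp j))ᵀ) * A * ((e b).map (i.comp j) * U b) := by
          rw [h1, heP]
      _ = _ := by simp only [Matrix.mul_assoc]
  have heven : ∀ b, Even (e b).rank := by
    intro b
    rw [← bal h₀ hh₀ b]
    exact even_two_mul _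
  -- the form on a component is monomial
  have hxu : x * u₀.map (i.comp j) = u₀.map (i.comp j) * x := g₀.φD _ hsplK.umem
  have hsimJ : xᵀ * (ψ.map (algebraMap ℚ K) * u₀.map (i.comp j)) * x =
      algebraMap ℚ K q • (ψ.map (algebraMap ℚ K) * u₀.map (i.comp j)) := by
    calc xᵀ * (ψ.map (algebraMap ℚ K) * u₀.map (i.comp j)) * x =
        (xᵀ * ψ.map (algebraMap ℚ K) * x) * u₀.map (i.comp j) := by
          rw [Matrix.mul_assoc _ _ x, Matrix.mul_assoc _ (u₀.map (i.comp j)) x, ← hxu]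
          simp only [Matrix.mul_assoc]
      _ = _ := by rw [hmult, Matrix.smul_mul]
  have hmon : ∀ b, bar b = b → (∀ k l, ((U b)ᵀ * (ψ.map (algebraMap ℚ K) * u₀.map (i.comp j)) * U b) k l ≠ 0 →
      ((U b)ᵀ * (ψ.map (algebraMap ℚ K) * u₀.map (i.comp j)) * U b) l k ≠ 0) →
      ∃ π, Mon ((U b)ᵀ * (ψ.map (algebraMap ℚ K) * u₀.map (i.comp j)) * U b) π := by
    intro b hb hs
    obtain ⟨hdb, -⟩ := H76Z.form_inv (b := b) hspl4 (hL b).UV (hL b).VU g hb hdet (hL b).pos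
    refine mon_of hs hdb (hL b).ec.inj (hL b).ec.ne (c := algebraMap ℚ K q) (diag_sim ?_)
    have h1 := (hL b).ec.eig
    calc Matrix.diagonal (fun k => i (a b k)) * ((U b)ᵀ * (ψ.map (algebraMap ℚ K) * u₀.map (i.comp j)) * U b) *
          Matrix.diagonal (fun k => i (a b k)) =
        (U b * Matrix.diagonal (fun k => i (a b k)))ᵀ * (ψ.map (algebraMap ℚ K) * u₀.map (i.comp j)) *
          (U b * Matrix.diagonal (fun k => i (a b k))) := by
          rw [Matrix.transpose_mul, Matrix.diagonal_transpose]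
          simp only [Matrix.mul_assoc]
      _ = (U b)ᵀ * (xᵀ * (ψ.map (algebraMap ℚ K) * u₀.map (i.comp j)) * x) * U b := by
          rw [← h1, Matrix.transpose_mul]
          simp only [Matrix.mul_assoc]
      _ = _ := by rw [hsimJ, Matrix.mul_smul, Matrix.smul_mul]
  have hbarn : ∀ b, bar b = b ↔ cl b ≠ .n := hspl.self
  refine ⟨U, V, ?_⟩
  refine
    { one := img_one ρ H₀
      mul := img_mul ρ H₀
      SD := g₀.sh.SD
      commt := g₀.sh.commt
      hi := g₀.sh.hi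
      hs := g₀.sh.hs
      hz := g₀.sh.hz
      gen := g₀.sh.gen
      spl := hspl4
      hu := hsplK.umem
      hJ := hdet0
      hu0 := hsplK.unit
      UV := fun b => (hL b).UV
      VU := fun b => (hL b).VU
      pos := fun b => (hL b).pos
      ec := fun b => (hL b).ec
      hx := hx
      hh := ⟨h₀, hh₀, hh₀x⟩
      bal := bal
      irr := fun b => (hL b).ts.cmp.irr
      full := ?_ }
  intro b
  obtain ⟨f1, f2, f3⟩ := hfull b _ (hL b).ts (hL b).yo
  have hsk : bar b = b → IsUnit ((U b)ᵀ * (ψ.map (algebraMap ℚ K) * u₀.map (i.comp j)) * U b).det ∧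
      ∀ X ∈ LcN (ψ.map (algebraMap ℚ K)) (img K ρ H₀) (U b) (V b),
        adjE ((U b)ᵀ * (ψ.map (algebraMap ℚ K) * u₀.map (i.comp j)) * U b) X = -X := by
    intro hb
    obtain ⟨h1, h2⟩ := H76Z.form_inv (b := b) hspl4 (hL b).UV (hL b).VU g hb hdet (hL b).pos
    exact ⟨h1, by rw [← hLc]; exact h2⟩
  cases hcl : cl b with
  | s =>
    have hb : bar b = b := (hbarn b).2 (by rw [hcl]; decide)
    obtain ⟨h1, h2⟩ := hsk hb
    have h3 : ((U b)ᵀ * (ψ.map (algebraMap ℚ K) * u₀.map (i.comp j)) * U b)ᵀ =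
        -((U b)ᵀ * (ψ.map (algebraMap ℚ K) * u₀.map (i.comp j)) * U b) := by
      rw [Matrix.transpose_mul, Matrix.transpose_mul, Matrix.transpose_transpose, ← Matrix.mul_assoc,
        htr, hsplK.alt b hcl, Matrix.mul_neg, Matrix.neg_mul, ← htr]
    obtain ⟨π, hπ⟩ := hmon b hb (by
      intro k l hkl h0
      apply hkl
      have h4 := congrFun (congrFun h3 k) l
      rw [Matrix.transpose_apply, Matrix.neg_apply, h0] at h4
      rw [← neg_eq_zero, ← h4])
    exact FB.s hb π h3 h1 hπ (fun X => ⟨h2 X, f1 hcl _ h3 h1 h2 X⟩)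
  | o =>
    have hb : bar b = b := (hbarn b).2 (by rw [hcl]; decide)
    obtain ⟨h1, h2⟩ := hsk hb
    have h3 : ((U b)ᵀ * (ψ.map (algebraMap ℚ K) * u₀.map (i.comp j)) * U b)ᵀ =
        ((U b)ᵀ * (ψ.map (algebraMap ℚ K) * u₀.map (i.comp j)) * U b) := by
      rw [Matrix.transpose_mul, Matrix.transpose_mul, Matrix.transpose_transpose, ← Matrix.mul_assoc,
        htr, hsplK.sym b hcl, ← htr]
    obtain ⟨π, hπ⟩ := hmon b hb (by
      intro k l hkl h0
      apply hkl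
      have h4 := congrFun (congrFun h3 k) l
      rw [Matrix.transpose_apply, h0] at h4
      exact h4.symm)
    obtain ⟨h4, h8⟩ := four b hcl
    have h5 : (e b).rank ≠ 2 := by
      intro h6
      exact so_two (by rw [Fintype.card_fin, h6]) h3 h1 h2 (hL b).ts.cmp.irr
    have h6 := (hL b).pos
    obtain ⟨r, hr⟩ := heven b
    refine FB.o hb π h3 h1 hπ (fun X => ⟨h2 X, f2 hcl _ h3 h1 h2 X⟩) ?_ ?_
    · rw [Fintype.card_fin]
      omega
    · rw [Fintype.card_fin]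
      exact h8
  | n =>
    have hb : bar b ≠ b := fun h => (hbarn b).1 h hcl
    have hns := (hL b).cls.2.2 hcl
    have h6 := (hL b).pos
    obtain ⟨r, hr⟩ := heven b
    refine FB.n hb (fun X => ⟨fun h => h.2, f3 hcl hns X⟩) ?_
    rw [Fintype.card_fin]
    omega

end Pool.Agent.H34Z
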