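import Pool.Agent.Lib.H34Z.D0

/-!
# A04: the values of a coroot
-/

set_option autoImplicit false
set_option linter.unusedSectionVars false
namespace Pool.Agent.H34Z
open Module Matrix Pool.Agent.H53Toric Pool.Agent.H76P

variable {κ : Type*} [Fintype κ] [DecidableEq κ] {K : Type*} [Field K] [CharZero K] {ε h : κ → K}
  {E F : Module.End K (κ → K)}

theorem a04_sq (hε : ∀ k, ε k = 1 ∨ ε k = -1) : dg ε * dg ε = (1 : Module.End K (κ → K)) := by
  rw [dg_mul, ← dg_one]
  refine LinearMap.ext fun v => funext fun a => ?_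
  rw [dg_apply, dg_apply]
  rcases hε a with h | h <;> simp [h]

theorem a04_single (f : κ → K) (k : κ) : dg f (Pi.single k 1) = f k • (Pi.single k 1 : κ → K) := by
  refine funext fun a => ?_
  rw [dg_apply, Pi.smul_apply, smul_eq_mul]
  by_cases hak : a = k
  · subst hak; rfl
  · rw [Pi.single_eq_of_ne hak]; simp

theorem a04_neg (s : K) (E : Module.End K (κ → K)) : (-s) • E = -(s • E) := by
  refine LinearMap.ext fun v => ?_
  rw [LinearMap.smul_apply, LinearMap.neg_apply, LinearMap.smul_apply, _root_.neg_smul]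

theorem a04_sgn {s : K} (hs : s * s = 1) (hε : ∀ k, ε k = 1 ∨ ε k = -1)
    (he : dg ε * E - E * dg ε = (2 * s) • E) : dg ε * E = s • E ∧ E * dg ε = (-s) • E := by
  have h2 : (2 : K) ≠ 0 := two_ne_zero
  have hD := a04_sq (K := K) hε
  set D := dg ε
  have h1 : D * (D * E - E * D) * D = (2 * s) • (D * E * D) := by
    rw [he, mul_smul_comm, smul_mul_assoc]
  have h3 : D * (D * E - E * D) * D = E * D - D * E := by
    have : D * (D * E - E * D) * D = (D * D) * E * D - D * E * (D * D) := by
      simp only [mul_sub, sub_mul, mul_assoc]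
    rw [this, hD, one_mul, mul_one]
  have h4 : D * E * D = -E := by
    have h5 : (2 * s) • (D * E * D) = (2 * s) • (-E) := by
      rw [← h1, h3, smul_neg, ← he, neg_sub]
    have h6 : (2 * s) ≠ 0 := by
      refine mul_ne_zero h2 ?_
      rintro rfl
      simp at hs
    exact smul_right_injective _ h6 h5
  have h7 : D * E = -(E * D) := by
    have : D * E = D * E * (D * D) := by rw [hD, mul_one]
    rw [this, show D * E * (D * D) = (D * E * D) * D by simp only [mul_assoc], h4]
    exact neg_mul E D
  have h8 : D * E = s • E := by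
    have h9 : (2 : K) • (D * E) = (2 : K) • (s • E) := by
      rw [smul_smul, ← he, two_smul]
      nth_rewrite 2 [h7]
      exact (sub_eq_add_neg _ _).symm
    exact smul_right_injective _ h2 h9
  refine ⟨h8, ?_⟩
  rw [a04_neg, ← h8, h7, neg_neg]

theorem a04_nil {s : K} (hs : s * s = 1) (hε : ∀ k, ε k = 1 ∨ ε k = -1)
    (he : dg ε * E - E * dg ε = (2 * s) • E) :
    E * E = 0 ∧ ∀ k, ε k = s → E (Pi.single k 1) = 0 := by
  have h2 : (2 : K) ≠ 0 := two_ne_zero
  have hs0 : s ≠ 0 := by
    rintro rfl
    simp at hs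
  obtain ⟨h1, h3⟩ := a04_sgn hs hε he
  constructor
  · have h4 : (2 * s) • (E * E) = 0 := by
      have h5 : E * dg ε * E = E * (dg ε * E) := by rw [mul_assoc]
      rw [h1, h3, smul_mul_assoc, mul_smul_comm, a04_neg] at h5
      have h6 : (2 * s) • (E * E) = s • (E * E) + s • (E * E) := by
        rw [← add_smul]; ring_nf
      rw [h6]
      nth_rewrite 1 [← h5]
      exact neg_add_cancel _
    exact (smul_eq_zero.mp h4).resolve_left (mul_ne_zero h2 hs0)
  · intro k hk
    have h4 : (E * dg ε) (Pi.single k 1) = ((-s) • E) (Pi.single k 1) := by rw [h3]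
    rw [Module.End.mul_apply, a04_single, hk, map_smul, LinearMap.smul_apply, _root_.neg_smul] at h4
    have h5 : (2 * s) • E (Pi.single k 1) = 0 := by
      have h6 : (2 * s) • E (Pi.single k 1) = s • E (Pi.single k 1) + s • E (Pi.single k 1) := by
        rw [← add_smul]; ring_nf
      rw [h6]
      nth_rewrite 1 [h4]
      exact neg_add_cancel _
    exact (smul_eq_zero.mp h5).resolve_left (mul_ne_zero h2 hs0)

/-- PROOF. Entries: by `t.e` the entry `E (Pi.single b 1) a` satisfies `(ε a - ε b) * E (Pi.single b 1) a = 2 * E (Pi.single b 1) a`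
(apply both sides to `Pi.single b 1` at `a`; `dg ε (Pi.single b 1) = ε b • Pi.single b 1`), so `E (Pi.single b 1) a ≠ 0` implies `ε a = 1`, `ε b = -1`.
In particular `E (Pi.single b 1) = 0` if `ε b = 1`, and `E v` has support in `{ε = 1}`, so `E * E = 0`.  In the same way `F * F = 0` and
`F (Pi.single b 1) = 0` if `ε b = -1`.
`t.he` with `dg h = E F - F E`: `(E F - F E) E - E (E F - F E) = 2 E F E` (`E E = 0`), so `E F E = E`; `F E F = F` in the same way from `t.hf`.
If `ε k = 1`: `h k • Pi.single k 1 = dg h (Pi.single k 1) = E (F (Pi.single k 1))` since `E (Pi.single k 1) = 0`; apply `E F` again: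
`h k ^ 2 • Pi.single k 1 = E F E F (Pi.single k 1) = E F (Pi.single k 1) = h k • Pi.single k 1`, so `h k ^ 2 = h k`.
If `ε k = -1`: `h k • Pi.single k 1 = -F (E (Pi.single k 1))`, and `(F E)² = F E` gives `(h k) ^ 2 = - h k`. -/
theorem trip_val (t : Trip E F ε h) (hε : ∀ k, ε k = 1 ∨ ε k = -1) (k : κ) :
    (ε k = 1 → h k = 0 ∨ h k = 1) ∧ (ε k = -1 → h k = 0 ∨ h k = -1) := by
  have h2 : (2 : K) ≠ 0 := two_ne_zero
  obtain ⟨hEE, hE0⟩ := a04_nil (E := E) (s := (1 : K)) (by ring) hε (by rw [mul_one]; exact t.e)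
  obtain ⟨hFF, hF0⟩ := a04_nil (E := F) (s := (-1 : K)) (by ring) hε (by
    rw [show (2 : K) * -1 = -2 by ring]; exact t.f)
  have hEFE : E * F * E = E := by
    have h1 := t.he
    rw [← t.co] at h1
    have h3 : (E * F - F * E) * E - E * (E * F - F * E)
        = (2 : K) • (E * F * E) - F * (E * E) - (E * E) * F := by
      rw [two_smul]; simp only [mul_sub, sub_mul, mul_assoc]; abel
    rw [h3, hEE, mul_zero, zero_mul, sub_zero, sub_zero] at h1
    exact smul_right_injective _ h2 h1
  have hidem : E * F * (E * F) = E * F := by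
    rw [← mul_assoc, hEFE]
  have hidem' : F * E * (F * E) = F * E := by
    rw [show F * E * (F * E) = F * (E * F * E) by simp only [mul_assoc], hEFE]
  have hco : dg h (Pi.single k 1) = (E * F - F * E) (Pi.single k 1) := by rw [t.co]
  rw [a04_single, LinearMap.sub_apply] at hco
  have hne : (Pi.single k 1 : κ → K) ≠ 0 := by
    intro h0
    have := congrFun h0 k
    simp at this
  constructor
  · intro hk
    rw [Module.End.mul_apply F E, hE0 k hk, map_zero, sub_zero] at hco
    have h3 : (E * F * (E * F)) (Pi.single k 1) = (E * F) (Pi.single k 1) := by rw [hidem]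
    rw [Module.End.mul_apply, ← hco, map_smul, ← hco, smul_smul] at h3
    have h4 : h k * h k = h k := smul_left_injective K hne h3
    have h5 : h k * (h k - 1) = 0 := by rw [mul_sub, h4, mul_one, sub_self]
    rcases mul_eq_zero.mp h5 with h6 | h6
    · exact Or.inl h6
    · exact Or.inr (sub_eq_zero.mp h6)
  · intro hk
    rw [Module.End.mul_apply E F, hF0 k hk, map_zero, zero_sub] at hco
    have hco' : (F * E) (Pi.single k 1) = (-(h k)) • (Pi.single k 1 : κ → K) := by
      rw [_root_.neg_smul, hco, neg_neg]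
    have h3 : (F * E * (F * E)) (Pi.single k 1) = (F * E) (Pi.single k 1) := by rw [hidem']
    rw [Module.End.mul_apply, hco', map_smul, hco', smul_smul] at h3
    have h4 : -(h k) * -(h k) = -(h k) := smul_left_injective K hne h3
    have h5 : h k * (h k + 1) = 0 := by linear_combination h4
    rcases mul_eq_zero.mp h5 with h6 | h6
    · exact Or.inl h6
    · exact Or.inr (eq_neg_of_add_eq_zero_left h6)

end Pool.Agent.H34Z
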