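import Pool.Agent.Lib.H34Z.A02
import Pool.Agent.Lib.H34Z.A05
import Pool.Agent.Lib.H34Z.A06

/-!
# A08: weights of the Lie algebra of all operators of trace zero on which an involution has the value 1
-/

set_option autoImplicit false
set_option linter.unusedSectionVars false
namespace Pool.Agent.H34Z
open Module Matrix Pool.Agent.H53Toric Pool.Agent.H76P

variable {κ : Type*} [Fintype κ] [DecidableEq κ] {K : Type*} [Field K] [CharZero K]
  {L : Submodule K (Module.End K (κ → K))} {ε : κ → K} {W : Submodule K ((κ → K) × K)}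

/-- PROOF. `dg g` is the operator of `Matrix.diagonal g` (`dg g = phi (Matrix.diagonal g)`); `LinearMap.trace` of `phi M = Matrix.toLin' M` is
`M.trace` (`Matrix.trace_toLin'_eq` or `LinearMap.trace_eq_matrix_trace` with the standard basis), `Matrix.trace_diagonal`. -/
theorem trace_dg (g : κ → K) : LinearMap.trace K (κ → K) (dg g) = ∑ i, g i := by
  have h1 : dg g = Matrix.toLin' (Matrix.diagonal g) := by
    refine LinearMap.ext fun v => funext fun a => ?_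
    rw [dg_apply, Matrix.toLin'_apply, Matrix.mulVec_diagonal]
  rw [h1, Matrix.trace_toLin'_eq, Matrix.trace_diagonal]

/-- A function of sum zero is a combination of the functions `1_i - 1_j`, `i ∈ T`, `j ∉ T`: with fixed `i₁ ∈ T`, `j₁ ∉ T`,
`g = ∑ i ∈ T, g i • (1_i - 1_(j₁)) - ∑ j ∉ T, g j • (1_(i₁) - 1_j) + (∑ j ∉ T, g j) • (1_(i₁) - 1_(j₁))`.
PROOF. Evaluate at `k` (cases `k = i₁`, `k = j₁`, `k ∈ T`, `k ∉ T`); at `j₁` one uses `∑ g = 0`, `Finset.sum_add_sum_compl`. -/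
theorem dec_n {T : Finset κ} {i₁ j₁ : κ} (hi : i₁ ∈ T) (hj : j₁ ∉ T) {g : κ → K} (hg : ∑ i, g i = 0) :
    g = ∑ i ∈ T, g i • (Pi.single i 1 - Pi.single j₁ 1) - ∑ j ∈ Tᶜ, g j • (Pi.single i₁ 1 - Pi.single j 1) +
      (∑ j ∈ Tᶜ, g j) • (Pi.single i₁ 1 - Pi.single j₁ 1) := by
  funext k
  have e1 : ∀ S : Finset κ, ∑ i ∈ S, g i * (Pi.single i 1 : κ → K) k = if k ∈ S then g k else 0 := by
    intro S
    rw [← Finset.sum_ite_eq S k g]
    refine Finset.sum_congr rfl fun i _ => ?_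
    rw [Pi.single_apply]
    by_cases h : k = i
    · rw [if_pos h, if_pos h, mul_one]
    · rw [if_neg h, if_neg h, mul_zero]
  have e2 : ∑ i ∈ T, g i + ∑ j ∈ Tᶜ, g j = 0 := by
    rw [Finset.sum_add_sum_compl]
    exact hg
  have e3 : (∑ i ∈ T, g i • (Pi.single i 1 - Pi.single j₁ 1 : κ → K)) k =
      (if k ∈ T then g k else 0) - (∑ i ∈ T, g i) * (Pi.single j₁ 1 : κ → K) k := by
    rw [Finset.sum_apply, ← e1, Finset.sum_mul, ← Finset.sum_sub_distrib]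
    refine Finset.sum_congr rfl fun i _ => ?_
    rw [Pi.smul_apply, Pi.sub_apply, smul_eq_mul, mul_sub]
  have e4 : (∑ j ∈ Tᶜ, g j • (Pi.single i₁ 1 - Pi.single j 1 : κ → K)) k =
      (∑ j ∈ Tᶜ, g j) * (Pi.single i₁ 1 : κ → K) k - (if k ∈ Tᶜ then g k else 0) := by
    rw [Finset.sum_apply, ← e1, Finset.sum_mul, ← Finset.sum_sub_distrib]
    refine Finset.sum_congr rfl fun i _ => ?_
    rw [Pi.smul_apply, Pi.sub_apply, smul_eq_mul, mul_sub]
  have e5 : (if k ∈ T then g k else 0) + (if k ∈ Tᶜ then g k else 0) = g k := by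
    by_cases h : k ∈ T
    · rw [if_pos h, if_neg (fun h1 => (Finset.mem_compl.1 h1) h), add_zero]
    · rw [if_neg h, if_pos (Finset.mem_compl.2 h), zero_add]
  rw [Pi.add_apply, Pi.sub_apply, e3, e4, Pi.smul_apply, Pi.sub_apply, smul_eq_mul]
  linear_combination (-1 : K) * e5 + (Pi.single j₁ 1 : κ → K) k * e2

/-- PROOF. `T = {i | ε i = 1}`, `T' = Tᶜ = {j | ε j = -1}`.  `∑ ε = 0` (`trace_dg`, `dg ε ∈ L`), so `T.card = T'.card` (`∑ ε = T.card - T'.card`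
in `K`, char zero) and there is a bijection `p` from `T` to `T'` (`Finset.equivOfCardEq`; extend by the identity to a function `κ → κ`).  Both are
nonempty (`Fintype.card κ ≥ 2`).  For `i ∈ T`, `j ∈ T'` let `h i j = 1_i - 1_j`, `(h i j, a i j) ∈ W` (`hW.tot`, trace zero; choose `a` for all `i`, `j`);
`a i j ∈ {0, 1}` (`cor_n`, `hW.cor`).  `a i j + a k l = a i l + a k j` since `h i j + h k l = h i l + h k j` (`Fun.eq`).  `ε = ∑ i ∈ T, h i (p i)`
(evaluate), so `∑ i ∈ T, a i (p i) = 1`.  `comb_n`: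
(1) `a i j = if i = i₀ then 1 else 0`: for `(g, c) ∈ W` write `g` by `dec_n` (with `i₁ = i₀`, any `j₁ ∈ T'`); `(g, g i₀ - ∑ j ∈ T', g j + ∑ j ∈ T', g j) ∈ W`,
so `c = g i₀`.
(2) `a i j = if j = j₀ then 1 else 0`: with `j₁ = j₀`, any `i₁ ∈ T`: `c = ∑ i ∈ T, g i - g j₀ + ∑ j ∈ T', g j = -g j₀` (`∑ g = 0`). -/
theorem wt_n (hL : ∀ X, X ∈ L ↔ LinearMap.trace K (κ → K) X = 0) (h2 : 2 ≤ Fintype.card κ)
    (hε : ∀ k, ε k = 1 ∨ ε k = -1) (hW : Fun L ε W) :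
    ∃ i, (∀ g c, (g, c) ∈ W → c = g i) ∨ (∀ g c, (g, c) ∈ W → c = -g i) := by
  have hg : ∀ g : κ → K, dg g ∈ L ↔ ∑ i, g i = 0 := fun g => by rw [hL, trace_dg]
  have h11 : (1 : K) ≠ -1 := fun h => two_ne_zero (α := K) (by linear_combination h)
  obtain ⟨T, hTd⟩ : ∃ T : Finset κ, ∀ i, i ∈ T ↔ ε i = 1 := by
    classical
    exact ⟨Finset.univ.filter fun i => ε i = 1, fun i => by simp⟩
  have hT' : ∀ i, i ∈ Tᶜ → ε i = -1 := fun i hi => (hε i).resolve_left fun h => (Finset.mem_compl.1 hi) ((hTd i).2 h)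
  have hεs : ∑ i, ε i = 0 := (hg ε).1 (hW.dom _ _ hW.eps)
  have hcard : T.card = Tᶜ.card := by
    rw [← Finset.sum_add_sum_compl T, Finset.sum_congr rfl (fun i hi => (hTd i).1 hi), Finset.sum_congr rfl (fun i hi => hT' i hi),
      Finset.sum_const, Finset.sum_const, nsmul_eq_mul, nsmul_eq_mul, mul_one] at hεs
    have h1 : ((T.card : ℕ) : K) = ((Tᶜ.card : ℕ) : K) := by linear_combination hεs
    exact_mod_cast h1
  have hcard2 : T.card + Tᶜ.card = Fintype.card κ := Finset.card_add_card_compl T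
  obtain ⟨i₁, hi₁⟩ : T.Nonempty := Finset.card_pos.1 (by omega)
  obtain ⟨j₁, hj₁⟩ : Tᶜ.Nonempty := Finset.card_pos.1 (by omega)
  let e : T ≃ (Tᶜ : Finset κ) := Finset.equivOfCardEq hcard
  let p : κ → κ := fun k => if h : k ∈ T then (e ⟨k, h⟩).1 else k
  have hpe : ∀ i (h : i ∈ T), p i = (e ⟨i, h⟩).1 := fun i h => dif_pos h
  have hp : ∀ i ∈ T, p i ∈ Tᶜ := fun i h => by
    rw [hpe i h]
    exact (e ⟨i, h⟩).2
  have hinj : ∀ i ∈ T, ∀ j ∈ T, p i = p j → i = j := by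
    intro i hi j hj h
    rw [hpe i hi, hpe j hj] at h
    have h1 := e.injective (Subtype.ext h)
    exact congrArg Subtype.val h1
  have hsurj : ∀ j ∈ Tᶜ, ∃ i ∈ T, p i = j := by
    intro j hj
    refine ⟨(e.symm ⟨j, hj⟩).1, (e.symm ⟨j, hj⟩).2, ?_⟩
    rw [hpe _ (e.symm ⟨j, hj⟩).2]
    have h1 : (⟨(e.symm ⟨j, hj⟩).1, (e.symm ⟨j, hj⟩).2⟩ : T) = e.symm ⟨j, hj⟩ := rfl
    rw [h1, e.apply_symm_apply]
  have hh : ∀ i j : κ, dg (Pi.single i 1 - Pi.single j 1 : κ → K) ∈ L := by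
    intro i j
    rw [hg]
    have h1 : ∀ i : κ, ∑ k, (Pi.single i 1 : κ → K) k = 1 := fun i => by
      rw [Finset.sum_pi_single', if_pos (Finset.mem_univ _)]
    rw [show (∑ k, (Pi.single i 1 - Pi.single j 1 : κ → K) k) = ∑ k, (Pi.single i 1 : κ → K) k -
      ∑ k, (Pi.single j 1 : κ → K) k from by rw [← Finset.sum_sub_distrib]; rfl, h1, h1, sub_self]
  choose a ha using fun i j => hW.tot _ (hh i j)
  have hadd : ∀ i k j l, a i j + a k l = a i l + a k j := by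
    intro i k j l
    have h1 := W.add_mem (ha i j) (ha k l)
    have h2 := W.add_mem (ha i l) (ha k j)
    rw [Prod.mk_add_mk] at h1 h2
    refine hW.eq h1 ?_
    rw [show (Pi.single i 1 - Pi.single j 1 + (Pi.single k 1 - Pi.single l 1) : κ → K) =
      Pi.single i 1 - Pi.single l 1 + (Pi.single k 1 - Pi.single j 1) from by abel]
    exact h2
  have h01 : ∀ i ∈ T, ∀ j ∈ Tᶜ, a i j = 0 ∨ a i j = 1 := by
    intro i hi j hj
    exact hW.cor _ _ (cor_n (fun X hX => (hL X).2 hX) ((hTd i).1 hi) (hT' j hj)) (ha i j)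
  have hεd : ε = ∑ i ∈ T, (Pi.single i 1 - Pi.single (p i) 1 : κ → K) := by
    funext k
    rw [Finset.sum_apply]
    have h1 : ∑ i ∈ T, (Pi.single i 1 - Pi.single (p i) 1 : κ → K) k =
        ∑ i ∈ T, (Pi.single i 1 : κ → K) k - ∑ i ∈ T, (Pi.single (p i) 1 : κ → K) k := by
      rw [← Finset.sum_sub_distrib]
      rfl
    have h2 : ∑ i ∈ T, (Pi.single (p i) 1 : κ → K) k = ∑ j ∈ Tᶜ, (Pi.single j 1 : κ → K) k :=
      Finset.sum_bij (fun i _ => p i) (fun i hi => hp i hi) (fun i hi j hj h => hinj i hi j hj h)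
        (fun j hj => by
          obtain ⟨i, hi, h⟩ := hsurj j hj
          exact ⟨i, hi, h⟩) (fun i hi => rfl)
    have h3 : ∀ S : Finset κ, ∑ i ∈ S, (Pi.single i 1 : κ → K) k = if k ∈ S then 1 else 0 := by
      intro S
      rw [← Finset.sum_ite_eq S k (fun _ => (1 : K))]
      refine Finset.sum_congr rfl fun i _ => ?_
      rw [Pi.single_apply]
    rw [h1, h2, h3, h3]
    by_cases hk : k ∈ T
    · rw [if_pos hk, if_neg (fun h1 => (Finset.mem_compl.1 h1) hk), sub_zero]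
      exact (hTd k).1 hk
    · rw [if_neg hk, if_pos (Finset.mem_compl.2 hk), zero_sub]
      exact hT' k (Finset.mem_compl.2 hk)
  have hs : ∑ i ∈ T, a i (p i) = 1 := by
    have h1 : ∑ i ∈ T, ((Pi.single i 1 - Pi.single (p i) 1 : κ → K), a i (p i)) ∈ W :=
      Submodule.sum_mem _ fun i _ => ha i (p i)
    have h2 : ∑ i ∈ T, ((Pi.single i 1 - Pi.single (p i) 1 : κ → K), a i (p i)) = (ε, ∑ i ∈ T, a i (p i)) := by
      refine Prod.ext ?_ ?_
      · rw [Prod.fst_sum]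
        exact hεd.symm
      · rw [Prod.snd_sum]
    rw [h2] at h1
    exact hW.eq h1 hW.eps
  have hgen : ∀ i₁ ∈ T, ∀ j₁ ∈ Tᶜ, ∀ g c, (g, c) ∈ W →
      c = ∑ i ∈ T, g i * a i j₁ - ∑ j ∈ Tᶜ, g j * a i₁ j + (∑ j ∈ Tᶜ, g j) * a i₁ j₁ := by
    intro i₁ hi₁ j₁ hj₁ g c hgc
    have h0 := (hg g).1 (hW.dom _ _ hgc)
    have h1 : ∑ i ∈ T, g i • ((Pi.single i 1 - Pi.single j₁ 1 : κ → K), a i j₁) -
        ∑ j ∈ Tᶜ, g j • ((Pi.single i₁ 1 - Pi.single j 1 : κ → K), a i₁ j) +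
        (∑ j ∈ Tᶜ, g j) • ((Pi.single i₁ 1 - Pi.single j₁ 1 : κ → K), a i₁ j₁) ∈ W :=
      W.add_mem (W.sub_mem (Submodule.sum_mem _ fun i _ => W.smul_mem _ (ha i j₁))
        (Submodule.sum_mem _ fun j _ => W.smul_mem _ (ha i₁ j))) (W.smul_mem _ (ha i₁ j₁))
    refine hW.eq hgc ?_
    have h2 : ∑ i ∈ T, g i • ((Pi.single i 1 - Pi.single j₁ 1 : κ → K), a i j₁) -
        ∑ j ∈ Tᶜ, g j • ((Pi.single i₁ 1 - Pi.single j 1 : κ → K), a i₁ j) +
        (∑ j ∈ Tᶜ, g j) • ((Pi.single i₁ 1 - Pi.single j₁ 1 : κ → K), a i₁ j₁) =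
        (g, ∑ i ∈ T, g i * a i j₁ - ∑ j ∈ Tᶜ, g j * a i₁ j + (∑ j ∈ Tᶜ, g j) * a i₁ j₁) := by
      refine Prod.ext ?_ ?_
      · rw [Prod.fst_add, Prod.fst_sub, Prod.fst_sum, Prod.fst_sum]
        exact (dec_n hi₁ (Finset.mem_compl.1 hj₁) h0).symm
      · rw [Prod.snd_add, Prod.snd_sub, Prod.snd_sum, Prod.snd_sum]
        rfl
    rwa [h2] at h1
  rcases comb_n h01 (fun i _ k _ j _ l _ => hadd i k j l) hp hinj hsurj hs with ⟨i₀, hi₀, h⟩ | ⟨j₀, hj₀, h⟩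
  · refine ⟨i₀, Or.inl fun g c hgc => ?_⟩
    rw [hgen i₀ hi₀ j₁ hj₁ g c hgc, Finset.sum_congr rfl (fun i hi => by rw [h i hi j₁ hj₁]),
      Finset.sum_congr (s₁ := Tᶜ) rfl (fun j hj => by rw [h i₀ hi₀ j hj]), h i₀ hi₀ j₁ hj₁, if_pos rfl]
    simp [hi₀]
  · refine ⟨j₀, Or.inr fun g c hgc => ?_⟩
    have h0 := (hg g).1 (hW.dom _ _ hgc)
    rw [← Finset.sum_add_sum_compl T] at h0
    rw [hgen i₁ hi₁ j₀ hj₀ g c hgc, Finset.sum_congr rfl (fun i hi => by rw [h i hi j₀ hj₀]),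
      Finset.sum_congr (s₁ := Tᶜ) rfl (fun j hj => by rw [h i₁ hi₁ j hj]), h i₁ hi₁ j₀ hj₀, if_pos rfl]
    have h3 : ∑ j ∈ Tᶜ, g j * (if j = j₀ then (1 : K) else 0) = g j₀ := by
      rw [Finset.sum_eq_single j₀]
      · rw [if_pos rfl, mul_one]
      · intro b _ hb
        rw [if_neg hb, mul_zero]
      · intro h4
        exact absurd hj₀ h4
    rw [h3, ← Finset.sum_mul]
    linear_combination h0

end Pool.Agent.H34Z
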