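import Pool.Agent.Lib.H34Z.D0

/-!
# A11: an intertwiner from coinciding weights; the transposed pair
-/

set_option autoImplicit false
set_option linter.unusedSectionVars false
namespace Pool.Agent.H34Z
open Module Matrix Pool.Agent.H53Toric Pool.Agent.H76P

variable {κ κ' : Type*} [Fintype κ] [DecidableEq κ] [Fintype κ'] [DecidableEq κ'] {K : Type*} [Field K] [CharZero K]
  {𝓛 : Submodule K (Module.End K (κ → K) × Module.End K (κ' → K))}
  {L : Submodule K (Module.End K (κ → K))} {L' : Submodule K (Module.End K (κ' → K))}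
  {d ε : κ → K} {d' ε' : κ' → K}

/-- PROOF. Let `f' k = s k * f (idx k)` (rational).  By `hf` and `hidx` the pair `(dq f, dg g')` in `𝓛` has `g' k = (f' k : K)`, i.e.
`dg g' = dq f'`.  Apply `H25Y.exists_intertwiner` with `M = idx k₀`, `M' = k₀`: `hinj' = hsep`, `hM = hmax`, `hM'`: `f' k ≤ f (idx k₀) = f' k₀` by `hmax'`,
`hmax` of the lemma: `g' k₀ = s k₀ * g (idx k₀) = g (idx k₀)` by `hidx`. -/
theorem iso_pm (hlie : ∀ p ∈ 𝓛, ∀ q ∈ 𝓛, (p.1 * q.1 - q.1 * p.1, p.2 * q.2 - q.2 * p.2) ∈ 𝓛)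
    (hirr : ∀ W : Submodule K (κ → K), (∀ p ∈ 𝓛, ∀ w ∈ W, p.1 w ∈ W) → W = ⊥ ∨ W = ⊤)
    (hirr' : ∀ W : Submodule K (κ' → K), (∀ p ∈ 𝓛, ∀ w ∈ W, p.2 w ∈ W) → W = ⊥ ∨ W = ⊤)
    {idx : κ' → κ} {s : κ' → ℚ} (hidx : ∀ g g', (dg g, dg g') ∈ 𝓛 → ∀ k, g' k = (s k : K) * g (idx k))
    {f : κ → ℚ} (hinj : Function.Injective f)
    (hf : ∃ g' : κ' → K, ((dq f : Module.End K (κ → K)), dg g') ∈ 𝓛)
    {k₀ : κ'} (hs₀ : s k₀ = 1) (hmax : ∀ i, f i ≤ f (idx k₀)) (hmax' : ∀ k, s k * f (idx k) ≤ f (idx k₀))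
    (hsep : ∀ k l, s k * f (idx k) = s l * f (idx l) → k = l) :
    ∃ T : (κ → K) →ₗ[K] (κ' → K), Function.Bijective T ∧ ∀ p ∈ 𝓛, ∀ v, T (p.1 v) = p.2 (T v) := by
  obtain ⟨g', hg'⟩ := hf
  have h1 : (dg g' : Module.End K (κ' → K)) = dq fun k => s k * f (idx k) := by
    unfold dq
    congr 1
    funext k
    rw [hidx _ _ hg' k]
    push_cast
    rfl
  rw [h1] at hg'
  obtain ⟨T, hT1, -, hT2⟩ := H25Y.exists_intertwiner hlie hirr hirr' hg' hinj
    (fun k l hkl => hsep k l hkl) (M := idx k₀) (M' := k₀) hmax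
    (fun k => by
      simp only [hs₀, one_mul]
      exact hmax' k)
    (fun g g' hg => by
      rw [hidx g g' hg k₀, hs₀, Rat.cast_one, one_mul])
  exact ⟨T, hT1, hT2⟩

/-- PROOF. `adjE 1 (phi M) = phi Mᵀ` (`adjE_phi`, `inv_one`).  `adjE 1` is an involution with `adjE 1 (X * Y) = adjE 1 Y * adjE 1 X`, so
`-adjE 1 (X Y - Y X) = [-adjE 1 X, -adjE 1 Y]`. -/
theorem lt_lie (hlie : ∀ p ∈ 𝓛, ∀ q ∈ 𝓛, (p.1 * q.1 - q.1 * p.1, p.2 * q.2 - q.2 * p.2) ∈ 𝓛) :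
    ∀ p ∈ Lt 𝓛, ∀ q ∈ Lt 𝓛, (p.1 * q.1 - q.1 * p.1, p.2 * q.2 - q.2 * p.2) ∈ Lt 𝓛 := by
  rintro ⟨p1, p2⟩ hp ⟨q1, q2⟩ hq
  rw [mem_Lt] at hp hq
  have h1 := hlie _ hp _ hq
  have hdet : IsUnit (1 : Matrix κ κ K).det := by
    rw [det_one]
    exact isUnit_one
  have h2 : -(adjE (1 : Matrix κ κ K) (p1 * q1 - q1 * p1)) =
      -(adjE (1 : Matrix κ κ K) p1) * -(adjE (1 : Matrix κ κ K) q1) -
        -(adjE (1 : Matrix κ κ K) q1) * -(adjE (1 : Matrix κ κ K) p1) := by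
    rw [map_sub, adjE_mul hdet, adjE_mul hdet]
    refine LinearMap.ext fun v => ?_
    simp only [LinearMap.neg_apply, LinearMap.sub_apply, Module.End.mul_apply, map_neg, neg_neg,
      neg_sub]
  simp only
  rw [mem_Lt, h2]
  exact h1

theorem adjE_one_one (X : Module.End K (κ → K)) : adjE (1 : Matrix κ κ K) (adjE (1 : Matrix κ κ K) X) = X := by
  obtain ⟨x, rfl⟩ := (phi (ι := κ) (K := K)).surjective X
  rw [adjE_phi, adjE_phi, inv_one, Matrix.one_mul, Matrix.mul_one, Matrix.one_mul, Matrix.mul_one,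
    transpose_transpose]

theorem a11_phi_diag (g : κ → K) : phi (Matrix.diagonal g) = dg g := by
  refine LinearMap.ext fun v => funext fun a => ?_
  rw [phi_apply, Matrix.mulVec_diagonal, dg_apply]

/-- PROOF. `dg g = phi (Matrix.diagonal g)`. -/
theorem adjE_one_dg (g : κ → K) : adjE (1 : Matrix κ κ K) (dg g) = dg g := by
  rw [← a11_phi_diag, adjE_phi, inv_one, Matrix.one_mul, Matrix.mul_one, diagonal_transpose]

/-- PROOF. `Matrix.trace_transpose`; the trace of `phi M` is `M.trace`. -/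
theorem trace_adjE_one (X : Module.End K (κ → K)) :
    LinearMap.trace K (κ → K) (adjE (1 : Matrix κ κ K) X) = LinearMap.trace K (κ → K) X := by
  refine adjE_tr ?_ X
  rw [det_one]
  exact isUnit_one

end Pool.Agent.H34Z
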