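import Pool.Agent.Lib.H34Z.A03
import Pool.Agent.Lib.H34Z.A06

/-!
# A07: weights of the orthogonal Lie algebra on which an involution has the value 1
-/

set_option autoImplicit false
set_option linter.unusedSectionVars false
namespace Pool.Agent.H34Z
open Module Matrix Pool.Agent.H53Toric Pool.Agent.H76P

variable {κ : Type*} [Fintype κ] [DecidableEq κ] {K : Type*} [Field K] [CharZero K] {J : Matrix κ κ K} {π : κ → κ}
  {L : Submodule K (Module.End K (κ → K))} {ε : κ → K} {W : Submodule K ((κ → K) × K)}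

/-- PROOF. As `wt_s` (A06), with `T = {i | ε i = 1}`, `h i = 1_i - 1_(π i)`, `(h i, lam i) ∈ W`.  For `i ≠ j` in `T`: `(h i + h j, lam i + lam j) ∈ W`
and `Cor L ε (h i + h j)` (`cor_o`; the function `1_i + 1_j - 1_(π i) - 1_(π j)` is `h i + h j`), so `lam i + lam j ∈ {0, 1}` (`hW.cor`).
`∑ lam i = 1` as in `wt_s`.  `T.card * 2 = Fintype.card κ`: `π` is a bijection from `T` to its complement (`Finset.card_nbij` or
`Finset.card_image_of_injective`, `Finset.card_compl`), so `3 ≤ T.card`, `T.card ≠ 4`.  `comb_o` gives `i₀`; the end is as in `wt_s`. -/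
theorem wt_o (hJ : Jᵀ = J) (hdet : IsUnit J.det) (hm : Mon J π) (hL : ∀ X, X ∈ L ↔ adjE J X = -X)
    (h6 : 6 ≤ Fintype.card κ) (h8 : Fintype.card κ ≠ 8)
    (hε : ∀ k, ε k = 1 ∨ ε k = -1) (hW : Fun L ε W) : ∃ i, ∀ g c, (g, c) ∈ W → c = g i := by
  classical
  have hεπ : ∀ i, ε (π i) = -ε i := (dg_skew hm hdet ε).1 ((hL _).1 (hW.dom ε 1 hW.eps))
  have hinj : ∀ {i j : κ}, π i = π j → i = j := by
    intro i j h
    have h1 := congrArg π h
    rwa [hm.inv, hm.inv] at h1
  have hne : (-1 : K) ≠ 1 := by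
    intro h
    have h1 : (2 : K) = 0 := by
      linear_combination -h
    exact two_ne_zero h1
  obtain ⟨T, hTd⟩ : ∃ T : Finset κ, T = Finset.univ.filter (fun i => ε i = 1) := ⟨_, rfl⟩
  have hTm : ∀ i, i ∈ T ↔ ε i = 1 := by
    intro i
    rw [hTd, Finset.mem_filter]
    exact ⟨fun h => h.2, fun h => ⟨Finset.mem_univ _, h⟩⟩
  have hT : ∀ i, i ∈ T ↔ π i ∉ T := by
    intro i
    rw [hTm, hTm, hεπ]
    rcases hε i with h | h
    · rw [h]
      exact ⟨fun _ => hne, fun _ => rfl⟩
    · rw [h, neg_neg]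
      exact ⟨fun h1 => absurd h1 hne, fun h1 => absurd rfl h1⟩
  obtain ⟨h, hh⟩ : ∃ h : κ → κ → K, ∀ i, h i = Pi.single i 1 - Pi.single (π i) 1 := ⟨_, fun _ => rfl⟩
  have hodd : ∀ i k, h i (π k) = -h i k := by
    intro i k
    rw [hh, Pi.sub_apply, Pi.sub_apply]
    have e1 : (Pi.single i (1 : K) : κ → K) (π k) = (Pi.single (π i) (1 : K) : κ → K) k := by
      rw [Pi.single_apply, Pi.single_apply]
      by_cases h1 : π k = i
      · rw [if_pos h1, if_pos (by rw [← h1, hm.inv])]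
      · rw [if_neg h1, if_neg (fun h2 => h1 (by rw [h2, hm.inv]))]
    have e2 : (Pi.single (π i) (1 : K) : κ → K) (π k) = (Pi.single i (1 : K) : κ → K) k := by
      rw [Pi.single_apply, Pi.single_apply]
      by_cases h1 : k = i
      · rw [if_pos h1, if_pos (by rw [h1])]
      · rw [if_neg h1, if_neg (fun h2 => h1 (hinj h2))]
    rw [e1, e2]
    ring
  have hdgh : ∀ i, dg (h i) ∈ L := fun i => (hL _).2 ((dg_skew hm hdet (h i)).2 (hodd i))
  choose lam hlam using fun i => hW.tot (h i) (hdgh i)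
  have key : ∀ g : κ → K, (∀ i, g (π i) = -g i) → (g, ∑ i ∈ T, g i * lam i) ∈ W := by
    intro g hg
    have h1 : ∑ i ∈ T, g i • ((h i, lam i) : (κ → K) × K) ∈ W :=
      W.sum_mem fun i _ => W.smul_mem _ (hlam i)
    have h2 : ∑ i ∈ T, g i • ((h i, lam i) : (κ → K) × K) = (g, ∑ i ∈ T, g i * lam i) := by
      refine Prod.ext ?_ ?_
      · rw [Prod.fst_sum]
        have h3 := dec_pi hm.inv hT hg
        refine Eq.trans (Finset.sum_congr rfl fun i _ => ?_) h3.symm
        rw [Prod.smul_fst, hh]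
      · rw [Prod.snd_sum]
        rfl
    rw [h2] at h1
    exact h1
  have hsum : ∑ i ∈ T, lam i = 1 := by
    rw [← Fun.eq hW (key ε hεπ) hW.eps]
    refine Finset.sum_congr rfl fun i hi => ?_
    rw [(hTm i).1 hi, one_mul]
  have hpair : ∀ i ∈ T, ∀ j ∈ T, i ≠ j → lam i + lam j = 0 ∨ lam i + lam j = 1 := by
    intro i hi j hj hij
    have hi1 := (hTm i).1 hi
    have hj1 := (hTm j).1 hj
    have h1 := cor_o hJ hdet hm (fun X hX => (hL X).2 hX) hij hi1 hj1 (by rw [hεπ, hi1]) (by rw [hεπ, hj1])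
    have h2 : (Pi.single i 1 + Pi.single j 1 - Pi.single (π i) 1 - Pi.single (π j) 1 : κ → K) = h i + h j := by
      rw [hh, hh]
      abel
    rw [h2] at h1
    exact hW.cor _ _ h1 (W.add_mem (hlam i) (hlam j))
  have hcard : T.card * 2 = Fintype.card κ := by
    have h1 : T.image π = Tᶜ := by
      ext k
      rw [Finset.mem_image, Finset.mem_compl]
      constructor
      · rintro ⟨i, hi, rfl⟩
        exact (hT i).1 hi
      · intro hk
        refine ⟨π k, (hT (π k)).2 ?_, hm.inv k⟩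
        rw [hm.inv]
        exact hk
    have h2 : (T.image π).card = T.card := Finset.card_image_of_injective T fun i j hij => hinj hij
    rw [h1, Finset.card_compl] at h2
    have h3 := Finset.card_le_univ T
    omega
  obtain ⟨i₀, hi₀, hl1, hl0⟩ := comb_o hpair hsum (by omega) (by omega)
  refine ⟨i₀, fun g c hgc => ?_⟩
  have hg := (dg_skew hm hdet g).1 ((hL _).1 (hW.dom g c hgc))
  rw [Fun.eq hW hgc (key g hg), Finset.sum_eq_single i₀]
  · rw [hl1, mul_one]
  · intro i hi hne'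
    rw [hl0 i hi hne', mul_zero]
  · intro h1
    exact absurd hi₀ h1

end Pool.Agent.H34Z
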