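import Pool.Agent.Lib.H34Z.A04

/-!
# A09: diagonal pairs, the functionals of a pair
-/

set_option autoImplicit false
set_option linter.unusedSectionVars false
namespace Pool.Agent.H34Z
open Module Matrix Pool.Agent.H53Toric Pool.Agent.H76P

variable {κ κ' : Type*} [Fintype κ] [DecidableEq κ] [Fintype κ'] [DecidableEq κ'] {K : Type*} [Field K] [CharZero K]
  {𝓛 : Submodule K (Module.End K (κ → K) × Module.End K (κ' → K))}
  {L : Submodule K (Module.End K (κ → K))} {L' : Submodule K (Module.End K (κ' → K))}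
  {d ε : κ → K} {d' ε' : κ' → K}

theorem a09_cnj {κ : Type*} [Fintype κ] [DecidableEq κ] {K : Type*} [Field K] {d : κ → K} (hne : ∀ k, d k ≠ 0) (g : κ → K) :
    dg d * dg g * dg (fun k => (d k)⁻¹) = dg g := by
  rw [dg_mul, dg_mul]
  congr 1
  funext k
  simp only [Pi.mul_apply]
  rw [mul_comm (d k), mul_assoc, mul_inv_cancel₀ (hne k), mul_one]

theorem a09_diag {κ : Type*} [Fintype κ] [DecidableEq κ] {K : Type*} [Field K] [CharZero K] {d : κ → K} (hne : ∀ k, d k ≠ 0)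
    (hinj : Function.Injective d) {X : Module.End K (κ → K)} (hX : dg d * X * dg (fun k => (d k)⁻¹) = X) :
    ∃ g, X = dg g := by
  refine ⟨fun a => X (Pi.single a 1) a, H25Y.ext_entry fun a b => ?_⟩
  rw [H25Y.dg_single, Pi.smul_apply, smul_eq_mul]
  by_cases hab : a = b
  · subst hab
    rw [Pi.single_eq_same, mul_one]
  · rw [Pi.single_eq_of_ne hab, mul_zero]
    have h1 := congrFun (congrArg (fun T : Module.End K (κ → K) => T (Pi.single b 1)) hX) a
    simp only [Module.End.mul_apply] at h1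
    rw [dg_apply, H25Y.dg_single, map_smul, Pi.smul_apply, smul_eq_mul] at h1
    have h2 : (d a - d b) * X (Pi.single b 1) a = 0 := by
      have h3 : d b * (d a * ((d b)⁻¹ * X (Pi.single b 1) a)) = d b * X (Pi.single b 1) a := by rw [h1]
      have h4 : d b * (d a * ((d b)⁻¹ * X (Pi.single b 1) a)) = d a * X (Pi.single b 1) a := by
        rw [mul_left_comm, mul_inv_cancel_left₀ (hne b)]
      rw [sub_mul, ← h3, h4, sub_self]
    rcases mul_eq_zero.1 h2 with h3 | h3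
    · exact absurd (hinj (sub_eq_zero.1 h3)) hab
    · exact h3

/-- PROOF. By `h.cnj`: `(dg d * dg g * dg d⁻¹, dg d' * X' * dg d'⁻¹) ∈ 𝓛`, and `dg d * dg g * dg d⁻¹ = dg g` (`dg_mul`, `h.ne`).  So
`(0, dg d' * X' * dg d'⁻¹ - X') ∈ 𝓛` and `dg d' * X' * dg d'⁻¹ = X'` (`h.right`).  The entry `(a, b)` of the left side is
`d' a * X' (Pi.single b 1) a * (d' b)⁻¹`, so `X' (Pi.single b 1) a = 0` if `a ≠ b` (`h.inj'`).  So `X' = dg (fun a => X' (Pi.single a 1) a)`
(`H25Y.ext_entry`). -/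
theorem Gr.diag (h : Gr 𝓛 L L' d d' ε ε') {g : κ → K} {X' : Module.End K (κ' → K)} (hX : (dg g, X') ∈ 𝓛) :
    ∃ g', X' = dg g' := by
  have h1 := h.cnj _ _ hX
  rw [a09_cnj h.ne] at h1
  have h3 := 𝓛.sub_mem h1 hX
  rw [Prod.mk_sub_mk, sub_self] at h3
  exact a09_diag h.ne' h.inj' (sub_eq_zero.1 (h.right _ h3))

/-- PROOF. As `Gr.diag`, with the roles exchanged (`h.left`, `h.inj`). -/
theorem Gr.diag' (h : Gr 𝓛 L L' d d' ε ε') {g' : κ' → K} {X : Module.End K (κ → K)} (hX : (X, dg g') ∈ 𝓛) :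
    ∃ g, X = dg g := by
  have h1 := h.cnj _ _ hX
  rw [a09_cnj h.ne'] at h1
  have h3 := 𝓛.sub_mem h1 hX
  rw [Prod.mk_sub_mk, sub_self] at h3
  exact a09_diag h.ne h.inj (sub_eq_zero.1 (h.left _ h3))

/-- PROOF. `zero`: `(dg 0, dg g') ∈ 𝓛` gives `dg g' = 0` (`h.right`, `dg 0 = 0`), so `g' k = 0` (apply to `Pi.single k 1`).
`tot`: `h.fst`, `h.diag`.  `dom`: `h.fst`.  `eps`: `g' = ε'`, `ε' k * ε' k = 1` (`h.val'`).
`cor`: `Cor L ε g` gives `E, F ∈ L` with `Trip E F ε g`; `(E, E'), (F, F') ∈ 𝓛` (`h.fst`); `([E, F], [E', F']) ∈ 𝓛` (`h.lie`), `[E, F] = dg g`, so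
`[E', F'] = dg g'` for the `g'` of `(g, c) ∈ Wt 𝓛 k (ε' k)` (the difference of the pairs is `(0, _)`, `h.right`).  In the same way
`[dg ε', E'] = 2 E'`, `[dg ε', F'] = -2 F'`, `[dg g', E'] = 2 E'`, `[dg g', F'] = -2 F'` (`h.eps`, `h.lie`, `h.right`).  So `Trip E' F' ε' g'` and
`trip_val` with `h.val'`: `ε' k * g' k ∈ {0, 1}`. -/
theorem Gr.fun (h : Gr 𝓛 L L' d d' ε ε') (k : κ') : Fun L ε (Wt 𝓛 k (ε' k)) := by
  have dg0 : dg (0 : κ → K) = 0 := by
    refine LinearMap.ext fun v => funext fun a => ?_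
    rw [dg_apply, Pi.zero_apply, zero_mul, LinearMap.zero_apply, Pi.zero_apply]
  have uniq : ∀ X X' Y', (X, X') ∈ 𝓛 → (X, Y') ∈ 𝓛 → X' = Y' := by
    intro X X' Y' h1 h2
    have h3 := 𝓛.sub_mem h1 h2
    rw [Prod.mk_sub_mk, sub_self] at h3
    exact sub_eq_zero.1 (h.right _ h3)
  refine ⟨?_, ?_, ?_, ?_, ?_⟩
  · rintro c ⟨g', h1, h2⟩
    change (dg (0 : κ → K), dg g') ∈ 𝓛 at h1
    change c = ε' k * g' k at h2
    rw [dg0] at h1
    have h3 := h.right _ h1
    have h4 : g' k = 0 := by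
      have h5 := congrFun (congrArg (fun T : Module.End K (κ' → K) => T (Pi.single k 1)) h3) k
      simp only [dg_apply, LinearMap.zero_apply, Pi.zero_apply, Pi.single_eq_same, mul_one] at h5
      exact h5
    rw [h2, h4, mul_zero]
  · intro g hg
    obtain ⟨X', hX'⟩ := (h.fst _).1 hg
    obtain ⟨g', rfl⟩ := h.diag hX'
    exact ⟨_, g', hX', rfl⟩
  · rintro g c ⟨g', h1, h2⟩
    exact (h.fst _).2 ⟨_, h1⟩
  · rintro g c ⟨E, hE, F, hF, t⟩ ⟨g', h1, h2⟩
    change (dg g, dg g') ∈ 𝓛 at h1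
    change c = ε' k * g' k at h2
    obtain ⟨E', hE'⟩ := (h.fst _).1 hE
    obtain ⟨F', hF'⟩ := (h.fst _).1 hF
    have t' : Trip E' F' ε' g' := by
      constructor
      · have h3 := h.lie _ h.eps _ hE'
        simp only at h3
        rw [t.e] at h3
        have h4 := 𝓛.smul_mem (2 : K) hE'
        rw [Prod.smul_mk] at h4
        exact uniq _ _ _ h3 h4
      · have h3 := h.lie _ h.eps _ hF'
        simp only at h3
        rw [t.f] at h3
        have h4 := 𝓛.smul_mem (-2 : K) hF'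
        rw [Prod.smul_mk] at h4
        exact uniq _ _ _ h3 h4
      · have h3 := h.lie _ hE' _ hF'
        simp only at h3
        rw [t.co] at h3
        exact uniq _ _ _ h3 h1
      · have h3 := h.lie _ h1 _ hE'
        simp only at h3
        rw [t.he] at h3
        have h4 := 𝓛.smul_mem (2 : K) hE'
        rw [Prod.smul_mk] at h4
        exact uniq _ _ _ h3 h4
      · have h3 := h.lie _ h1 _ hF'
        simp only at h3
        rw [t.hf] at h3
        have h4 := 𝓛.smul_mem (-2 : K) hF'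
        rw [Prod.smul_mk] at h4
        exact uniq _ _ _ h3 h4
    obtain ⟨h5, h6⟩ := trip_val t' h.val' k
    rw [h2]
    rcases h.val' k with h7 | h7
    · rw [h7, one_mul]
      exact h5 h7
    · rw [h7]
      rcases h6 h7 with h8 | h8
      · left
        rw [h8, mul_zero]
      · right
        rw [h8]
        ring
  · refine ⟨ε', h.eps, ?_⟩
    change (1 : K) = ε' k * ε' k
    rcases h.val' k with h7 | h7 <;> rw [h7] <;> ring

end Pool.Agent.H34Z
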