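import Pool.Agent.Lib.H34Z.A01
import Pool.Agent.Lib.H34Z.A07
import Pool.Agent.Lib.H34Z.A08
import Pool.Agent.Lib.H34Z.A09

/-!
# A12: the weights of the second block, in all cases; diagonal elements separate
-/

set_option autoImplicit false
set_option linter.unusedSectionVars false
namespace Pool.Agent.H34Z
open Module Matrix Pool.Agent.H53Toric Pool.Agent.H76P

variable {κ κ' : Type*} [Fintype κ] [DecidableEq κ] [Fintype κ'] [DecidableEq κ'] {K : Type*} [Field K] [CharZero K]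
  {𝓛 : Submodule K (Module.End K (κ → K) × Module.End K (κ' → K))}
  {L : Submodule K (Module.End K (κ → K))} {L' : Submodule K (Module.End K (κ' → K))}
  {d ε : κ → K} {d' ε' : κ' → K}

theorem a12_pi {J : Matrix κ κ K} {π : κ → κ} (hdet : IsUnit J.det) (hm : Mon J π)
    (hL : ∀ X, X ∈ L ↔ adjE J X = -X) (hne : ∀ i, π i ≠ i) {i j : κ} (hij : i ≠ j) :
    ∃ g : κ → K, dg g ∈ L ∧ g i ≠ g j := by
  refine ⟨fun k => (if k = i then 1 else 0) - (if k = π i then 1 else 0), ?_, ?_⟩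
  · rw [hL, dg_skew hm hdet]
    intro k
    have h1 : (π k = i) ↔ (k = π i) :=
      ⟨fun h => by rw [← h, hm.inv], fun h => by rw [h, hm.inv]⟩
    have h2 : (π k = π i) ↔ (k = i) :=
      ⟨fun h => by rw [← hm.inv k, h, hm.inv], fun h => by rw [h]⟩
    simp only [h1, h2]
    ring
  · have h3 : i ≠ π i := (hne i).symm
    have h4 : j ≠ i := hij.symm
    by_cases hj : j = π i
    · simp only [if_neg h3, if_neg h4, if_pos hj, if_true]
      norm_num
    · simp only [if_neg h3, if_neg h4, if_neg hj, if_true]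
      norm_num

/-- PROOF. Cases of `hL`.  `s`, `o`: `π` has no fixed point (`s`: `Mon.ne_self`; `o`: `ε (π i) = -ε i` by `dg_skew`, `hεL`, and `ε i = 1` or `-1`, so
`ε (π i) ≠ ε i`).  Let `i ≠ j`, `g = 1_i - 1_(π i)`: `dg g ∈ L` (`dg_skew`; `π` is injective), `g i = 1`, and `g j = 0` or (`j = π i`) `g j = -1`.
`n`: `g = 1_i - 1_j` (`trace_dg`). -/
theorem fb_sep {t : Prop} {J : Matrix κ κ K} (hL : FB t L J) (hεL : dg ε ∈ L) (hε : ∀ k, ε k = 1 ∨ ε k = -1)
    {i j : κ} (hij : i ≠ j) : ∃ g : κ → K, dg g ∈ L ∧ g i ≠ g j := by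
  cases hL with
  | s ht π hJ hdet hm hL => exact a12_pi hdet hm hL (hm.ne_self hJ) hij
  | o ht π hJ hdet hm hL h6 h8 =>
    refine a12_pi hdet hm hL ?_ hij
    intro k hk
    have h1 : ε (π k) = -ε k := (dg_skew hm hdet ε).1 ((hL _).1 hεL) k
    rw [hk] at h1
    rcases hε k with h2 | h2
    · rw [h2] at h1
      norm_num at h1
    · rw [h2] at h1
      norm_num at h1
  | n ht hL h2 =>
    refine ⟨fun k => (if k = i then 1 else 0) - (if k = j then 1 else 0), ?_, ?_⟩
    · rw [hL, trace_dg, Finset.sum_sub_distrib]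
      simp
    · have h4 : j ≠ i := hij.symm
      simp only [if_neg hij, if_neg h4, if_true]
      norm_num

/-- The weights in the symplectic and the orthogonal case.
PROOF. Fix `k`.  `h.fun k : Fun L ε (Wt 𝓛 k (ε' k))`, so `wt_s` / `wt_o` give `i` with `ε' k * g' k = g i` for all `(dg g, dg g') ∈ 𝓛`
(`mem_Wt`).  If `ε' k = 1` take `i`; if `ε' k = -1` take `π i` (`g (π i) = -g i` by `dg_skew`, as `dg g ∈ L`). -/
theorem Gr.wt_so (h : Gr 𝓛 L L' d d' ε ε') {J : Matrix κ κ K} {π : κ → κ} (hJ : Jᵀ = -J ∨ (Jᵀ = J ∧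
      6 ≤ Fintype.card κ ∧ Fintype.card κ ≠ 8)) (hdet : IsUnit J.det) (hm : Mon J π)
    (hL : ∀ X, X ∈ L ↔ adjE J X = -X) :
    ∃ idx : κ' → κ, ∀ g g', (dg g, dg g') ∈ 𝓛 → ∀ k, g' k = g (idx k) := by
  have hεL : dg ε ∈ L := (h.fst _).2 ⟨_, h.eps⟩
  have key : ∀ k : κ', ∃ i : κ, ∀ g g', (dg g, dg g') ∈ 𝓛 → g' k = g i := by
    intro k
    have h1 : ∃ i, ∀ g c, (g, c) ∈ Wt 𝓛 k (ε' k) → c = g i := by
      rcases hJ with hJ | ⟨hJ, h6, h8⟩
      · exact wt_s hJ hdet hm hL h.val (h.fun k)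
      · exact wt_o hJ hdet hm hL h6 h8 h.val (h.fun k)
    obtain ⟨i, hi⟩ := h1
    rcases h.val' k with h2 | h2
    · refine ⟨i, fun g g' hg => ?_⟩
      have h3 := hi g (ε' k * g' k) (mem_Wt.2 ⟨g', hg, rfl⟩)
      rw [h2, one_mul] at h3
      exact h3
    · refine ⟨π i, fun g g' hg => ?_⟩
      have h3 := hi g (ε' k * g' k) (mem_Wt.2 ⟨g', hg, rfl⟩)
      have h4 : dg g ∈ L := (h.fst _).2 ⟨_, hg⟩
      have h5 : g (π i) = -g i := (dg_skew hm hdet g).1 ((hL _).1 h4) i
      rw [h2] at h3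
      rw [h5, ← h3]
      ring
  choose idx hidx using key
  exact ⟨idx, fun g g' hg k => hidx k g g' hg⟩

/-- The weights in the linear case.  PROOF. As `Gr.wt_so` with `wt_n`: for each `k` there is `i` with `ε' k * g' k = g i` for all pairs or
`ε' k * g' k = -g i` for all pairs; multiply with `ε' k = ±1`: `s k = ε' k` or `s k = -ε' k` (as a rational number). -/
theorem Gr.wt_n (h : Gr 𝓛 L L' d d' ε ε') (hL : ∀ X, X ∈ L ↔ LinearMap.trace K (κ → K) X = 0)
    (h2 : 2 ≤ Fintype.card κ) :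
    ∃ (idx : κ' → κ) (s : κ' → ℚ), (∀ k, s k = 1 ∨ s k = -1) ∧
      ∀ g g', (dg g, dg g') ∈ 𝓛 → ∀ k, g' k = (s k : K) * g (idx k) := by
  have key : ∀ k : κ', ∃ (i : κ) (s : ℚ), (s = 1 ∨ s = -1) ∧
      ∀ g g', (dg g, dg g') ∈ 𝓛 → g' k = (s : K) * g i := by
    intro k
    obtain ⟨i, hi⟩ := Pool.Agent.H34Z.wt_n hL h2 h.val (h.fun k)
    rcases h.val' k with h3 | h3
    · rcases hi with hi | hi
      · refine ⟨i, 1, Or.inl rfl, fun g g' hg => ?_⟩
        have h4 := hi g (ε' k * g' k) (mem_Wt.2 ⟨g', hg, rfl⟩)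
        rw [h3, one_mul] at h4
        rw [h4]
        push_cast
        ring
      · refine ⟨i, -1, Or.inr rfl, fun g g' hg => ?_⟩
        have h4 := hi g (ε' k * g' k) (mem_Wt.2 ⟨g', hg, rfl⟩)
        rw [h3, one_mul] at h4
        rw [h4]
        push_cast
        ring
    · rcases hi with hi | hi
      · refine ⟨i, -1, Or.inr rfl, fun g g' hg => ?_⟩
        have h4 := hi g (ε' k * g' k) (mem_Wt.2 ⟨g', hg, rfl⟩)
        rw [h3] at h4
        rw [← h4]
        push_cast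
        ring
      · refine ⟨i, 1, Or.inl rfl, fun g g' hg => ?_⟩
        have h4 := hi g (ε' k * g' k) (mem_Wt.2 ⟨g', hg, rfl⟩)
        rw [h3] at h4
        have h5 : g i = g' k := by
          have := congrArg Neg.neg h4
          rw [neg_neg] at this
          rw [← this]
          ring
        rw [h5]
        push_cast
        ring
  choose idx s hs hidx using key
  exact ⟨idx, s, hs, fun g g' hg k => hidx k g g' hg⟩

end Pool.Agent.H34Z
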