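import Pool.Agent.Lib.H34Z.A10
import Pool.Agent.Lib.H34Z.A11
import Pool.Agent.Lib.H34Z.A12

/-!
# A13: a graph comes from an isomorphism of the modules (or of the dual module)
-/

set_option autoImplicit false
set_option linter.unusedSectionVars false
namespace Pool.Agent.H34Z
open Module Matrix Pool.Agent.H53Toric Pool.Agent.H76P

variable {κ κ' : Type*} [Fintype κ] [DecidableEq κ] [Fintype κ'] [DecidableEq κ'] {K : Type*} [Field K] [CharZero K]
  {𝓛 : Submodule K (Module.End K (κ → K) × Module.End K (κ' → K))}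
  {L : Submodule K (Module.End K (κ → K))} {L' : Submodule K (Module.End K (κ' → K))}
  {d ε : κ → K} {d' ε' : κ' → K}

/-- PROOF. `hg`: all diagonal pairs have `g' k = g (idx k)`.  Let `k₀ : κ'` be any element (`Nonempty κ'`), `f` from `gen_so` for `π` and `idx k₀`
(`π` has no fixed points: if `Jᵀ = -J` by `Mon.ne_self`; in general since `ε (π i) = -ε i`, `dg_skew`, `h.eps`, `h.val`).  `dq f ∈ L` by `dg_skew`, so
`(dq f, X') ∈ 𝓛` and `X' = dg g'` (`h.fst`, `h.diag`).  Apply `iso_pm` with `s = 1`.  `hsep`: if `f (idx k) = f (idx l)` then `idx k = idx l`, so `g' k = g' l` for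
all diagonal pairs, i.e. (`h.snd`, `h.diag'`) for all `dg g' ∈ L'`, so `k = l` by `fb_sep` for `L'` (`h.snd` and `h.eps` give `dg ε' ∈ L'`). -/
theorem Gr.iso_so (h : Gr 𝓛 L L' d d' ε ε') [Nonempty κ'] {J : Matrix κ κ K} {π : κ → κ} (hdet : IsUnit J.det) (hm : Mon J π)
    (hL : ∀ X, X ∈ L ↔ adjE J X = -X) (hirr : Irr L) (hirr' : Irr L') {t' : Prop} {J' : Matrix κ' κ' K} (hL' : FB t' L' J')
    {idx : κ' → κ} (hg : ∀ g g', (dg g, dg g') ∈ 𝓛 → ∀ k, g' k = g (idx k)) :
    ∃ T : (κ → K) →ₗ[K] (κ' → K), Function.Bijective T ∧ ∀ p ∈ 𝓛, ∀ v, T (p.1 v) = p.2 (T v) := by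
  obtain ⟨k₀⟩ := (inferInstance : Nonempty κ')
  have hεL : dg ε ∈ L := (h.fst _).2 ⟨_, h.eps⟩
  have hεL' : dg ε' ∈ L' := (h.snd _).2 ⟨_, h.eps⟩
  have hne : ∀ i, π i ≠ i := by
    intro i hi
    have h1 := (dg_skew hm hdet ε).1 ((hL _).1 hεL) i
    rw [hi] at h1
    rcases h.val i with h2 | h2
    · rw [h2] at h1
      have h3 : (2 : K) = 0 := by linear_combination h1
      exact two_ne_zero h3
    · rw [h2] at h1
      have h3 : (2 : K) = 0 := by linear_combination -h1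
      exact two_ne_zero h3
  obtain ⟨f, hf1, hf2, hf3⟩ := gen_so hm.inv hne (idx k₀)
  have hfL : (dq f : Module.End K (κ → K)) ∈ L := by
    refine (hL _).2 ((dg_skew hm hdet _).2 fun i => ?_)
    rw [hf2 i]
    push_cast
    rfl
  obtain ⟨X', hX'⟩ := (h.fst _).1 hfL
  obtain ⟨gf, rfl⟩ := h.diag hX'
  refine iso_pm h.lie ?_ ?_ (idx := idx) (s := fun _ => 1) (f := f) (fun g g' hgg k => ?_) hf1 ⟨gf, hX'⟩ (k₀ := k₀) rfl hf3
    (fun k => ?_) (fun k l hkl => ?_)
  · intro W hW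
    refine hirr W fun X hX w hw => ?_
    obtain ⟨X', hX'⟩ := (h.fst _).1 hX
    exact hW _ hX' w hw
  · intro W hW
    refine hirr' W fun X' hX w hw => ?_
    obtain ⟨X, hX'⟩ := (h.snd _).1 hX
    exact hW _ hX' w hw
  · rw [hg g g' hgg k]
    push_cast
    ring
  · rw [one_mul]
    exact hf3 _
  · rw [one_mul, one_mul] at hkl
    have h1 : idx k = idx l := hf1 hkl
    by_contra hne'
    obtain ⟨g', hg', hsep⟩ := fb_sep hL' hεL' h.val' hne'
    obtain ⟨X, hX⟩ := (h.snd _).1 hg'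
    obtain ⟨g, rfl⟩ := h.diag' hX
    apply hsep
    rw [hg g g' hX k, hg g g' hX l, h1]

/-- The linear case, when the weight `k₀` has the sign `1`.  It is stated for a Lie algebra `𝓛` of pairs without the structure `Gr`, so that it can be
applied to `Lt 𝓛` too.
PROOF. Case `Fintype.card κ = 2`: `g j = -g i` for the two elements `i ≠ j` and `dg g ∈ L` (`trace_dg`), so one can change `idx` such that `s = 1`:
`idx' k = idx k` if `s k = 1`, the other element if `s k = -1`.  Then `f` from `gen_two` for `idx' k₀ = idx k₀`, `iso_pm` with `idx'`, `s = 1`; `hsep` as in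
`Gr.iso_so` from `hsepL`.
Case `3 ≤ Fintype.card κ`: `f` from `gen_n` for `idx k₀`.  `iso_pm` with `idx`, `s`: `hinj` from `|f i| = |f j| → i = j`; `hmax`, `hmax'`: `s k * f i ≤ |f i|`;
`hsep`: `s k * f (idx k) = s l * f (idx l)` gives `|f (idx k)| = |f (idx l)|`, so `idx k = idx l`, and `s k = s l` as `f (idx k) ≠ 0`; so `g' k = g' l` for all
diagonal pairs and `k = l` by `hsepL`. -/
theorem iso_n (hlie : ∀ p ∈ 𝓛, ∀ q ∈ 𝓛, (p.1 * q.1 - q.1 * p.1, p.2 * q.2 - q.2 * p.2) ∈ 𝓛)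
    (hirr : ∀ W : Submodule K (κ → K), (∀ p ∈ 𝓛, ∀ w ∈ W, p.1 w ∈ W) → W = ⊥ ∨ W = ⊤)
    (hirr' : ∀ W : Submodule K (κ' → K), (∀ p ∈ 𝓛, ∀ w ∈ W, p.2 w ∈ W) → W = ⊥ ∨ W = ⊤)
    (htr : ∀ p ∈ 𝓛, LinearMap.trace K (κ → K) p.1 = 0)
    (hdiag : ∀ g : κ → K, ∑ i, g i = 0 → ∃ g' : κ' → K, (dg g, dg g') ∈ 𝓛) (h2 : 2 ≤ Fintype.card κ)
    (hsepL : ∀ k l : κ', (∀ g g', (dg g, dg g') ∈ 𝓛 → g' k = g' l) → k = l)
    {idx : κ' → κ} {s : κ' → ℚ} (hs : ∀ k, s k = 1 ∨ s k = -1)
    (hg : ∀ g g', (dg g, dg g') ∈ 𝓛 → ∀ k, g' k = (s k : K) * g (idx k)) {k₀ : κ'} (hk₀ : s k₀ = 1) :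
    ∃ T : (κ → K) →ₗ[K] (κ' → K), Function.Bijective T ∧ ∀ p ∈ 𝓛, ∀ v, T (p.1 v) = p.2 (T v) := by
  have hdf : ∀ f : κ → ℚ, ∑ i, f i = 0 → ∃ g' : κ' → K, ((dq f : Module.End K (κ → K)), dg g') ∈ 𝓛 := by
    intro f hf
    refine hdiag _ ?_
    have h1 : (((∑ i, f i : ℚ)) : K) = 0 := by rw [hf, Rat.cast_zero]
    rw [← h1]
    push_cast
    rfl
  rcases Nat.lt_or_ge (Fintype.card κ) 3 with h3 | h3
  · have hc2 : Fintype.card κ = 2 := by omega
    -- the other element
    obtain ⟨x, y, hxy, huniv⟩ := Finset.card_eq_two.1 (Finset.card_univ.trans hc2)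
    obtain ⟨τ, hτ⟩ : ∃ τ : κ → κ, τ = fun i => if i = x then y else x := ⟨_, rfl⟩
    have hall : ∀ i : κ, i = x ∨ i = y := by
      intro i
      have : i ∈ (Finset.univ : Finset κ) := Finset.mem_univ i
      rw [huniv] at this
      simpa using this
    have hsum : ∀ g : κ → K, ∑ i, g i = g x + g y := by
      intro g
      rw [huniv, Finset.sum_pair hxy]
    have hgt : ∀ g : κ → K, ∑ i, g i = 0 → ∀ i, g (τ i) = - g i := by
      intro g hg0 i
      rw [hsum] at hg0
      rcases hall i with rfl | rfl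
      · have : τ i = y := by rw [hτ]; simp
        rw [this]
        linear_combination hg0
      · have : τ i = x := by rw [hτ]; simp [Ne.symm hxy]
        rw [this]
        linear_combination hg0
    have htr0 : ∀ g g', (dg g, dg g') ∈ 𝓛 → ∑ i, g i = 0 := by
      intro g g' hgg
      have h1 := htr _ hgg
      rwa [trace_dg] at h1
    obtain ⟨f, hf1, hf2, hf3⟩ := gen_two hc2 (idx k₀)
    obtain ⟨idx', hidx'⟩ : ∃ idx' : κ' → κ, idx' = fun k => if s k = 1 then idx k else τ (idx k) := ⟨_, rfl⟩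
    have hidx0 : idx' k₀ = idx k₀ := by rw [hidx']; simp [hk₀]
    have hg' : ∀ g g', (dg g, dg g') ∈ 𝓛 → ∀ k, g' k = g (idx' k) := by
      intro g g' hgg k
      rw [hg g g' hgg k, hidx']
      rcases hs k with h4 | h4
      · simp [h4]
      · have h5 : ¬ ((-1 : ℚ) = 1) := by norm_num
        simp only [h4, h5, if_false]
        rw [hgt g (htr0 g g' hgg)]
        push_cast
        ring
    refine iso_pm hlie hirr hirr' (idx := idx') (s := fun _ => 1) (f := f) (fun g g' hgg k => ?_) hf2 (hdf f hf1) (k₀ := k₀) rfl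
      (fun i => by rw [hidx0]; exact hf3 i) (fun k => ?_) (fun k l hkl => ?_)
    · rw [hg' g g' hgg k]
      push_cast
      ring
    · rw [one_mul, hidx0]
      exact hf3 _
    · rw [one_mul, one_mul] at hkl
      have h1 : idx' k = idx' l := hf2 hkl
      refine hsepL k l fun g g' hgg => ?_
      rw [hg' g g' hgg k, hg' g g' hgg l, h1]
  · obtain ⟨f, hf1, hf2, hf3, hf4⟩ := gen_n h3 (idx k₀)
    refine iso_pm hlie hirr hirr' (idx := idx) (s := s) (f := f) hg (fun i j hij => hf2 i j (by rw [hij])) (hdf f hf1)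
      (k₀ := k₀) hk₀ (fun i => (le_abs_self _).trans (hf4 i)) (fun k => ?_) (fun k l hkl => ?_)
    · refine le_trans ?_ (hf4 (idx k))
      rcases hs k with h4 | h4
      · rw [h4, one_mul]
        exact le_abs_self _
      · rw [h4, neg_one_mul]
        exact neg_le_abs _
    · have habs : ∀ k, |s k * f (idx k)| = |f (idx k)| := by
        intro k
        rcases hs k with h4 | h4
        · rw [h4, one_mul]
        · rw [h4, neg_one_mul, abs_neg]
      have h1 : idx k = idx l := by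
        apply hf2
        rw [← habs k, ← habs l, hkl]
      have h2 : s k = s l := by
        rw [h1] at hkl
        exact mul_right_cancel₀ (hf3 _) hkl
      refine hsepL k l fun g g' hgg => ?_
      rw [hg g g' hgg k, hg g g' hgg l, h1, h2]

end Pool.Agent.H34Z
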