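import Pool.Agent.Lib.H34Z.A01

/-!
# A02: coroots of the symplectic and the linear Lie algebra
-/

set_option autoImplicit false
set_option linter.unusedSectionVars false
namespace Pool.Agent.H34Z
open Module Matrix Pool.Agent.H53Toric Pool.Agent.H76P

variable {κ : Type*} [Fintype κ] [DecidableEq κ] {K : Type*} [Field K] [CharZero K] {J : Matrix κ κ K} {π : κ → κ}
  {L : Submodule K (Module.End K (κ → K))} {ε : κ → K}

theorem a02_dg (f : κ → K) : dg f = phi (Matrix.diagonal f) := by
  refine LinearMap.ext fun v => funext fun a => ?_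
  rw [phi_apply, dg_apply, Matrix.mulVec_diagonal]

theorem a02_comm (f : κ → K) (i j : κ) : dg f * phi (Matrix.single i j (1 : K)) - phi (Matrix.single i j (1 : K)) * dg f =
    (f i - f j) • phi (Matrix.single i j (1 : K)) := by
  rw [a02_dg, ← map_mul, ← map_mul, ← map_sub, ← map_smul]
  congr 1
  ext a b
  rw [Matrix.sub_apply, Matrix.diagonal_mul, Matrix.mul_diagonal, Matrix.smul_apply, Matrix.single_apply, smul_eq_mul]
  by_cases h : i = a ∧ j = b
  · rw [if_pos h, h.1, h.2]; ring
  · rw [if_neg h]; ring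

theorem a02_trip {i j : κ} (hij : i ≠ j) (h1 : ε i = 1) (h2 : ε j = -1) :
    Trip (phi (Matrix.single i j (1 : K))) (phi (Matrix.single j i (1 : K))) ε (Pi.single i 1 - Pi.single j 1) := by
  refine ⟨?_, ?_, ?_, ?_, ?_⟩
  · rw [a02_comm, h1, h2]; congr 1; norm_num
  · rw [a02_comm, h1, h2]; congr 1; norm_num
  · rw [a02_dg, ← map_mul, ← map_mul, ← map_sub]
    congr 1
    rw [Matrix.single_mul_single_same, Matrix.single_mul_single_same, mul_one]
    ext a b
    rw [Matrix.sub_apply, Matrix.single_apply, Matrix.single_apply, Matrix.diagonal_apply]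
    by_cases hab : a = b
    · subst hab
      simp only [and_self, if_true, Pi.sub_apply, Pi.single_apply, eq_comm]
    · rw [if_neg hab, if_neg (fun h => hab (h.1.symm.trans h.2)), if_neg (fun h => hab (h.1.symm.trans h.2)), sub_zero]
  · rw [a02_comm]
    congr 1
    rw [Pi.sub_apply, Pi.sub_apply, Pi.single_eq_same, Pi.single_eq_same, Pi.single_eq_of_ne hij, Pi.single_eq_of_ne (Ne.symm hij)]
    norm_num
  · rw [a02_comm]
    congr 1
    rw [Pi.sub_apply, Pi.sub_apply, Pi.single_eq_same, Pi.single_eq_same, Pi.single_eq_of_ne hij, Pi.single_eq_of_ne (Ne.symm hij)]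
    norm_num

theorem a02_skew (hJ : Jᵀ = -J) (hdet : IsUnit J.det) (hm : Mon J π) (i : κ) :
    adjE J (phi (Matrix.single i (π i) (1 : K))) = -phi (Matrix.single i (π i) (1 : K)) := by
  rw [skew_iff hdet]
  ext a b
  have hJ' : ∀ x y, J y x = -J x y := fun x y => by
    have := congrFun (congrFun hJ x) y
    rwa [Matrix.transpose_apply, Matrix.neg_apply] at this
  rw [Matrix.transpose_single, Matrix.add_apply, Matrix.zero_apply]
  by_cases ha : a = π i
  · subst ha
    rw [Matrix.single_mul_apply_same, one_mul]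
    by_cases hb : b = π i
    · subst hb
      rw [Matrix.mul_single_apply_same, mul_one, hJ' i (π i)]
      ring
    · rw [Matrix.mul_single_apply_of_ne _ _ _ _ _ hb, hm.zero i b hb, zero_add]
  · rw [Matrix.single_mul_apply_of_ne _ _ _ _ _ ha, zero_add]
    by_cases hb : b = π i
    · subst hb
      rw [Matrix.mul_single_apply_same, mul_one]
      exact hm.col ha
    · rw [Matrix.mul_single_apply_of_ne _ _ _ _ _ hb]

/-- PROOF. `E = phi (Matrix.single i (π i) 1)`, `F = phi (Matrix.single (π i) i 1)`.  They are skew (`skew_iff hdet`):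
`(single i (π i) 1)ᵀ * J` has the only nonzero entry `J i (π i)` at `(π i, π i)` (row `i` of `J` moved to row `π i`, `hm.zero`),
`J * single i (π i) 1` has the only nonzero entry `J (π i) i` at `(π i, π i)` (`hm.col`), and `J (π i) i = -J i (π i)` (`hJ`).
The same for `F` (`i` and `π i` exchanged).  The five relations of `Trip`: write `dg f = phi (Matrix.diagonal f)`, `Matrix.single` products
(`Matrix.single_mul_single_same`); `[dg f, E] = (f i - f (π i)) • E`, `[dg f, F] = (f (π i) - f i) • F`,
`[E, F] = phi (single i i 1 - single (π i) (π i) 1)`.  (`hm.ne_self` is needed for the value `2` of the coroot on `E`.) -/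
theorem cor_s (hJ : Jᵀ = -J) (hdet : IsUnit J.det) (hm : Mon J π) (hL : ∀ X, adjE J X = -X → X ∈ L) {i : κ}
    (h1 : ε i = 1) (h2 : ε (π i) = -1) : Cor L ε (Pi.single i 1 - Pi.single (π i) 1) := by
  refine ⟨_, hL _ (a02_skew hJ hdet hm i), phi (Matrix.single (π i) i (1 : K)), hL _ ?_, a02_trip (Ne.symm (hm.ne_self hJ i)) h1 h2⟩
  have := a02_skew hJ hdet hm (π i)
  rwa [hm.inv] at this

/-- PROOF. `E = phi (Matrix.single i j 1)`, `F = phi (Matrix.single j i 1)`, both of trace zero; the relations of `Trip` as in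
`cor_s` (`i ≠ j` as `1 ≠ -1`). -/
theorem cor_n (hL : ∀ X, LinearMap.trace K (κ → K) X = 0 → X ∈ L) {i j : κ} (h1 : ε i = 1) (h2 : ε j = -1) :
    Cor L ε (Pi.single i 1 - Pi.single j 1) := by
  have hij : i ≠ j := by
    rintro rfl
    rw [h1] at h2
    have h3 : (2 : K) = 0 := by linear_combination h2
    exact two_ne_zero h3
  have htr : ∀ y : Matrix κ κ K, LinearMap.trace K (κ → K) (phi y) = y.trace := by
    intro y
    exact Matrix.trace_toLin'_eq y
  refine ⟨_, hL (phi (Matrix.single i j (1 : K))) ?_, phi (Matrix.single j i (1 : K)), hL _ ?_, a02_trip hij h1 h2⟩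
  · rw [htr, Matrix.trace_single_eq_of_ne i j _ hij]
  · rw [htr, Matrix.trace_single_eq_of_ne j i _ (Ne.symm hij)]

end Pool.Agent.H34Z
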