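import Mathlib

/-!
# A10: generic rational functions
-/

set_option autoImplicit false
set_option linter.unusedSectionVars false
namespace Pool.Agent.H34Z
open Finset

variable {κ : Type*} [Fintype κ] [DecidableEq κ]

/-- PROOF. Let `r k = (Fintype.equivFin κ k : ℕ) + 1`, `N = Fintype.card κ + 1`.  Define `T = {k | k = i₀ ∨ (k ≠ π i₀ ∧ r k < r (π k))}`: for each `k` exactly
one of `k`, `π k` is in `T` (cases; `r` is injective and `π k ≠ k`).  Let `s k = N` if `k = i₀`, `s k = r k` if `k ∈ T`, `k ≠ i₀`, and `f k = s k` for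
`k ∈ T`, `f k = -s (π k)` for `k ∉ T`.  `s` is positive, injective on `T`, with maximum at `i₀`. -/
theorem gen_so {π : κ → κ} (hinv : ∀ i, π (π i) = i) (hne : ∀ i, π i ≠ i) (i₀ : κ) :
    ∃ f : κ → ℚ, Function.Injective f ∧ (∀ i, f (π i) = -f i) ∧ ∀ i, f i ≤ f i₀ := by
  classical
  obtain ⟨r, hr0, hr1, hrN⟩ : ∃ r : κ → ℚ, Function.Injective r ∧ (∀ k, 1 ≤ r k) ∧
      ∀ k, r k < (Fintype.card κ : ℚ) + 1 := by
    refine ⟨fun k => ((Fintype.equivFin κ k : ℕ) : ℚ) + 1, ?_, ?_, ?_⟩
    · intro k l h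
      have h1 : (((Fintype.equivFin κ k : ℕ) : ℚ)) = ((Fintype.equivFin κ l : ℕ) : ℚ) := by
        simp only at h
        linarith
      exact (Fintype.equivFin κ).injective (Fin.ext (by exact_mod_cast h1))
    · intro k
      have : (0 : ℚ) ≤ ((Fintype.equivFin κ k : ℕ) : ℚ) := Nat.cast_nonneg _
      simp only
      linarith
    · intro k
      have : ((Fintype.equivFin κ k : ℕ) : ℚ) < (Fintype.card κ : ℚ) := by
        exact_mod_cast (Fintype.equivFin κ k).2
      simp only
      linarith
  set N : ℚ := (Fintype.card κ : ℚ) + 1 with hN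
  have hN0 : 0 < N := lt_of_lt_of_le (by linarith [hr1 i₀]) (hrN i₀).le
  have hπ : ∀ k l, π k = l → k = π l := fun k l h => by rw [← h, hinv]
  let f : κ → ℚ := fun k => if k = i₀ then N else if k = π i₀ then -N else
    if r k < r (π k) then r k else -r (π k)
  have f0 : f i₀ = N := if_pos rfl
  have f1 : f (π i₀) = -N := by
    change (if π i₀ = i₀ then N else if π i₀ = π i₀ then -N else _) = -N
    rw [if_neg (hne i₀), if_pos rfl]
  have f2 : ∀ k, k ≠ i₀ → k ≠ π i₀ → f k = if r k < r (π k) then r k else -r (π k) := by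
    intro k h1 h2
    change (if k = i₀ then N else if k = π i₀ then -N else _) = _
    rw [if_neg h1, if_neg h2]
  have f3 : ∀ k, k ≠ i₀ → k ≠ π i₀ → f k < N ∧ -N < f k ∧
      ((r k < r (π k) ∧ f k = r k) ∨ (r (π k) < r k ∧ f k = -r (π k))) := by
    intro k h1 h2
    have e := f2 k h1 h2
    have a1 := hr1 k
    have a2 := hrN k
    have a3 := hr1 (π k)
    have a4 := hrN (π k)
    by_cases h : r k < r (π k)
    · rw [if_pos h] at e
      exact ⟨by rw [e]; linarith, by rw [e]; linarith, Or.inl ⟨h, e⟩⟩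
    · rw [if_neg h] at e
      have h' : r (π k) < r k :=
        lt_of_le_of_ne (not_lt.1 h) fun h3 => hne k (hr0 h3)
      exact ⟨by rw [e]; linarith, by rw [e]; linarith, Or.inr ⟨h', e⟩⟩
  refine ⟨f, ?_, ?_, ?_⟩
  · intro k l hkl
    by_cases hk0 : k = i₀
    · by_cases hl0 : l = i₀
      · rw [hk0, hl0]
      · exfalso
        rw [hk0, f0] at hkl
        by_cases hl1 : l = π i₀
        · rw [hl1, f1] at hkl
          linarith
        · have := (f3 l hl0 hl1).1
          linarith
    · by_cases hk1 : k = π i₀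
      · by_cases hl0 : l = i₀
        · exfalso
          rw [hk1, hl0, f0, f1] at hkl
          linarith
        · by_cases hl1 : l = π i₀
          · rw [hk1, hl1]
          · exfalso
            rw [hk1, f1] at hkl
            have := (f3 l hl0 hl1).2.1
            linarith
      · obtain ⟨b1, b2, b3⟩ := f3 k hk0 hk1
        by_cases hl0 : l = i₀
        · exfalso
          rw [hl0, f0] at hkl
          linarith
        · by_cases hl1 : l = π i₀
          · exfalso
            rw [hl1, f1] at hkl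
            linarith
          · obtain ⟨c1, c2, c3⟩ := f3 l hl0 hl1
            have a1 := hr1 k
            have a2 := hr1 (π k)
            have a3 := hr1 l
            have a4 := hr1 (π l)
            rcases b3 with ⟨_, b3⟩ | ⟨_, b3⟩
            · rcases c3 with ⟨_, c3⟩ | ⟨_, c3⟩
              · exact hr0 (by rw [← b3, ← c3, hkl])
              · exfalso
                linarith
            · rcases c3 with ⟨_, c3⟩ | ⟨_, c3⟩
              · exfalso
                linarith
              · have h5 : π k = π l := hr0 (by linarith)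
                rw [← hinv k, h5, hinv]
  · intro k
    by_cases hk0 : k = i₀
    · rw [hk0, f0, f1]
    · by_cases hk1 : k = π i₀
      · rw [hk1, hinv, f0, f1, neg_neg]
      · have h1 : π k ≠ i₀ := fun h => hk1 (hπ k i₀ h)
        have h2 : π k ≠ π i₀ := fun h => hk0 (by rw [← hinv k, h, hinv])
        obtain ⟨-, -, b3⟩ := f3 k hk0 hk1
        obtain ⟨-, -, c3⟩ := f3 (π k) h1 h2
        rw [hinv] at c3
        rcases b3 with ⟨b4, b3⟩ | ⟨b4, b3⟩
        · rcases c3 with ⟨c4, c3⟩ | ⟨c4, c3⟩
          · exact absurd b4 (not_lt.2 c4.le)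
          · rw [c3, b3]
        · rcases c3 with ⟨c4, c3⟩ | ⟨c4, c3⟩
          · rw [c3, b3, neg_neg]
          · exact absurd b4 (not_lt.2 c4.le)
  · intro k
    rw [f0]
    by_cases hk0 : k = i₀
    · rw [hk0, f0]
    · by_cases hk1 : k = π i₀
      · rw [hk1, f1]
        linarith
      · exact (f3 k hk0 hk1).1.le

/-- PROOF. Let `r k = (Fintype.equivFin κ k : ℕ)`, `N = Fintype.card κ`; `f k = -(N + r k)` for `k ≠ i₀`, `f i₀ = ∑ k ≠ i₀, (N + r k)`.
The numbers `N + r k`, `k ≠ i₀`, are positive and different, there are at least two of them, so `f i₀` is greater than each of them. -/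
theorem gen_n (h3 : 3 ≤ Fintype.card κ) (i₀ : κ) :
    ∃ f : κ → ℚ, ∑ i, f i = 0 ∧ (∀ i j, |f i| = |f j| → i = j) ∧ (∀ i, f i ≠ 0) ∧ ∀ i, |f i| ≤ f i₀ := by
  classical
  obtain ⟨r, hr0, hr1⟩ : ∃ r : κ → ℚ, Function.Injective r ∧ ∀ k, 1 ≤ r k := by
    refine ⟨fun k => ((Fintype.equivFin κ k : ℕ) : ℚ) + 1, ?_, ?_⟩
    · intro k l h
      have h1 : (((Fintype.equivFin κ k : ℕ) : ℚ)) = ((Fintype.equivFin κ l : ℕ) : ℚ) := by
        simp only at h
        linarith
      exact (Fintype.equivFin κ).injective (Fin.ext (by exact_mod_cast h1))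
    · intro k
      have : (0 : ℚ) ≤ ((Fintype.equivFin κ k : ℕ) : ℚ) := Nat.cast_nonneg _
      simp only
      linarith
  set S : ℚ := ∑ k ∈ univ.erase i₀, r k with hS
  have hlt : ∀ k, k ≠ i₀ → r k < S := by
    intro k hk
    have hcard : 0 < ((univ.erase i₀).erase k).card := by
      rw [card_erase_of_mem (mem_erase.2 ⟨hk, mem_univ k⟩), card_erase_of_mem (mem_univ i₀),
        card_univ]
      omega
    obtain ⟨j, hj⟩ := card_pos.1 hcard
    have h1 : S = r k + ∑ l ∈ (univ.erase i₀).erase k, r l :=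
      (add_sum_erase _ r (mem_erase.2 ⟨hk, mem_univ k⟩)).symm
    have h2 : r j ≤ ∑ l ∈ (univ.erase i₀).erase k, r l :=
      single_le_sum (f := r) (fun l _ => by linarith [hr1 l]) hj
    linarith [hr1 j]
  have hS0 : 0 < S := by
    have hcard : 0 < (univ.erase i₀).card := by
      rw [card_erase_of_mem (mem_univ i₀), card_univ]
      omega
    obtain ⟨j, hj⟩ := card_pos.1 hcard
    linarith [hlt j (ne_of_mem_erase hj), hr1 j]
  let f : κ → ℚ := fun k => if k = i₀ then S else -r k
  have f0 : f i₀ = S := if_pos rfl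
  have f1 : ∀ k, k ≠ i₀ → f k = -r k := fun k hk => if_neg hk
  have g0 : |f i₀| = S := by rw [f0, abs_of_pos hS0]
  have g1 : ∀ k, k ≠ i₀ → |f k| = r k := fun k hk => by
    rw [f1 k hk, abs_neg, abs_of_pos (by linarith [hr1 k])]
  refine ⟨f, ?_, ?_, ?_, ?_⟩
  · rw [← add_sum_erase _ f (mem_univ i₀), f0]
    have h1 : ∑ k ∈ univ.erase i₀, f k = -S := by
      rw [hS, ← sum_neg_distrib]
      exact sum_congr rfl fun k hk => f1 k (ne_of_mem_erase hk)
    rw [h1, add_neg_cancel]
  · intro i j hij
    by_cases hi : i = i₀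
    · by_cases hj : j = i₀
      · rw [hi, hj]
      · exfalso
        rw [hi, g0, g1 j hj] at hij
        linarith [hlt j hj]
    · by_cases hj : j = i₀
      · exfalso
        rw [hj, g0, g1 i hi] at hij
        linarith [hlt i hi]
      · rw [g1 i hi, g1 j hj] at hij
        exact hr0 hij
  · intro i hi
    by_cases h : i = i₀
    · rw [h, f0] at hi
      linarith
    · rw [f1 i h] at hi
      linarith [hr1 i]
  · intro i
    rw [f0]
    by_cases h : i = i₀
    · rw [h, g0]
    · rw [g1 i h]
      exact (hlt i h).le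

/-- PROOF. Let `j₀` be the other element (`Fintype.card_eq_two` or `Finset.card_eq_two` for `univ`); `f i₀ = 1`, `f j₀ = -1`. -/
theorem gen_two (h2 : Fintype.card κ = 2) (i₀ : κ) :
    ∃ f : κ → ℚ, ∑ i, f i = 0 ∧ Function.Injective f ∧ ∀ i, f i ≤ f i₀ := by
  classical
  have hcard : (univ.erase i₀).card = 1 := by
    rw [card_erase_of_mem (mem_univ i₀), card_univ]
    omega
  obtain ⟨j₀, hj₀⟩ := card_eq_one.1 hcard
  have hj : ∀ k, k ≠ i₀ → k = j₀ := by
    intro k hk
    have h1 : k ∈ univ.erase i₀ := mem_erase.2 ⟨hk, mem_univ k⟩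
    rw [hj₀, mem_singleton] at h1
    exact h1
  refine ⟨fun k => if k = i₀ then 1 else -1, ?_, ?_, ?_⟩
  · rw [← add_sum_erase _ _ (mem_univ i₀), hj₀, sum_singleton, if_pos rfl, if_neg]
    · ring
    · have h1 : j₀ ∈ univ.erase i₀ := by
        rw [hj₀]
        exact mem_singleton_self j₀
      exact ne_of_mem_erase h1
  · intro k l h
    simp only at h
    by_cases hk : k = i₀
    · by_cases hl : l = i₀
      · rw [hk, hl]
      · rw [if_pos hk, if_neg hl] at h
        norm_num at h
    · by_cases hl : l = i₀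
      · rw [if_neg hk, if_pos hl] at h
        norm_num at h
      · rw [hj k hk, hj l hl]
  · intro k
    by_cases hk : k = i₀
    · rw [hk]
    · simp only
      rw [if_neg hk, if_pos trivial]
      norm_num

end Pool.Agent.H34Z
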