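import Pool.Agent.Lib.H34Z.GD
import Pool.Agent.Lib.H76U.SL

/-!
# G02: unipotent elements, the derived group of the Levi subgroup
-/

set_option autoImplicit false
set_option linter.unusedSectionVars false
namespace Pool.Agent.H34Z
open Matrix

variable {m : Type*} [Fintype m] [DecidableEq m] {K : Type*} [Field K] [CharZero K] {Z : Set (Matrix (m ⊕ m) (m ⊕ m) K)}

/-- PROOF. `N = fromBlocks 0 b 0 0`: `N * N = 0`, `Nᵀ * J0 + J0 * N = fromBlocks 0 0 0 (bᵀ + b) = 0` (`Matrix.fromBlocks_multiply`,
`Matrix.fromBlocks_transpose`), `1 + N = up b`. -/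
theorem up_mem (hZ : Zs (J0 m K) Z) {b : Matrix m m K} (hb : bᵀ = -b) : up b ∈ Z := by
  have hN : (Matrix.fromBlocks 0 b 0 0 : Matrix (m ⊕ m) (m ⊕ m) K) * Matrix.fromBlocks 0 b 0 0 = 0 := by
    rw [Matrix.fromBlocks_multiply]
    simp only [Matrix.mul_zero, Matrix.zero_mul, add_zero]
    exact Matrix.fromBlocks_zero
  have h2 : (Matrix.fromBlocks 0 b 0 0 : Matrix (m ⊕ m) (m ⊕ m) K)ᵀ * J0 m K + J0 m K * Matrix.fromBlocks 0 b 0 0 = 0 := by
    unfold J0
    rw [Matrix.fromBlocks_transpose, Matrix.fromBlocks_multiply, Matrix.fromBlocks_multiply, Matrix.fromBlocks_add, hb]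
    simp only [Matrix.mul_zero, Matrix.zero_mul, add_zero, zero_add, Matrix.mul_one, Matrix.one_mul, Matrix.transpose_zero,
      neg_add_cancel]
    exact Matrix.fromBlocks_zero
  have h3 := hZ.exp _ hN h2
  have h4 : 1 + (Matrix.fromBlocks 0 b 0 0 : Matrix (m ⊕ m) (m ⊕ m) K) = up b := by
    unfold up
    rw [← Matrix.fromBlocks_one, Matrix.fromBlocks_add]
    simp only [add_zero, zero_add]
  rw [h4] at h3
  exact h3

/-- PROOF. As `up_mem`. -/
theorem lo_mem (hZ : Zs (J0 m K) Z) {c : Matrix m m K} (hc : cᵀ = -c) : lo c ∈ Z := by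
  have hN : (Matrix.fromBlocks 0 0 c 0 : Matrix (m ⊕ m) (m ⊕ m) K) * Matrix.fromBlocks 0 0 c 0 = 0 := by
    rw [Matrix.fromBlocks_multiply]
    simp only [Matrix.mul_zero, Matrix.zero_mul, add_zero]
    exact Matrix.fromBlocks_zero
  have h2 : (Matrix.fromBlocks 0 0 c 0 : Matrix (m ⊕ m) (m ⊕ m) K)ᵀ * J0 m K + J0 m K * Matrix.fromBlocks 0 0 c 0 = 0 := by
    unfold J0
    rw [Matrix.fromBlocks_transpose, Matrix.fromBlocks_multiply, Matrix.fromBlocks_multiply, Matrix.fromBlocks_add, hc]
    simp only [Matrix.mul_zero, Matrix.zero_mul, add_zero, zero_add, Matrix.mul_one, Matrix.one_mul, Matrix.transpose_zero,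
      neg_add_cancel]
    exact Matrix.fromBlocks_zero
  have h3 := hZ.exp _ hN h2
  have h4 : 1 + (Matrix.fromBlocks 0 0 c 0 : Matrix (m ⊕ m) (m ⊕ m) K) = lo c := by
    unfold lo
    rw [← Matrix.fromBlocks_one, Matrix.fromBlocks_add]
    simp only [add_zero, zero_add]
  rw [h4] at h3
  exact h3

theorem lv_mul (a b : Matrix m m K) : lv (a * b) = lv a * lv b := by
  unfold lv
  rw [Matrix.fromBlocks_multiply, Matrix.mul_inv_rev, Matrix.transpose_mul]
  simp only [Matrix.mul_zero, Matrix.zero_mul, add_zero, zero_add]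

theorem lv_one : lv (1 : Matrix m m K) = 1 := by
  unfold lv
  rw [inv_one, Matrix.transpose_one, Matrix.fromBlocks_one]

/-- PROOF. `H76U.sl_gen` for the set `{a | lv a ∈ Z}` (`lv_one`, `lv_mul`).  `lv (transvection i j c) = 1 + N` with
`N = fromBlocks (single i j c) 0 0 (-(single j i c))` (`(transvection i j c)⁻¹ = transvection i j (-c)`, `Matrix.inv_eq_right_inv`,
`Matrix.transvection_mul_transvection_same`), `N * N = 0` (`i ≠ j`), `Nᵀ * J0 + J0 * N = 0`. -/
theorem lv_sl (hZ : Zs (J0 m K) Z) {a : Matrix m m K} (ha : a.det = 1) : lv a ∈ Z := by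
  refine H76U.sl_gen (Z := {a : Matrix m m K | lv a ∈ Z}) ?_ ?_ ?_ ha
  · show lv 1 ∈ Z
    rw [lv_one]
    exact hZ.one
  · intro a ha b hb
    show lv (a * b) ∈ Z
    rw [lv_mul]
    exact hZ.mul _ ha _ hb
  · intro i j hij c
    show lv (transvection i j c) ∈ Z
    have hinv : (transvection i j c)⁻¹ = transvection i j (-c) := by
      refine Matrix.inv_eq_right_inv ?_
      rw [Matrix.transvection_mul_transvection_same _ _ hij, add_neg_cancel, Matrix.transvection_zero]
    have hs : single i j c * single i j c = (0 : Matrix m m K) := Matrix.single_mul_single_of_ne _ _ _ _ hij.symm _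
    have hs' : single j i (-c) * single j i (-c) = (0 : Matrix m m K) := Matrix.single_mul_single_of_ne _ _ _ _ hij _
    have hN : (Matrix.fromBlocks (single i j c) 0 0 (single j i (-c)) : Matrix (m ⊕ m) (m ⊕ m) K) *
        Matrix.fromBlocks (single i j c) 0 0 (single j i (-c)) = 0 := by
      rw [Matrix.fromBlocks_multiply, hs, hs']
      simp only [Matrix.mul_zero, Matrix.zero_mul, add_zero]
      exact Matrix.fromBlocks_zero
    have h5 : single j i c + single j i (-c) = (0 : Matrix m m K) := by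
      rw [← Matrix.single_add, add_neg_cancel, Matrix.single_zero]
    have h6 : single i j (-c) + single i j c = (0 : Matrix m m K) := by
      rw [← Matrix.single_add, neg_add_cancel, Matrix.single_zero]
    have h2 : (Matrix.fromBlocks (single i j c) 0 0 (single j i (-c)) : Matrix (m ⊕ m) (m ⊕ m) K)ᵀ * J0 m K +
        J0 m K * Matrix.fromBlocks (single i j c) 0 0 (single j i (-c)) = 0 := by
      unfold J0
      rw [Matrix.fromBlocks_transpose, Matrix.fromBlocks_multiply, Matrix.fromBlocks_multiply, Matrix.fromBlocks_add]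
      simp only [Matrix.mul_zero, Matrix.zero_mul, add_zero, zero_add, Matrix.mul_one, Matrix.one_mul, Matrix.transpose_zero,
        Matrix.transpose_single]
      rw [h5, h6]
      exact Matrix.fromBlocks_zero
    have h3 := hZ.exp _ hN h2
    have h4 : 1 + (Matrix.fromBlocks (single i j c) 0 0 (single j i (-c)) : Matrix (m ⊕ m) (m ⊕ m) K) = lv (transvection i j c) := by
      unfold lv
      rw [hinv, ← Matrix.fromBlocks_one, Matrix.fromBlocks_add]
      unfold transvection
      simp only [add_zero, Matrix.transpose_add, Matrix.transpose_one, Matrix.transpose_single]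
    rw [h4] at h3
    exact h3

end Pool.Agent.H34Z
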