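import Pool.Agent.Lib.H34Z.G02

/-!
# G03: the Levi subgroup, double swaps
-/

set_option autoImplicit false
set_option linter.unusedSectionVars false
namespace Pool.Agent.H34Z
open Matrix

variable {m : Type*} [Fintype m] [DecidableEq m] {K : Type*} [Field K] [CharZero K] {Z : Set (Matrix (m ⊕ m) (m ⊕ m) K)}

/-- the projection onto two coordinates -/
theorem g03_bb {i j : m} (hij : i ≠ j) :
    (single i j (1 : K) - single j i 1) * (single i j (1 : K) - single j i 1) = -(single i i 1 + single j j 1) := by
  rw [sub_mul, mul_sub, mul_sub, single_mul_single_of_ne _ _ _ _ (Ne.symm hij), single_mul_single_same, single_mul_single_same,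
    single_mul_single_of_ne _ _ _ _ hij]
  simp only [mul_one]
  abel

theorem g03_Pb {i j : m} (hij : i ≠ j) :
    (single i i (1 : K) + single j j 1) * (single i j (1 : K) - single j i 1) = single i j 1 - single j i 1 := by
  rw [add_mul, mul_sub, mul_sub, single_mul_single_same, single_mul_single_of_ne _ _ _ _ hij, single_mul_single_of_ne _ _ _ _ (Ne.symm hij),
    single_mul_single_same]
  simp only [mul_one]
  abel

theorem g03_bP {i j : m} (hij : i ≠ j) :
    (single i j (1 : K) - single j i 1) * (single i i (1 : K) + single j j 1) = single i j 1 - single j i 1 := by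
  rw [sub_mul, mul_add, mul_add, single_mul_single_same, single_mul_single_of_ne _ _ _ _ hij, single_mul_single_of_ne _ _ _ _ (Ne.symm hij),
    single_mul_single_same]
  simp only [mul_one]
  abel

theorem g03_PP {i j : m} (hij : i ≠ j) :
    (single i i (1 : K) + single j j 1) * (single i i (1 : K) + single j j 1) = single i i 1 + single j j 1 := by
  rw [add_mul, mul_add, mul_add, single_mul_single_same, single_mul_single_of_ne _ _ _ _ hij, single_mul_single_of_ne _ _ _ _ (Ne.symm hij),
    single_mul_single_same]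
  simp only [mul_one]
  abel

theorem g03_bT {i j : m} : (single i j (1 : K) - single j i 1)ᵀ = -(single i j (1 : K) - single j i 1) := by
  rw [transpose_sub, transpose_single, transpose_single]
  abel

theorem g03_PT {i j : m} : (single i i (1 : K) + single j j 1)ᵀ = single i i (1 : K) + single j j 1 := by
  rw [transpose_add, transpose_single, transpose_single]

theorem g03_Pdiag {i j : m} (hij : i ≠ j) (x y : K) :
    x • (1 - (single i i (1 : K) + single j j 1)) + y • (single i i (1 : K) + single j j 1) =
      Matrix.diagonal fun k => if k ∈ ({i, j} : Finset m) then y else x := by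
  ext k l
  by_cases hkl : k = l
  · subst hkl
    by_cases h1 : k = i
    · subst h1
      simp [Matrix.single, hij, Ne.symm hij]
    · by_cases h2 : k = j
      · subst h2
        simp [Matrix.single, hij, Ne.symm hij]
      · simp [Matrix.single, h1, h2, Ne.symm h1, Ne.symm h2]
  · have e1 : ¬ (i = k ∧ i = l) := fun h => hkl (h.1.symm.trans h.2)
    have e2 : ¬ (j = k ∧ j = l) := fun h => hkl (h.1.symm.trans h.2)
    simp [Matrix.single, hkl, e1, e2]

/-- Notation: `b = single i j 1 - single j i 1`, `P = single i i 1 + single j j 1`: `b * b = -P`, `P * b = b = b * P`, `P * P = P`, `bᵀ = -b`.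
PROOF. Multiply the blocks: `up (c • b) * lo (c⁻¹ • b) * up (c • b) = fromBlocks (1 - P) (c • b) (c⁻¹ • b) (1 - P)`. -/
theorem weyl_mem (hZ : Zs (J0 m K) Z) {i j : m} (hij : i ≠ j) {c : K} (hc : c ≠ 0) :
    Matrix.fromBlocks (1 - (single i i 1 + single j j 1)) (c • (single i j 1 - single j i 1))
      (c⁻¹ • (single i j 1 - single j i 1)) (1 - (single i i 1 + single j j 1)) ∈ Z := by
  have h1 : up (c • (single i j (1 : K) - single j i 1)) ∈ Z := up_mem hZ (by rw [transpose_smul, g03_bT, smul_neg])
  have h2 : lo (c⁻¹ • (single i j (1 : K) - single j i 1)) ∈ Z := lo_mem hZ (by rw [transpose_smul, g03_bT, smul_neg])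
  have h3 := hZ.mul _ (hZ.mul _ h1 _ h2) _ h1
  have e : up (c • (single i j (1 : K) - single j i 1)) * lo (c⁻¹ • (single i j (1 : K) - single j i 1)) * up (c • (single i j (1 : K) - single j i 1)) =
      Matrix.fromBlocks (1 - (single i i 1 + single j j 1)) (c • (single i j 1 - single j i 1))
      (c⁻¹ • (single i j 1 - single j i 1)) (1 - (single i i 1 + single j j 1)) := by
    set P : Matrix m m K := single i i 1 + single j j 1 with hP
    set b : Matrix m m K := single i j 1 - single j i 1 with hb
    have hbb : b * b = -P := g03_bb hij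
    have hPb : P * b = b := g03_Pb hij
    unfold up lo
    rw [fromBlocks_multiply, fromBlocks_multiply]
    simp only [one_mul, mul_one, mul_zero, zero_add, add_zero, smul_mul_assoc, mul_smul_comm, add_mul, hbb, smul_neg,
      smul_smul, mul_inv_cancel₀ hc, inv_mul_cancel₀ hc, one_smul, neg_mul, hPb]
    congr 1
    · module
    · module
    · module
  rw [e] at h3
  exact h3

/-- PROOF. `W(c)` denotes the matrix of `weyl_mem`.  `W(s) * W(-1) = fromBlocks (1 - P + s • P) 0 0 (1 - P + s⁻¹ • P)`, and this is
`lv (1 - P + s • P)` (`(1 - P + s • P) * (1 - P + s⁻¹ • P) = 1`, both symmetric). -/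
theorem lv_two (hZ : Zs (J0 m K) Z) {i j : m} (hij : i ≠ j) {s : K} (hs : s ≠ 0) :
    lv (1 - (single i i 1 + single j j 1) + s • (single i i 1 + single j j 1)) ∈ Z := by
  have h1 := weyl_mem hZ hij hs
  have h2 := weyl_mem hZ hij (neg_ne_zero.mpr (one_ne_zero (α := K)))
  have h3 := hZ.mul _ h1 _ h2
  have hinv : (1 - (single i i 1 + single j j 1) + s • (single i i (1 : K) + single j j 1))⁻¹ =
      1 - (single i i 1 + single j j 1) + s⁻¹ • (single i i (1 : K) + single j j 1) := by
    refine Matrix.inv_eq_right_inv ?_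
    have e := g03_PP (K := K) hij
    set P : Matrix m m K := single i i 1 + single j j 1 with hP
    have e1 : (s • P) * (s⁻¹ • P) = P := by rw [smul_mul_smul_comm, mul_inv_cancel₀ hs, one_smul, e]
    have e2 : P * (s⁻¹ • P) = s⁻¹ • P := by rw [mul_smul_comm, e]
    have e3 : (s • P) * P = s • P := by rw [smul_mul_assoc, e]
    simp only [add_mul, sub_mul, mul_add, mul_sub, one_mul, mul_one, e, e1, e2, e3]
    abel
  have e : Matrix.fromBlocks (1 - (single i i 1 + single j j 1)) (s • (single i j (1 : K) - single j i 1))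
      (s⁻¹ • (single i j 1 - single j i 1)) (1 - (single i i 1 + single j j 1)) *
      Matrix.fromBlocks (1 - (single i i 1 + single j j 1)) ((-1 : K) • (single i j 1 - single j i 1))
      ((-1 : K)⁻¹ • (single i j 1 - single j i 1)) (1 - (single i i 1 + single j j 1)) =
      lv (1 - (single i i 1 + single j j 1) + s • (single i i (1 : K) + single j j 1)) := by
    unfold lv
    rw [hinv, fromBlocks_multiply, transpose_add, transpose_smul, transpose_sub, g03_PT, transpose_one]
    set P : Matrix m m K := single i i 1 + single j j 1 with hP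
    set b : Matrix m m K := single i j 1 - single j i 1 with hb
    have hbb : b * b = -P := g03_bb hij
    have hPb : P * b = b := g03_Pb hij
    have hbP : b * P = b := g03_bP hij
    have hPP : P * P = P := g03_PP hij
    have hn : ((-1 : K))⁻¹ = -1 := by norm_num
    rw [hn]
    simp only [neg_smul, one_smul, mul_neg, smul_mul_assoc, sub_mul, mul_sub, one_mul, mul_one, hbb, hPb, hbP, hPP, smul_neg, neg_neg]
    congr 1
    · abel
    · abel
    · abel
    · abel
  rw [e] at h3
  exact h3

/-- PROOF. Let `t = a.det`, `s ^ 2 = t` (`IsAlgClosed.exists_pow_nat_eq`), `D = 1 - P + s • P`; `D.det = s ^ 2 = t` (`D` is diagonal with the entries `s, s` at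
`i, j` and `1` elsewhere: `Matrix.det_diagonal`, `Finset.prod_ite` or `Finset.prod_pair`).  `a' = D⁻¹ * a` has determinant `1`, and
`lv a = lv D * lv a' ∈ Z` (`lv_mul`, `lv_two`, `lv_sl`). -/
theorem lv_gl [IsAlgClosed K] (hZ : Zs (J0 m K) Z) (h2 : 2 ≤ Fintype.card m) {a : Matrix m m K} (ha : a.det ≠ 0) :
    lv a ∈ Z := by
  obtain ⟨i, j, hij⟩ := Fintype.exists_pair_of_one_lt_card (α := m) (by omega)
  obtain ⟨s, hs⟩ := IsAlgClosed.exists_pow_nat_eq a.det (n := 2) (by norm_num)
  have hs0 : s ≠ 0 := by
    rintro rfl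
    apply ha
    rw [← hs]
    norm_num
  set D : Matrix m m K := 1 - (single i i 1 + single j j 1) + s • (single i i (1 : K) + single j j 1) with hD
  have hDd : D = Matrix.diagonal fun k => if k ∈ ({i, j} : Finset m) then s else 1 := by
    rw [hD, ← g03_Pdiag hij, one_smul]
  have hDet : D.det = a.det := by
    rw [hDd, Matrix.det_diagonal, ← hs, Finset.prod_ite_mem, Finset.univ_inter, Finset.prod_pair hij, sq]
  have hu : IsUnit D.det := by rw [hDet]; exact isUnit_iff_ne_zero.mpr ha
  have h1 : (D⁻¹ * a).det = 1 := by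
    rw [Matrix.det_mul, Matrix.det_nonsing_inv, Ring.inverse_eq_inv', hDet, inv_mul_cancel₀ ha]
  have h2' : a = D * (D⁻¹ * a) := by
    rw [← Matrix.mul_assoc, Matrix.mul_nonsing_inv _ hu, Matrix.one_mul]
  rw [h2', lv_mul]
  exact hZ.mul _ (lv_two hZ hij hs0) _ (lv_sl hZ h1)

/-- PROOF. `W(1) * lv a` with `a = 1 - P - b`, `aᵀ = 1 - P + b`, `a * aᵀ = 1`, so `(a⁻¹)ᵀ = a`; `W(1) * lv a = fromBlocks ((1 - P) a) (b a) (b a) ((1 - P) a)`,
`(1 - P) a = 1 - P`, `b a = -b b = P`. -/
theorem sw_pair [IsAlgClosed K] (hZ : Zs (J0 m K) Z) (h2 : 2 ≤ Fintype.card m) {i j : m} (hij : i ≠ j) :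
    sw K ({i, j} : Finset m) ∈ Z := by
  have h1 := weyl_mem hZ hij (one_ne_zero (α := K))
  set P : Matrix m m K := single i i 1 + single j j 1 with hP
  set b : Matrix m m K := single i j 1 - single j i 1 with hb
  have hbb : b * b = -P := g03_bb hij
  have hPb : P * b = b := g03_Pb hij
  have hbP : b * P = b := g03_bP hij
  have hPP : P * P = P := g03_PP hij
  have hbT : bᵀ = -b := g03_bT
  have hPT : Pᵀ = P := g03_PT
  have haa : (1 - P - b) * (1 - P + b) = 1 := by
    simp only [sub_mul, mul_add, mul_sub, one_mul, mul_one, hbb, hPb, hbP, hPP]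
    abel
  have hdet : (1 - P - b).det ≠ 0 := by
    intro h
    have := congrArg Matrix.det haa
    rw [Matrix.det_mul, h, zero_mul, Matrix.det_one] at this
    exact zero_ne_one this
  have hinv : ((1 - P - b)⁻¹)ᵀ = 1 - P - b := by
    rw [Matrix.inv_eq_right_inv haa, transpose_add, transpose_sub, transpose_one, hPT, hbT]
    abel
  have h2 := hZ.mul _ h1 _ (lv_gl hZ h2 hdet)
  have e : Matrix.fromBlocks (1 - P) ((1 : K) • b) ((1 : K)⁻¹ • b) (1 - P) * lv (1 - P - b) = sw K ({i, j} : Finset m) := by
    unfold lv sw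
    rw [hinv, fromBlocks_multiply, inv_one, one_smul]
    have e1 := g03_Pdiag hij (1 : K) 0
    have e2 := g03_Pdiag hij (0 : K) 1
    rw [one_smul, zero_smul, add_zero] at e1
    rw [one_smul, zero_smul, zero_add] at e2
    rw [← e1, ← e2, ← hP]
    simp only [mul_zero, add_zero, zero_add, sub_mul, mul_sub, one_mul, mul_one, hbb, hPb, hbP, hPP]
    congr 1
    · abel
    · abel
    · abel
    · abel
  rw [e] at h2
  exact h2

end Pool.Agent.H34Z
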