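import Pool.Agent.Lib.H34Z.G03

/-!
# G05: swaps
-/

set_option autoImplicit false
set_option linter.unusedSectionVars false
namespace Pool.Agent.H34Z
open Matrix

variable {m : Type*} [Fintype m] [DecidableEq m] {K : Type*} [Field K] [CharZero K] {Z : Set (Matrix (m ⊕ m) (m ⊕ m) K)}

/-- PROOF. Multiply the blocks, `Matrix.diagonal_mul_diagonal`; compare entries for `k` in and outside `T`, `T'`. -/
theorem sw_mul {T T' : Finset m} (h : Disjoint T T') : sw K T * sw K T' = sw K (T ∪ T') := by
  have h1 : ∀ k, k ∈ T → k ∉ T' := fun k hk hk' => Finset.disjoint_left.1 h hk hk'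
  unfold sw
  rw [fromBlocks_multiply]
  simp only [diagonal_mul_diagonal, diagonal_add]
  congr 1
  · congr 1
    funext k
    by_cases hk : k ∈ T
    · simp [hk, h1 k hk]
    · simp [hk]
  · congr 1
    funext k
    by_cases hk : k ∈ T
    · simp [hk, h1 k hk]
    · simp [hk]
  · congr 1
    funext k
    by_cases hk : k ∈ T
    · simp [hk, h1 k hk]
    · simp [hk]
  · congr 1
    funext k
    by_cases hk : k ∈ T
    · simp [hk, h1 k hk]
    · simp [hk]

theorem sw_sq (T : Finset m) : sw K T * sw K T = 1 := by
  unfold sw
  rw [fromBlocks_multiply]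
  simp only [diagonal_mul_diagonal, diagonal_add]
  rw [← fromBlocks_one]
  congr 1
  · rw [← diagonal_one]
    congr 1
    funext k
    by_cases hk : k ∈ T <;> simp [hk]
  · rw [← diagonal_zero]
    congr 1
    funext k
    by_cases hk : k ∈ T <;> simp [hk]
  · rw [← diagonal_zero]
    congr 1
    funext k
    by_cases hk : k ∈ T <;> simp [hk]
  · rw [← diagonal_one]
    congr 1
    funext k
    by_cases hk : k ∈ T <;> simp [hk]

theorem sw_form (T : Finset m) : (sw K T)ᵀ * J0 m K * sw K T = J0 m K := by
  unfold sw J0
  rw [fromBlocks_transpose, fromBlocks_multiply, fromBlocks_multiply]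
  simp only [diagonal_transpose, Matrix.mul_zero, Matrix.mul_one, zero_add, add_zero,
    diagonal_mul_diagonal, diagonal_add]
  congr 1
  · rw [← diagonal_zero]
    congr 1
    funext k
    by_cases hk : k ∈ T <;> simp [hk]
  · rw [← diagonal_one]
    congr 1
    funext k
    by_cases hk : k ∈ T <;> simp [hk]
  · rw [← diagonal_one]
    congr 1
    funext k
    by_cases hk : k ∈ T <;> simp [hk]
  · rw [← diagonal_zero]
    congr 1
    funext k
    by_cases hk : k ∈ T <;> simp [hk]

/-- PROOF. Induction on `T` with `sw_mul` and `det (sw K {i}) = -1`: `sw K {i}` is the matrix of the transposition of `inl i` and `inr i`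
(`Matrix.det_permutation`, `Equiv.Perm.sign_swap`; or use `Matrix.det_fromBlocks₁₁` after a column operation). -/
theorem sw_det (T : Finset m) : (sw K T).det = (-1) ^ T.card := by
  have h1 : (fromBlocks (1 : Matrix m m K) (0 : Matrix m m K) (1 : Matrix m m K) (1 : Matrix m m K)).det = 1 := by
    rw [det_fromBlocks_zero₁₂, det_one, mul_one]
  have h2 : sw K T * fromBlocks (1 : Matrix m m K) (0 : Matrix m m K) (1 : Matrix m m K) (1 : Matrix m m K) =
      fromBlocks 1 (Matrix.diagonal fun k => if k ∈ T then 1 else 0) 1
        (Matrix.diagonal fun k => if k ∈ T then 0 else 1) := by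
    unfold sw
    rw [fromBlocks_multiply]
    simp only [Matrix.mul_zero, Matrix.mul_one, zero_add, diagonal_add]
    congr 1
    · rw [← diagonal_one]
      congr 1
      funext k
      by_cases hk : k ∈ T <;> simp [hk]
    · rw [← diagonal_one]
      congr 1
      funext k
      by_cases hk : k ∈ T <;> simp [hk]
  have h3 := congrArg Matrix.det h2
  rw [det_mul, h1, mul_one, det_fromBlocks_one₁₁, Matrix.one_mul, diagonal_sub, det_diagonal] at h3
  rw [h3]
  have h4 : ∀ k, ((if k ∈ T then (0 : K) else 1) - if k ∈ T then 1 else 0) =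
      if k ∈ T then (-1 : K) else 1 := by
    intro k
    by_cases hk : k ∈ T <;> simp [hk]
  rw [Finset.prod_congr rfl fun k _ => h4 k, Finset.prod_ite_mem, Finset.univ_inter,
    Finset.prod_const]

/-- PROOF. Strong induction on `T.card`: if `T` is not empty it has two different elements `i`, `j` (even), `T = {i, j} ∪ T'`, `sw_mul`, `sw_pair`. -/
theorem sw_even [IsAlgClosed K] (hZ : Zs (J0 m K) Z) (h2 : 2 ≤ Fintype.card m) {T : Finset m} (hT : Even T.card) : sw K T ∈ Z := by
  obtain ⟨n, hn⟩ : ∃ n, T.card = n := ⟨_, rfl⟩
  induction n using Nat.strong_induction_on generalizing T with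
  | _ n ih =>
    rcases T.eq_empty_or_nonempty with h0 | ⟨i, hi⟩
    · have h3 : sw K (∅ : Finset m) = 1 := by
        unfold sw
        simp
      rw [h0, h3]
      exact hZ.one
    · have h4 : 0 < T.card := Finset.card_pos.2 ⟨i, hi⟩
      have h5 : (T.erase i).card = T.card - 1 := Finset.card_erase_of_mem hi
      have h6 : 0 < (T.erase i).card := by
        obtain ⟨r, hr⟩ := hT
        omega
      obtain ⟨j, hj⟩ := Finset.card_pos.1 h6
      have h7 : ((T.erase i).erase j).card = (T.erase i).card - 1 := Finset.card_erase_of_mem hj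
      have hij : i ≠ j := fun h => (Finset.mem_erase.1 hj).1 h.symm
      have h8 : T = {i, j} ∪ (T.erase i).erase j := by
        ext k
        simp only [Finset.mem_union, Finset.mem_insert, Finset.mem_singleton, Finset.mem_erase]
        constructor
        · intro hk
          by_cases h9 : k = i
          · exact Or.inl (Or.inl h9)
          · by_cases h10 : k = j
            · exact Or.inl (Or.inr h10)
            · exact Or.inr ⟨h10, h9, hk⟩
        · rintro ((h9 | h9) | ⟨_, _, h9⟩)
          · rw [h9]
            exact hi
          · rw [h9]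
            exact (Finset.mem_erase.1 hj).2
          · exact h9
      have h9 : Disjoint ({i, j} : Finset m) ((T.erase i).erase j) := by
        rw [Finset.disjoint_left]
        intro k hk hk'
        rw [Finset.mem_insert, Finset.mem_singleton] at hk
        rw [Finset.mem_erase, Finset.mem_erase] at hk'
        rcases hk with hk | hk
        · exact hk'.2.1 hk
        · exact hk'.1 hk
      have h10 : sw K ((T.erase i).erase j) ∈ Z := by
        refine ih _ ?_ ?_ rfl
        · omega
        · obtain ⟨r, hr⟩ := hT
          exact ⟨r - 1, by omega⟩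
      rw [h8, ← sw_mul h9]
      exact hZ.mul _ (sw_pair hZ h2 hij) _ h10

end Pool.Agent.H34Z
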