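import Mathlib

/-!
# GD: definitions for the generation of the classical groups by the elements 1 + N, N of square zero
-/

set_option autoImplicit false
set_option linter.unusedSectionVars false
namespace Pool.Agent.H34Z
open Matrix

/-- A set of matrices closed under products, which contains `1 + N` for all `N` of square zero which are skew for `J`. -/
structure Zs {κ : Type*} [Fintype κ] [DecidableEq κ] {K : Type*} [Field K] (J : Matrix κ κ K) (Z : Set (Matrix κ κ K)) : Prop where
  one : (1 : Matrix κ κ K) ∈ Z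
  mul : ∀ a ∈ Z, ∀ b ∈ Z, a * b ∈ Z
  exp : ∀ N : Matrix κ κ K, N * N = 0 → Nᵀ * J + J * N = 0 → 1 + N ∈ Z

variable (m : Type*) [Fintype m] [DecidableEq m] (K : Type*) [Field K]

/-- The standard symmetric form on `K ^ (m ⊕ m)`. -/
def J0 : Matrix (m ⊕ m) (m ⊕ m) K := Matrix.fromBlocks 0 1 1 0

variable {m K}

/-- The element of the Levi subgroup. -/
noncomputable def lv (a : Matrix m m K) : Matrix (m ⊕ m) (m ⊕ m) K := Matrix.fromBlocks a 0 0 (a⁻¹)ᵀ

/-- upper unipotent element -/
def up (b : Matrix m m K) : Matrix (m ⊕ m) (m ⊕ m) K := Matrix.fromBlocks 1 b 0 1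

/-- lower unipotent element -/
def lo (c : Matrix m m K) : Matrix (m ⊕ m) (m ⊕ m) K := Matrix.fromBlocks 1 0 c 1

/-- The element which exchanges the basis vectors `inl k` and `inr k` for `k ∈ T`. -/
def sw (K : Type*) [Field K] (T : Finset m) : Matrix (m ⊕ m) (m ⊕ m) K :=
  Matrix.fromBlocks (Matrix.diagonal fun k => if k ∈ T then 0 else 1) (Matrix.diagonal fun k => if k ∈ T then 1 else 0)
    (Matrix.diagonal fun k => if k ∈ T then 1 else 0) (Matrix.diagonal fun k => if k ∈ T then 0 else 1)

end Pool.Agent.H34Z
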