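import Pool.Agent.Lib.H76U.Final4
import Pool.Agent.Lib.H76Y.AS2

/-!
# H01: the monodromy group is contained in the group of the similitudes with the determinant conditions
-/

set_option autoImplicit false
set_option linter.unusedSectionVars false
namespace Pool.Agent.H34Z
open Module Matrix Pool.Agent.H53Toric
open Pool.Agent.H76RM (zar_commute comm_span spanK)
open Pool.Agent.H76Y (balGrp)
open Pool.Agent.H76P (properProj)

variable {ι : Type*} [Fintype ι] [DecidableEq ι]

/-- PROOF. As the inclusion `≤` in `H76U.monodromy_type` (H76U/Final4.lean, the part after `ext x; constructor`), with `𝓗 = properProj K ρ` and the conclusion of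
`char_zar` only for `a = Pi.single b 1`, `a₀ = -((e b).rank / 2)` (see `H76Y.typeGrp_eq` in H76Y/AS2.lean for the step from the characters to
`det = c ^ (rank / 2)`).  Only `hmem` (`e b ∈ spanK K D`) and `hidem` are used of the splitting: `hlinI`, `hlinK`, `hsimI`, `hkl`, `hadj` (`proj_sim'`), `hmult0` as there;
`2 * (h * e b).rank = (e b).rank` (`bal`) gives `(h * e b).rank = (e b).rank / 2`.  If `ι` is empty `J = 0`: then `x` is the only matrix; treat this case first
(all matrices are equal, `det = 1`; `c = 1`, `(e b).rank = 0`). -/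
theorem mono_le {ψ : Matrix ι ι ℚ} (hψ : ψᵀ = -ψ) (hψ0 : ψ.det ≠ 0) (D : Subalgebra ℚ (Matrix ι ι ℚ))
    {L : Type*} [Field L] [CharZero L] {K : Type*} [Field K]
    [Algebra L K] [IsAlgClosed K] [CharZero K] {G : Type*} [Group G]
    (ρ : G →* Matrix.GeneralLinearGroup ι L)
    (lin : ∀ σ : G, ∀ d ∈ D, (ρ σ).1 * d.map (algebraMap ℚ L) =
      d.map (algebraMap ℚ L) * (ρ σ).1)
    (sim : ∀ σ : G, ∃ c : L, (ρ σ).1ᵀ * ψ.map (algebraMap ℚ L) * (ρ σ).1 =
      c • ψ.map (algebraMap ℚ L))
    {m : ℕ} {e : Fin m → Matrix ι ι K} (hmem : ∀ b, e b ∈ spanK K D) (hidem : ∀ b, e b * e b = e b)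
    (gen : ∀ g : G, (ρ g).1.map (algebraMap L K) ∈ zar (Submonoid.closure {m | ∃ h ∈ properProj K ρ, ∃ t : K,
      t ≠ 0 ∧ m = 1 + (t - 1) • h} : Set (Matrix ι ι K)))
    (bal : ∀ h ∈ properProj K ρ, ∀ b, 2 * (h * e b).rank = (e b).rank)
    (H : Subgroup G) : monodromy K ρ H ⊆ balGrp K ψ D e := by
  classical
  rcases isEmpty_or_nonempty ι with hemp | hnon
  · intro x _
    have hr : ∀ b, (e b).rank = 0 := by
      intro b
      have h1 := Matrix.rank_le_card_width (e b)
      rw [Fintype.card_eq_zero] at h1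
      omega
    refine ⟨?_, fun d _ => ?_, 1, ?_, fun b => ?_⟩
    · rw [Matrix.det_isEmpty]; exact one_ne_zero
    · ext i; exact hemp.elim i
    · ext i; exact hemp.elim i
    · rw [Matrix.det_isEmpty, one_pow]
  obtain ⟨hJ, hdet⟩ := gram_basic hψ hψ0 K
  set J : Matrix ι ι K := ψ.map (algebraMap ℚ K) with hJdef
  have hlinK : ∀ σ : G, ∀ d ∈ D, (ρ σ).1.map (algebraMap L K) * d.map (algebraMap ℚ K) =
      d.map (algebraMap ℚ K) * (ρ σ).1.map (algebraMap L K) := by
    intro σ d hd
    have h1 := congrArg (fun m : Matrix ι ι L => m.map (algebraMap L K)) (lin σ d hd)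
    have h2 : (d.map (algebraMap ℚ L)).map (algebraMap L K) = d.map (algebraMap ℚ K) := by
      ext i j
      simp
    simp only [Matrix.map_mul] at h1
    rw [h2] at h1
    exact h1
  have hsimG : ∀ x : G, ∃ c : K, ((ρ x).1.map (algebraMap L K))ᵀ * J *
      (ρ x).1.map (algebraMap L K) = c • J := by
    intro x
    obtain ⟨c, hc⟩ := sim x
    exact ⟨_, sim_map hc⟩
  have hsimI : ∀ H' : Subgroup G, ∀ s ∈ img K ρ H', ∃ c : K, sᵀ * J * s = c • J := by
    rintro H' _ ⟨y, -, rfl⟩
    exact hsimG y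
  have hlinI : ∀ H' : Subgroup G, ∀ s ∈ img K ρ H', ∀ d ∈ spanK K D, s * d = d * s := by
    rintro H' _ ⟨y, -, rfl⟩ d hd
    exact comm_span (hlinK y) d hd
  obtain ⟨k, l, hkl⟩ : ∃ k l, J k l ≠ 0 := by
    by_contra hcon
    push Not at hcon
    have : J = 0 := by
      ext i j
      exact hcon i j
    rw [this, Matrix.det_zero] at hdet
    exact not_isUnit_zero hdet
  have hadj : ∀ x ∈ properProj K ρ, xᵀ * J * x = 0 ∧ xᵀ * J + J * x = J := fun x hx =>
    proj_sim' hdet hkl (hsimI ⊤) hx.1 hx.2.1 hx.2.2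
  have hmult0 : ∀ x : Matrix ι ι K, x.det ≠ 0 → ∀ c : K, xᵀ * J * x = c • J → c ≠ 0 := by
    rintro x hx c hc rfl
    rw [zero_smul] at hc
    have h3 := congrArg Matrix.det hc
    rw [Matrix.det_mul, Matrix.det_mul, Matrix.det_transpose, Matrix.det_zero] at h3
    exact (mul_ne_zero (mul_ne_zero hx hdet.ne_zero) hx) h3
  rintro x ⟨hx, hxz⟩
  obtain ⟨c, hc⟩ := zar_sim hkl (hsimI H) hxz
  refine ⟨hx, ?_, c, hc, ?_⟩
  · intro d hd
    refine zar_commute ?_ hxz
    rintro _ ⟨y, -, rfl⟩
    exact hlinK y d hd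
  · intro b
    have hcc := hmult0 x hx c hc
    have h1 : (∏ b', H76U.detb (e b') x ^ (Pi.single b (1 : ℤ) : Fin m → ℤ) b') *
        c ^ (-(((e b).rank / 2 : ℕ) : ℤ)) = 1 := by
      refine H76U.char_zar hkl hidem (S := img K ρ ⊤) ?_ (𝓗 := properProj K ρ) (fun x hx => hx.1) hadj hx ?_
        hcc hc ?_ (Pi.single b 1) (-(((e b).rank / 2 : ℕ) : ℤ)) ?_
      · intro s hs b
        exact hlinI ⊤ s hs _ (hmem b)
      · intro b
        exact zar_commute (fun s hs => hlinI H s hs _ (hmem b)) hxz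
      · refine zar_subset_zar ?_ hxz
        rintro _ ⟨σ, hσ, rfl⟩
        exact gen σ
      · intro y hy
        rw [Finset.sum_eq_single b]
        · have h2 := bal y hy b
          rw [Pi.single_eq_same]
          have h3 : (y * e b).rank = (e b).rank / 2 := by omega
          rw [h3]
          ring
        · intro c _ hcb
          rw [Pi.single_eq_of_ne hcb, zero_mul]
        · intro hb
          exact absurd (Finset.mem_univ _) hb
    rw [Finset.prod_eq_single b, Pi.single_eq_same, zpow_one, _root_.zpow_neg, zpow_natCast] at h1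
    · exact (mul_inv_eq_one₀ (pow_ne_zero _ hcc)).1 h1
    · intro c _ hcb
      rw [Pi.single_eq_of_ne hcb, zpow_zero]
    · intro hb
      exact absurd (Finset.mem_univ _) hb

end Pool.Agent.H34Z
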