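import Pool.Agent.Lib.H34Z.M06
import Pool.Agent.Lib.H76U.Grp5

/-!
# M07: similitudes
-/

set_option autoImplicit false
set_option linter.unusedSectionVars false
namespace Pool.Agent.H34Z
open Module Matrix Pool.Agent.H53Toric Pool.Agent.H76P
open Pool.Agent.H76U (cmp preL Lb Split4)
open Pool.Agent.H76Y (LcN)
open Pool.Agent.H76RM (zar_commute zlie_commute)

variable {ι : Type*} [Fintype ι] [DecidableEq ι] {K : Type*} [Field K] [CharZero K] [IsAlgClosed K]
  {J u : Matrix ι ι K} {DD : Submodule K (Matrix ι ι K)} {S 𝓗 : Set (Matrix ι ι K)} {x : Matrix ι ι K}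
  {B : Type*} [Fintype B] [DecidableEq B] {bar : B → B} {e : B → Matrix ι ι K} {n : B → ℕ}
  {U : ∀ b, Matrix ι (Fin (n b)) K} {V : ∀ b, Matrix (Fin (n b)) ι K} {d : ∀ b, Fin (n b) → K}

namespace Sit
variable (g : Sit J u DD S 𝓗 x bar e n U V d)
include g

/-- The common part: an element of the closure with the same multiplier and the same determinants. -/
theorem m07_aux {w : Matrix ι ι K} (hwD : ∀ z ∈ DD, w * z = z * w) {c : K} (hc : wᵀ * J * w = c • J)
    {y y' : Matrix ι ι K} (hy : y ∈ zar S) (hy' : y' ∈ zar S) (hyy : y * y' = 1) (hyJ : yᵀ * J * y = c • J)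
    (hyb : ∀ b, Pool.Agent.H76U.detb (e b) w = Pool.Agent.H76U.detb (e b) y) : w ∈ zar S := by
  have hcommS : ∀ y ∈ zar S, ∀ d ∈ DD, y * d = d * y := fun y hy d hd =>
    zar_commute (fun s hs => g.SD s hs d hd) hy
  have hy'y : y' * y = 1 := _root_.mul_eq_one_comm.1 hyy
  have hYD : ∀ z ∈ DD, w * y' * z = z * (w * y') := by
    intro d hd
    rw [mul_assoc, hcommS _ hy' d hd, ← mul_assoc, hwD d hd, mul_assoc]
  have hzz : w * y' ∈ zar S := by
    refine g.iso_mem ?_ hYD ?_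
    · have h1 : J = c • (y'ᵀ * J * y') := by
        calc J = (y * y')ᵀ * J * (y * y') := by rw [hyy]; simp
          _ = y'ᵀ * (yᵀ * J * y) * y' := by
              rw [Matrix.transpose_mul]; noncomm_ring
          _ = _ := by rw [hyJ, mul_smul_comm, smul_mul_assoc]
      have h2 : (w * y')ᵀ * J * (w * y') = J := by
        rw [Matrix.transpose_mul]
        calc y'ᵀ * wᵀ * J * (w * y') = y'ᵀ * (wᵀ * J * w) * y' := by noncomm_ring
          _ = c • (y'ᵀ * J * y') := by rw [hc, mul_smul_comm, smul_mul_assoc]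
          _ = J := h1.symm
      calc (w * y')ᵀ * (J * u) * (w * y') = (w * y')ᵀ * J * (u * (w * y')) := by noncomm_ring
        _ = (w * y')ᵀ * J * (w * y') * u := by rw [← hYD u g.hu]; noncomm_ring
        _ = J * u := by rw [h2]
    · intro b
      change Pool.Agent.H76U.detb (e b) (w * y') = 1
      rw [Pool.Agent.H76U.detb_mul (g.spl.idem b) (hcommS _ hy' _ (g.spl.mem b)), hyb b]
      exact Pool.Agent.H76U.detb_inv (g.spl.idem b) (hcommS _ hy' _ (g.spl.mem b)) hyy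
  have h3 : w = (w * y') * y := by rw [mul_assoc, hy'y, mul_one]
  rw [h3]
  exact zar_mul g.mul hzz hy

/-- The one parameter groups. -/
theorem m07_one {y : Matrix ι ι K} (hy : y ∈ 𝓗) {t : K} (ht : t ≠ 0) :
    (1 + (t - 1) • y) * (1 + (t⁻¹ - 1) • y) = 1 := by
  have hyy := g.hi y hy
  have h1 : (1 + (t - 1) • y) * (1 + (t⁻¹ - 1) • y) =
      1 + ((t - 1) + (t⁻¹ - 1)) • y + ((t - 1) * (t⁻¹ - 1)) • (y * y) := by
    rw [add_mul, mul_add, mul_add, one_mul, one_mul, mul_one, smul_mul_smul_comm]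
    module
  rw [h1, hyy, add_assoc, ← add_smul]
  have h2 : (t - 1) + (t⁻¹ - 1) + (t - 1) * (t⁻¹ - 1) = 0 := by
    field_simp
    ring
  rw [h2, zero_smul, add_zero]

/-- The multiplier of the one parameter groups. -/
theorem m07_sim {y : Matrix ι ι K} (hy : y ∈ 𝓗) (t : K) :
    (1 + (t - 1) • y)ᵀ * J * (1 + (t - 1) • y) = t • J := by
  have h1 := g.hs y hy
  refine Pool.Agent.H76U.hodge_mult ?_ h1 t
  have h2 : (yᵀ * J + J * y) * y = J * y := by rw [h1]
  rw [add_mul, mul_assoc J, g.hi y hy] at h2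
  exact add_eq_right.1 h2

/-- The elements of the closure commute with the algebra, in particular the projectors do. -/
theorem m07_comm (hz : ∀ h ∈ 𝓗, ∀ t : K, t ≠ 0 → 1 + (t - 1) • h ∈ zar S) {y : Matrix ι ι K} (hy : y ∈ 𝓗) (b : B) :
    y * e b = e b * y := by
  have h1 := hz y hy 2 (by norm_num)
  have h2 := zar_commute (fun s hs => g.SD s hs _ (g.spl.mem b)) h1
  have e1 : (2 : K) - 1 = 1 := by norm_num
  rw [e1, one_smul, add_mul, mul_add, one_mul, mul_one, add_right_inj] at h2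
  exact h2

/-- PROOF. Choose `h ∈ 𝓗` (`g.hh`), `y = 1 + (c-1) h`, `y' = 1 + (c⁻¹-1) h`, `y y' = 1`, `y, y' ∈ zar S` (`hz`).  `yᵀ J y = c J`.  `Y = w * y'` satisfies `Yᵀ J Y = J` (as in `H76U.group_mem`,
Grp5.lean: `J = c • (y'ᵀ J y')`), so `Yᵀ (J u) Y = J u` since `u ∈ DD` commutes with `Y`.  `(1 - e b + Y * e b).det = detb (e b) w * detb (e b) y'` (`H76U.detb_mul`, `detb p z = (1 - p + z * p).det`)
`= c ^ (n b / 2) * (c⁻¹) ^ (h * e b).rank = 1` (`H76U.detb_hodge`, `g.bal`).  `iso_mem`, `w = Y * y`, `zar_mul g.mul`. -/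
theorem sim_mem (hz : ∀ h ∈ 𝓗, ∀ t : K, t ≠ 0 → 1 + (t - 1) • h ∈ zar S) {w : Matrix ι ι K}
    (hwD : ∀ z ∈ DD, w * z = z * w) {c : K} (hc0 : c ≠ 0) (hc : wᵀ * J * w = c • J)
    (hdet : ∀ b, (1 - e b + w * e b).det = c ^ (n b / 2)) : w ∈ zar S := by
  obtain ⟨h, hh, -⟩ := g.hh
  refine g.m07_aux hwD hc (hz h hh c hc0) (hz h hh c⁻¹ (inv_ne_zero hc0)) (g.m07_one hh hc0) (g.m07_sim hh c)
    fun b => ?_
  rw [Pool.Agent.H76U.detb_hodge (g.spl.idem b) (g.hi h hh) (g.m07_comm hz hh b), Pool.Agent.H76U.detb, hdet b]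
  congr 1
  have h1 := g.bal h hh b
  omega

/-- The general form, for later use (any signature).
PROOF. Copy of the proof of `H76U.group_mem` (H76U/Grp5.lean, 100 lines) with `iso_mem` in place of `iso_mem4`: the element `y` of the torus has `yᵀ J y = c J` and the same
determinants as `w`, and `w * y'` is an isometry with `detb = 1` at all `b`. -/
theorem group_mem (hz : ∀ h ∈ 𝓗, ∀ t : K, t ≠ 0 → 1 + (t - 1) • h ∈ zar S) {w : Matrix ι ι K} (hw : w.det ≠ 0)
    (hwD : ∀ z ∈ DD, w * z = z * w) {c : K} (hc0 : c ≠ 0) (hc : wᵀ * J * w = c • J)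
    (hchar : ∀ (a : B → ℤ) (a₀ : ℤ), (∀ y ∈ 𝓗, ∑ b, a b * ((y * e b).rank : ℤ) + a₀ = 0) →
      (∏ b, Pool.Agent.H76U.detb (e b) w ^ a b) * c ^ a₀ = 1) : w ∈ zar S := by
  classical
  have hwu : IsUnit w.det := isUnit_iff_ne_zero.2 hw
  have hinvc : ∀ y y' : Matrix ι ι K, y * y' = 1 → ∀ d, y * d = d * y → y' * d = d * y' := by
    intro y y' hyy d hd
    have hy'y : y' * y = 1 := _root_.mul_eq_one_comm.1 hyy
    calc y' * d = y' * d * (y * y') := by rw [hyy, mul_one]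
      _ = y' * (d * y) * y' := by noncomm_ring
      _ = y' * (y * d) * y' := by rw [hd]
      _ = (y' * y) * d * y' := by noncomm_ring
      _ = d * y' := by rw [hy'y, one_mul]
  have hxx : w * w⁻¹ = 1 := Matrix.mul_nonsing_inv _ hwu
  have hdet0 : ∀ b, Pool.Agent.H76U.detb (e b) w ≠ 0 := by
    intro b h0
    have := Pool.Agent.H76U.detb_inv (x := w) (g.spl.idem b) (hinvc w w⁻¹ hxx _ (hwD _ (g.spl.mem b))) hxx
    rw [h0, zero_mul] at this
    exact zero_ne_one this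
  -- the finite set of types
  obtain ⟨T, hT⟩ : ∃ T : Set (B → ℕ), T = {n | ∃ y ∈ 𝓗, ∀ b, n b = (y * e b).rank} := ⟨_, rfl⟩
  have hTfin : T.Finite := by
    apply (Set.finite_Iic (fun _ : B => Fintype.card ι)).subset
    rw [hT]
    rintro n ⟨y, -, hn⟩
    intro b
    rw [hn]
    exact Matrix.rank_le_card_height _
  have : Fintype T := hTfin.fintype
  have hmT : ∀ f : B → ℕ, f ∈ T ↔ ∃ y ∈ 𝓗, ∀ b, f b = (y * e b).rank := fun f => by
    rw [hT]
    exact Iff.rfl
  have hex : ∀ s : T, ∃ y ∈ 𝓗, ∀ b, s.1 b = (y * e b).rank := fun s => (hmT s.1).1 s.2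
  choose Y hY𝓗 hYn using hex
  obtain ⟨nn, hnn⟩ : ∃ nn : T → Option B → ℤ, nn = fun s => fun o => o.elim 1 (fun b => (s.1 b : ℤ)) := ⟨_, rfl⟩
  obtain ⟨δ, hδ⟩ : ∃ δ : Option B → Kˣ, δ = fun o => o.elim (Units.mk0 c hc0)
    (fun b => Units.mk0 (Pool.Agent.H76U.detb (e b) w) (hdet0 b)) := ⟨_, rfl⟩
  obtain ⟨t, ht⟩ := Pool.Agent.H76U.solve_chars nn δ (by
    intro a ha
    have h1 := hchar (fun b => a (some b)) (a none) (by
      intro y hy
      have h2 := ha ⟨fun b => (y * e b).rank, (hmT _).2 ⟨y, hy, fun _ => rfl⟩⟩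
      rw [hnn, Fintype.sum_option] at h2
      change a none * 1 + ∑ b, a (some b) * ((y * e b).rank : ℤ) = 0 at h2
      rw [mul_one, add_comm] at h2
      exact h2)
    apply Units.ext
    rw [Units.coe_prod, Fintype.prod_option, hδ]
    simp only [Units.val_zpow_eq_zpow_val]
    change c ^ a none * ∏ b, Pool.Agent.H76U.detb (e b) w ^ a (some b) = ((1 : Kˣ) : K)
    rw [mul_comm, h1, Units.val_one])
  rw [hδ, hnn] at ht
  have htc : c = ∏ s, (t s : K) := by
    have h1 := congrArg Units.val (ht none)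
    rw [Units.coe_prod] at h1
    change c = ∏ s, ((t s ^ (1 : ℤ) : Kˣ) : K) at h1
    simpa using h1
  have htb : ∀ b, Pool.Agent.H76U.detb (e b) w = ∏ s, (t s : K) ^ (s.1 b) := by
    intro b
    have h1 := congrArg Units.val (ht (some b))
    rw [Units.coe_prod] at h1
    change Pool.Agent.H76U.detb (e b) w = ∏ s, ((t s ^ ((s.1 b : ℕ) : ℤ) : Kˣ) : K) at h1
    simpa using h1
  have hcommS : ∀ y ∈ zar S, ∀ d ∈ DD, y * d = d * y := fun y hy d hd =>
    zar_commute (fun s hs => g.SD s hs d hd) hy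
  have key : ∀ F : Finset T, ∃ y ∈ zar S, ∃ y' ∈ zar S, y * y' = 1 ∧
      yᵀ * J * y = (∏ s ∈ F, (t s : K)) • J ∧
      ∀ b, Pool.Agent.H76U.detb (e b) y = ∏ s ∈ F, (t s : K) ^ (s.1 b) := by
    intro F
    induction F using Finset.induction_on with
    | empty =>
      refine ⟨1, subset_zar S g.one, 1, subset_zar S g.one, one_mul 1, ?_, ?_⟩
      · rw [Finset.prod_empty, one_smul]; simp
      · intro b
        rw [Finset.prod_empty, Pool.Agent.H76U.detb_one]
    | insert s F hsF ih =>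
      obtain ⟨y, hy, y', hy', hyy', hyJ, hyb⟩ := ih
      have ht0 : (t s : K) ≠ 0 := (t s).ne_zero
      have hsz := hz _ (hY𝓗 s) (t s : K) ht0
      have hsz' := hz _ (hY𝓗 s) (t s : K)⁻¹ (inv_ne_zero ht0)
      refine ⟨y * (1 + ((t s : K) - 1) • Y s), zar_mul g.mul hy hsz,
        (1 + ((t s : K)⁻¹ - 1) • Y s) * y', zar_mul g.mul hsz' hy', ?_, ?_, ?_⟩
      · calc y * (1 + ((t s : K) - 1) • Y s) * ((1 + ((t s : K)⁻¹ - 1) • Y s) * y') =
            y * ((1 + ((t s : K) - 1) • Y s) * (1 + ((t s : K)⁻¹ - 1) • Y s)) * y' := by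
              noncomm_ring
          _ = 1 := by rw [g.m07_one (hY𝓗 s) ht0, mul_one, hyy']
      · have h3 := g.m07_sim (hY𝓗 s) (t s : K)
        obtain ⟨z, hzd⟩ : ∃ z, z = 1 + ((t s : K) - 1) • Y s := ⟨_, rfl⟩
        rw [← hzd] at h3 ⊢
        rw [Matrix.transpose_mul]
        calc zᵀ * yᵀ * J * (y * z) = zᵀ * (yᵀ * J * y) * z := by noncomm_ring
          _ = (∏ s ∈ F, (t s : K)) • (zᵀ * J * z) := by
              rw [hyJ, mul_smul_comm, smul_mul_assoc]
          _ = _ := by rw [h3, smul_smul, Finset.prod_insert hsF, mul_comm]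
      · intro b
        rw [Pool.Agent.H76U.detb_mul (g.spl.idem b) (hcommS _ hsz _ (g.spl.mem b)), hyb,
          Pool.Agent.H76U.detb_hodge (g.spl.idem b) (g.hi _ (hY𝓗 s)) (g.m07_comm hz (hY𝓗 s) b), ← hYn s b,
          Finset.prod_insert hsF, mul_comm]
  obtain ⟨y, hy, y', hy', hyy', hyJ, hyb⟩ := key Finset.univ
  rw [← htc] at hyJ
  exact g.m07_aux hwD hc hy hy' hyy' hyJ fun b => by rw [htb b, hyb b]

end Sit

end Pool.Agent.H34Z
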