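import Pool.Agent.Lib.H34Z.H01
import Pool.Agent.Lib.H34Z.H02
import Pool.Agent.Lib.H34Z.M07
import Pool.Agent.Lib.H76Z.W11
import Pool.Agent.Lib.H76Q.G12

/-!
# H03: the fourth version over an abstract group
-/

set_option autoImplicit false
set_option linter.unusedSectionVars false
namespace Pool.Agent.H34Z
open Module Matrix Polynomial Pool.Agent.H53Toric
open Pool.Agent.H76P Pool.Agent.H76Q
open Pool.Agent.H76Z (Cl Splits)
open Pool.Agent.H76Y (LcN TM CmpN SyL NsL balGrp PartN)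
open Pool.Agent.H76U (cmp preL Lb Split4 IsSplitting)
open Pool.Agent.H76RM (spanK)
open Pool.Agent.H76Q (tgen YS FrobT)

variable {ι : Type*} [Fintype ι] [DecidableEq ι] {ψ : Matrix ι ι ℚ}
    {D : Subalgebra ℚ (Matrix ι ι ℚ)} {M : Type*} [Field M] [NumberField M]
    {m : ℕ} {cl : Fin m → Cl} {bar : Fin m → Fin m} {e : Fin m → Matrix ι ι M} {u₀ : Matrix ι ι M} {G : Type*} [Group G]
    {ρ : ∀ (l : ℕ) [Fact l.Prime], G →* Matrix.GeneralLinearGroup ι ℚ_[l]}
    {p : ℕ} [Fact p.Prime] {σ : G} {q : ℚ} {F : Fin m → M[X]}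
    {φ μ ν : Matrix ι ι (AlgebraicClosure ℚ_[p])} {v : AlgebraicClosure ℚ_[p] → ℚ}
    {Δ : Set (AlgebraicClosure ℚ_[p] ≃+* AlgebraicClosure ℚ_[p])}
    {Ω : Type*} [Field Ω] [CharZero Ω] [IsAlgClosed Ω] [Algebra.IsAlgebraic ℚ Ω] {j : M →+* Ω}
    {R : Finset Ω} {N : Set ℕ}

/-- **The fourth version over an abstract group**: from the Lie algebras of the components (the
conclusion of `Core3.comp`) to the monodromy groups at every prime. -/
theorem final_of (C : H76Z.Core3 ψ D cl bar e u₀ ρ p σ q F φ μ ν v Δ j R N)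
    (four : ∀ b, cl b = .o → (e b).rank ≠ 4 ∧ (e b).rank ≠ 8)
    (hcomp : ∀ b, ∃ a : Fin (e b).rank → Ω, Function.Injective a ∧
      (∀ y : Ω, (F b).eval₂ j y = 0 ↔ ∃ k, y = a k) ∧
      ∀ (K : Type) [Field K] [CharZero K] [IsAlgClosed K]
        (L : Submodule K (Module.End K (Fin (e b).rank → K))), TM L → Yo L = YS a →
        (cl b = .s → ∀ J : Matrix (Fin (e b).rank) (Fin (e b).rank) K, Jᵀ = -J → IsUnit J.det →
          (∀ X ∈ L, adjE J X = -X) → ∀ X, adjE J X = -X → X ∈ L) ∧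
        (cl b = .o → ∀ J : Matrix (Fin (e b).rank) (Fin (e b).rank) K, Jᵀ = J → IsUnit J.det →
          (∀ X ∈ L, adjE J X = -X) → ∀ X, adjE J X = -X → X ∈ L) ∧
        (cl b = .n → NsL L → ∀ X : Module.End K (Fin (e b).rank → K),
          LinearMap.trace K (Fin (e b).rank → K) X = 0 → X ∈ L))
    (l : ℕ) [Fact l.Prime] (i : M →+* AlgebraicClosure ℚ_[l]) (H : Subgroup G) (hH : H.FiniteIndex) :
    monodromy (AlgebraicClosure ℚ_[l]) (ρ l) H = balGrp (AlgebraicClosure ℚ_[l]) ψ D (fun b => (e b).map i) := by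
  have hspl : Splits D ψ cl bar (fun b => (e b).map i) (u₀.map i) := C.hspl.map i
  have hrk : ∀ b, ((e b).map i).rank = (e b).rank := fun b =>
    Pool.Agent.H76U.rank_idem_map (C.hspl.idem b) i
  have hbal : ∀ h ∈ properProj (AlgebraicClosure ℚ_[l]) (ρ l), ∀ b,
      2 * (h * (e b).map i).rank = ((e b).map i).rank := by
    intro h hh b
    rw [hrk]
    exact C.bal l h hh i b
  rcases isEmpty_or_nonempty ι with hι | hι
  · have huniq : ∀ y z : Matrix ι ι (AlgebraicClosure ℚ_[l]), y = z := by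
      intro y z
      ext i
      exact (hι.false i).elim
    ext x
    constructor
    · rintro ⟨hx, -⟩
      refine ⟨hx, fun d _ => huniq _ _, 0, huniq _ _, fun b => ?_⟩
      exact absurd (huniq _ _) (hspl.ne_zero b)
    · rintro ⟨hx, -, -⟩
      refine ⟨hx, ?_⟩
      rw [huniq x 1]
      exact subset_zar _ (img_one (ρ l) H)
  apply Set.Subset.antisymm
  · exact mono_le C.hψ C.hψ0 D (ρ l) (C.lin l) (C.sim l) hspl.mem hspl.idem
      (fun g => subset_zar _ (C.gen l g)) hbal H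
  · rintro w ⟨hw, hwD, c, hc, hwdet⟩
    refine ⟨hw, ?_⟩
    obtain ⟨i', hi'⟩ := Pool.Agent.H76Q.g12_ext j i
    subst hi'
    obtain ⟨H₀, hle, hfin, hprime⟩ := Pool.Agent.H76RM.exists_prime (K := AlgebraicClosure ℚ_[l]) (ρ l) H hH
    have hsub : img (AlgebraicClosure ℚ_[l]) (ρ l) H₀ ⊆ img (AlgebraicClosure ℚ_[l]) (ρ l) H := by
      rintro _ ⟨σ, hσ, rfl⟩
      exact ⟨σ, hle hσ, rfl⟩
    apply zar_mono hsub
    choose a ha hroot hf using hcomp
    have hbal' : ∀ h ∈ properProj (AlgebraicClosure ℚ_[l]) (ρ l), ∀ b,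
        2 * (h * (e b).map (i'.comp j)).rank = (e b).rank := fun h hh b => C.bal l h hh _ b
    have ht : ∀ b, ∀ k l : Fin (e b).rank, ∀ N : ℕ, N ≠ 0 → a b k ^ N = a b l ^ N → k = l :=
      fun b k l' N hN h => ha b (C.tor b ((hroot b _).2 ⟨k, rfl⟩) ((hroot b _).2 ⟨l', rfl⟩) hN h)
    -- the situation
    obtain ⟨x, U, V, g⟩ : ∃ (x : Matrix ι ι (AlgebraicClosure ℚ_[l]))
        (U : ∀ b, Matrix ι (Fin (e b).rank) (AlgebraicClosure ℚ_[l]))
        (V : ∀ b, Matrix (Fin (e b).rank) ι (AlgebraicClosure ℚ_[l])),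
        Sit (ψ.map (algebraMap ℚ (AlgebraicClosure ℚ_[l]))) (u₀.map (i'.comp j)) (spanK (AlgebraicClosure ℚ_[l]) D)
          (img (AlgebraicClosure ℚ_[l]) (ρ l) H₀) (properProj (AlgebraicClosure ℚ_[l]) (ρ l)) x bar
          (fun b => (e b).map (i'.comp j)) (fun b => (e b).rank) U V (fun b k => i' (a b k)) := by
      by_cases hl : l = p
      · subst hl
        exact ⟨φ, mk_sit C.hψ C.hψ0 D (ρ l) (C.lin l) (C.sim l) (C.semis l) (C.commt l) (C.gen l) C.hspl
          C.frobp C.crys.phigen C.hq C.multp hfin hprime j i' hbal' ha hroot ht four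
          (fun b L hT hY => hf b _ L hT hY)⟩
      · have hmult := sim_map (K := AlgebraicClosure ℚ_[l]) (C.mult l hl)
        have h1 : algebraMap ℚ_[l] (AlgebraicClosure ℚ_[l]) (algebraMap ℚ ℚ_[l] q) =
            algebraMap ℚ (AlgebraicClosure ℚ_[l]) q := by simp
        rw [h1] at hmult
        exact ⟨_, mk_sit C.hψ C.hψ0 D (ρ l) (C.lin l) (C.sim l) (C.semis l) (C.commt l) (C.gen l) C.hspl
          (C.frob l hl) (C.gen l σ) C.hq hmult hfin hprime j i' hbal' ha hroot ht four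
          (fun b L hT hY => hf b _ L hT hY)⟩
    have hc0 : c ≠ 0 := by
      rintro rfl
      rw [zero_smul] at hc
      have h3 := congrArg Matrix.det hc
      rw [Matrix.det_mul, Matrix.det_mul, Matrix.det_transpose, Matrix.det_zero] at h3
      exact (mul_ne_zero (mul_ne_zero hw g.hJ.ne_zero) hw) h3
    refine g.sim_mem (fun h hh t ht => ?_) (Pool.Agent.H76RM.comm_span hwD) hc0 hc (fun b => ?_)
    · exact (hodgeProj_finite (ρ l) H₀ hh.1).2 t ht
    · have h1 := hwdet b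
      rw [hrk] at h1
      exact h1

/-- **The fourth version over an abstract group.** -/
theorem final (C : H76Z.Core3 ψ D cl bar e u₀ ρ p σ q F φ μ ν v Δ j R N)
    (part : ∀ b (k : ℕ) (c : Ω → Fin k) (A : Fin k → ℕ), 2 ≤ k →
      PartN D j (cl b = .s) (e b) (e (bar b)) (F b) q R c A → (e b).rank ≠ ∏ x, A x)
    (two : ∀ b (k : ℕ), 3 ≤ k → (cl b = .s → 4 ≤ k) → (cl b = .n → 4 ≤ k ∧ Even k) →
      (e b).rank ≠ 2 ^ k)
    (four : ∀ b, cl b = .o → (e b).rank ≠ 4)
    (binom : ∀ b (k : ℕ), (cl b = .s → 3 ≤ k ∧ Odd k) → (cl b = .o → 4 ≤ k ∧ Even k) →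
      cl b ≠ .n → (e b).rank ≠ k.centralBinom)
    (l : ℕ) [Fact l.Prime] (i : M →+* AlgebraicClosure ℚ_[l]) (H : Subgroup G) (hH : H.FiniteIndex) :
    monodromy (AlgebraicClosure ℚ_[l]) (ρ l) H = balGrp (AlgebraicClosure ℚ_[l]) ψ D (fun b => (e b).map i) :=
  final_of C (fun b hb => ⟨four b hb, fun h8 => two b 3 le_rfl (fun h => by rw [hb] at h; cases h)
    (fun h => by rw [hb] at h; cases h) (by rw [h8]; norm_num)⟩) (fun b => C.comp part two binom b) l i H hH

end Pool.Agent.H34Z
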