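import Pool.Agent.Lib.H34Z.MD

/-!
# M01: basic facts
-/

set_option autoImplicit false
set_option linter.unusedSectionVars false
namespace Pool.Agent.H34Z
open Module Matrix Pool.Agent.H53Toric Pool.Agent.H76P
open Pool.Agent.H76U (cmp preL Lb Split4)
open Pool.Agent.H76Y (LcN)
open Pool.Agent.H76RM (zar_commute zlie_commute)

variable {ι : Type*} [Fintype ι] [DecidableEq ι] {K : Type*} [Field K] [CharZero K] [IsAlgClosed K]
  {J u : Matrix ι ι K} {DD : Submodule K (Matrix ι ι K)} {S 𝓗 : Set (Matrix ι ι K)} {x : Matrix ι ι K}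
  {B : Type*} [Fintype B] [DecidableEq B] {bar : B → B} {e : B → Matrix ι ι K} {n : B → ℕ}
  {U : ∀ b, Matrix ι (Fin (n b)) K} {V : ∀ b, Matrix (Fin (n b)) ι K} {d : ∀ b, Fin (n b) → K}

namespace Sit
variable (g : Sit J u DD S 𝓗 x bar e n U V d)
include g

/-- PROOF. `zlie_commute g.one` and `g.SD`. -/
theorem zD {A : Matrix ι ι K} (hA : A ∈ zlie S) {y : Matrix ι ι K} (hy : y ∈ DD) : A * y = y * A := by
  haveI : Infinite K := inferInstance
  exact zlie_commute g.one (fun s hs => g.SD s hs y hy) hA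

/-- PROOF. `A = C + c • 1` with `C ∈ zlie S`. -/
theorem pD {A : Matrix ι ι K} (hA : A ∈ preL J S) {y : Matrix ι ι K} (hy : y ∈ DD) : A * y = y * A := by
  obtain ⟨⟨c, C, hC, rfl⟩, -⟩ := hA
  rw [add_mul, mul_add, g.zD hC hy, smul_mul_assoc, mul_smul_comm, one_mul, mul_one]

/-- PROOF. `⟨⟨0, h, _, _⟩, 1, _⟩` with `g.hz`, `g.hs`. -/
theorem hpre {h : Matrix ι ι K} (hh : h ∈ 𝓗) : h ∈ preL J S := by
  refine ⟨⟨0, h, g.hz h hh, ?_⟩, 1, ?_⟩
  · rw [zero_smul, add_zero]
  · rw [one_smul]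
    exact g.hs h hh

/-- PROOF. `preL J S` is a submodule and contains `1` (`⟨⟨1, 0, ..⟩, 2, ..⟩`). -/
theorem ypre {h : Matrix ι ι K} (hh : h ∈ 𝓗) : (2 : K) • h - 1 ∈ preL J S := by
  have h1 : (1 : Matrix ι ι K) ∈ preL J S := by
    refine ⟨⟨1, 0, (zlie S).zero_mem, ?_⟩, 2, ?_⟩
    · rw [one_smul, zero_add]
    · rw [Matrix.transpose_one, one_mul, mul_one, two_smul]
  exact (preL J S).sub_mem ((preL J S).smul_mem 2 (g.hpre hh)) h1

/-- PROOF. `(2h-1)ᵀ J + J (2h-1) = 2 J - 2 J = 0` (`g.hs`); multiply with `u`, which commutes with `h`. -/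
theorem yskew {h : Matrix ι ι K} (hh : h ∈ 𝓗) : ((2 : K) • h - 1)ᵀ * (J * u) + J * u * ((2 : K) • h - 1) = 0 := by
  have h1 : h * u = u * h := g.zD (g.hz h hh) g.hu
  have h2 := g.hs h hh
  have h3 : J * u * ((2 : K) • h - 1) = J * ((2 : K) • h - 1) * u := by
    rw [mul_sub, mul_sub, sub_mul, mul_one, mul_one, mul_smul_comm, mul_smul_comm, smul_mul_assoc,
      mul_assoc J u h, ← h1, mul_assoc J h u]
  rw [h3, ← mul_assoc, ← add_mul, Matrix.transpose_sub, Matrix.transpose_smul, Matrix.transpose_one,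
    sub_mul, mul_sub, one_mul, mul_one, smul_mul_assoc, mul_smul_comm]
  have h4 : (2 : K) • (hᵀ * J) - J + ((2 : K) • (J * h) - J) = 0 := by
    have h5 : (2 : K) • (hᵀ * J) - J + ((2 : K) • (J * h) - J) = (2 : K) • (hᵀ * J + J * h) - (2 : K) • J := by
      rw [smul_add, two_smul K J]
      abel
    rw [h5, h2, sub_self]
  rw [h4, zero_mul]

/-- PROOF. `Aᵀ * (J * u) = (Aᵀ * J) * u`, `J * u * A = J * A * u` (`pD`, `g.hu`). -/
theorem pskew {A : Matrix ι ι K} (hA : A ∈ preL J S) {c : K} (hc : Aᵀ * J + J * A = c • J) :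
    Aᵀ * (J * u) + J * u * A = c • (J * u) := by
  have h1 : A * u = u * A := g.pD hA g.hu
  rw [mul_assoc J u A, ← h1, ← mul_assoc, ← mul_assoc, ← add_mul, hc, smul_mul_assoc]

/-- PROOF. `Matrix.det_mul`, `IsUnit.mul`. -/
theorem det' : IsUnit (J * u).det := by
  rw [Matrix.det_mul]
  exact g.hJ.mul g.hu0

/-- PROOF. `(y * e b)`...: `U b = e b * U b` (`g.UV`, `g.VU`). -/
theorem eU (b : B) : e b * U b = U b := by
  rw [g.UV b, Matrix.mul_assoc, g.VU b, Matrix.mul_one]

theorem Ve (b : B) : V b * e b = V b := by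
  rw [g.UV b, ← Matrix.mul_assoc, g.VU b, Matrix.one_mul]

/-- PROOF. Closure induction (`Submonoid.closure_induction`): `(1 + (t-1) h) (1 + (t⁻¹-1) h) = 1` as `h h = h`; `1 + (t-1) h` commutes with `DD` (`zD`,
`g.hz`) and `(1 + (t-1) h)ᵀ J (1 + (t-1) h) = t J` (`H76Y.EN.mult_par` in H76Y/EN2.lean, proof: `hᵀ J h = 0`).  Products: multiply the inverses in the opposite
order, multiply the factors. -/
theorem cl {y : Matrix ι ι K} (hy : y ∈ Submonoid.closure (par 𝓗)) :
    (∃ y', y' ∈ Submonoid.closure (par 𝓗) ∧ y * y' = 1 ∧ y' * y = 1) ∧ (∀ z ∈ DD, y * z = z * y) ∧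
      ∃ c : K, c ≠ 0 ∧ yᵀ * J * y = c • J := by
  induction hy using Submonoid.closure_induction with
  | mem y hy =>
    obtain ⟨h, hh, t, ht, rfl⟩ := hy
    have hi := g.hi h hh
    have hs := g.hs h hh
    have key : ∀ a b : K, a + b + a * b = 0 → (1 + a • h) * (1 + b • h) = 1 := by
      intro a b hab
      have h1 : (1 + a • h) * (1 + b • h) = 1 + (a + b + a * b) • h := by
        rw [add_mul, one_mul, mul_add, mul_one, smul_mul_smul_comm, hi, add_smul, add_smul]
        abel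
      rw [h1, hab, zero_smul, add_zero]
    refine ⟨⟨1 + (t⁻¹ - 1) • h, Submonoid.subset_closure ⟨h, hh, t⁻¹, inv_ne_zero ht, rfl⟩, ?_, ?_⟩, ?_, t, ht, ?_⟩
    · refine key _ _ ?_
      field_simp
      ring
    · refine key _ _ ?_
      field_simp
      ring
    · intro z hz
      rw [add_mul, mul_add, one_mul, mul_one, smul_mul_assoc, mul_smul_comm, g.zD (g.hz h hh) hz]
    · have h1 : hᵀ * J * h = 0 := by
        have h2 := congrArg (fun m => m * h) hs
        have h3 : (hᵀ * J + J * h) * h = J * h := h2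
        rw [add_mul, mul_assoc J h h, hi] at h3
        exact add_eq_right.1 h3
      rw [Matrix.transpose_add, Matrix.transpose_one, Matrix.transpose_smul]
      have h4 : (1 + (t - 1) • hᵀ) * J * (1 + (t - 1) • h) =
          J + (t - 1) • (hᵀ * J + J * h) + ((t - 1) * (t - 1)) • (hᵀ * J * h) := by
        rw [add_mul, one_mul, mul_add, mul_one, add_mul, smul_mul_assoc, mul_smul_comm, smul_mul_assoc,
          mul_smul_comm, smul_smul, smul_add]
        abel
      rw [h4, h1, hs, smul_zero, add_zero, sub_smul, one_smul]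
      abel
  | one =>
    refine ⟨⟨1, Submonoid.one_mem _, one_mul 1, one_mul 1⟩, fun z _ => ?_, 1, one_ne_zero, ?_⟩
    · rw [one_mul, mul_one]
    · rw [Matrix.transpose_one, one_mul, mul_one, one_smul]
  | mul y z hy hz ihy ihz =>
    obtain ⟨⟨y', hy', hy1, hy2⟩, hy3, c, hc, hy4⟩ := ihy
    obtain ⟨⟨z', hz', hz1, hz2⟩, hz3, c', hc', hz4⟩ := ihz
    refine ⟨⟨z' * y', Submonoid.mul_mem _ hz' hy', ?_, ?_⟩, fun w hw => ?_, c * c', mul_ne_zero hc hc', ?_⟩
    · calc y * z * (z' * y') = y * (z * z') * y' := by simp only [mul_assoc]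
        _ = 1 := by rw [hz1, mul_one, hy1]
    · calc z' * y' * (y * z) = z' * (y' * y) * z := by simp only [mul_assoc]
        _ = 1 := by rw [hy2, mul_one, hz2]
    · rw [mul_assoc, hz3 w hw, ← mul_assoc, hy3 w hw, mul_assoc]
    · rw [Matrix.transpose_mul]
      calc zᵀ * yᵀ * J * (y * z) = zᵀ * (yᵀ * J * y) * z := by simp only [mul_assoc]
        _ = (c * c') • J := by
          rw [hy4, mul_smul_comm, smul_mul_assoc, hz4, smul_smul]

end Sit

end Pool.Agent.H34Z
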