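import Pool.Agent.Lib.H34Z.M02
import Pool.Agent.Lib.H34Z.S04

/-!
# M03: the blocks of the brackets; conjugation
-/

set_option autoImplicit false
set_option linter.unusedSectionVars false
namespace Pool.Agent.H34Z
open Module Matrix Pool.Agent.H53Toric Pool.Agent.H76P
open Pool.Agent.H76U (cmp preL Lb Split4)
open Pool.Agent.H76Y (LcN)
open Pool.Agent.H76RM (zar_commute zlie_commute)

variable {ι : Type*} [Fintype ι] [DecidableEq ι] {K : Type*} [Field K] [CharZero K] [IsAlgClosed K]
  {J u : Matrix ι ι K} {DD : Submodule K (Matrix ι ι K)} {S 𝓗 : Set (Matrix ι ι K)} {x : Matrix ι ι K}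
  {B : Type*} [Fintype B] [DecidableEq B] {bar : B → B} {e : B → Matrix ι ι K} {n : B → ℕ}
  {U : ∀ b, Matrix ι (Fin (n b)) K} {V : ∀ b, Matrix (Fin (n b)) ι K} {d : ∀ b, Fin (n b) → K}

namespace Sit
variable (g : Sit J u DD S 𝓗 x bar e n U V d)
include g

/-- PROOF. `≤`: `pb_mem`.  `≥`: `L = LcN J S (U b) (V b)` is spanned by brackets `Y * Z - Z * Y`, `Y, Z ∈ L` (`FB.perfect` with `g.full b`; `ε` from `y_diag`, `y_mem` for the `h`
of `g.hh`; `Fin (n b)` is not empty, `g.pos`); `Y`, `Z` are blocks of `A, A' ∈ preL J S` (`H76U.mem_Lb`), and `[Y, Z]` is the block of `[A, A'] ∈ brk` (`pb_bracket`). -/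
theorem pb_brk (b : B) : (brk J S).map (pb (U b) (V b)) = LcN J S (U b) (V b) := by
  obtain ⟨h, hh, hx⟩ := g.hh
  obtain ⟨ε, h1, h2⟩ := g.y_diag b hh hx
  have : Nonempty (Fin (n b)) := ⟨⟨0, g.pos b⟩⟩
  have h3 : dg ε ∈ LcN J S (U b) (V b) := by
    rw [← h1]
    exact (g.y_mem b hh).1
  have h4 := (g.full b).perfect h3 h2
  refine le_antisymm (Submodule.map_le_iff_le_comap.2 fun A hA => g.pb_mem b hA) ?_
  intro X hX
  rw [h4] at hX
  refine (Submodule.span_le (p := (brk J S).map (pb (U b) (V b)))).2 ?_ hX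
  rintro Z ⟨X, hX, Y, hY, rfl⟩
  obtain ⟨_, ⟨A, hA, rfl⟩, hAX⟩ := hX.1
  obtain ⟨_, ⟨A', hA', rfl⟩, hAY⟩ := hY.1
  refine ⟨A * A' - A' * A, brk_ad hA hA', ?_⟩
  rw [← hAX, ← hAY]
  exact g.pb_bracket b hA hA'

/-- PROOF. For `y = 1 + (t-1) h`, `y' = 1 + (t⁻¹-1) h`: with `A₁ = h A (1-h)`, `A₂ = (1-h) A h`: `y A y' = A + (t-1) A₁ + (t⁻¹-1) A₂`, `[h, A] = A₁ - A₂`,
`[h, [h, A]] = A₁ + A₂`, so `y A y'` is a combination of `A`, `[h, A]`, `[h, [h, A]]`, all in `preL J S` (`brk_ad`, `brk_pre`, `hpre`).  Closure induction: for every `y` in the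
closure there is `y'` with `y y' = 1` and `y A y' ∈ preL` for all `A ∈ preL`; as `y'` is determined by `y` (`y y' = 1`), this holds for every `y'` with `y * y' = 1`. -/
theorem conj_pre {y y' : Matrix ι ι K} (hy : y ∈ Submonoid.closure (par 𝓗)) (hyy : y * y' = 1) {A : Matrix ι ι K}
    (hA : A ∈ preL J S) : y * A * y' ∈ preL J S := by
  have key : ∃ y'' : Matrix ι ι K, y * y'' = 1 ∧ ∀ A ∈ preL J S, y * A * y'' ∈ preL J S := by
    refine Submonoid.closure_induction
      (motive := fun y _ => ∃ y'' : Matrix ι ι K, y * y'' = 1 ∧ ∀ A ∈ preL J S, y * A * y'' ∈ preL J S)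
      ?_ ?_ ?_ hy
    · rintro y ⟨h, hh, t, ht, rfl⟩
      have hi := g.hi h hh
      refine ⟨1 + (t⁻¹ - 1) • h, ?_, fun A hA => ?_⟩
      · have e1 : (1 + (t - 1) • h) * (1 + (t⁻¹ - 1) • h) =
            1 + ((t - 1) + (t⁻¹ - 1)) • h + ((t - 1) * (t⁻¹ - 1)) • (h * h) := by
          simp only [add_mul, mul_add, smul_mul_assoc, mul_smul_comm, one_mul, mul_one]
          module
        have e2 : (t - 1) * (t⁻¹ - 1) = -((t - 1) + (t⁻¹ - 1)) := by
          field_simp
          ring
        rw [e1, hi, e2, neg_smul, add_assoc, add_neg_cancel, add_zero]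
      · have e2 : (t - 1) * (t⁻¹ - 1) = -((t - 1) + (t⁻¹ - 1)) := by
          field_simp
          ring
        have e3 : (1 + (t - 1) • h) * A * (1 + (t⁻¹ - 1) • h) =
            A + (t - 1) • (h * A) + (t⁻¹ - 1) • (A * h) + ((t - 1) * (t⁻¹ - 1)) • (h * A * h) := by
          simp only [add_mul, mul_add, smul_mul_assoc, mul_smul_comm, one_mul, mul_one]
          module
        have e4 : h * (h * A - A * h) - (h * A - A * h) * h = h * A + A * h - (2 : K) • (h * A * h) := by
          have e5 : h * (h * A - A * h) - (h * A - A * h) * h =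
              (h * h) * A + A * (h * h) - (h * A * h + h * A * h) := by noncomm_ring
          rw [e5, hi, two_smul]
        have e6 : (1 + (t - 1) • h) * A * (1 + (t⁻¹ - 1) • h) =
            A + (((t - 1) - (t⁻¹ - 1)) / 2) • (h * A - A * h) +
              (((t - 1) + (t⁻¹ - 1)) / 2) • (h * (h * A - A * h) - (h * A - A * h) * h) := by
          rw [e3, e4, e2]
          module
        have m1 : h * A - A * h ∈ preL J S := brk_pre (brk_ad (g.hpre hh) hA)
        have m2 : h * (h * A - A * h) - (h * A - A * h) * h ∈ preL J S := brk_pre (brk_ad (g.hpre hh) m1)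
        rw [e6]
        exact (preL J S).add_mem ((preL J S).add_mem hA ((preL J S).smul_mem _ m1))
          ((preL J S).smul_mem _ m2)
    · exact ⟨1, by rw [one_mul], fun A hA => by rw [one_mul, mul_one]; exact hA⟩
    · rintro a c _ _ ⟨a', ha, ha2⟩ ⟨c', hc, hc2⟩
      refine ⟨c' * a', ?_, fun A hA => ?_⟩
      · calc a * c * (c' * a') = a * (c * c') * a' := by simp only [Matrix.mul_assoc]
          _ = 1 := by rw [hc, Matrix.mul_one, ha]
      · have e1 : a * c * A * (c' * a') = a * (c * A * c') * a' := by simp only [Matrix.mul_assoc]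
        rw [e1]
        exact ha2 _ (hc2 _ hA)
  obtain ⟨y'', h1, h2⟩ := key
  have h3 : y' = y'' := by
    have h4 : y' * y = 1 := mul_eq_one_comm.1 hyy
    calc y' = y' * (y * y'') := by rw [h1, Matrix.mul_one]
      _ = y'' := by rw [← Matrix.mul_assoc, h4, Matrix.one_mul]
  rw [h3]
  exact h2 A hA

/-- PROOF. `Submodule.span_induction`: `y (A A' - A' A) y' = [y A y', y A' y']` (`y' y = 1`), `conj_pre`. -/
theorem conj_brk {y y' : Matrix ι ι K} (hy : y ∈ Submonoid.closure (par 𝓗)) (hyy : y * y' = 1) {A : Matrix ι ι K}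
    (hA : A ∈ brk J S) : y * A * y' ∈ brk J S := by
  have hy1 : y' * y = 1 := mul_eq_one_comm.1 hyy
  refine Submodule.span_induction (p := fun A _ => y * A * y' ∈ brk J S) ?_ ?_ ?_ ?_ hA
  · rintro C ⟨A, hA, A', hA', rfl⟩
    have e1 : y * (A * A' - A' * A) * y' = (y * A * y') * (y * A' * y') - (y * A' * y') * (y * A * y') := by
      have e2 : (y * A * y') * (y * A' * y') = y * A * (y' * y) * A' * y' := by
        simp only [Matrix.mul_assoc]
      have e3 : (y * A' * y') * (y * A * y') = y * A' * (y' * y) * A * y' := by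
        simp only [Matrix.mul_assoc]
      rw [e2, e3, hy1, Matrix.mul_one, Matrix.mul_one, Matrix.mul_sub, Matrix.sub_mul]
      simp only [Matrix.mul_assoc]
    rw [e1]
    exact brk_ad (g.conj_pre hy hyy hA) (g.conj_pre hy hyy hA')
  · rw [Matrix.mul_zero, Matrix.zero_mul]
    exact (brk J S).zero_mem
  · intro A C _ _ h1 h2
    rw [Matrix.mul_add, Matrix.add_mul]
    exact (brk J S).add_mem h1 h2
  · intro a A _ h1
    rw [Matrix.mul_smul, Matrix.smul_mul]
    exact (brk J S).smul_mem a h1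

/-- PROOF. `x * U b = U b * diagonal (d b)` (`g.ec`), `V b * x = diagonal (d b) * V b` (`x` commutes with `e b`: `V b * x = V b * e b * x = V b * x * U b * V b`), so
`x' * U b = U b * diagonal (d b)⁻¹`, `V b * x * A * x' * U b = diagonal (d b) * (V b * A * U b) * diagonal (d b)⁻¹`; `phi (diagonal f) = dg f`. -/
theorem pb_conj (b : B) {x' : Matrix ι ι K} (hxx : x * x' = 1) {A : Matrix ι ι K} :
    pb (U b) (V b) (x * A * x') = dg (d b) * pb (U b) (V b) A * dg (fun k => (d b k)⁻¹) := by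
  have hx1 : x' * x = 1 := mul_eq_one_comm.1 hxx
  have hUV := g.UV b
  have hVU := g.VU b
  have hxe : x * e b = e b * x := (g.cl g.hx).2.1 _ (g.spl.mem b)
  have hE := (g.ec b).eig
  have hDD : Matrix.diagonal (d b) * Matrix.diagonal (fun k => (d b k)⁻¹) = 1 := by
    rw [Matrix.diagonal_mul_diagonal, ← Matrix.diagonal_one]
    congr 1
    ext k
    exact mul_inv_cancel₀ ((g.ec b).ne k)
  have h1 : x' * U b = U b * Matrix.diagonal (fun k => (d b k)⁻¹) := by
    calc x' * U b = x' * (U b * (Matrix.diagonal (d b) * Matrix.diagonal (fun k => (d b k)⁻¹))) := by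
          rw [hDD, Matrix.mul_one]
      _ = x' * ((U b * Matrix.diagonal (d b)) * Matrix.diagonal (fun k => (d b k)⁻¹)) := by
          rw [Matrix.mul_assoc]
      _ = (x' * x) * U b * Matrix.diagonal (fun k => (d b k)⁻¹) := by
          rw [← hE]
          simp only [Matrix.mul_assoc]
      _ = _ := by rw [hx1, Matrix.one_mul]
  have h2 : V b * x = Matrix.diagonal (d b) * V b := by
    have h3 := Pool.Agent.H76U.cmp_Q hUV hVU hxe
    rw [Pool.Agent.H76P.cmp_phi hVU (g.ec b)] at h3
    exact h3.symm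
  have h3 : V b * (x * A * x') * U b =
      Matrix.diagonal (d b) * (V b * A * U b) * Matrix.diagonal (fun k => (d b k)⁻¹) := by
    calc V b * (x * A * x') * U b = (V b * x) * A * (x' * U b) := by simp only [Matrix.mul_assoc]
      _ = _ := by
          rw [h1, h2]
          simp only [Matrix.mul_assoc]
  rw [pb_apply, pb_apply, h3, map_mul, map_mul, Pool.Agent.H76P.phi_diag, Pool.Agent.H76P.phi_diag]

end Sit

end Pool.Agent.H34Z
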