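import Pool.Agent.Lib.H34Z.M04
import Pool.Agent.Lib.H34Z.A14

/-!
# M05: different blocks are independent
-/

set_option autoImplicit false
set_option linter.unusedSectionVars false
namespace Pool.Agent.H34Z
open Module Matrix Pool.Agent.H53Toric Pool.Agent.H76P
open Pool.Agent.H76U (cmp preL Lb Split4)
open Pool.Agent.H76Y (LcN)
open Pool.Agent.H76RM (zar_commute zlie_commute)

variable {ι : Type*} [Fintype ι] [DecidableEq ι] {K : Type*} [Field K] [CharZero K] [IsAlgClosed K]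
  {J u : Matrix ι ι K} {DD : Submodule K (Matrix ι ι K)} {S 𝓗 : Set (Matrix ι ι K)} {x : Matrix ι ι K}
  {B : Type*} [Fintype B] [DecidableEq B] {bar : B → B} {e : B → Matrix ι ι K} {n : B → ℕ}
  {U : ∀ b, Matrix ι (Fin (n b)) K} {V : ∀ b, Matrix (Fin (n b)) ι K} {d : ∀ b, Fin (n b) → K}

namespace Sit
variable (g : Sit J u DD S 𝓗 x bar e n U V d)
include g

/-- A matrix which commutes with all projectors is in `DD`.  PROOF. It commutes with `1 + (t-1) h`, so with the closure (`zar_commute`; first with the monoid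
`Submonoid.closure (par 𝓗)` by closure induction), so with `S` (`g.gen`); `g.commt`. -/
theorem mem_DD {Z : Matrix ι ι K} (hZ : ∀ h ∈ 𝓗, Z * h = h * Z) : Z ∈ DD := by
  refine g.commt Z fun s hs => ?_
  have key : ∀ y ∈ (Submonoid.closure (par 𝓗) : Set (Matrix ι ι K)), y * Z = Z * y := by
    intro y hy
    refine Submonoid.closure_induction (motive := fun y _ => y * Z = Z * y) ?_ ?_ ?_ hy
    · rintro _ ⟨h, hh, t, ht, rfl⟩
      rw [add_mul, mul_add, one_mul, mul_one, smul_mul_assoc, mul_smul_comm, hZ h hh]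
    · rw [one_mul, mul_one]
    · intro a c _ _ ha hc
      rw [mul_assoc, hc, ← mul_assoc, ha, mul_assoc]
  exact (zar_commute key (g.gen hs)).symm

private theorem m05_bij (b : B) {c : B} {T : (Fin (n b) → K) →ₗ[K] (Fin (n c) → K)} (hb : Function.Bijective T)
    (h0 : ∀ v, T v = 0) : False := by
  have h1 : (fun _ => 1 : Fin (n b) → K) = 0 := hb.1 (by rw [h0, h0])
  exact one_ne_zero (congrFun h1 ⟨0, g.pos b⟩)

/-- PROOF. Let `M` be the matrix of `T` (`LinearMap.toMatrix' T`, `T v = M *ᵥ v`), `Z = U c * M * V b`.  For `h ∈ 𝓗`, `y = 2h-1`: `hT` with `y_pair` says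
`M * (V b * y * U b) = (V c * y * U c) * M`, so `M * (V b * h * U b) = (V c * h * U c) * M`.  `Z * h = U c * M * (V b * h * U b) * V b` (`V b * h = V b * e b * h = V b * h * e b`) and
`h * Z = U c * (V c * h * U c) * M * V b` (`h * U c = e c * h * U c`), so `Z h = h Z`, `Z ∈ DD` (`mem_DD`).  `e c * Z * e b = Z` (`eU`, `Ve`), and `e c * Z * e b = 0` by
`g.spl.orth c b`.  So `M = V c * Z * U b = 0`, but `T` is bijective and `Fin (n b)` is not empty. -/
theorem no_iso {b c : B} (hbc : c ≠ b) (hgr : ∀ A ∈ brk J S, pb (U b) (V b) A = 0 ↔ pb (U c) (V c) A = 0)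
    {T : (Fin (n b) → K) →ₗ[K] (Fin (n c) → K)} (hb : Function.Bijective T)
    (hT : ∀ p ∈ pr2 J S (U b) (V b) (U c) (V c), ∀ v, T (p.1 v) = p.2 (T v)) : False := by
  have hM : ∀ v, T v = (LinearMap.toMatrix' T) *ᵥ v := fun v => by
    rw [← Matrix.toLin'_apply, Matrix.toLin'_toMatrix']
  generalize LinearMap.toMatrix' T = M at hM
  have hcomm : ∀ h ∈ 𝓗, M * (V b * h * U b) = V c * h * U c * M := by
    intro h hh
    have h1 := hT _ (g.y_pair hgr hh)
    have h2 : M * (V b * ((2 : K) • h - 1) * U b) = V c * ((2 : K) • h - 1) * U c * M := by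
      refine Matrix.toLin'.injective (LinearMap.ext fun v => ?_)
      have h3 := h1 v
      simp only [pb_apply, phi_apply, hM] at h3
      rw [Matrix.toLin'_apply, Matrix.toLin'_apply, ← Matrix.mulVec_mulVec v M, h3, Matrix.mulVec_mulVec]
    rw [Matrix.mul_sub, Matrix.sub_mul, Matrix.mul_smul, Matrix.smul_mul, Matrix.mul_one, g.VU b, Matrix.mul_sub, Matrix.mul_smul, Matrix.mul_one,
      Matrix.mul_sub, Matrix.sub_mul, Matrix.sub_mul, Matrix.mul_smul, Matrix.smul_mul, Matrix.smul_mul, Matrix.mul_one, g.VU c, Matrix.one_mul] at h2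
    exact smul_right_injective _ (two_ne_zero (α := K)) (sub_left_injective h2)
  have hZ : U c * M * V b ∈ DD := by
    refine g.mem_DD fun h hh => ?_
    have h1 : V b * h = V b * h * U b * V b := by
      have h3 := g.zD (g.hz h hh) (g.spl.mem b)
      calc V b * h = V b * e b * h := by rw [g.Ve b]
        _ = V b * (e b * h) := by rw [Matrix.mul_assoc]
        _ = V b * (h * (U b * V b)) := by rw [← h3, g.UV b]
        _ = V b * h * U b * V b := by simp only [Matrix.mul_assoc]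
    have h2 : h * U c = U c * (V c * h * U c) := by
      have h3 := g.zD (g.hz h hh) (g.spl.mem c)
      calc h * U c = h * (e c * U c) := by rw [g.eU c]
        _ = h * e c * U c := by rw [Matrix.mul_assoc]
        _ = U c * V c * h * U c := by rw [h3, g.UV c]
        _ = U c * (V c * h * U c) := by simp only [Matrix.mul_assoc]
    calc U c * M * V b * h = U c * M * (V b * h) := by rw [Matrix.mul_assoc]
      _ = U c * M * (V b * h * U b * V b) := by rw [← h1]
      _ = U c * (M * (V b * h * U b)) * V b := by simp only [Matrix.mul_assoc]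
      _ = U c * (V c * h * U c * M) * V b := by rw [hcomm h hh]
      _ = U c * (V c * h * U c) * M * V b := by simp only [Matrix.mul_assoc]
      _ = h * U c * M * V b := by rw [← h2]
      _ = h * (U c * M * V b) := by simp only [Matrix.mul_assoc]
  have h0 := g.spl.orth c b hbc _ hZ
  have h1 : e c * (U c * M * V b) * e b = U c * M * V b := by
    calc e c * (U c * M * V b) * e b = e c * U c * M * (V b * e b) := by simp only [Matrix.mul_assoc]
      _ = U c * M * V b := by rw [g.eU c, g.Ve b]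
  rw [h1] at h0
  have h2 : M = 0 := by
    calc M = V c * U c * M * (V b * U b) := by rw [g.VU c, g.VU b, Matrix.one_mul, Matrix.mul_one]
      _ = V c * (U c * M * V b) * U b := by simp only [Matrix.mul_assoc]
      _ = 0 := by rw [h0, Matrix.mul_zero, Matrix.zero_mul]
  exact g.m05_bij b hb (fun v => by rw [hM, h2, Matrix.zero_mulVec])

/-- PROOF. Let `M` be the matrix of `T`, `Z = U c * M * (U b)ᵀ * (J * u)`.  For `h ∈ 𝓗`, `y = 2h-1`: `hT` with `y_pair` and `adjE 1 (phi A) = phi Aᵀ` says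
`M * (V b * y * U b)ᵀ = -(V c * y * U c) * M`.  `yᵀ * (J*u) = -(J*u) * y` (`yskew`), so
`(U b)ᵀ * (J*u) * y = -(y * U b)ᵀ * (J*u) = -(U b * (V b * y * U b))ᵀ * (J*u) = -(V b * y * U b)ᵀ * (U b)ᵀ * (J*u)`, and
`Z * y = -U c * M * (V b * y * U b)ᵀ * (U b)ᵀ * (J*u) = U c * (V c * y * U c) * M * (U b)ᵀ * (J*u) = y * Z`.  So `Z` commutes with `h`, `Z ∈ DD`.
`(U b)ᵀ * (J*u) * e (bar b) = (U b)ᵀ * (e b)ᵀ * (J*u) = (e b * U b)ᵀ * (J*u) = (U b)ᵀ * (J*u)` (`g.spl.adj`), so `Z = e c * Z * e (bar b) = 0` by `g.spl.orth c (bar b)`.  Multiply with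
`V c` from the left and `(J*u)⁻¹ * (V b)ᵀ` from the right: `M * (V b * U b)ᵀ = M = 0`, contradiction. -/
theorem no_dual {b c : B} (hbc : c ≠ bar b) (hgr : ∀ A ∈ brk J S, pb (U b) (V b) A = 0 ↔ pb (U c) (V c) A = 0)
    {T : (Fin (n b) → K) →ₗ[K] (Fin (n c) → K)} (hb : Function.Bijective T)
    (hT : ∀ p ∈ pr2 J S (U b) (V b) (U c) (V c), ∀ v, T (adjE (1 : Matrix (Fin (n b)) (Fin (n b)) K) p.1 v) = -p.2 (T v)) :
    False := by
  have hM : ∀ v, T v = (LinearMap.toMatrix' T) *ᵥ v := fun v => by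
    rw [← Matrix.toLin'_apply, Matrix.toLin'_toMatrix']
  generalize LinearMap.toMatrix' T = M at hM
  have hcomm : ∀ h ∈ 𝓗, M * (V b * ((2 : K) • h - 1) * U b)ᵀ = -(V c * ((2 : K) • h - 1) * U c * M) := by
    intro h hh
    have h1 := hT _ (g.y_pair hgr hh)
    refine Matrix.toLin'.injective (LinearMap.ext fun v => ?_)
    have h3 := h1 v
    simp only [pb_apply, adjE_phi, phi_apply, hM, inv_one, Matrix.one_mul, Matrix.mul_one] at h3
    rw [Matrix.toLin'_apply, Matrix.toLin'_apply, ← Matrix.mulVec_mulVec v M, Matrix.neg_mulVec, h3, Matrix.mulVec_mulVec]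
  have hcommy : ∀ h ∈ 𝓗, U c * M * (U b)ᵀ * (J * u) * ((2 : K) • h - 1) = ((2 : K) • h - 1) * (U c * M * (U b)ᵀ * (J * u)) := by
    intro h hh
    generalize hy : (2 : K) • h - 1 = y
    have hcy : ∀ a, y * e a = e a * y := fun a => by
      rw [← hy, sub_mul, mul_sub, one_mul, mul_one, smul_mul_assoc, mul_smul_comm, g.zD (g.hz h hh) (g.spl.mem a)]
    have hyU : ∀ a, y * U a = U a * (V a * y * U a) := fun a => by
      calc y * U a = y * (e a * U a) := by rw [g.eU a]
        _ = y * e a * U a := by rw [Matrix.mul_assoc]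
        _ = U a * V a * y * U a := by rw [hcy a, g.UV a]
        _ = U a * (V a * y * U a) := by simp only [Matrix.mul_assoc]
    have h1 := g.yskew hh
    have h2 := hcomm h hh
    rw [hy] at h1 h2
    have h3 : J * u * y = -(yᵀ * (J * u)) := (neg_eq_of_add_eq_zero_right h1).symm
    have h4 : (U b)ᵀ * (J * u) * y = -((V b * y * U b)ᵀ * (U b)ᵀ * (J * u)) := by
      rw [Matrix.mul_assoc, h3, Matrix.mul_neg, ← Matrix.mul_assoc, ← Matrix.transpose_mul, hyU b, Matrix.transpose_mul]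
    calc U c * M * (U b)ᵀ * (J * u) * y = U c * M * ((U b)ᵀ * (J * u) * y) := by simp only [Matrix.mul_assoc]
      _ = -(U c * (M * (V b * y * U b)ᵀ) * ((U b)ᵀ * (J * u))) := by rw [h4, Matrix.mul_neg]; simp only [Matrix.mul_assoc]
      _ = U c * (V c * y * U c) * (M * ((U b)ᵀ * (J * u))) := by
        rw [h2, Matrix.mul_neg, Matrix.neg_mul, neg_neg]; simp only [Matrix.mul_assoc]
      _ = y * (U c * M * (U b)ᵀ * (J * u)) := by rw [← hyU c]; simp only [Matrix.mul_assoc]
  have hZ : U c * M * (U b)ᵀ * (J * u) ∈ DD := by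
    refine g.mem_DD fun h hh => ?_
    have h1 := hcommy h hh
    rw [mul_sub, sub_mul, mul_one, one_mul, mul_smul_comm, smul_mul_assoc] at h1
    exact smul_right_injective _ (two_ne_zero (α := K)) (sub_left_injective h1)
  have h0 := g.spl.orth c (bar b) hbc _ hZ
  have h3 : (U b)ᵀ * (J * u) * e (bar b) = (U b)ᵀ * (J * u) := by
    rw [Matrix.mul_assoc, ← g.spl.adj b, ← Matrix.mul_assoc, ← Matrix.transpose_mul, g.eU b]
  have h1 : e c * (U c * M * (U b)ᵀ * (J * u)) * e (bar b) = U c * M * (U b)ᵀ * (J * u) := by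
    calc e c * (U c * M * (U b)ᵀ * (J * u)) * e (bar b) = e c * U c * M * ((U b)ᵀ * (J * u) * e (bar b)) := by simp only [Matrix.mul_assoc]
      _ = U c * M * (U b)ᵀ * (J * u) := by rw [h3, g.eU c]; simp only [Matrix.mul_assoc]
  rw [h1] at h0
  have h2 : M = 0 := by
    calc M = V c * U c * M * (V b * U b)ᵀ := by rw [g.VU c, g.VU b, Matrix.transpose_one, Matrix.one_mul, Matrix.mul_one]
      _ = V c * (U c * M * (U b)ᵀ * (J * u)) * (J * u)⁻¹ * (V b)ᵀ := by
        have h5 : (J * u) * (J * u)⁻¹ = 1 := Matrix.mul_nonsing_inv _ g.det'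
        rw [Matrix.transpose_mul]
        calc V c * U c * M * ((U b)ᵀ * (V b)ᵀ) = V c * U c * M * (U b)ᵀ * (1 : Matrix ι ι K) * (V b)ᵀ := by rw [Matrix.mul_one]; simp only [Matrix.mul_assoc]
          _ = V c * U c * M * (U b)ᵀ * ((J * u) * (J * u)⁻¹) * (V b)ᵀ := by rw [h5]
          _ = _ := by simp only [Matrix.mul_assoc]
      _ = 0 := by rw [h0, Matrix.mul_zero, Matrix.zero_mul, Matrix.zero_mul]
  exact g.m05_bij b hb (fun v => by rw [hM, h2, Matrix.zero_mulVec])

/-- PROOF. `two b c`; the second alternative is impossible by `gr`, `Gr.iso` (A14, `g.full`, `g.irr`), `no_iso`, `no_dual`. -/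
theorem pair {b c : B} (hbc : c ≠ b) (hbc' : c ≠ bar b) {X : Module.End K (Fin (n b) → K)}
    (hX : X ∈ LcN J S (U b) (V b)) : ∃ A ∈ brk J S, pb (U b) (V b) A = X ∧ pb (U c) (V c) A = 0 := by
  rcases g.two b c with h1 | h1
  · exact h1 X hX
  · exfalso
    obtain ⟨ε, ε', G⟩ := g.gr h1
    have hne : Nonempty (Fin (n c)) := ⟨⟨0, g.pos c⟩⟩
    rcases G.iso (g.full b) (g.full c) (g.irr b) (g.irr c) with ⟨T, hT, hT2⟩ | ⟨T, hT, hT2⟩
    · exact g.no_iso hbc h1 hT hT2
    · exact g.no_dual hbc' h1 hT hT2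

/-- PROOF. `ribet` (R01) for `𝔤 = brk J S`, `p = pb (U b) (V b)`, `q c = pb (U c) (V c)`, `T = Finset.univ.filter (fun c => c ≠ b ∧ c ≠ bar b)`; `pb_brk`, `FB.perfect`, `pair`. -/
theorem indep (b : B) {X : Module.End K (Fin (n b) → K)} (hX : X ∈ LcN J S (U b) (V b)) :
    ∃ A ∈ brk J S, pb (U b) (V b) A = X ∧ ∀ c, c ≠ b → c ≠ bar b → pb (U c) (V c) A = 0 := by
  have hne : Nonempty (Fin (n b)) := ⟨⟨0, g.pos b⟩⟩
  obtain ⟨h, hh, hx⟩ := g.hh
  obtain ⟨ε, hε, hε1⟩ := g.y_diag b hh hx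
  have hεL : dg ε ∈ LcN J S (U b) (V b) := by
    rw [← hε]
    exact (g.y_mem b hh).1
  have h1 := ribet (𝔤 := brk J S) (fun A hA A' hA' => brk_ad (brk_pre hA) (brk_pre hA')) (p := pb (U b) (V b))
    (fun A hA A' hA' => g.pb_bracket b (brk_pre hA) (brk_pre hA')) (q := fun c => pb (U c) (V c))
    (fun c A hA A' hA' => g.pb_bracket c (brk_pre hA) (brk_pre hA')) (g.pb_brk b) (FB.perfect (g.full b) hεL hε1)
    (Finset.univ.filter fun c => c ≠ b ∧ c ≠ bar b) (fun c hc Y hY => by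
      rw [Finset.mem_filter] at hc
      exact g.pair hc.2.1 hc.2.2 hY) X hX
  obtain ⟨A, hA, hAX, hA0⟩ := h1
  exact ⟨A, hA, hAX, fun c hc hc' => hA0 c (Finset.mem_filter.2 ⟨Finset.mem_univ _, hc, hc'⟩)⟩

end Sit

end Pool.Agent.H34Z
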