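import Pool.Agent.Lib.H34Z.D0
import Pool.Agent.Lib.H76Y.G4

/-!
# MD: the situation at one prime
-/

set_option autoImplicit false
set_option linter.unusedSectionVars false
namespace Pool.Agent.H34Z
open Module Matrix Pool.Agent.H53Toric Pool.Agent.H76P
open Pool.Agent.H76U (cmp preL Lb Split4)
open Pool.Agent.H76Y (LcN)

section
variable {ι : Type*} [Fintype ι] [DecidableEq ι] {K : Type*} [Field K]

/-- The set of the matrices `t ^ h`. -/
def par (𝓗 : Set (Matrix ι ι K)) : Set (Matrix ι ι K) := {m | ∃ h ∈ 𝓗, ∃ t : K, t ≠ 0 ∧ m = 1 + (t - 1) • h}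

/-- The situation at one prime, for the image `S` of one subgroup of finite index: `J` is the form, `u` a unit of `DD` such that the
adjoint of `e b` for the form `J * u` is `e (bar b)`; `𝓗` the projectors; `x` a product of elements `t ^ h`; the columns of `U b` are
eigenvectors of `x`; all components of the Lie algebra are full. -/
structure Sit (J u : Matrix ι ι K) (DD : Submodule K (Matrix ι ι K)) (S 𝓗 : Set (Matrix ι ι K)) (x : Matrix ι ι K)
    {B : Type*} [Fintype B] [DecidableEq B] (bar : B → B) (e : B → Matrix ι ι K) (n : B → ℕ)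
    (U : ∀ b, Matrix ι (Fin (n b)) K) (V : ∀ b, Matrix (Fin (n b)) ι K) (d : ∀ b, Fin (n b) → K) : Prop where
  one : (1 : Matrix ι ι K) ∈ S
  mul : ∀ a ∈ S, ∀ b ∈ S, a * b ∈ S
  SD : ∀ s ∈ S, ∀ y ∈ DD, s * y = y * s
  commt : ∀ y : Matrix ι ι K, (∀ s ∈ S, y * s = s * y) → y ∈ DD
  hi : ∀ h ∈ 𝓗, h * h = h
  hs : ∀ h ∈ 𝓗, hᵀ * J + J * h = J
  hz : ∀ h ∈ 𝓗, h ∈ zlie S
  gen : S ⊆ zar (Submonoid.closure (par 𝓗) : Set (Matrix ι ι K))
  spl : Split4 (J * u) DD bar e
  hu : u ∈ DD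
  hJ : IsUnit J.det
  hu0 : IsUnit u.det
  UV : ∀ b, e b = U b * V b
  VU : ∀ b, V b * U b = 1
  pos : ∀ b, 0 < n b
  ec : ∀ b, EC x (U b) (d b)
  hx : x ∈ Submonoid.closure (par 𝓗)
  hh : ∃ h ∈ 𝓗, h * x = x * h
  bal : ∀ h ∈ 𝓗, ∀ b, 2 * (h * e b).rank = n b
  irr : ∀ b, Irr (LcN J S (U b) (V b))
  full : ∀ b, FB (bar b = b) (LcN J S (U b) (V b)) ((U b)ᵀ * (J * u) * U b)

/-- The span of the brackets of the infinitesimal similitudes in the Lie algebra. -/
def brk (J : Matrix ι ι K) (S : Set (Matrix ι ι K)) : Submodule K (Matrix ι ι K) :=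
  Submodule.span K {C | ∃ A ∈ preL J S, ∃ A' ∈ preL J S, C = A * A' - A' * A}

/-- The block of a matrix, as an operator. -/
noncomputable def pb {n : ℕ} (U : Matrix ι (Fin n) K) (V : Matrix (Fin n) ι K) :
    Matrix ι ι K →ₗ[K] Module.End K (Fin n → K) :=
  (phi (ι := Fin n) (K := K)).toLinearMap ∘ₗ cmp U V

theorem pb_apply {n : ℕ} (U : Matrix ι (Fin n) K) (V : Matrix (Fin n) ι K) (A : Matrix ι ι K) :
    pb U V A = phi (V * A * U) := rfl

end

end Pool.Agent.H34Z
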